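import Pool.Agent.Lib_MP_f5471b_j.LS

/-!
# MP_f5471b_nt: the uniform lower bound in terms of the `j`-invariant
-/

namespace LangForms

open Height NumberField WeierstrassCurve Topology Filter

theorem JCond.mono {F : Type} [Field F] [NumberField F] {j : F} {s : ℕ} {σ σ' : ℝ} (h : σ ≤ σ')
    (hj : JCond j s σ) : JCond j s σ' := by
  obtain ⟨T, hT, h1⟩ := hj
  refine ⟨T, hT, h1.trans (mul_le_mul_of_nonneg_right h ?_)⟩
  have hA : 0 ≤ ∑ v : InfinitePlace F, v.mult * Real.posLog (v j) :=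
    Finset.sum_nonneg fun v _ => mul_nonneg (Nat.cast_nonneg _) Real.posLog_nonneg
  have hT0 : 0 ≤ ∑ v ∈ T, Real.posLog (v j) := Finset.sum_nonneg fun v _ => Real.posLog_nonneg
  have hb : 0 ≤ ∑ᶠ v : {v : FinitePlace F // 1 < v j}, Real.log (plNorm v.1) :=
    finsum_nonneg fun v => (log_plNorm_pos v.1).le
  linarith

theorem TCond.mono {F : Type} [Field F] [NumberField F] {t : F} (ht : t ≠ 0) {s : ℕ} {σ σ' : ℝ}
    (h : σ ≤ σ') (hj : TCond t s σ) : TCond t s σ' := by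
  obtain ⟨T, Tf, hT, hTT, hTf, h1⟩ := hj
  refine ⟨T, Tf, hT, hTT, hTf, h1.trans (mul_le_mul_of_nonneg_right h ?_)⟩
  have hvt : ∀ v : FinitePlace F, 0 < v t := fun v => by
    rw [FinitePlace.pos_iff]; exact ht
  have hA : 0 ≤ ∑ v : InfinitePlace F, v.mult * Real.posLog (v t)⁻¹ :=
    Finset.sum_nonneg fun v _ => mul_nonneg (Nat.cast_nonneg _) Real.posLog_nonneg
  have hT0 : 0 ≤ ∑ v ∈ T, Lt v.1 t := Finset.sum_nonneg fun v hv =>
    neg_nonneg.2 (Real.log_nonpos (hvt v).le ((hTf v).1 (hTT hv)).le)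
  have hb : 0 ≤ ∑ v ∈ Tf, Real.log (plNorm v) :=
    Finset.sum_nonneg fun v _ => (log_plNorm_pos v).le
  linarith

theorem logHeight₁_base {K F : Type} [Field K] [NumberField K] [Field F] [NumberField F]
    [Algebra K F] (x : K) :
    logHeight₁ (algebraMap K F x) = Module.finrank K F * logHeight₁ x := by
  rw [logHeight₁_eq_logHeight, logHeight₁_eq_logHeight, ← logHeight_baseChange]
  congr 1
  ext i
  fin_cases i <;> simp

theorem jcond_base {K F : Type} [Field K] [NumberField K] [Field F] [NumberField F]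
    [Algebra K F] (j : K) (s : ℕ) (σ : ℝ) (hσ : 0 ≤ σ) (h : JCond j s σ) (D : ℕ)
    (hD : Module.finrank K F ≤ D) : JCond (algebraMap K F j) (D * s) (σ * D) := by
  obtain ⟨T, hT, h1⟩ := h
  obtain ⟨T', hT', h2⟩ := posLog_above (F := F) T
  refine ⟨T', hT'.trans (Nat.mul_le_mul hD hT), ?_⟩
  rw [logHeight₁_base, h2, posLog_infinite]
  have h3 := rad_le (F := F) j
  obtain ⟨f, hf⟩ : ∃ f : ℝ, f = Module.finrank K F := ⟨_, rfl⟩
  have hfD : f ≤ D := by rw [hf]; exact_mod_cast hD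
  have hf1 : 1 ≤ f := by
    rw [hf]
    exact_mod_cast Nat.succ_le_of_lt Module.finrank_pos
  rw [← hf]
  have hA : 0 ≤ ∑ v : InfinitePlace K, v.mult * Real.posLog (v j) :=
    Finset.sum_nonneg fun v _ => mul_nonneg (Nat.cast_nonneg _) Real.posLog_nonneg
  have hT0 : 0 ≤ ∑ v ∈ T, Real.posLog (v j) := Finset.sum_nonneg fun v _ => Real.posLog_nonneg
  have hb : 0 ≤ ∑ᶠ v : {v : FinitePlace K // 1 < v j}, Real.log (plNorm v.1) :=
    finsum_nonneg fun v => (log_plNorm_pos v.1).le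
  obtain ⟨A, hAd⟩ : ∃ A, A = ∑ v : InfinitePlace K, v.mult * Real.posLog (v j) := ⟨_, rfl⟩
  obtain ⟨B, hBd⟩ : ∃ B, B = ∑ v ∈ T, Real.posLog (v j) := ⟨_, rfl⟩
  obtain ⟨b, hbd⟩ : ∃ b, b = ∑ᶠ v : {v : FinitePlace K // 1 < v j}, Real.log (plNorm v.1) :=
    ⟨_, rfl⟩
  obtain ⟨b', hbd'⟩ : ∃ b', b' = ∑ᶠ w : {w : FinitePlace F // 1 < w (algebraMap K F j)},
    Real.log (plNorm w.1) := ⟨_, rfl⟩
  rw [← hAd, ← hBd, ← hbd] at h1
  rw [← hbd, ← hbd'] at h3
  rw [← hAd] at hA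
  rw [← hBd] at hT0
  rw [← hbd] at hb
  rw [← hAd, ← hBd, ← hbd']
  have hD0 : (0 : ℝ) ≤ D := Nat.cast_nonneg _
  have e1 : f * (1 + A + B + b) ≤ D * (1 + f * A + f * B + b') := by
    have e2 : f * b ≤ D * b' := mul_le_mul hfD h3 hb hD0
    have e3 : f * A ≤ D * (f * A) := by
      have : 0 ≤ f * A := by positivity
      nlinarith
    have e4 : f * B ≤ D * (f * B) := by
      have : 0 ≤ f * B := by positivity
      nlinarith
    linarith
  calc f * logHeight₁ j ≤ f * (σ * (1 + A + B + b)) :=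
        mul_le_mul_of_nonneg_left h1 (by linarith)
    _ = σ * (f * (1 + A + B + b)) := by ring
    _ ≤ σ * (D * (1 + f * A + f * B + b')) := mul_le_mul_of_nonneg_left e1 hσ
    _ = σ * D * (1 + f * A + f * B + b') := by ring

theorem hJ_nonneg {K : Type} [Field K] [NumberField K] (W : WeierstrassCurve K) [W.IsElliptic] :
    0 ≤ hJ W := by
  have := zero_le_logHeight₁ W.j
  simp only [hJ]
  positivity

theorem canX_hx_nsmul {F : Type} [Field F] [NumberField F] [DecidableEq F]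
    {W : WeierstrassCurve F} [W.IsElliptic] (k : ℕ) (Q : W.toAffine.Point) :
    canX hx (k • Q) = (k : ℝ) ^ 2 * canX hx Q := by
  obtain ⟨C, hC, h⟩ := approx_par
  exact q_nsmul (X := W.toAffine.Point) (canX hx) (canX_par hx _ (h F W)) k Q

theorem canX_eq_nt {F : Type} [Field F] [NumberField F] [DecidableEq F]
    {W : WeierstrassCurve F} (Q : W.toAffine.Point) :
    canX hx Q = 2 * Module.finrank ℚ F * nt Q := by
  have hd : (0 : ℝ) < Module.finrank ℚ F := by exact_mod_cast Module.finrank_pos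
  simp only [nt]
  field_simp

theorem ls_W (K : Type) [Field K] [NumberField K] (D s : ℕ) (hD : 1 ≤ D) (σ : ℝ) :
    ∃ n₀ : ℕ, 1 ≤ n₀ ∧ ∃ c : ℝ, 0 < c ∧ ∀ (W : WeierstrassCurve K) [W.IsElliptic],
    hW W ≤ σ * (1 + hJ W) → JCond W.j s σ →
    ∀ (F : Type) [Field F] [NumberField F] [DecidableEq F] [Algebra K F],
      Module.finrank K F ≤ D → ∀ Q : (W.baseChange F).toAffine.Point,
        n₀ • Q = 0 ∨ c * (1 + hJ W) ≤ nt Q := by
  classical
  obtain ⟨σ₁, hσ₁⟩ : ∃ σ₁, σ₁ = max σ 1 := ⟨_, rfl⟩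
  have hσ1 : 1 ≤ σ₁ := by rw [hσ₁]; exact le_max_right _ _
  have hσσ : σ ≤ σ₁ := by rw [hσ₁]; exact le_max_left _ _
  obtain ⟨n, hn⟩ : ∃ n : ℕ, n = Module.finrank ℚ K := ⟨_, rfl⟩
  have hn1 : 1 ≤ n := by rw [hn]; exact Nat.succ_le_of_lt Module.finrank_pos
  obtain ⟨d, hd⟩ : ∃ d : ℕ, d = n * D := ⟨_, rfl⟩
  have hd1 : 1 ≤ d := by rw [hd]; exact Nat.mul_pos (by omega) (by omega)
  have hdpos : (0 : ℝ) < d := by exact_mod_cast (by omega : 0 < d)
  obtain ⟨C₂, hC₂, htc⟩ := tcond_of_jcond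
  obtain ⟨C₃, hC₃, hcomp⟩ := logHeight₁_t_comp
  obtain ⟨σ₂, hσ₂⟩ : ∃ σ₂ : ℝ, σ₂ = C₂ * d * (1 + σ₁ * D) := ⟨_, rfl⟩
  obtain ⟨k₀, c₀, H₀, hk₀, hc₀, hls⟩ := ls_abs d (D * s) σ₂
  obtain ⟨B, hB⟩ : ∃ B : ℝ, B = max (max H₀ 1 + C₃ * d)
      (max (logHeight₁ (0 : K) / n) (logHeight₁ (1728 : K) / n)) := ⟨_, rfl⟩
  have hB0 : 0 ≤ B := by
    have h1 : (0 : ℝ) ≤ max H₀ 1 := zero_le_one.trans (le_max_right _ _)
    have h2 : 0 ≤ max H₀ 1 + C₃ * d := by positivity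
    rw [hB]
    exact h2.trans (le_max_left _ _)
  obtain ⟨n₁, hn₁, lam, hlam, hgap⟩ := torsion_gap_unif d (d * (σ₁ * (1 + B)))
  refine ⟨k₀.factorial * n₁, Nat.mul_pos (Nat.factorial_pos _) (by omega),
    min (c₀ / (2 * d * (2 + C₃ * d))) (lam / (1 + B)), lt_min (by positivity) (by positivity), ?_⟩
  intro W _ hWh hjc F _ _ _ _ hF Q
  have hjn := hJ_nonneg W
  have hnK : (0 : ℝ) < Module.finrank ℚ K := by exact_mod_cast Module.finrank_pos
  have hnF : (0 : ℝ) < Module.finrank ℚ F := by exact_mod_cast Module.finrank_pos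
  have hF1 : (1 : ℝ) ≤ Module.finrank ℚ F := by
    exact_mod_cast Nat.succ_le_of_lt Module.finrank_pos
  have hFd : Module.finrank ℚ F ≤ d := by
    rw [hd, hn, ← Module.finrank_mul_finrank ℚ K F]
    exact Nat.mul_le_mul_left _ hF
  have hFd' : (Module.finrank ℚ F : ℝ) ≤ d := by exact_mod_cast hFd
  have hmulF : (Module.finrank ℚ F : ℝ) = Module.finrank ℚ K * Module.finrank K F := by
    exact_mod_cast (Module.finrank_mul_finrank ℚ K F).symm
  -- the bounded case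
  have hbdd : hJ W ≤ B → (k₀.factorial * n₁) • Q = 0 ∨
      min (c₀ / (2 * d * (2 + C₃ * d))) (lam / (1 + B)) * (1 + hJ W) ≤ nt Q := by
    intro hle
    have h1 : hWrel (W.baseChange F) ≤ d * (σ₁ * (1 + B)) := by
      rw [hWrel_baseChange]
      have h2 : hWrel W = Module.finrank ℚ K * hW W := by
        rw [hW]; field_simp
      have h3 : hW W ≤ σ₁ * (1 + B) :=
        hWh.trans (mul_le_mul hσσ (by linarith) (by linarith) (by linarith))
      have h0 : 0 ≤ σ₁ * (1 + B) := by positivity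
      calc (Module.finrank K F : ℝ) * hWrel W = Module.finrank ℚ F * hW W := by
            rw [h2, hmulF]; ring
        _ ≤ Module.finrank ℚ F * (σ₁ * (1 + B)) := mul_le_mul_of_nonneg_left h3 hnF.le
        _ ≤ d * (σ₁ * (1 + B)) := mul_le_mul_of_nonneg_right hFd' h0
    rcases hgap F hFd (W.baseChange F) h1 Q with h | h
    · left
      rw [mul_smul, h, smul_zero]
    · right
      refine le_trans ?_ h
      calc min (c₀ / (2 * d * (2 + C₃ * d))) (lam / (1 + B)) * (1 + hJ W) ≤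
          lam / (1 + B) * (1 + B) :=
            mul_le_mul (min_le_right _ _) (by linarith) (by linarith) (by positivity)
        _ = lam := by field_simp
  by_cases hj0 : W.j = 0
  · apply hbdd
    rw [hJ, hj0, hB, hn]
    exact (le_max_left _ _).trans (le_max_right _ _)
  by_cases hj1 : W.j = 1728
  · apply hbdd
    rw [hJ, hj1, hB, hn]
    exact (le_max_right _ _).trans (le_max_right _ _)
  have hjF : (W.baseChange F).j = algebraMap K F W.j := j_baseChange W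
  have hjF0 : (W.baseChange F).j ≠ 0 := by
    rw [hjF]
    exact fun h => hj0 ((map_eq_zero _).1 h)
  have hjF1 : (W.baseChange F).j ≠ 1728 := by
    rw [hjF]
    intro h
    apply hj1
    have h2 : algebraMap K F 1728 = 1728 := map_ofNat _ _
    exact (algebraMap K F).injective (h.trans h2.symm)
  obtain ⟨h4, h6, ht, ht0, hκ⟩ := t_eq (W.baseChange F) hjF0 hjF1
  obtain ⟨t, htd⟩ : ∃ t : F, t = (W.baseChange F).Δ / (W.baseChange F).c₆ ^ 2 := ⟨_, rfl⟩
  rw [← htd] at ht ht0 hκ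
  have hcmp := hcomp F _ hjF1
  rw [← ht] at hcmp
  have hhJ : hJ W * Module.finrank ℚ F = logHeight₁ (W.baseChange F).j := by
    rw [hjF, logHeight₁_base, hJ, hmulF]
    field_simp
  have hhJ' : hJ W ≤ logHeight₁ t + C₃ * d := by
    have h1 : hJ W ≤ hJ W * Module.finrank ℚ F := by nlinarith
    have h2 := (abs_le.1 hcmp).1
    have h3 : C₃ * Module.finrank ℚ F ≤ C₃ * d := mul_le_mul_of_nonneg_left hFd' hC₃.le
    linarith
  by_cases hH : max H₀ 1 ≤ logHeight₁ t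
  · have hJF : JCond (W.baseChange F).j (D * s) (σ₁ * D) := by
      rw [hjF]
      exact jcond_base W.j s σ₁ (by linarith) (JCond.mono hσσ hjc) D hF
    have hTC := htc F _ (D * s) (σ₁ * D) (by positivity) hjF1 hJF
    rw [← ht] at hTC
    have hTC2 : TCond t (D * s) σ₂ := by
      refine TCond.mono ht0 ?_ hTC
      rw [hσ₂]
      exact mul_le_mul_of_nonneg_right (mul_le_mul_of_nonneg_left hFd' hC₂.le) (by positivity)
    have hxm := xmap_W (W.baseChange F) h4 h6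
    rw [← htd] at hxm
    rcases hls F hFd t ht0 hκ hTC2 ((le_max_left _ _).trans hH) _ _ hxm (canX hx)
      canX_hx_nsmul (tendsto_xi (W.baseChange F) h4 h6) Q with ⟨k, hk1, hk2, hk3⟩ | h
    · left
      obtain ⟨w, hw⟩ := Nat.dvd_factorial hk1 hk2
      rw [hw, show k * w * n₁ = w * n₁ * k by ring, mul_smul, hk3, smul_zero]
    · right
      rw [canX_eq_nt] at h
      have h1 : 1 ≤ logHeight₁ t := (le_max_right _ _).trans hH
      have h2 : 1 + hJ W ≤ (2 + C₃ * d) * logHeight₁ t := by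
        have : 0 ≤ C₃ * d := by positivity
        nlinarith
      have hnt := nt_nonneg Q
      have h3 : c₀ * logHeight₁ t ≤ 2 * d * nt Q := by
        refine h.trans ?_
        gcongr
      calc min (c₀ / (2 * d * (2 + C₃ * d))) (lam / (1 + B)) * (1 + hJ W) ≤
          c₀ / (2 * d * (2 + C₃ * d)) * ((2 + C₃ * d) * logHeight₁ t) :=
            mul_le_mul (min_le_left _ _) h2 (by linarith) (by positivity)
        _ = c₀ * logHeight₁ t / (2 * d) := by
          have : 2 + C₃ * (d : ℝ) ≠ 0 := by positivity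
          field_simp
        _ ≤ nt Q := by
          rw [div_le_iff₀ (by positivity)]
          linarith
  · apply hbdd
    push Not at hH
    rw [hB]
    exact (by linarith : hJ W ≤ max H₀ 1 + C₃ * d).trans (le_max_left _ _)

theorem uniform_j (K : Type) [Field K] [NumberField K] (g : ℕ) (hg : 1 ≤ g) (s : ℕ) (σ : ℝ) :
    ∃ c₁ c₂ : ℝ, 0 < c₁ ∧ 0 < c₂ ∧ ∀ (W : WeierstrassCurve K) [W.IsElliptic],
    hW W ≤ σ * (1 + hJ W) → JCond W.j s σ →
    ∀ (F : Type) [Field F] [NumberField F] [DecidableEq F] [Algebra K F] [IsGalois K F]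
    (ρ : (F ≃ₐ[K] F) →* Matrix.GeneralLinearGroup (Fin g) ℤ), Function.Injective ρ →
    ∀ (M : Matrix (Fin g) (Fin g) ℤ), IsPol M →
    (∀ σ, (ρ σ).val.transpose * M * (ρ σ).val = M) →
    ∀ (P : Fin g → (W.baseChange F).toAffine.Point),
    (∀ σ a, ∑ b, (ρ σ).val a b • gal σ (P b) = P a) →
    Obstructed ρ M P c₂ ∨
      ((∀ n : ℕ, 1 ≤ n → n • P ≠ 0) ∧ c₁ * (1 + hJ W) ≤ ntL M P ∧
      ∀ S : Finset (Ideal (𝓞 K)),
        (∀ p ∈ S, p.IsMaximal ∧ p ≠ ⊥ ∧ ¬ Algebra.IsUnramifiedIn (𝓞 F) p) →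
        c₁ * ((∑ p ∈ S, Real.log (Ideal.absNorm p)) / Module.finrank ℚ K) ≤ ntL M P) := by
  obtain ⟨c₁, c₂, hc₁, hc₂, hT2⟩ := uniform_lower_bound K g hg
  obtain ⟨D₀, hD₀⟩ : ∃ D₀ : ℕ, D₀ = 3 ^ (g ^ 2) := ⟨_, rfl⟩
  have hD₀1 : 1 ≤ D₀ := by rw [hD₀]; exact Nat.one_le_iff_ne_zero.2 (by positivity)
  obtain ⟨C₂, hC₂, hkey⟩ := key2 g D₀ hg
  obtain ⟨n₀, hn₀, c, hc, hls⟩ := ls_W K D₀ s hD₀1 σ
  obtain ⟨σ₁, hσ₁⟩ : ∃ σ₁, σ₁ = max σ 1 := ⟨_, rfl⟩
  have hσ1 : 1 ≤ σ₁ := by rw [hσ₁]; exact le_max_right _ _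
  have hσσ : σ ≤ σ₁ := by rw [hσ₁]; exact le_max_left _ _
  obtain ⟨e, he⟩ : ∃ e : ℝ, e = (1 + c₂ * (1 + σ₁) * (C₂ / c)) / c₁ := ⟨_, rfl⟩
  have hepos : 0 < e := by rw [he]; positivity
  refine ⟨min (c / C₂) e⁻¹, max c₂ (C₂ * n₀), lt_min (by positivity) (by positivity),
    lt_of_lt_of_le hc₂ (le_max_left _ _), ?_⟩
  intro W _ hWh hjc F _ _ _ _ _ ρ hρ M hM hinv P hP
  by_cases hob : Obstructed ρ M P (max c₂ (C₂ * n₀))
  · exact Or.inl hob
  right
  have hcard : Nat.card (F ≃ₐ[K] F) ≤ D₀ := by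
    rw [hD₀]; exact card_le_of_injective ρ hρ
  have hcardF : Nat.card (F ≃ₐ[K] F) = Module.finrank K F := IsGalois.card_aut_eq_finrank K F
  rcases hkey (F ≃ₐ[K] F) hcard _ gal ρ M hM hinv P hP n₀ hn₀ with h | ⟨ℓ, hℓ, hne⟩
  · exact absurd (h.mono hM (le_max_right _ _)) hob
  have hJn := hJ_nonneg W
  have hlow : c * (1 + hJ W) ≤ nt (Phi P ℓ) := by
    rcases hls W hWh hjc F (by rw [← hcardF]; exact hcard) (Phi P ℓ) with h | h
    · exact absurd h hne
    · exact h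
  have hup : nt (Phi P ℓ) ≤ C₂ * ntL M P := nt_Phi_le M hM _ ℓ hℓ P
  obtain ⟨L, hL⟩ : ∃ L : ℝ, L = ntL M P := ⟨_, rfl⟩
  have h1 : 1 + hJ W ≤ C₂ / c * ntL M P := by
    rw [div_mul_eq_mul_div, le_div_iff₀ hc]; linarith
  have hLpos : 0 < ntL M P := by
    by_contra hcon
    have : C₂ / c * ntL M P ≤ 0 := mul_nonpos_of_nonneg_of_nonpos (by positivity) (not_lt.1 hcon)
    linarith
  refine ⟨?_, ?_, ?_⟩
  · intro n hn h0
    have h2 : n • Phi P ℓ = 0 := by
      rw [← Phi_nsmul, h0]; simp [Phi]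
    have h3 := nt_nsmul n (Phi P ℓ)
    rw [h2, nt_zero] at h3
    have h5 : (0 : ℝ) < nt (Phi P ℓ) := lt_of_lt_of_le (by positivity) hlow
    have hnpos : (0 : ℝ) < n := by exact_mod_cast hn
    have h6 : (0 : ℝ) < (n : ℝ) ^ 2 * nt (Phi P ℓ) := by positivity
    linarith
  · calc min (c / C₂) e⁻¹ * (1 + hJ W) ≤ c / C₂ * (1 + hJ W) :=
          mul_le_mul_of_nonneg_right (min_le_left _ _) (by linarith)
      _ ≤ ntL M P := by
        rw [div_mul_eq_mul_div, div_le_iff₀ hC₂]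
        linarith
  · intro S hS
    rcases hT2 W F ρ hρ M hM hinv P hP with h | h
    · exact absurd (h.mono hM (le_max_left _ _)) hob
    have hR := h S hS
    obtain ⟨R, hRdef⟩ : ∃ R : ℝ, R = (∑ p ∈ S, Real.log (Ideal.absNorm p)) / Module.finrank ℚ K :=
      ⟨_, rfl⟩
    have hR0 : 0 ≤ R := by
      rw [hRdef]
      refine div_nonneg (Finset.sum_nonneg fun p hp => ?_) (Nat.cast_nonneg _)
      exact Real.log_natCast_nonneg _
    rw [← hRdef] at hR ⊢
    rw [← hL] at hR h1 hLpos ⊢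
    have hR' : R ≤ e * L := by
      rw [he, div_mul_eq_mul_div, le_div_iff₀ hc₁]
      have h7 : 1 + hW W ≤ (1 + σ₁) * (1 + hJ W) := by
        have h9 : hW W ≤ σ₁ * (1 + hJ W) :=
          hWh.trans (mul_le_mul_of_nonneg_right hσσ (by linarith))
        linarith
      have h8 : c₂ * (1 + hW W) ≤ c₂ * ((1 + σ₁) * (C₂ / c * L)) :=
        mul_le_mul_of_nonneg_left (h7.trans (mul_le_mul_of_nonneg_left h1 (by linarith))) hc₂.le
      linarith
    calc min (c / C₂) e⁻¹ * R ≤ e⁻¹ * R := mul_le_mul_of_nonneg_right (min_le_right _ _) hR0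
      _ ≤ L := by
        rw [inv_mul_le_iff₀ hepos]
        exact hR'

end LangForms
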