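import Pool.Agent.Lib_MP_f5471b_j.Defs

/-!
# MP_f5471b_nt, part 2: `j` and base change, models of small height
-/

namespace LangForms

open Height NumberField WeierstrassCurve Topology Filter

theorem j_baseChange {K F : Type} [Field K] [Field F] [Algebra K F] (W : WeierstrassCurve K)
    [W.IsElliptic] : (W.baseChange F).j = algebraMap K F W.j :=
  W.map_j (algebraMap K F)

theorem jb_j_eq {F : Type} [Field F] (W : WeierstrassCurve F) [W.IsElliptic] :
    W.j = W.c₄ ^ 3 / W.Δ := by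
  have h : ((W.Δ'⁻¹ : Fˣ) : F) = W.Δ⁻¹ := by
    rw [Units.val_inv_eq_inv_val, coe_Δ']
  rw [WeierstrassCurve.j, h]
  ring

theorem t_eq {F : Type} [Field F] [CharZero F] (W : WeierstrassCurve F) [W.IsElliptic]
    (hj0 : W.j ≠ 0) (hj : W.j ≠ 1728) :
    W.c₄ ≠ 0 ∧ W.c₆ ≠ 0 ∧ W.Δ / W.c₆ ^ 2 = 1 / (W.j - 1728) ∧
      W.Δ / W.c₆ ^ 2 ≠ 0 ∧ 1 + 1728 * (W.Δ / W.c₆ ^ 2) ≠ 0 := by
  have hΔ : W.Δ ≠ 0 := W.isUnit_Δ.ne_zero
  have hj' := jb_j_eq W
  have hrel := W.c_relation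
  have h4 : W.c₄ ≠ 0 := by
    intro h
    apply hj0
    rw [hj', h]
    simp
  have h6 : W.c₆ ≠ 0 := by
    intro h
    apply hj
    rw [hj', div_eq_iff hΔ, hrel, h]
    ring
  have h5 : W.j - 1728 = W.c₆ ^ 2 / W.Δ := by
    rw [hj', eq_div_iff hΔ, sub_mul, div_mul_cancel₀ _ hΔ]
    linear_combination -hrel
  refine ⟨h4, h6, ?_, div_ne_zero hΔ (pow_ne_zero 2 h6), ?_⟩
  · rw [h5, one_div_div]
  · have h7 : 1 + 1728 * (W.Δ / W.c₆ ^ 2) = W.c₄ ^ 3 / W.c₆ ^ 2 := by
      rw [eq_div_iff (pow_ne_zero 2 h6), add_mul, mul_assoc, div_mul_cancel₀ _ (pow_ne_zero 2 h6)]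
      linear_combination hrel
    rw [h7]
    exact div_ne_zero (pow_ne_zero 3 h4) (pow_ne_zero 2 h6)

theorem curveT_Δ {F : Type} [Field F] (t : F) : (curveT t).Δ = t * (1 + 1728 * t) ^ 2 := by
  simp only [curveT, WeierstrassCurve.Δ, b₂, b₄, b₆, b₈]
  ring

theorem curveT_c₄ {F : Type} [Field F] (t : F) : (curveT t).c₄ = 1 + 1728 * t := by
  simp only [curveT, WeierstrassCurve.c₄, b₂, b₄]
  ring

theorem jb_height {K : Type} [Field K] [NumberField K] (t : K) :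
    hWrel (curveT t) ≤ logHeight (![1, -36, -1, 0] : Fin 4 → K) + logHeight₁ t := by
  have hx : (![1, -36, -1, 0] : Fin 4 → K) ≠ 0 := by
    intro h
    have := congrFun h 0
    simp at this
  have hy : (![t, 1] : Fin 2 → K) ≠ 0 := by
    intro h
    have := congrFun h 1
    simp at this
  rw [logHeight₁_eq_logHeight, ← logHeight_fun_mul_eq hx hy]
  have h : (![1, (curveT t).a₁, (curveT t).a₂, (curveT t).a₃, (curveT t).a₄, (curveT t).a₆] :
      Fin 6 → K) = (fun a : Fin 4 × Fin 2 => (![1, -36, -1, 0] : Fin 4 → K) a.1 *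
        (![t, 1] : Fin 2 → K) a.2) ∘
        (![(0, 1), (0, 1), (3, 1), (3, 1), (1, 0), (2, 0)] : Fin 6 → Fin 4 × Fin 2) := by
    funext i
    fin_cases i <;> simp [curveT]
  unfold hWrel
  rw [h]
  exact logHeight_comp_le _ _

/-- Every `j`-invariant has a model of small height. -/
theorem exists_model (K : Type) [Field K] [NumberField K] : ∃ C : ℝ, 0 < C ∧ ∀ j : K,
    ∃ (W : WeierstrassCurve K) (_ : W.IsElliptic), W.j = j ∧ hW W ≤ C * (1 + hJ W) := by
  have hd : (0 : ℝ) < Module.finrank ℚ K := by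
    exact_mod_cast Module.finrank_pos
  have : Fact (IsUnit (3 : K)) := ⟨by norm_num⟩
  have : Fact (IsUnit (2 : K)) := ⟨by norm_num⟩
  set A : ℝ := logHeight (![1, -36, -1, 0] : Fin 4 → K) + (totalWeight K * Real.log 2 +
    logHeight₁ (1728 : K)) with hA
  set C : ℝ := max 1 (max (hW (ofJ0 K)) (max (hW (ofJ1728 K)) (A / Module.finrank ℚ K))) with hC
  have hC1 : 1 ≤ C := le_max_left _ _
  have hC0 : hW (ofJ0 K) ≤ C := (le_max_left _ _).trans (le_max_right _ _)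
  have hC2 : hW (ofJ1728 K) ≤ C :=
    (le_max_left _ _).trans ((le_max_right _ _).trans (le_max_right _ _))
  have hC3 : A / Module.finrank ℚ K ≤ C :=
    (le_max_right _ _).trans ((le_max_right _ _).trans (le_max_right _ _))
  have hCpos : 0 < C := by linarith
  have hJ0 : ∀ (W : WeierstrassCurve K) [W.IsElliptic], 0 ≤ hJ W := fun W _ =>
    div_nonneg (zero_le_logHeight₁ _) hd.le
  refine ⟨C, hCpos, fun j => ?_⟩
  by_cases hj0 : j = 0
  · refine ⟨ofJ0 K, inferInstance, ?_, ?_⟩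
    · rw [hj0]; exact ofJ0_j K
    · nlinarith [hJ0 (ofJ0 K)]
  by_cases hj : j = 1728
  · refine ⟨ofJ1728 K, inferInstance, ?_, ?_⟩
    · rw [hj]; exact ofJ1728_j K
    · nlinarith [hJ0 (ofJ1728 K)]
  have hj' : j - 1728 ≠ 0 := sub_ne_zero.2 hj
  set t : K := (j - 1728)⁻¹ with ht
  have ht0 : t ≠ 0 := inv_ne_zero hj'
  have hκ : 1 + 1728 * t = j * t := by
    rw [ht]
    field_simp
    ring
  have hκ0 : 1 + 1728 * t ≠ 0 := by
    rw [hκ]
    exact mul_ne_zero hj0 ht0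
  have hell : (curveT t).IsElliptic := by
    rw [isElliptic_iff, curveT_Δ]
    exact (mul_ne_zero ht0 (pow_ne_zero 2 hκ0)).isUnit
  have hjt : (curveT t).j = j := by
    rw [jb_j_eq, curveT_Δ, curveT_c₄, div_eq_iff (mul_ne_zero ht0 (pow_ne_zero 2 hκ0))]
    rw [pow_succ, mul_comm, hκ]
    ring
  refine ⟨curveT t, hell, hjt, ?_⟩
  have h1 := jb_height t
  have h2 : logHeight₁ t = logHeight₁ (j - 1728) := by rw [ht, logHeight₁_inv]
  have h3 := logHeight₁_sub_le j (1728 : K)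
  have h4 : hWrel (curveT t) ≤ A + logHeight₁ j := by
    rw [hA]
    linarith
  have h5 : hJ (curveT t) = logHeight₁ j / Module.finrank ℚ K := by
    unfold hJ
    rw [hjt]
  have h6 : hW (curveT t) ≤ A / Module.finrank ℚ K + hJ (curveT t) := by
    rw [h5, ← add_div]
    unfold hW
    exact div_le_div_of_nonneg_right h4 hd.le
  nlinarith [hJ0 (curveT t)]

end LangForms
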