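import Pool.Agent.Lib_MP_f5471b_j.AddSit

/-!
# MP_f5471b_nt part 2: addition law up to a constant, both points near the node
-/

namespace LangForms
namespace AddSit

theorem real2 {K e p q a b c y z : ℝ} (hK : 1 ≤ K) (he : e * (20000 * K ^ 2) ≤ 1)
    (hpq : p ≤ q) (hq : q ^ 2 ≤ K * e) (h : Sit e p q a b c y z) : 1 ≤ 26 * K * y := by
  have he0 := h.e_pos
  have hp0 := h.p_nn
  have hq0 := h.q_nn
  have hy0 := h.y_nn
  have hK0 : 0 < K := by linarith
  have hKe : K * e * 20000 ≤ 1 := by nlinarith [mul_pos hK0 he0]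
  have heS : e * 20000 ≤ 1 := by nlinarith [mul_pos hK0 he0]
  have hq1 : q ≤ 1 / 100 := by
    by_contra hc
    push Not at hc
    nlinarith
  have hpq0 : 0 ≤ p * q := mul_nonneg hp0 hq0
  have hpq1 : p * q ≤ K * e := by nlinarith
  have t1 : (p * q) ^ 2 ≤ e / 8 := by
    have : (p * q) ^ 2 ≤ (K * e) ^ 2 := pow_le_pow_left₀ hpq0 hpq1 2
    nlinarith
  have t2 : 72 * e * (p * q) ≤ e / 8 := by
    have : e * (p * q) ≤ e * (K * e) := mul_le_mul_of_nonneg_left hpq1 he0.le
    nlinarith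
  have t3 : 4 * e * (p + q) ≤ e / 8 := by nlinarith
  have t4 : 1296 * e ^ 2 ≤ e / 8 := by nlinarith
  have hc := h.c_ge'
  have hc' : e / 2 ≤ c := by linarith
  have hb : b ≤ 9 * (K * e) := by
    have h1 := h.b_le
    have h2 : p * q * (1 + 2 * (p + q)) ≤ K * e * 2 := by
      apply mul_le_mul hpq1 (by linarith) (by linarith) (by positivity)
    have h3 : e ≤ K * e := by nlinarith
    have h4 : 72 * e * (p + q) ≤ 2 * e := by nlinarith
    linarith
  have ha : a ≤ 4 * (K * e) := by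
    have h1 := h.a_le
    nlinarith
  have hR := h.R2
  have h1 : e / 2 ≤ 9 * (K * e) * y + 4 * (K * e) * y ^ 2 := by
    have u1 : b * y ≤ 9 * (K * e) * y := mul_le_mul_of_nonneg_right hb hy0
    have u2 : a * y ^ 2 ≤ 4 * (K * e) * y ^ 2 := mul_le_mul_of_nonneg_right ha (by positivity)
    linarith
  have h2 : 1 ≤ 18 * (K * y) + 8 * K * y ^ 2 := by
    have : e * 1 ≤ e * (18 * (K * y) + 8 * K * y ^ 2) := by nlinarith
    exact le_of_mul_le_mul_left this he0
  by_contra hcon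
  push Not at hcon
  have h3 : K * y < 1 / 26 := by linarith
  have h4 : y < 1 / 26 := by nlinarith
  nlinarith [mul_nonneg hK0.le hy0]

end AddSit

open AddSit

theorem add_gen2 (K : ℝ) (hK : 1 ≤ K) : ∃ ε c : ℝ, 0 < ε ∧ ε < 1 ∧ 0 ≤ c ∧ ∀ (F : Type) [Field F]
    (v : AbsoluteValue F ℝ) (t : F), 0 < v t → v t ≤ ε →
    AddOn v t c fun p q => p ≤ q ∧ q ^ 2 ≤ K * v t := by
  have hK0 : 0 < K := by linarith
  refine ⟨1 / (20000 * K ^ 2), Real.log (26 * K), by positivity, ?_,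
    Real.log_nonneg (by linarith), ?_⟩
  · rw [div_lt_one (by positivity)]
    nlinarith
  intro F _ v t h0 ht
  have ht' : v t * (20000 * K ^ 2) ≤ 1 := by
    rwa [le_div_iff₀ (by positivity)] at ht
  have h1 : v t ≤ 1 := by nlinarith
  apply addOn_of (by linarith) (fun p q h => h.1) v t h0
  intro p q a b c y z hR hs hyz
  obtain ⟨hpq, hq⟩ := hR
  have hy := real2 hK ht' hpq hq hs
  have hz := real2 hK ht' hpq hq hs.swap
  have hy' := le_rr_of (e := v t) (by linarith : (1 : ℝ) ≤ 26 * K) le_rfl hy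
  have hz' := le_rr_of (e := v t) (by linarith : (1 : ℝ) ≤ 26 * K) le_rfl hz
  have hal1 := al_le_one h0 hpq
  have hbe1 := be_le_one h0 h1 hpq
  have hrp := rr_pos h0 p
  have hrq := rr_pos h0 q
  have hsp := sqrt_le_rr (v t) p
  have hs0 := Real.sqrt_pos.2 h0
  have hss := Real.mul_self_sqrt h0.le
  -- `rr q ≤ sqrt K * sqrt e`
  have hkk := Real.mul_self_sqrt hK0.le
  have hk1 : 1 ≤ Real.sqrt K := by rw [Real.one_le_sqrt]; exact hK
  have hqk : q ≤ Real.sqrt K * Real.sqrt (v t) := by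
    rw [← Real.sqrt_mul hK0.le]
    exact Real.le_sqrt_of_sq_le hq
  have hrqk : rr (v t) q ≤ Real.sqrt K * Real.sqrt (v t) := rr_le_of hk1 le_rfl hs0.le hqk
  have hrpk : rr (v t) p ≤ Real.sqrt K * Real.sqrt (v t) :=
    (rr_mono hpq).trans hrqk
  have hprod : rr (v t) p * rr (v t) q ≤ K * v t := by
    calc rr (v t) p * rr (v t) q
        ≤ (Real.sqrt K * Real.sqrt (v t)) * (Real.sqrt K * Real.sqrt (v t)) :=
          mul_le_mul hrpk hrqk hrq.le (by positivity)
      _ = (Real.sqrt K * Real.sqrt K) * (Real.sqrt (v t) * Real.sqrt (v t)) := by ring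
      _ = K * v t := by rw [hkk, hss]
  have hbe2 : 1 ≤ K * be (v t) p q := by
    have h2 : v t / (rr (v t) p * rr (v t) q) ≤ be (v t) p q := le_max_right _ _
    have h3 : 1 ≤ K * (v t / (rr (v t) p * rr (v t) q)) := by
      rw [← mul_div_assoc, le_div_iff₀ (mul_pos hrp hrq), one_mul]
      exact hprod
    nlinarith
  have hal2 : 1 ≤ K * al (v t) p q := by
    rw [al, ← mul_div_assoc, le_div_iff₀ hrq, one_mul]
    have h4 : Real.sqrt K ≤ K := by nlinarith
    calc rr (v t) q ≤ Real.sqrt K * Real.sqrt (v t) := hrqk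
      _ ≤ K * rr (v t) p := mul_le_mul h4 hsp hs0.le hK0.le
  have hr1 := rr_le_one h1 y
  have hr2 := rr_le_one h1 z
  have hal0 := al_pos h0 p q
  have hbe0 := be_pos h0 p q
  refine ⟨⟨?_, by linarith⟩, ?_, by linarith⟩
  · have : K * be (v t) p q ≤ 26 * K * be (v t) p q := by nlinarith [mul_pos hK0 hbe0]
    linarith
  · have : K * al (v t) p q ≤ 26 * K * al (v t) p q := by nlinarith [mul_pos hK0 hal0]
    linarith

end LangForms
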