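import Pool.Agent.Lib_MP_f5471b_j.AddSmall

/-!
# MP_f5471b_nt part 2: addition law up to a constant, different small sizes
-/

namespace LangForms
namespace AddSit

/-- Upper bound for both roots: `|z| ≤ 29 r / q`. -/
theorem real3u {e s r p q a b c y z : ℝ} (hs0 : 0 < s) (hs : s * s = e) (hr : max p s = r)
    (hp : p ≤ q / 2) (hq : q ≤ 1 / 1000) (he : e ≤ 1 / 1000000) (hK : e ≤ q ^ 2)
    (h : Sit e p q a b c y z) : y * q ≤ 29 * r := by
  have he0 := h.e_pos
  have hq0 : 0 < q := by
    rcases h.q_nn.lt_or_eq with h1 | h1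
    · exact h1
    · rw [← h1] at hK; nlinarith
  have hpq : p ≤ q := by linarith
  have hsm := small_of h hpq hq he
  have hpr : p ≤ r := by rw [← hr]; exact le_max_left _ _
  have hsr : s ≤ r := by rw [← hr]; exact le_max_right _ _
  have hr0 : 0 < r := by linarith
  have hsq : s ≤ q := by nlinarith
  have ha : q ^ 2 / 4 ≤ a := by
    have h1 := h.a_ge
    have h2 : (q / 2) ^ 2 ≤ (q - p) ^ 2 := pow_le_pow_left₀ (by positivity) (by linarith) 2
    nlinarith
  have he1 : e ≤ r * q := by rw [← hs]; exact mul_le_mul hsr hsq hs0.le hr0.le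
  have he2 : e ≤ r ^ 2 := by rw [← hs, sq]; exact mul_le_mul hsr hsr hs0.le hr0.le
  have hb : b ≤ 7 * (r * q) := by
    have h1 := hsm.b_le
    have h2 : p * q ≤ r * q := mul_le_mul_of_nonneg_right hpr hq0.le
    linarith
  have hc : c ≤ 3 * r ^ 2 := by
    have h1 := hsm.c_le
    have h2 : p * q ≤ r * 1 := mul_le_mul hpr (by linarith) hq0.le hr0.le
    have h3 : (p * q) ^ 2 ≤ (r * 1) ^ 2 :=
      pow_le_pow_left₀ (mul_nonneg h.p_nn hq0.le) h2 2
    linarith
  have hR := h.R1
  have hy0 := h.y_nn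
  have h1 : q ^ 2 / 4 * y ^ 2 ≤ 7 * (r * q) * y + 3 * r ^ 2 := by
    have u1 : q ^ 2 / 4 * y ^ 2 ≤ a * y ^ 2 := mul_le_mul_of_nonneg_right ha (by positivity)
    have u2 : b * y ≤ 7 * (r * q) * y := mul_le_mul_of_nonneg_right hb hy0
    linarith
  by_contra hcon
  push Not at hcon
  nlinarith

/-- Product of the roots. -/
theorem real3p {e s r p q a b c y z B : ℝ} (hs0 : 0 < s) (hs : s * s = e) (hr : max p s = r)
    (hp : p ≤ q / 2) (hq : q ≤ 1 / 1000) (he : e ≤ 1 / 1000000) (hK : e ≤ q ^ 2)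
    (h : Sit e p q a b c y z) (hB : B = max (r * q) (e / (r * q))) :
    q * (y * z) ≤ 12 * r * B := by
  have he0 := h.e_pos
  have hq0 : 0 < q := by
    rcases h.q_nn.lt_or_eq with h1 | h1
    · exact h1
    · rw [← h1] at hK; nlinarith
  have hpq : p ≤ q := by linarith
  have hsm := small_of h hpq hq he
  have hpr : p ≤ r := by rw [← hr]; exact le_max_left _ _
  have hsr : s ≤ r := by rw [← hr]; exact le_max_right _ _
  have hr0 : 0 < r := by linarith
  have hrq0 : 0 < r * q := mul_pos hr0 hq0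
  have hB1 : r * q ≤ B := by rw [hB]; exact le_max_left _ _
  have hB2 : e ≤ B * (r * q) := by
    have : e / (r * q) ≤ B := by rw [hB]; exact le_max_right _ _
    rwa [div_le_iff₀ hrq0] at this
  have ha : q ^ 2 / 4 ≤ a := by
    have h1 := h.a_ge
    have h2 : (q / 2) ^ 2 ≤ (q - p) ^ 2 := pow_le_pow_left₀ (by positivity) (by linarith) 2
    nlinarith
  have hc : c ≤ 3 * (B * (r * q)) := by
    have h1 := hsm.c_le
    have h2 : p * q ≤ r * q := mul_le_mul_of_nonneg_right hpr hq0.le
    have h3 : (p * q) ^ 2 ≤ (r * q) ^ 2 :=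
      pow_le_pow_left₀ (mul_nonneg h.p_nn hq0.le) h2 2
    nlinarith
  have hP := h.prod
  have hyz : 0 ≤ y * z := mul_nonneg h.y_nn h.z_nn
  have h1 : q ^ 2 / 4 * (y * z) ≤ 3 * (B * (r * q)) := by
    have := mul_le_mul_of_nonneg_right ha hyz
    linarith
  have h2 : q * (q * (y * z)) ≤ q * (12 * r * B) := by nlinarith
  exact le_of_mul_le_mul_left h2 hq0

/-- Case A: `p ≤ 5 s`. Lower bound for both roots. -/
theorem real3a {e s r p q a b c y z : ℝ} (hs0 : 0 < s) (hs : s * s = e) (hr : max p s = r)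
    (hp : p ≤ q / 2) (hq : q ≤ 1 / 1000) (he : e ≤ 1 / 1000000) (hK : e ≤ q ^ 2)
    (h : Sit e p q a b c y z) (hA : p ≤ 5 * s) : r ≤ 4000 * y * q := by
  have he0 := h.e_pos
  have hq0 : 0 < q := by
    rcases h.q_nn.lt_or_eq with h1 | h1
    · exact h1
    · rw [← h1] at hK; nlinarith
  have hp0 := h.p_nn
  have hpq : p ≤ q := by linarith
  have hsm := small_of h hpq hq he
  have hsr : s ≤ r := by rw [← hr]; exact le_max_right _ _
  have hr0 : 0 < r := by linarith
  have hr5 : r ≤ 5 * s := by rw [← hr]; exact max_le hA (by linarith)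
  have hz := real3u hs0 hs hr hp hq he hK h.swap
  have hc : e / 2 ≤ c := by
    have h1 := hsm.c_ge'
    have h2 : p * q ≤ 5 * s * (1 / 1000) := mul_le_mul hA hq hq0.le (by positivity)
    have h3 : (p * q) ^ 2 ≤ (5 * s * (1 / 1000)) ^ 2 :=
      pow_le_pow_left₀ (mul_nonneg hp0 hq0.le) h2 2
    nlinarith
  have ha : a ≤ 9 / 4 * q ^ 2 := by
    have h1 := h.a_le
    have h2 : (p + q) ^ 2 ≤ (3 / 2 * q) ^ 2 := pow_le_pow_left₀ (by linarith) (by linarith) 2
    nlinarith
  have hP := h.prod
  have hyz : 0 ≤ y * z := mul_nonneg h.y_nn h.z_nn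
  have h1 : e / 2 ≤ 9 / 4 * q ^ 2 * (y * z) := by
    have := mul_le_mul_of_nonneg_right ha hyz
    linarith
  have h2 : q ^ 2 * (y * z) ≤ (q * y) * (29 * r) := by
    have : (q * y) * (z * q) ≤ (q * y) * (29 * r) :=
      mul_le_mul_of_nonneg_left hz (mul_nonneg hq0.le h.y_nn)
    nlinarith
  have h3 : r ^ 2 ≤ 25 * e := by
    rw [← hs]; nlinarith
  have h4 : r * r ≤ r * (4000 * y * q) := by
    have h5 : 0 ≤ r * (y * q) := mul_nonneg hr0.le (mul_nonneg h.y_nn hq0.le)
    nlinarith
  exact le_of_mul_le_mul_left h4 hr0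

/-- Case B: `5 s < p`. Lower bound for the larger root. -/
theorem real3b {e s p q a b c y z : ℝ} (hs0 : 0 < s) (hs : s * s = e)
    (hp : p ≤ q / 2) (hq : q ≤ 1 / 1000) (he : e ≤ 1 / 1000000)
    (h : Sit e p q a b c y z) (hA : 5 * s < p) (hyz : y ≤ z) : p ≤ 9 * z * q := by
  have he0 := h.e_pos
  have hp0 : 0 < p := by linarith
  have hq0 : 0 < q := by linarith
  have hpq : p ≤ q := by linarith
  have hsm := small_of h hpq hq he
  have hb : 8 / 10 * (p * q) ≤ b := by
    have h1 := hsm.b_ge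
    have h2 : 25 * e ≤ p * p := by rw [← hs]; nlinarith
    have h3 : p * p ≤ p * (q / 2) := mul_le_mul_of_nonneg_left hp hp0.le
    linarith
  have ha : a ≤ 9 / 4 * q ^ 2 := by
    have h1 := h.a_le
    have h2 : (p + q) ^ 2 ≤ (3 / 2 * q) ^ 2 := pow_le_pow_left₀ (by linarith) (by linarith) 2
    nlinarith
  have h3 : b ≤ 2 * a * z := by
    have := h.sum1
    have := mul_le_mul_of_nonneg_left hyz h.a_pos.le
    nlinarith
  have h4 : 2 * a * z ≤ 2 * (9 / 4 * q ^ 2) * z := by
    apply mul_le_mul_of_nonneg_right _ h.z_nn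
    linarith
  have h5 : q * p ≤ q * (9 * z * q) := by
    have : 0 ≤ q ^ 2 * z := mul_nonneg (by positivity) h.z_nn
    nlinarith
  exact le_of_mul_le_mul_left h5 hq0

end AddSit

open AddSit

theorem add_gen3 : ∃ κ K ε c : ℝ, 0 < κ ∧ 1 ≤ K ∧ 0 < ε ∧ ε < 1 ∧ 0 ≤ c ∧
    ∀ (F : Type) [Field F] (v : AbsoluteValue F ℝ) (t : F), 0 < v t → v t ≤ ε →
    AddOn v t c fun p q => p ≤ q / 2 ∧ q ≤ κ ∧ K * v t ≤ q ^ 2 := by
  refine ⟨1 / 1000, 1, 1 / 1000000, Real.log 4000, by norm_num, by norm_num, by norm_num,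
    by norm_num, Real.log_nonneg (by norm_num), ?_⟩
  intro F _ v t h0 ht
  have h1 : v t ≤ 1 := by linarith
  have hs0 := Real.sqrt_pos.2 h0
  have hss := Real.mul_self_sqrt h0.le
  set s := Real.sqrt (v t) with hsdef
  have haux : ∀ p q a b c y z : ℝ, (p ≤ q / 2 ∧ q ≤ 1 / 1000 ∧ 1 * v t ≤ q ^ 2) →
      Sit (v t) p q a b c y z → y ≤ z →
      (rr (v t) y ≤ 4000 * be (v t) p q ∧ be (v t) p q ≤ 4000 * rr (v t) y) ∧
      (rr (v t) z ≤ 4000 * al (v t) p q ∧ al (v t) p q ≤ 4000 * rr (v t) z) := by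
    intro p q a b c y z hR hs hyz
    obtain ⟨hp, hq, hK⟩ := hR
    rw [one_mul] at hK
    have hq0 : 0 < q := by
      rcases hs.q_nn.lt_or_eq with h2 | h2
      · exact h2
      · rw [← h2] at hK; nlinarith
    have hpq : p ≤ q := by linarith
    have hsm := small_of hs hpq hq ht
    have hal1 := al_le_one h0 hpq
    have hbe1 := be_le_one h0 h1 hpq
    have hsbe := sqrt_le_be h0 p q
    have hsal := sqrt_le_al h0 h1 p q
    have hbe0 := be_pos h0 p q
    have hal0 := al_pos h0 p q
    have hsq : s ≤ q := by nlinarith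
    have hrq : rr (v t) q = q := rr_eq hsq (by linarith)
    have hrp : rr (v t) p = max p s := rr_eq' (by linarith)
    set r := max p s with hr
    have hpr : p ≤ r := le_max_left _ _
    have hsr : s ≤ r := le_max_right _ _
    have hr0 : 0 < r := by linarith
    have hrq0 : 0 < r * q := mul_pos hr0 hq0
    have hal : al (v t) p q = r / q := by rw [al, hrp, hrq]
    have hbe : be (v t) p q = max (r * q) (v t / (r * q)) := by rw [be, hrp, hrq]
    have hyu := real3u hs0 hss hr.symm hp hq ht hK hs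
    have hzu := real3u hs0 hss hr.symm hp hq ht hK hs.swap
    have hzu' : z ≤ 29 * al (v t) p q := by
      rw [hal, ← mul_div_assoc, le_div_iff₀ hq0]; exact hzu
    have hyu' : y ≤ 29 * al (v t) p q := by
      rw [hal, ← mul_div_assoc, le_div_iff₀ hq0]; exact hyu
    have hz1 : rr (v t) z ≤ 4000 * al (v t) p q := by
      apply rr_le_of (by norm_num) hsal hal0.le
      linarith
    rcases le_or_gt p (5 * s) with hA | hA
    · have hya := real3a hs0 hss hr.symm hp hq ht hK hs hA
      have hza := real3a hs0 hss hr.symm hp hq ht hK hs.swap hA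
      have hya' : al (v t) p q ≤ 4000 * y := by
        rw [hal, div_le_iff₀ hq0]; exact hya
      have hza' : al (v t) p q ≤ 4000 * z := by
        rw [hal, div_le_iff₀ hq0]; exact hza
      have hr5 : r ≤ 5 * s := max_le hA (by linarith)
      have hab : al (v t) p q ≤ 25 * be (v t) p q := by
        have h3 : v t / (r * q) ≤ be (v t) p q := by rw [hbe]; exact le_max_right _ _
        have h4 : r / q ≤ 25 * (v t / (r * q)) := by
          rw [← mul_div_assoc, div_le_div_iff₀ hq0 hrq0]
          have : r * r ≤ 25 * v t := by nlinarith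
          nlinarith
        rw [hal]; linarith
      have hba := be_le_al h0 h1 p q
      refine ⟨⟨?_, ?_⟩, hz1, ?_⟩
      · apply rr_le_of (by norm_num) hsbe hbe0.le
        linarith
      · apply le_rr_of (by norm_num) hbe1
        linarith
      · exact le_rr_of (by norm_num) hal1 hza'
    · have hp0 : 0 < p := by linarith
      have hrp' : r = p := max_eq_left (by linarith)
      have hzb := real3b hs0 hss hp hq ht hs hA hyz
      have hzb' : al (v t) p q ≤ 9 * z := by
        rw [hal, div_le_iff₀ hq0, hrp']; exact hzb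
      have hprod := real3p hs0 hss hr.symm hp hq ht hK hs hbe
      rw [hrp'] at hprod hbe hrq0 hzu
      have hX0 := hrq0
      have ha : a ≤ 9 / 4 * q ^ 2 := by
        have h1 := hs.a_le
        have h2 : (p + q) ^ 2 ≤ (3 / 2 * q) ^ 2 := pow_le_pow_left₀ (by linarith) (by linarith) 2
        nlinarith
      -- `c ≤ 66 p q y`
      have hcy : c ≤ 66 * (p * q) * y := by
        have h3 := hs.prod
        have h4 : a * (y * z) ≤ 9 / 4 * q ^ 2 * (y * z) :=
          mul_le_mul_of_nonneg_right ha (mul_nonneg hs.y_nn hs.z_nn)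
        have h5 : (q * y) * (z * q) ≤ (q * y) * (29 * p) :=
          mul_le_mul_of_nonneg_left hzu (mul_nonneg hq0.le hs.y_nn)
        have h6 : 0 ≤ p * q * y := mul_nonneg hX0.le hs.y_nn
        nlinarith
      refine ⟨⟨?_, ?_⟩, hz1, ?_⟩
      · apply rr_le_of (by norm_num) hsbe hbe0.le
        have hz0 : 0 < z := by
          by_contra hcon
          push Not at hcon
          nlinarith
        have h3 : (q * z) * y ≤ (q * z) * (108 * be (v t) p q) := by
          have h4 : p * be (v t) p q ≤ 9 * z * q * be (v t) p q :=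
            mul_le_mul_of_nonneg_right hzb hbe0.le
          nlinarith
        have h5 : y ≤ 108 * be (v t) p q := le_of_mul_le_mul_left h3 (by positivity)
        linarith
      · rcases c_lower hsm hs0 hss hX0 with ⟨h3, h4⟩ | ⟨h3, h4⟩ | ⟨h3, h4⟩
        · have hbe' : be (v t) p q = p * q := by
            rw [hbe]
            apply max_eq_left
            rw [div_le_iff₀ hX0]
            nlinarith
          apply le_rr_of (by norm_num) hbe1
          rw [hbe']
          have h5 : (p * q) * (p * q) ≤ (p * q) * (4000 * y) := by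
            have := mul_nonneg hX0.le hs.y_nn
            nlinarith
          exact le_of_mul_le_mul_left h5 hX0
        · have hbe' : be (v t) p q = v t / (p * q) := by
            rw [hbe]
            apply max_eq_right
            rw [le_div_iff₀ hX0]
            nlinarith
          apply le_rr_of (by norm_num) hbe1
          rw [hbe', div_le_iff₀ hX0]
          nlinarith [mul_nonneg hX0.le hs.y_nn]
        · have hbe' : be (v t) p q ≤ 4 * s := by
            rw [hbe]
            apply max_le h4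
            rw [div_le_iff₀ hX0]
            nlinarith
          have := sqrt_le_rr (v t) y
          linarith
      · apply le_rr_of (by norm_num) hal1
        linarith [hs.z_nn]
  have hmain : AddOn v t (Real.log 4000)
      fun p q => 0 ≤ p ∧ (p ≤ q / 2 ∧ q ≤ 1 / 1000 ∧ 1 * v t ≤ q ^ 2) :=
    addOn_of (by norm_num) (fun p q h => by linarith [h.1, h.2.1]) v t h0
      fun p q a b c y z hR hs hyz => haux p q a b c y z hR.2 hs hyz
  intro x₁ x₂ z₁ z₂ hR
  exact hmain x₁ x₂ z₁ z₂ ⟨v.nonneg _, hR⟩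

end LangForms
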