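import Pool.Agent.Lib_MP_f5471b_j.Rho

/-!
# MP_f5471b_nt part 2: the addition estimate, `q / 2 ≤ p ≤ q` small
-/

namespace LangForms

namespace AG4

/-- separated roots -/
theorem sep {a b c Z₁ Z₂ S : ℝ} (ha : 0 < a) (hb : 0 < b)
    (hZ₂ : 0 ≤ Z₂) (hle : Z₂ ≤ Z₁) (h1 : S ≤ Z₁ + Z₂) (h2 : Z₁ ≤ S + Z₂) (h3 : a * S = b)
    (h4 : a * (Z₁ * Z₂) = c) (h5 : a * c ≤ b ^ 2 / 16) :
    b / (2 * a) ≤ Z₁ ∧ c / (2 * b) ≤ Z₂ ∧ Z₂ ≤ 2 * c / b := by
  have e1 : b / (2 * a) ≤ Z₁ := by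
    rw [div_le_iff₀ (by positivity)]
    nlinarith
  have hZ1pos : 0 < Z₁ := lt_of_lt_of_le (by positivity) e1
  have e2 : Z₂ ≤ 2 * c / b := by
    rw [le_div_iff₀ hb]
    have : b ≤ 2 * (a * Z₁) := by nlinarith
    nlinarith
  have e3 : Z₂ ≤ b / a / 8 := by
    refine e2.trans ?_
    rw [div_le_iff₀ hb]
    have : b / a / 8 * b = b ^ 2 / (8 * a) := by field_simp
    rw [this, le_div_iff₀ (by positivity)]
    nlinarith
  have hS : S = b / a := by
    rw [eq_div_iff ha.ne']; linarith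
  have e4 : Z₁ ≤ 2 * (b / a) := by
    rw [hS] at h2
    have : 0 < b / a := by positivity
    linarith
  refine ⟨e1, ?_, e2⟩
  rw [div_le_iff₀ (by positivity)]
  have h6 : a * Z₁ ≤ 2 * b := by
    calc a * Z₁ ≤ a * (2 * (b / a)) := mul_le_mul_of_nonneg_left e4 ha.le
      _ = 2 * b := by field_simp
  nlinarith

theorem natCast_le {F : Type} [Field F] (v : AbsoluteValue F ℝ) (n : ℕ) : v (n : F) ≤ n := by
  induction n with
  | zero => simp
  | succ n ih =>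
    push_cast
    calc v ((n : F) + 1) ≤ v (n : F) + v 1 := v.add_le _ _
      _ ≤ n + 1 := by rw [v.map_one]; linarith

/-- closeness of logarithms from multiplicative bounds -/
theorem abs_log_sub_le {x y K : ℝ} (hx : 0 < x) (hy : 0 < y) (hK : 0 < K) (h1 : x ≤ K * y)
    (h2 : y ≤ K * x) : |-Real.log x - -Real.log y| ≤ Real.log K := by
  have e1 := Real.log_le_log hx h1
  have e2 := Real.log_le_log hy h2
  rw [Real.log_mul hK.ne' hy.ne'] at e1
  rw [Real.log_mul hK.ne' hx.ne'] at e2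
  rw [abs_le]
  constructor <;> linarith

/-- bounds for the coefficients -/
theorem coeffs {F : Type} [Field F] (v : AbsoluteValue F ℝ) (t x₁ x₂ : F) (hp : v x₁ ≤ v x₂)
    (hq : v x₂ ≤ 1 / 100) (ht : v t ≤ 1 / 10 ^ 6) :
    v ((x₁ - x₂) ^ 2) ≤ 4 * v x₂ ^ 2 ∧
    v (x₁ * x₂ * (1 + 2 * (x₁ + x₂)) - 72 * t * (x₁ + x₂) - 4 * t) ≤
      21 / 20 * (v x₁ * v x₂) + 6 * v t ∧
    19 / 20 * (v x₁ * v x₂) - 6 * v t ≤
      v (x₁ * x₂ * (1 + 2 * (x₁ + x₂)) - 72 * t * (x₁ + x₂) - 4 * t) ∧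
    v ((x₁ * x₂) ^ 2 + 72 * t * (x₁ * x₂) + 4 * t * (x₁ + x₂) + t + 1296 * t ^ 2) ≤
      (v x₁ * v x₂) ^ 2 + 11 / 10 * v t ∧
    (v x₁ * v x₂) ^ 2 - 11 / 10 * v t ≤
      v ((x₁ * x₂) ^ 2 + 72 * t * (x₁ * x₂) + 4 * t * (x₁ + x₂) + t + 1296 * t ^ 2) ∧
    9 / 10 * v t - (v x₁ * v x₂) ^ 2 ≤
      v ((x₁ * x₂) ^ 2 + 72 * t * (x₁ * x₂) + 4 * t * (x₁ + x₂) + t + 1296 * t ^ 2) := by
  obtain ⟨p, hpd⟩ : ∃ p, p = v x₁ := ⟨_, rfl⟩
  obtain ⟨q, hqd⟩ : ∃ q, q = v x₂ := ⟨_, rfl⟩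
  obtain ⟨e, hed⟩ : ∃ e, e = v t := ⟨_, rfl⟩
  have hp0 : 0 ≤ p := by rw [hpd]; exact v.nonneg _
  have hq0 : 0 ≤ q := by rw [hqd]; exact v.nonneg _
  have he0 : 0 ≤ e := by rw [hed]; exact v.nonneg _
  have n2 : v (2 : F) ≤ 2 := by simpa using natCast_le v 2
  have n4 : v (4 : F) ≤ 4 := by simpa using natCast_le v 4
  have n72 : v (72 : F) ≤ 72 := by simpa using natCast_le v 72
  have n1296 : v (1296 : F) ≤ 1296 := by simpa using natCast_le v 1296
  rw [← hpd, ← hqd] at hp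
  rw [← hqd] at hq
  rw [← hed] at ht
  have hsum : v (x₁ + x₂) ≤ p + q := by rw [hpd, hqd]; exact v.add_le _ _
  have hsum0 : 0 ≤ v (x₁ + x₂) := v.nonneg _
  have hprod : v (x₁ * x₂) = p * q := by rw [map_mul, hpd, hqd]
  have hpq0 : 0 ≤ p * q := mul_nonneg hp0 hq0
  have hpq : p * q ≤ 1 / 10 ^ 4 := by
    calc p * q ≤ (1 / 100) * (1 / 100) := mul_le_mul (by linarith) hq hq0 (by norm_num)
      _ = 1 / 10 ^ 4 := by norm_num
  -- the factor 1 + 2 (x₁ + x₂)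
  have hu2 : v (2 * (x₁ + x₂)) ≤ 1 / 25 := by
    rw [map_mul]
    calc v 2 * v (x₁ + x₂) ≤ 2 * (1 / 50) :=
          mul_le_mul n2 (by linarith) hsum0 (by norm_num)
      _ = 1 / 25 := by norm_num
  have hu_up : v (1 + 2 * (x₁ + x₂)) ≤ 26 / 25 := by
    have := v.add_le 1 (2 * (x₁ + x₂))
    rw [v.map_one] at this
    linarith
  have hu_low : 24 / 25 ≤ v (1 + 2 * (x₁ + x₂)) := by
    have h1 := v.sub_le (1 + 2 * (x₁ + x₂)) 0 (2 * (x₁ + x₂))
    have h2 : v ((1 + 2 * (x₁ + x₂)) - 2 * (x₁ + x₂)) ≤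
        v (1 + 2 * (x₁ + x₂)) + v (2 * (x₁ + x₂)) := by
      have := v.sub_le (1 + 2 * (x₁ + x₂)) 0 (2 * (x₁ + x₂))
      simpa [v.map_neg] using this
    rw [add_sub_cancel_right, v.map_one] at h2
    linarith
  -- the terms with t
  have ht1 : v (72 * t * (x₁ + x₂)) ≤ 3 / 2 * e := by
    rw [map_mul, map_mul, ← hed]
    calc v 72 * e * v (x₁ + x₂) ≤ 72 * e * (1 / 50) :=
          mul_le_mul (mul_le_mul_of_nonneg_right n72 he0) (by linarith) hsum0 (by positivity)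
      _ ≤ 3 / 2 * e := by linarith
  have ht2 : v (4 * t) ≤ 4 * e := by
    rw [map_mul, ← hed]; exact mul_le_mul_of_nonneg_right n4 he0
  have ht3 : v (72 * t * (x₁ * x₂)) ≤ 1 / 100 * e := by
    rw [map_mul, map_mul, ← hed, hprod]
    calc v 72 * e * (p * q) ≤ 72 * e * (1 / 10 ^ 4) :=
          mul_le_mul (mul_le_mul_of_nonneg_right n72 he0) hpq hpq0 (by positivity)
      _ ≤ 1 / 100 * e := by linarith
  have ht4 : v (4 * t * (x₁ + x₂)) ≤ 8 / 100 * e := by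
    rw [map_mul]
    calc v (4 * t) * v (x₁ + x₂) ≤ 4 * e * (1 / 50) :=
          mul_le_mul ht2 (by linarith) hsum0 (by positivity)
      _ = 8 / 100 * e := by ring
  have ht5 : v (1296 * t ^ 2) ≤ 1 / 500 * e := by
    rw [map_mul, map_pow, ← hed]
    calc v 1296 * e ^ 2 ≤ 1296 * (e * (1 / 10 ^ 6)) := by
          refine mul_le_mul n1296 ?_ (by positivity) (by norm_num)
          rw [sq]
          exact mul_le_mul_of_nonneg_left ht he0
      _ ≤ 1 / 500 * e := by linarith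
  have hX : v (x₁ * x₂ * (1 + 2 * (x₁ + x₂))) = p * q * v (1 + 2 * (x₁ + x₂)) := by
    rw [map_mul, hprod]
  have hsub : ∀ x y : F, v (x - y) ≤ v x + v y := fun x y => by
    rw [sub_eq_add_neg]
    calc v (x + -y) ≤ v x + v (-y) := v.add_le _ _
      _ = v x + v y := by rw [v.map_neg]
  rw [← hpd, ← hqd, ← hed]
  refine ⟨?_, ?_, ?_, ?_, ?_, ?_⟩
  · rw [map_pow]
    have h1 : v (x₁ - x₂) ≤ 2 * q := (hsub x₁ x₂).trans (by rw [← hpd, ← hqd]; linarith)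
    calc v (x₁ - x₂) ^ 2 ≤ (2 * q) ^ 2 := pow_le_pow_left₀ (v.nonneg _) h1 2
      _ = 4 * q ^ 2 := by ring
  · have h1 := hsub (x₁ * x₂ * (1 + 2 * (x₁ + x₂)) - 72 * t * (x₁ + x₂)) (4 * t)
    have h2 := hsub (x₁ * x₂ * (1 + 2 * (x₁ + x₂))) (72 * t * (x₁ + x₂))
    rw [hX] at h2
    have h3 := mul_le_mul_of_nonneg_left hu_up hpq0
    linarith
  · have h1 := v.add_le (x₁ * x₂ * (1 + 2 * (x₁ + x₂)) - 72 * t * (x₁ + x₂) - 4 * t) (4 * t)
    rw [sub_add_cancel] at h1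
    have h2 := v.add_le (x₁ * x₂ * (1 + 2 * (x₁ + x₂)) - 72 * t * (x₁ + x₂))
      (72 * t * (x₁ + x₂))
    rw [sub_add_cancel, hX] at h2
    have h3 := mul_le_mul_of_nonneg_left hu_low hpq0
    linarith
  · have h1 := v.add_le ((x₁ * x₂) ^ 2 + 72 * t * (x₁ * x₂) + 4 * t * (x₁ + x₂) + t)
      (1296 * t ^ 2)
    have h2 := v.add_le ((x₁ * x₂) ^ 2 + 72 * t * (x₁ * x₂) + 4 * t * (x₁ + x₂)) t
    have h3 := v.add_le ((x₁ * x₂) ^ 2 + 72 * t * (x₁ * x₂)) (4 * t * (x₁ + x₂))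
    have h4 := v.add_le ((x₁ * x₂) ^ 2) (72 * t * (x₁ * x₂))
    rw [map_pow, hprod] at h4
    rw [← hed] at h2
    linarith
  · have h1 := hsub ((x₁ * x₂) ^ 2 + 72 * t * (x₁ * x₂) + 4 * t * (x₁ + x₂) + t + 1296 * t ^ 2)
      (1296 * t ^ 2)
    have h2 := hsub ((x₁ * x₂) ^ 2 + 72 * t * (x₁ * x₂) + 4 * t * (x₁ + x₂) + t) t
    have h3 := hsub ((x₁ * x₂) ^ 2 + 72 * t * (x₁ * x₂) + 4 * t * (x₁ + x₂))
      (4 * t * (x₁ + x₂))
    have h4 := hsub ((x₁ * x₂) ^ 2 + 72 * t * (x₁ * x₂)) (72 * t * (x₁ * x₂))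
    rw [add_sub_cancel_right] at h1 h2 h3 h4
    rw [map_pow, hprod] at h4
    rw [← hed] at h2
    linarith
  · have e1 : t = ((x₁ * x₂) ^ 2 + 72 * t * (x₁ * x₂) + 4 * t * (x₁ + x₂) + t +
        1296 * t ^ 2) - ((x₁ * x₂) ^ 2 + 72 * t * (x₁ * x₂) + 4 * t * (x₁ + x₂) +
        1296 * t ^ 2) := by ring
    have h1 := hsub ((x₁ * x₂) ^ 2 + 72 * t * (x₁ * x₂) + 4 * t * (x₁ + x₂) + t +
        1296 * t ^ 2) ((x₁ * x₂) ^ 2 + 72 * t * (x₁ * x₂) + 4 * t * (x₁ + x₂) + 1296 * t ^ 2)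
    rw [← e1, ← hed] at h1
    have h2 := v.add_le ((x₁ * x₂) ^ 2 + 72 * t * (x₁ * x₂) + 4 * t * (x₁ + x₂)) (1296 * t ^ 2)
    have h3 := v.add_le ((x₁ * x₂) ^ 2 + 72 * t * (x₁ * x₂)) (4 * t * (x₁ + x₂))
    have h4 := v.add_le ((x₁ * x₂) ^ 2) (72 * t * (x₁ * x₂))
    rw [map_pow, hprod] at h4
    linarith

/-- the real inequalities -/
theorem real_bounds {a b c p q e Z₁ Z₂ S : ℝ} (he : 0 < e) (he' : e ≤ 1 / 10 ^ 6)
    (hpq : q / 2 ≤ p) (hp : p ≤ q) (hq : q ≤ 1 / 100) (hK : 1000 * e ≤ q ^ 2)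
    (ha : 0 < a) (ha' : a ≤ 4 * q ^ 2) (hb1 : b ≤ 21 / 20 * (p * q) + 6 * e)
    (hb2 : 19 / 20 * (p * q) - 6 * e ≤ b) (hc1 : c ≤ (p * q) ^ 2 + 11 / 10 * e)
    (hc2 : (p * q) ^ 2 - 11 / 10 * e ≤ c) (hc3 : 9 / 10 * e - (p * q) ^ 2 ≤ c)
    (hZ₂ : 0 ≤ Z₂) (hle : Z₂ ≤ Z₁) (h1 : S ≤ Z₁ + Z₂) (h2 : Z₁ ≤ S + Z₂) (h3 : a * S = b)
    (h4 : a * (Z₁ * Z₂) = c) :
    1 / 20 ≤ Z₁ ∧ Z₂ ≤ 20 * max (p * q) (e / (p * q)) ∧
      max (p * q) (e / (p * q)) ≤ 20 * max Z₂ (Real.sqrt e) := by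
  have hq0 : 0 < q := by nlinarith
  have hp0 : 0 < p := by linarith
  have hpq0 : 0 < p * q := mul_pos hp0 hq0
  have hpq2 : q ^ 2 / 2 ≤ p * q := by nlinarith
  have hpq3 : p * q ≤ q ^ 2 := by nlinarith
  have hb : 9 / 20 * q ^ 2 ≤ b := by nlinarith
  have hb' : b ≤ 11 / 10 * q ^ 2 := by nlinarith
  have hb0 : 0 < b := by nlinarith
  have hq2 : q ^ 2 ≤ 1 / 10 ^ 4 := by nlinarith
  have hc4 : c ≤ q ^ 2 * (1 / 800) := by
    have : (p * q) ^ 2 ≤ q ^ 2 * (1 / 10 ^ 4) := by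
      calc (p * q) ^ 2 ≤ (q ^ 2) ^ 2 := pow_le_pow_left₀ hpq0.le hpq3 2
        _ = q ^ 2 * q ^ 2 := by ring
        _ ≤ q ^ 2 * (1 / 10 ^ 4) := mul_le_mul_of_nonneg_left hq2 (by positivity)
    linarith
  have hac : a * c ≤ b ^ 2 / 16 := by
    have e1 : a * c ≤ 4 * q ^ 2 * (q ^ 2 * (1 / 800)) := by
      have : 0 ≤ q ^ 2 * (1 / 800 : ℝ) := by positivity
      nlinarith
    have e2 : (9 / 20 * q ^ 2) ^ 2 ≤ b ^ 2 := pow_le_pow_left₀ (by positivity) hb 2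
    nlinarith
  obtain ⟨k1, k2, k3⟩ := sep ha hb0 hZ₂ hle h1 h2 h3 h4 hac
  refine ⟨?_, ?_, ?_⟩
  · refine le_trans ?_ k1
    rw [le_div_iff₀ (by positivity)]
    nlinarith
  · refine k3.trans ?_
    rw [div_le_iff₀ hb0]
    have e1 : p * q ≤ max (p * q) (e / (p * q)) := le_max_left _ _
    have e2 : e ≤ max (p * q) (e / (p * q)) * (p * q) := by
      calc e = e / (p * q) * (p * q) := by field_simp
        _ ≤ _ := mul_le_mul_of_nonneg_right (le_max_right _ _) hpq0.le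
    have e3 : (p * q) ^ 2 ≤ max (p * q) (e / (p * q)) * (p * q) := by
      rw [sq]; exact mul_le_mul_of_nonneg_right e1 hpq0.le
    obtain ⟨m, hm⟩ : ∃ m, m = max (p * q) (e / (p * q)) := ⟨_, rfl⟩
    rw [← hm] at e1 e2 e3 ⊢
    have hm0 : 0 < m := lt_of_lt_of_le hpq0 e1
    have e4 : m * (p * q) ≤ m * (20 / 9 * b) := mul_le_mul_of_nonneg_left (by nlinarith) hm0.le
    nlinarith
  · have hs0 : 0 < Real.sqrt e := Real.sqrt_pos.2 he
    have hs2 : Real.sqrt e ^ 2 = e := Real.sq_sqrt he.le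
    obtain ⟨s, hs⟩ : ∃ s, s = Real.sqrt e := ⟨_, rfl⟩
    rw [← hs] at hs0 hs2 ⊢
    have hmZ : Z₂ ≤ max Z₂ s := le_max_left _ _
    have hms : s ≤ max Z₂ s := le_max_right _ _
    have hc0 : c / (2 * b) * (2 * b) = c := by field_simp
    have k2' : c ≤ Z₂ * (2 * b) := by
      rw [← hc0]
      exact mul_le_mul_of_nonneg_right k2 (by positivity)
    have hb3 : 2 * b ≤ 5 * (p * q) := by nlinarith
    have k4 : c ≤ Z₂ * (5 * (p * q)) := k2'.trans (mul_le_mul_of_nonneg_left hb3 hZ₂)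
    rcases le_total (4 * e) ((p * q) ^ 2) with h | h
    · -- β = p q
      have e1 : e / (p * q) ≤ p * q := by
        rw [div_le_iff₀ hpq0]; nlinarith
      rw [max_eq_left e1]
      have e2 : 7 / 10 * (p * q) ^ 2 ≤ c := by linarith
      have e3 : 7 / 10 * (p * q) ≤ Z₂ * 5 := by
        have : 7 / 10 * (p * q) * (p * q) ≤ Z₂ * 5 * (p * q) := by nlinarith
        exact le_of_mul_le_mul_right this hpq0
      linarith
    · rcases le_total ((p * q) ^ 2) (e / 4) with h' | h'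
      · have e1 : p * q ≤ e / (p * q) := by
          rw [le_div_iff₀ hpq0]; nlinarith
        rw [max_eq_right e1, div_le_iff₀ hpq0]
        have e2 : e / 2 ≤ c := by linarith
        have e3 : Z₂ * (p * q) ≤ max Z₂ s * (p * q) :=
          mul_le_mul_of_nonneg_right hmZ hpq0.le
        linarith
      · have e1 : p * q ≤ 2 * s := by
          have h5 : (2 * s) ^ 2 = 4 * e := by rw [← hs2]; ring
          have : (p * q) ^ 2 ≤ (2 * s) ^ 2 := by rw [h5]; exact h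
          exact (pow_le_pow_iff_left₀ hpq0.le (by positivity) (by norm_num)).1 this
        have e2 : s ≤ 2 * (p * q) := by
          have h5 : (2 * (p * q)) ^ 2 = 4 * (p * q) ^ 2 := by ring
          have : s ^ 2 ≤ (2 * (p * q)) ^ 2 := by rw [h5, hs2]; linarith
          exact (pow_le_pow_iff_left₀ hs0.le (by positivity) (by norm_num)).1 this
        have e3 : e / (p * q) ≤ 2 * s := by
          rw [div_le_iff₀ hpq0]
          have h5 : s * s ≤ s * (2 * (p * q)) := mul_le_mul_of_nonneg_left e2 hs0.le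
          have h6 : s * s = e := by rw [← sq]; exact hs2
          have h7 : 2 * s * (p * q) = s * (2 * (p * q)) := by ring
          rw [h7, ← h6]
          exact h5
        have := max_le e1 e3
        linarith

end AG4

open AG4

theorem add_gen4 : ∃ κ K ε c : ℝ, 0 < κ ∧ 1 ≤ K ∧ 0 < ε ∧ ε < 1 ∧ 0 ≤ c ∧
    ∀ (F : Type) [Field F] (v : AbsoluteValue F ℝ) (t : F), 0 < v t → v t ≤ ε →
    AddOn v t c fun p q => q / 2 ≤ p ∧ p ≤ q ∧ q ≤ κ ∧ K * v t ≤ q ^ 2 := by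
  refine ⟨1 / 100, 1000, 1 / 10 ^ 6, Real.log 20, by norm_num, by norm_num, by norm_num,
    by norm_num, Real.log_nonneg (by norm_num), ?_⟩
  intro F _ v t ht ht' x₁ x₂ z₁ z₂ ⟨hpq, hp, hq, hK⟩ hne hS hP
  obtain ⟨ca, cb1, cb2, cc1, cc2, cc3⟩ := coeffs v t x₁ x₂ hp hq ht'
  rw [← hS] at cb1 cb2
  rw [← hP] at cc1 cc2 cc3
  obtain ⟨p, hpd⟩ : ∃ p, p = v x₁ := ⟨_, rfl⟩
  obtain ⟨q, hqd⟩ : ∃ q, q = v x₂ := ⟨_, rfl⟩
  obtain ⟨e, hed⟩ : ∃ e, e = v t := ⟨_, rfl⟩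
  rw [← hpd, ← hqd] at hpq hp
  rw [← hqd] at hq
  rw [← hed] at ht ht'
  rw [← hqd, ← hed] at hK
  rw [← hqd] at ca
  rw [← hpd, ← hqd, ← hed] at cb1 cb2 cc1 cc2 cc3
  have ht1 : v t ≤ 1 := by rw [← hed]; linarith
  have hs0 : 0 < Real.sqrt e := Real.sqrt_pos.2 ht
  have hs2 : Real.sqrt e ^ 2 = e := Real.sq_sqrt ht.le
  have hq0 : 0 < q := by
    by_contra hcon
    push Not at hcon
    have : q = 0 := by
      refine le_antisymm hcon ?_
      rw [hqd]; exact v.nonneg _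
    rw [this] at hK
    nlinarith
  have hp0 : 0 < p := by linarith
  have hpq0 : 0 < p * q := mul_pos hp0 hq0
  have hsp : Real.sqrt e ≤ p := by
    have : Real.sqrt e ^ 2 ≤ p ^ 2 := by
      rw [hs2]; nlinarith
    exact (pow_le_pow_iff_left₀ hs0.le hp0.le (by norm_num)).1 this
  have r1 : rho v t ![x₁, 1] = -Real.log p := by
    rw [rho_affine v t ht1, ← hpd, ← hed, min_eq_left (by linarith), max_eq_left hsp]
  have r2 : rho v t ![x₂, 1] = -Real.log q := by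
    rw [rho_affine v t ht1, ← hqd, ← hed, min_eq_left (by linarith),
      max_eq_left (hsp.trans hp)]
  have ha : 0 < v ((x₁ - x₂) ^ 2) := v.pos (pow_ne_zero 2 (sub_ne_zero.2 hne))
  -- the target
  have t1 : |rho v t ![x₁, 1] - rho v t ![x₂, 1]| ≤ Real.log 2 := by
    rw [r1, r2]
    exact abs_log_sub_le hp0 hq0 (by norm_num) (by linarith) (by linarith)
  have t2 : min (rho v t ![x₁, 1] + rho v t ![x₂, 1])
      (Lt v t - rho v t ![x₁, 1] - rho v t ![x₂, 1]) =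
      -Real.log (max (p * q) (e / (p * q))) := by
    rw [r1, r2, Lt, ← hed]
    have l1 : Real.log (p * q) = Real.log p + Real.log q := Real.log_mul hp0.ne' hq0.ne'
    have l2 : Real.log (e / (p * q)) = Real.log e - (Real.log p + Real.log q) := by
      rw [Real.log_div ht.ne' hpq0.ne', l1]
    rcases le_total (p * q) (e / (p * q)) with h | h
    · have h3 := Real.log_le_log hpq0 h
      rw [max_eq_right h, l2, min_eq_right (by linarith)]
      ring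
    · have h3 := Real.log_le_log (by positivity) h
      rw [max_eq_left h, l1, min_eq_left (by linarith)]
      ring
  rw [t2]
  have t1' : 0 ≤ |rho v t ![x₁, 1] - rho v t ![x₂, 1]| := abs_nonneg _
  have l20 : Real.log 2 ≤ Real.log 20 := Real.log_le_log (by norm_num) (by norm_num)
  -- the roots, ordered
  have key : ∀ z w : F, v w ≤ v z → v (z + w) = v (z₁ + z₂) → v (z * w) = v (z₁ * z₂) →
      abs (rho v t ![z, 1] - abs (rho v t ![x₁, 1] - rho v t ![x₂, 1])) ≤ Real.log 20 ∧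
      abs (rho v t ![w, 1] - -Real.log (max (p * q) (e / (p * q)))) ≤ Real.log 20 := by
    intro z w hzw hsum hprod
    have hsub : v z ≤ v (z + w) + v w := by
      have h1 := v.add_le (z + w) (-w)
      rw [v.map_neg, add_neg_cancel_right] at h1
      exact h1
    obtain ⟨m1, m2, m3⟩ := real_bounds ht ht' hpq hp hq hK ha ca cb1 cb2 cc1 cc2 cc3
      (v.nonneg w) hzw (v.add_le z w) hsub (by rw [hsum, ← map_mul])
      (by rw [← map_mul v z w, hprod, ← map_mul])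
    constructor
    · rw [rho_affine v t ht1, ← hed]
      have e1 : 1 / 20 ≤ max (min (v z) 1) (Real.sqrt e) :=
        le_trans (le_min m1 (by norm_num)) (le_max_left _ _)
      have e2 : max (min (v z) 1) (Real.sqrt e) ≤ 1 :=
        max_le (min_le_right _ _) (Real.sqrt_le_one.2 (by linarith))
      have e3 : 0 ≤ -Real.log (max (min (v z) 1) (Real.sqrt e)) :=
        neg_nonneg.2 (Real.log_nonpos (by linarith) e2)
      have e4 : -Real.log (max (min (v z) 1) (Real.sqrt e)) ≤ Real.log 20 := by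
        have := Real.log_le_log (by norm_num) e1
        rw [one_div, Real.log_inv] at this
        linarith
      rw [abs_le]
      constructor <;> linarith
    · rw [rho_affine v t ht1, ← hed]
      have hβ : Real.sqrt e ≤ max (p * q) (e / (p * q)) := by
        rcases le_total (Real.sqrt e) (p * q) with h | h
        · exact h.trans (le_max_left _ _)
        · refine le_trans ?_ (le_max_right _ _)
          rw [le_div_iff₀ hpq0]
          calc Real.sqrt e * (p * q) ≤ Real.sqrt e * Real.sqrt e :=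
                mul_le_mul_of_nonneg_left h hs0.le
            _ = e := by rw [← sq, hs2]
      have hβ1 : max (p * q) (e / (p * q)) ≤ 1 := by
        refine max_le (by nlinarith) ?_
        rw [div_le_one hpq0]
        nlinarith
      have hβ0 : 0 < max (p * q) (e / (p * q)) := lt_of_lt_of_le hs0 hβ
      refine abs_log_sub_le (lt_of_lt_of_le hs0 (le_max_right _ _)) hβ0 (by norm_num) ?_ ?_
      · refine max_le ((min_le_left _ _).trans m2) ?_
        linarith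
      · refine (le_min m3 (?_ : max (p * q) (e / (p * q)) ≤ 20 * 1)).trans ?_
        · linarith
        · rw [← mul_min_of_nonneg _ _ (by norm_num : (0 : ℝ) ≤ 20)]
          refine mul_le_mul_of_nonneg_left ?_ (by norm_num)
          rw [max_min_distrib_right]
          refine le_min (min_le_left _ _) ((min_le_right _ _).trans (le_max_left _ _))
  rcases le_total (v z₂) (v z₁) with h | h
  · obtain ⟨k1, k2⟩ := key z₁ z₂ h rfl rfl
    exact Or.inl ⟨k1, k2⟩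
  · obtain ⟨k1, k2⟩ := key z₂ z₁ h (by rw [add_comm]) (by rw [mul_comm])
    exact Or.inr ⟨k2, k1⟩

end LangForms
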