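import Pool.Agent.Lib_MP_f5471b_j.AddGen1
import Pool.Agent.Lib_MP_f5471b_j.AddGen2
import Pool.Agent.Lib_MP_f5471b_j.AddGen3
import Pool.Agent.Lib_MP_f5471b_j.AddGen4

/-!
# MP_f5471b_nt part 2: addition law up to a constant
-/

namespace LangForms

theorem add_gen : ∃ ε c : ℝ, 0 < ε ∧ ε < 1 ∧ 0 ≤ c ∧ ∀ (F : Type) [Field F]
    (v : AbsoluteValue F ℝ) (t : F), 0 < v t → v t ≤ ε → AddRho v t c := by
  obtain ⟨κ₃, K₃, ε₃, c₃, hκ₃, hK₃, hε₃, hε₃', hc₃, H₃⟩ := add_gen3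
  obtain ⟨κ₄, K₄, ε₄, c₄, hκ₄, hK₄, hε₄, hε₄', hc₄, H₄⟩ := add_gen4
  obtain ⟨ε₁, c₁, hε₁, hε₁', hc₁, H₁⟩ := add_gen1 (min κ₃ κ₄) (lt_min hκ₃ hκ₄)
  obtain ⟨ε₂, c₂, hε₂, hε₂', hc₂, H₂⟩ := add_gen2 (max K₃ K₄) (le_max_of_le_left hK₃)
  refine ⟨min (min ε₁ ε₂) (min ε₃ ε₄), max (max c₁ c₂) (max c₃ c₄),
    lt_min (lt_min hε₁ hε₂) (lt_min hε₃ hε₄), ?_, ?_, ?_⟩
  · exact lt_of_le_of_lt ((min_le_left _ _).trans (min_le_left _ _)) hε₁'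
  · exact le_max_of_le_left (le_max_of_le_left hc₁)
  intro F _ v t h0 ht
  have ht₁ : v t ≤ ε₁ := ht.trans ((min_le_left _ _).trans (min_le_left _ _))
  have ht₂ : v t ≤ ε₂ := ht.trans ((min_le_left _ _).trans (min_le_right _ _))
  have ht₃ : v t ≤ ε₃ := ht.trans ((min_le_right _ _).trans (min_le_left _ _))
  have ht₄ : v t ≤ ε₄ := ht.trans ((min_le_right _ _).trans (min_le_right _ _))
  have hm₁ : c₁ ≤ max (max c₁ c₂) (max c₃ c₄) := (le_max_left _ _).trans (le_max_left _ _)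
  have hm₂ : c₂ ≤ max (max c₁ c₂) (max c₃ c₄) := (le_max_right _ _).trans (le_max_left _ _)
  have hm₃ : c₃ ≤ max (max c₁ c₂) (max c₃ c₄) := (le_max_left _ _).trans (le_max_right _ _)
  have hm₄ : c₄ ≤ max (max c₁ c₂) (max c₃ c₄) := (le_max_right _ _).trans (le_max_right _ _)
  have hmono : ∀ {c c' a b x y : ℝ}, c ≤ c' → PairClose c a b x y → PairClose c' a b x y := by
    intro c c' a b x y hc h
    rcases h with ⟨h1, h2⟩ | ⟨h1, h2⟩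
    · exact Or.inl ⟨h1.trans hc, h2.trans hc⟩
    · exact Or.inr ⟨h1.trans hc, h2.trans hc⟩
  -- the ordered case
  have hord : AddOn v t (max (max c₁ c₂) (max c₃ c₄)) fun p q => p ≤ q := by
    intro x₁ x₂ z₁ z₂ hpq hx hS hP
    rcases le_total (min κ₃ κ₄) (v x₂) with h1 | h1
    · exact hmono hm₁ (H₁ F v t h0 ht₁ x₁ x₂ z₁ z₂ ⟨hpq, h1⟩ hx hS hP)
    rcases le_total (v x₂ ^ 2) (max K₃ K₄ * v t) with h2 | h2
    · exact hmono hm₂ (H₂ F v t h0 ht₂ x₁ x₂ z₁ z₂ ⟨hpq, h2⟩ hx hS hP)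
    have h3 : K₃ * v t ≤ v x₂ ^ 2 :=
      (mul_le_mul_of_nonneg_right (le_max_left _ _) h0.le).trans h2
    have h4 : K₄ * v t ≤ v x₂ ^ 2 :=
      (mul_le_mul_of_nonneg_right (le_max_right _ _) h0.le).trans h2
    rcases le_total (v x₁) (v x₂ / 2) with h5 | h5
    · exact hmono hm₃ (H₃ F v t h0 ht₃ x₁ x₂ z₁ z₂ ⟨h5, h1.trans (min_le_left _ _), h3⟩ hx hS hP)
    · exact hmono hm₄ (H₄ F v t h0 ht₄ x₁ x₂ z₁ z₂ ⟨h5, hpq, h1.trans (min_le_right _ _), h4⟩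
        hx hS hP)
  intro x₁ x₂ z₁ z₂ _ hx hS hP
  rcases le_total (v x₁) (v x₂) with h | h
  · exact hord x₁ x₂ z₁ z₂ h hx hS hP
  · have h1 := hord x₂ x₁ z₁ z₂ h hx.symm (by
      rw [show (x₂ - x₁) ^ 2 = (x₁ - x₂) ^ 2 by ring, hS]; ring) (by
      rw [show (x₂ - x₁) ^ 2 = (x₁ - x₂) ^ 2 by ring, hP]; ring)
    rw [abs_sub_comm, add_comm (rho v t ![x₂, 1]) (rho v t ![x₁, 1]),
      show Lt v t - rho v t ![x₂, 1] - rho v t ![x₁, 1] =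
        Lt v t - rho v t ![x₁, 1] - rho v t ![x₂, 1] by ring] at h1
    exact h1

end LangForms
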