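import Pool.Agent.Lib_MP_f5471b_j.AddSit

/-!
# MP_f5471b_nt part 2: addition law up to a constant, one point away from the node
-/

namespace LangForms
namespace AddSit

/-- Case 1: both sizes at least `k`. -/
theorem real1a {k e p q a b c y z : ℝ} (hk : 0 < k) (hk1 : k ≤ 1) (he : e * 3000 ≤ k ^ 4)
    (hp : k ≤ p) (hq : k ≤ q) (h : Sit e p q a b c y z) : 1 ≤ 22 / k ^ 2 * y := by
  have he0 := h.e_pos
  have hy0 := h.y_nn
  have hp0 : 0 < p := by linarith
  have hq0 : 0 < q := by linarith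
  -- normalise: `p = k P`, `q = k Q`
  obtain ⟨P, rfl⟩ : ∃ P, p = k * P := ⟨p / k, by field_simp⟩
  obtain ⟨Q, rfl⟩ : ∃ Q, q = k * Q := ⟨q / k, by field_simp⟩
  have hP : 1 ≤ P := by nlinarith
  have hQ : 1 ≤ Q := by nlinarith
  have hPQ : 1 ≤ P * Q := by nlinarith
  have hPQ' : P + Q ≤ 2 * (P * Q) := by nlinarith
  have hPQ2 : P * Q ≤ (P * Q) ^ 2 := by nlinarith
  have hk2 : k ^ 2 ≤ 1 := by nlinarith
  have hk3 : k ^ 3 ≤ 1 := pow_le_one₀ hk.le hk1
  have hk4 : k ^ 4 ≤ 1 := pow_le_one₀ hk.le hk1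
  set X := (P * Q) ^ 2 with hX
  have hX1 : 1 ≤ X := by nlinarith
  have hk4X : 0 < k ^ 4 * X := by positivity
  -- bounds of the small terms by multiples of `k ^ 4 * X`
  have hkp : k * P * (k * Q) = k ^ 2 * (P * Q) := by ring
  have u1 : e * (k * P * (k * Q)) ≤ k ^ 4 * X / 3000 := by
    rw [hkp]
    have : k ^ 2 * (P * Q) ≤ 1 * X := mul_le_mul hk2 hPQ2 (by positivity) (by norm_num)
    nlinarith
  have u2 : e * (k * P + k * Q) ≤ k ^ 4 * X * 2 / 3000 := by
    have : k * P + k * Q ≤ 2 * X := by nlinarith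
    nlinarith
  have u3 : e ≤ k ^ 4 * X / 3000 := by nlinarith
  have u4 : e ^ 2 ≤ k ^ 4 * X / 3000 / 3000 := by
    have : e ≤ 1 / 3000 := by linarith
    nlinarith
  have hsq : (k * P * (k * Q)) ^ 2 = k ^ 4 * X := by rw [hX]; ring
  have hc : k ^ 4 * X ≤ 2 * c := by
    have := h.c_ge
    rw [hsq] at this
    nlinarith
  have hb : b ≤ 7 * k ^ 2 * X := by
    have h1 := h.b_le
    have h2 : k * P * (k * Q) * (1 + 2 * (k * P + k * Q)) ≤ 5 * k ^ 2 * X := by
      have e1 : k * P * (k * Q) * (1 + 2 * (k * P + k * Q)) =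
        k ^ 2 * (P * Q) + 2 * k ^ 3 * (P * Q) * (P + Q) := by ring
      rw [e1]
      have e2 : k ^ 2 * (P * Q) ≤ k ^ 2 * X := mul_le_mul_of_nonneg_left hPQ2 (by positivity)
      have e3 : 2 * k ^ 3 * (P * Q) * (P + Q) ≤ 2 * k ^ 2 * (P * Q) * (2 * (P * Q)) := by
        apply mul_le_mul _ hPQ' (by positivity) (by positivity)
        have : k ^ 3 ≤ k ^ 2 := by nlinarith [sq_nonneg k]
        nlinarith
      have e4 : 2 * k ^ 2 * (P * Q) * (2 * (P * Q)) = 4 * k ^ 2 * X := by rw [hX]; ring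
      linarith
    have h3 : k ^ 4 * X ≤ k ^ 2 * X := by
      apply mul_le_mul_of_nonneg_right _ (by positivity)
      nlinarith [sq_nonneg k]
    nlinarith
  have ha : a ≤ 4 * k ^ 2 * X := by
    have h1 := h.a_le
    have h2 : (k * P + k * Q) ^ 2 ≤ k ^ 2 * (2 * (P * Q)) ^ 2 := by
      rw [show (k * P + k * Q) ^ 2 = k ^ 2 * (P + Q) ^ 2 by ring]
      apply mul_le_mul_of_nonneg_left _ (by positivity)
      exact pow_le_pow_left₀ (by positivity) hPQ' 2
    have h3 : k ^ 2 * (2 * (P * Q)) ^ 2 = 4 * k ^ 2 * X := by rw [hX]; ring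
    linarith
  have hR := h.R2
  have h1 : k ^ 4 * X ≤ 14 * k ^ 2 * X * y + 8 * k ^ 2 * X * y ^ 2 := by
    have u1 : b * y ≤ 7 * k ^ 2 * X * y := mul_le_mul_of_nonneg_right hb hy0
    have u2 : a * y ^ 2 ≤ 4 * k ^ 2 * X * y ^ 2 := mul_le_mul_of_nonneg_right ha (by positivity)
    linarith
  have h2 : k ^ 2 ≤ 14 * y + 8 * y ^ 2 := by
    have : (k ^ 2 * X) * k ^ 2 ≤ (k ^ 2 * X) * (14 * y + 8 * y ^ 2) := by nlinarith
    exact le_of_mul_le_mul_left this (by positivity)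
  rw [div_mul_eq_mul_div, le_div_iff₀ (by positivity), one_mul]
  by_contra hcon
  push Not at hcon
  nlinarith

/-- Case 2: one size at least `κ`, the other at most `κ / 100`. -/
theorem real1b {κ e s p q a b c y z : ℝ} (hκ : 0 < κ) (hκ1 : κ ≤ 1) (hs0 : 0 < s)
    (hs : s * s = e) (he : s * 100 ≤ κ) (hp : p ≤ κ / 100) (hq : κ ≤ q)
    (h : Sit e p q a b c y z) :
    y ≤ 12 / κ * max p s := by
  have he0 := h.e_pos
  have hy0 := h.y_nn
  have hp0 := h.p_nn
  have hq0 : 0 < q := by linarith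
  set r := max p s with hr
  have hpr : p ≤ r := le_max_left _ _
  have hsr : s ≤ r := le_max_right _ _
  have hr0 : 0 < r := by linarith
  have hrκ : r ≤ κ / 100 := max_le hp (by linarith)
  -- normalise: `q = κ Q`, `r = κ ρ`
  obtain ⟨Q, rfl⟩ : ∃ Q, q = κ * Q := ⟨q / κ, by field_simp⟩
  have hQ : 1 ≤ Q := by nlinarith
  have hQ2 : Q ≤ Q ^ 2 := by nlinarith
  have her : e ≤ r * (κ / 100) := by
    rw [← hs]; exact mul_le_mul hsr (by linarith) hs0.le hr0.le
  have her2 : e ≤ r ^ 2 := by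
    rw [← hs]; nlinarith
  have hpQ : p + κ * Q ≤ 2 * (κ * Q) := by nlinarith
  have ha : (κ * Q) ^ 2 / 2 ≤ a := by
    have h1 := h.a_ge
    have h2 : (κ * Q * (99 / 100)) ^ 2 ≤ (κ * Q - p) ^ 2 := by
      apply pow_le_pow_left₀ (by positivity)
      nlinarith
    nlinarith
  have hκQ : κ * κ ≤ (κ * Q) ^ 2 := by nlinarith
  have hκQ' : κ * (κ * Q) ≤ (κ * Q) ^ 2 := by nlinarith
  have hb : b * κ ≤ 5 * (κ * Q) ^ 2 * r := by
    have h1 := h.b_le
    have e3 : 72 * e * (p + κ * Q) * κ ≤ 3 / 4 * ((κ * Q) ^ 2 * r) := by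
      have f1 : e * (p + κ * Q) ≤ (r * (κ / 100)) * (102 / 100 * (κ * Q)) := by
        apply mul_le_mul her _ (by positivity) (by positivity)
        nlinarith
      have f2 : e * (p + κ * Q) * κ ≤ (r * (κ / 100)) * (102 / 100 * (κ * Q)) * κ :=
        mul_le_mul_of_nonneg_right f1 hκ.le
      have f3 : (r * (κ / 100)) * (102 / 100 * (κ * Q)) * κ =
        102 / 10000 * (r * (κ * (κ * Q)) * κ) := by ring
      have f4 : r * (κ * (κ * Q)) * κ ≤ r * (κ * Q) ^ 2 * 1 := by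
        apply mul_le_mul _ hκ1 hκ.le (by positivity)
        exact mul_le_mul_of_nonneg_left hκQ' hr0.le
      nlinarith
    have e4 : 4 * e * κ ≤ 1 / 25 * ((κ * Q) ^ 2 * r) := by
      have f1 : e * κ ≤ r * (κ / 100) * κ := mul_le_mul_of_nonneg_right her hκ.le
      have f2 : r * (κ / 100) * κ ≤ 1 / 100 * ((κ * Q) ^ 2 * r) := by nlinarith
      linarith
    -- recompute sharply
    have e2' : p * (κ * Q) * (1 + 2 * (p + κ * Q)) * κ ≤ 4 * ((κ * Q) ^ 2 * r) := by
      have g1 : p * (κ * Q) * (1 + 2 * (p + κ * Q)) * κ =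
        p * (κ * (κ * Q)) + 2 * (p * (κ * Q)) * (p + κ * Q) * κ := by ring
      have g2 : p * (κ * (κ * Q)) ≤ r * (κ * Q) ^ 2 :=
        mul_le_mul hpr hκQ' (by positivity) hr0.le
      have g3 : (p * (κ * Q)) * (p + κ * Q) * κ ≤ (r * (κ * Q)) * (102 / 100 * (κ * Q)) * 1 := by
        apply mul_le_mul _ hκ1 hκ.le (by positivity)
        apply mul_le_mul _ _ (by positivity) (by positivity)
        · exact mul_le_mul_of_nonneg_right hpr (by positivity)
        · nlinarith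
      nlinarith
    nlinarith
  have hc : c * κ ^ 2 ≤ 12 * (κ * Q) ^ 2 * r ^ 2 := by
    have h1 := h.c_le
    have hκ2 : κ ^ 2 ≤ 1 := by nlinarith
    have hq2 : κ ^ 2 ≤ (κ * Q) ^ 2 := by nlinarith
    have f1 : (p * (κ * Q)) ^ 2 * κ ^ 2 ≤ (κ * Q) ^ 2 * r ^ 2 := by
      have g1 : (p * (κ * Q)) ^ 2 ≤ (r * (κ * Q)) ^ 2 := by
        apply pow_le_pow_left₀ (by positivity)
        exact mul_le_mul_of_nonneg_right hpr (by positivity)
      calc (p * (κ * Q)) ^ 2 * κ ^ 2 ≤ (r * (κ * Q)) ^ 2 * 1 :=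
            mul_le_mul g1 hκ2 (by positivity) (by positivity)
        _ = (κ * Q) ^ 2 * r ^ 2 := by ring
    have f2 : 72 * e * (p * (κ * Q)) * κ ^ 2 ≤ 72 / 100 * ((κ * Q) ^ 2 * r ^ 2) := by
      have g1 : e * (p * (κ * Q)) ≤ r ^ 2 * (κ / 100 * (κ * Q)) := by
        apply mul_le_mul her2 _ (by positivity) (by positivity)
        exact mul_le_mul_of_nonneg_right hp (by positivity)
      have g2 : r ^ 2 * (κ / 100 * (κ * Q)) ≤ 1 / 100 * ((κ * Q) ^ 2 * r ^ 2) := by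
        have : r ^ 2 * (κ * (κ * Q)) ≤ r ^ 2 * (κ * Q) ^ 2 :=
          mul_le_mul_of_nonneg_left hκQ' (by positivity)
        linarith
      have g3 : e * (p * (κ * Q)) * κ ^ 2 ≤ 1 / 100 * ((κ * Q) ^ 2 * r ^ 2) * 1 := by
        apply mul_le_mul (g1.trans g2) hκ2 (by positivity) (by positivity)
      linarith
    have f3 : 4 * e * (p + κ * Q) * κ ^ 2 ≤ 8 * ((κ * Q) ^ 2 * r ^ 2) := by
      have g1 : e * (p + κ * Q) ≤ r ^ 2 * (2 * (κ * Q)) :=
        mul_le_mul her2 hpQ (by positivity) (by positivity)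
      have g2 : e * (p + κ * Q) * κ ^ 2 ≤ r ^ 2 * (2 * (κ * Q)) * κ ^ 2 :=
        mul_le_mul_of_nonneg_right g1 (by positivity)
      have g3 : r ^ 2 * (2 * (κ * Q)) * κ ^ 2 = 2 * (r ^ 2 * (κ * (κ * Q))) * κ := by ring
      have g4 : 2 * (r ^ 2 * (κ * (κ * Q))) * κ ≤ 2 * (r ^ 2 * (κ * Q) ^ 2) * 1 := by
        apply mul_le_mul _ hκ1 hκ.le (by positivity)
        have := mul_le_mul_of_nonneg_left hκQ' (sq_nonneg r)
        linarith
      nlinarith
    have f4 : e * κ ^ 2 ≤ (κ * Q) ^ 2 * r ^ 2 := by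
      calc e * κ ^ 2 ≤ r ^ 2 * (κ * Q) ^ 2 := mul_le_mul her2 hq2 (by positivity) (by positivity)
        _ = _ := by ring
    have f5 : 1296 * e ^ 2 * κ ^ 2 ≤ (κ * Q) ^ 2 * r ^ 2 := by
      have : 1296 * e ≤ 1 := by
        have : s ≤ 1 / 100 := by linarith
        nlinarith
      have g1 : 1296 * e ^ 2 ≤ e := by nlinarith
      have g2 : 1296 * e ^ 2 * κ ^ 2 ≤ e * κ ^ 2 := mul_le_mul_of_nonneg_right g1 (by positivity)
      linarith
    have f6 : c * κ ^ 2 ≤ ((p * (κ * Q)) ^ 2 + 72 * e * (p * (κ * Q)) + 4 * e * (p + κ * Q) + e +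
      1296 * e ^ 2) * κ ^ 2 := mul_le_mul_of_nonneg_right h1 (by positivity)
    have f7 : 0 ≤ (κ * Q) ^ 2 * r ^ 2 := by positivity
    linarith
  have hR := h.R1
  -- set `u = κ y / r`
  obtain ⟨u, hu⟩ : ∃ u, y * κ = u * r := ⟨y * κ / r, by field_simp⟩
  have hu0 : 0 ≤ u := by
    by_contra hcon
    push Not at hcon
    nlinarith [mul_nonneg hy0 hκ.le, mul_pos (neg_pos.2 hcon) hr0]
  have h1 : a * y ^ 2 * κ ^ 2 ≤ (b * κ) * (y * κ) + c * κ ^ 2 := by
    have : a * y ^ 2 * κ ^ 2 ≤ (b * y + c) * κ ^ 2 := mul_le_mul_of_nonneg_right hR (by positivity)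
    linarith
  have h2 : (κ * Q) ^ 2 / 2 * (u * r) ^ 2 ≤ 5 * (κ * Q) ^ 2 * r * (u * r) +
      12 * (κ * Q) ^ 2 * r ^ 2 := by
    have g1 : (κ * Q) ^ 2 / 2 * (u * r) ^ 2 ≤ a * (u * r) ^ 2 :=
      mul_le_mul_of_nonneg_right ha (by positivity)
    have g2 : b * κ * (u * r) ≤ 5 * (κ * Q) ^ 2 * r * (u * r) :=
      mul_le_mul_of_nonneg_right hb (by positivity)
    have g3 : a * y ^ 2 * κ ^ 2 = a * (u * r) ^ 2 := by rw [← hu]; ring
    rw [g3, hu] at h1
    linarith
  have h3 : u ^ 2 ≤ 10 * u + 24 := by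
    have : ((κ * Q) ^ 2 * r ^ 2) * u ^ 2 ≤ ((κ * Q) ^ 2 * r ^ 2) * (10 * u + 24) := by nlinarith
    exact le_of_mul_le_mul_left this (by positivity)
  have h4 : u ≤ 12 := by nlinarith
  rw [div_mul_eq_mul_div, le_div_iff₀ hκ, hu]
  exact mul_le_mul_of_nonneg_right h4 hr0.le

/-- Case 2, lower bound. -/
theorem real1c {κ e s p q a b c y z : ℝ} (hκ : 0 < κ) (hκ1 : κ ≤ 1) (hs0 : 0 < s)
    (hs : s * s = e) (he : s * 100 ≤ κ) (hp : p ≤ κ / 100) (hq : κ ≤ q)
    (h : Sit e p q a b c y z) (hK : 5 / κ * s < p) : p ≤ 48 / κ * y := by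
  have he0 := h.e_pos
  have hy0 := h.y_nn
  have hz0 := h.z_nn
  have hp0' := h.p_nn
  have hq0 : 0 < q := by linarith
  have hsp : s < p := by
    have : s ≤ 5 / κ * s := by
      have : 1 ≤ 5 / κ := by rw [le_div_iff₀ hκ]; linarith
      nlinarith
    linarith
  have hp0 : 0 < p := by linarith
  have hz : z ≤ 12 / κ * p := by
    have := real1b hκ hκ1 hs0 hs he hp hq h.swap
    rwa [max_eq_left hsp.le] at this
  -- `25 e ≤ κ² p²`
  have h25 : 25 * e ≤ (κ * p) ^ 2 := by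
    have : 5 * s ≤ κ * p := by
      rw [div_mul_eq_mul_div, div_lt_iff₀ hκ] at hK
      linarith
    rw [← hs]
    nlinarith
  have hκp : κ * p ≤ p * q := by nlinarith
  have hκp2 : (κ * p) ^ 2 ≤ (p * q) ^ 2 := pow_le_pow_left₀ (by positivity) hκp 2
  have t1 : 72 * e * (p * q) ≤ (p * q) ^ 2 * (72 / 2500) := by
    have g1 : p * q ≤ q / 100 := by nlinarith
    have g2 : 25 * e * (p * q) ≤ (κ * p) ^ 2 * (p * q) :=
      mul_le_mul_of_nonneg_right h25 (by positivity)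
    have g3 : (κ * p) ^ 2 * (p * q) ≤ (p * q) ^ 2 * (1 / 100) := by
      have : (κ * p) ^ 2 * (p * q) = (κ ^ 2 * p) * (p * (p * q)) := by ring
      have g4 : κ ^ 2 * p ≤ κ * (1 / 100) := by nlinarith
      have g5 : (κ ^ 2 * p) * (p * (p * q)) ≤ (κ * (1 / 100)) * (p * (p * q)) :=
        mul_le_mul_of_nonneg_right g4 (by positivity)
      have g6 : (κ * (1 / 100)) * (p * (p * q)) ≤ (q * (1 / 100)) * (p * (p * q)) := by
        apply mul_le_mul_of_nonneg_right _ (by positivity)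
        linarith
      nlinarith
    linarith
  have t2 : 4 * e * (p + q) ≤ (p * q) ^ 2 * (9 / 25) := by
    have g1 : p + q ≤ 101 / 100 * q := by linarith
    have g2 : 25 * e * (p + q) ≤ (κ * p) ^ 2 * (101 / 100 * q) :=
      mul_le_mul h25 g1 (by positivity) (by positivity)
    have g3 : (κ * p) ^ 2 * q ≤ (p * q) ^ 2 := by
      have : κ ^ 2 ≤ q := by nlinarith
      have g4 : κ ^ 2 * (p ^ 2 * q) ≤ q * (p ^ 2 * q) := mul_le_mul_of_nonneg_right this (by positivity)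
      nlinarith
    nlinarith
  have t3 : e ≤ (p * q) ^ 2 * (1 / 25) := by linarith
  have t4 : 1296 * e ^ 2 ≤ (p * q) ^ 2 * (1 / 25) := by
    have : 1296 * e ≤ 1 := by
      have : s ≤ 1 / 100 := by linarith
      nlinarith
    nlinarith
  have hc : (p * q) ^ 2 * (1 / 2) ≤ c := by
    have := h.c_ge
    nlinarith [sq_nonneg (p * q)]
  have ha : a ≤ 2 * q ^ 2 := by
    have h1 := h.a_le
    nlinarith
  have hP := h.prod
  have h1 : (p * q) ^ 2 * (1 / 2) ≤ 2 * q ^ 2 * (y * (12 / κ * p)) := by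
    calc (p * q) ^ 2 * (1 / 2) ≤ c := hc
      _ = a * (y * z) := hP.symm
      _ ≤ 2 * q ^ 2 * (y * (12 / κ * p)) := by
        apply mul_le_mul ha _ (by positivity) (by positivity)
        exact mul_le_mul_of_nonneg_left hz hy0
  have h2 : (q ^ 2 * p) * p ≤ (q ^ 2 * p) * (48 / κ * y) := by
    have : 48 / κ = 4 * (12 / κ) := by ring
    rw [this]
    nlinarith
  exact le_of_mul_le_mul_left h2 (by positivity)

end AddSit

open AddSit

theorem add_gen1_aux (κ : ℝ) (hκ : 0 < κ) (hκ1 : κ ≤ 1) : ∃ ε c : ℝ, 0 < ε ∧ ε < 1 ∧ 0 ≤ c ∧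
    ∀ (F : Type) [Field F]
    (v : AbsoluteValue F ℝ) (t : F), 0 < v t → v t ≤ ε →
    AddOn v t c fun p q => p ≤ q ∧ κ ≤ q := by
  have hκ2 : κ ^ 2 ≤ 1 := by nlinarith
  have hκ4 : κ ^ 4 ≤ 1 := pow_le_one₀ hκ.le hκ1
  have hMdef : (220000 : ℝ) / κ ^ 2 = 22 / (κ / 100) ^ 2 := by field_simp; norm_num
  have hM1 : 1 ≤ 220000 / κ ^ 2 := by
    rw [le_div_iff₀ (by positivity)]; linarith
  refine ⟨κ ^ 4 / 1000000000000, Real.log (220000 / κ ^ 2), by positivity, ?_,
    Real.log_nonneg hM1, ?_⟩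
  · linarith
  intro F _ v t h0 ht
  have h1 : v t ≤ 1 := by linarith
  have hs0 := Real.sqrt_pos.2 h0
  have hss := Real.mul_self_sqrt h0.le
  have hsκ : Real.sqrt (v t) * 100 ≤ κ := by
    have : Real.sqrt (v t) ≤ κ / 100 := by
      apply Real.sqrt_le_iff.2
      refine ⟨by positivity, ?_⟩
      have : κ ^ 4 ≤ κ ^ 2 := by nlinarith [sq_nonneg κ]
      nlinarith
    linarith
  have ht1 : v t * 3000 ≤ (κ / 100) ^ 4 := by
    have : (κ / 100) ^ 4 = κ ^ 4 / 100000000 := by ring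
    rw [this]; linarith
  set M := 220000 / κ ^ 2 with hM
  apply addOn_of hM1 (fun p q h => h.1) v t h0
  intro p q a b c y z hR hs hyz
  obtain ⟨hpq, hq⟩ := hR
  have hal1 := al_le_one h0 hpq
  have hbe1 := be_le_one h0 h1 hpq
  have hrp := rr_pos h0 p
  have hrq := rr_pos h0 q
  have hrq1 := rr_le_one h1 q
  have hal0 := al_pos h0 p q
  have hbe0 := be_pos h0 p q
  have hr1 := rr_le_one h1 y
  have hr2 := rr_le_one h1 z
  have hkq : κ ≤ rr (v t) q := by
    have : min κ 1 ≤ rr (v t) q := (min_le_min hq le_rfl).trans (le_max_left _ _)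
    rwa [min_eq_left hκ1] at this
  rcases le_total (κ / 100) p with hp | hp
  · -- case 1
    have hk0 : 0 < κ / 100 := by positivity
    have hy := real1a hk0 (by linarith) ht1 hp (by linarith) hs
    have hz := real1a hk0 (by linarith) ht1 hp (by linarith) hs.swap
    rw [← hMdef] at hy hz
    have hy' := le_rr_of (e := v t) hM1 le_rfl hy
    have hz' := le_rr_of (e := v t) hM1 le_rfl hz
    have hkp : κ / 100 ≤ rr (v t) p := by
      have : min (κ / 100) 1 ≤ rr (v t) p := (min_le_min hp le_rfl).trans (le_max_left _ _)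
      rwa [min_eq_left (by linarith)] at this
    have hal2 : κ / 100 ≤ al (v t) p q := by
      rw [al, le_div_iff₀ hrq]; nlinarith
    have hbe2 : (κ / 100) * κ ≤ be (v t) p q :=
      (mul_le_mul hkp hkq hκ.le hrp.le).trans (le_max_left _ _)
    have hMk : 1 ≤ M * (κ / 100 * κ) := by
      rw [hM]; field_simp; norm_num
    have hM0 : 0 < M := by linarith
    refine ⟨⟨?_, by linarith⟩, ?_, by linarith⟩
    · have := mul_le_mul_of_nonneg_left hbe2 hM0.le
      linarith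
    · have h3 : κ / 100 * κ ≤ al (v t) p q := by nlinarith
      have := mul_le_mul_of_nonneg_left h3 hM0.le
      linarith
  · -- case 2
    have hrpe : rr (v t) p = max p (Real.sqrt (v t)) := rr_eq' (by linarith)
    have main : ∀ y z, Sit (v t) p q a b c y z → rr (v t) y ≤ 12 / κ * rr (v t) p ∧
        rr (v t) p ≤ 48 / κ * rr (v t) y := by
      intro y z hs
      have h12 : 1 ≤ 12 / κ := by rw [le_div_iff₀ hκ]; linarith
      have h48 : 1 ≤ 48 / κ := by rw [le_div_iff₀ hκ]; linarith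
      constructor
      · apply rr_le_of h12 (sqrt_le_rr _ _) hrp.le
        rw [hrpe]
        exact real1b hκ hκ1 hs0 hss hsκ hp hq hs
      · rcases le_or_gt p (5 / κ * Real.sqrt (v t)) with hK | hK
        · have h5 : 1 ≤ 5 / κ := by rw [le_div_iff₀ hκ]; linarith
          have g1 : rr (v t) p ≤ 5 / κ * Real.sqrt (v t) := by
            rw [hrpe]; exact max_le hK (by nlinarith)
          have g2 := sqrt_le_rr (v t) y
          have g3 : 5 / κ * Real.sqrt (v t) ≤ 48 / κ * rr (v t) y := by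
            apply mul_le_mul _ g2 hs0.le (by positivity)
            apply div_le_div_of_nonneg_right (by norm_num) hκ.le
          linarith
        · have hsp : Real.sqrt (v t) ≤ p := by
            have : Real.sqrt (v t) ≤ 5 / κ * Real.sqrt (v t) := by
              have : 1 ≤ 5 / κ := by rw [le_div_iff₀ hκ]; linarith
              nlinarith
            linarith
          have hp1 : p ≤ 1 := by linarith
          rw [rr_eq hsp hp1]
          exact le_rr_of h48 hp1 (real1c hκ hκ1 hs0 hss hsκ hp hq hs hK)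
    obtain ⟨y1, y2⟩ := main y z hs
    obtain ⟨z1, z2⟩ := main z y hs.swap
    -- compare `al`, `be` with `rr p`
    have ga1 : rr (v t) p ≤ al (v t) p q := by
      rw [al, le_div_iff₀ hrq]; nlinarith
    have ga2 : κ * al (v t) p q ≤ rr (v t) p := by
      rw [al, ← mul_div_assoc, div_le_iff₀ hrq]; nlinarith
    have gb1 : κ * rr (v t) p ≤ be (v t) p q := by
      refine le_trans ?_ (le_max_left _ _)
      nlinarith
    have gb2 : κ * be (v t) p q ≤ rr (v t) p := by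
      have := be_le_al h0 h1 p q
      nlinarith
    have hMκ : M * κ ^ 2 = 220000 := by rw [hM]; field_simp
    have e12 : 12 / κ * κ = 12 := by field_simp
    have e48 : 48 / κ * κ = 48 := by field_simp
    have hκ20 : 0 < κ ^ 2 := by positivity
    have key : ∀ A B : ℝ, A * κ ^ 2 ≤ 220000 * B → A ≤ M * B := by
      intro A B hAB
      have : A ≤ 220000 * B / κ ^ 2 := by rw [le_div_iff₀ hκ20]; exact hAB
      calc A ≤ 220000 * B / κ ^ 2 := this
        _ = M * B := by rw [hM]; ring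
    have a12 : ∀ A B : ℝ, A ≤ 12 / κ * B → A * κ ≤ 12 * B := by
      intro A B hAB
      rw [div_mul_eq_mul_div, le_div_iff₀ hκ] at hAB
      exact hAB
    have a48 : ∀ A B : ℝ, A ≤ 48 / κ * B → A * κ ≤ 48 * B := by
      intro A B hAB
      rw [div_mul_eq_mul_div, le_div_iff₀ hκ] at hAB
      exact hAB
    have y1' := a12 _ _ y1
    have z1' := a12 _ _ z1
    have y2' := a48 _ _ y2
    have z2' := a48 _ _ z2
    have hry := rr_pos h0 y
    have hrz := rr_pos h0 z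
    refine ⟨⟨key _ _ ?_, key _ _ ?_⟩, key _ _ ?_, key _ _ ?_⟩
    · nlinarith
    · nlinarith
    · nlinarith
    · nlinarith

theorem add_gen1 (κ : ℝ) (hκ : 0 < κ) : ∃ ε c : ℝ, 0 < ε ∧ ε < 1 ∧ 0 ≤ c ∧ ∀ (F : Type) [Field F]
    (v : AbsoluteValue F ℝ) (t : F), 0 < v t → v t ≤ ε →
    AddOn v t c fun p q => p ≤ q ∧ κ ≤ q := by
  obtain ⟨ε, c, h1, h2, h3, h4⟩ := add_gen1_aux (min κ 1) (lt_min hκ one_pos) (min_le_right _ _)
  refine ⟨ε, c, h1, h2, h3, fun F _ v t h0 ht => ?_⟩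
  intro x₁ x₂ z₁ z₂ hR
  exact h4 F v t h0 ht x₁ x₂ z₁ z₂ ⟨hR.1, (min_le_left _ _).trans hR.2⟩

end LangForms
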