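import Pool.Agent.Lib_MP_f5471b_j.AddNABase

/-!
# MP_f5471b_nt: the nonarchimedean addition law, `|x₁|² ≤ |t|`, `|x₂| < 1`
-/

namespace LangForms

open AddNAaux

theorem add_na2 {F : Type} [Field F] (v : AbsoluteValue F ℝ) (hv : IsNonarchimedean v) (t : F)
    (h0 : 0 < v t) (h1 : v t < 1) : AddOn v t 0 fun p q => p ≤ q ∧ q < 1 ∧ p ^ 2 ≤ v t := by
  intro x₁ x₂ z₁ z₂ hR hne hS hP
  obtain ⟨hpq, hq, hpt⟩ := hR
  have hA : (x₁ - x₂) ^ 2 ≠ 0 := pow_ne_zero 2 (sub_ne_zero.2 hne)
  change _ = cB t x₁ x₂ at hS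
  change _ = cC t x₁ x₂ at hP
  have hp0 : 0 ≤ v x₁ := v.nonneg _
  have hq0 : 0 ≤ v x₂ := v.nonneg _
  set s := √(v t) with hs
  have hs0 : 0 < s := Real.sqrt_pos.2 h0
  have hss : s * s = v t := Real.mul_self_sqrt h0.le
  have hs1 : s < 1 := by nlinarith
  have hts : v t < s := by nlinarith
  have hps : v x₁ ≤ s := Real.le_sqrt_of_sq_le hpt
  have tr1 : tr v t x₁ = s := by
    unfold tr
    rw [min_eq_left (hps.trans hs1.le), max_eq_right hps]
  have hpq2 : (v x₁ * v x₂) ^ 2 < v t := by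
    rw [mul_pow]
    have : v x₂ ^ 2 < 1 := by nlinarith
    rcases hp0.lt_or_eq with h | h
    · nlinarith [mul_pos h h]
    · rw [← h]
      simpa using h0
  have hc : v (cC t x₁ x₂) = v t := cC_eq_t v hv hpq hq h0 h1 hpq2
  rcases le_or_gt (v x₂) s with hqs | hqs
  · -- `q ≤ √ε`
    have tr2 : tr v t x₂ = s := by
      unfold tr
      rw [min_eq_left (hqs.trans hs1.le), max_eq_right hqs]
    have hb : v (cB t x₁ x₂) ≤ v t := by
      have hpq' : v x₁ * v x₂ ≤ v t := by
        rw [← hss]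
        exact mul_le_mul hps hqs hq0 hs0.le
      apply cB_le v hv hpq
      · exact hpq'
      · exact (mul_le_of_le_one_right (mul_nonneg hp0 hq0) hq.le).trans hpq'
      · exact mul_le_of_le_one_right h0.le hq.le
      · exact le_rfl
    obtain ⟨l1, l2⟩ := roots_ge v hv hA hS hP (M := 1) (by rw [hc, mul_one]; exact hb) (by
      rw [hc, one_pow, mul_one]
      refine (cA_le v hv hpq).trans ?_
      rw [← hss, sq]
      exact mul_le_mul hqs hqs hq0 hs0.le)
    refine close0 v t h0 h1 x₁ x₂ z₁ z₂ (by rw [tr1, tr2]) rfl rfl (Or.inl ?_)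
    rw [tr1, tr2, div_self hs0.ne', hss, div_self h0.ne', max_eq_right h1.le]
    constructor
    · unfold tr
      rw [min_eq_right l1, max_eq_left hs1.le]
    · unfold tr
      rw [min_eq_right l2, max_eq_left hs1.le]
  · -- `√ε < q`
    have hq0' : 0 < v x₂ := hs0.trans hqs
    have hpq' : v x₁ < v x₂ := hps.trans_lt hqs
    have tr2 : tr v t x₂ = v x₂ := by
      unfold tr
      rw [min_eq_left hq.le, max_eq_left hqs.le]
    have ha : v ((x₁ - x₂) ^ 2) = v x₂ ^ 2 := cA_eq v hv hpq'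
    set m := s / v x₂ with hm
    have hm0 : 0 < m := div_pos hs0 hq0'
    have hqm : v x₂ * m = s := by
      rw [hm]
      field_simp
    have hm1 : m < 1 := (div_lt_one hq0').2 hqs
    have hsm : s ≤ m := by
      rw [hm, le_div_iff₀ hq0']
      nlinarith
    have hb : v (cB t x₁ x₂) ≤ v ((x₁ - x₂) ^ 2) * m := by
      rw [ha, sq, mul_assoc, hqm]
      have e1 : v x₁ * v x₂ ≤ v x₂ * s := by
        rw [mul_comm]
        exact mul_le_mul_of_nonneg_left hps hq0
      have e2 : v t ≤ v x₂ * s := by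
        rw [← hss]
        exact mul_le_mul_of_nonneg_right hqs.le hs0.le
      apply cB_le v hv hpq
      · exact e1
      · exact (mul_le_of_le_one_right (mul_nonneg hp0 hq0) hq.le).trans e1
      · exact (mul_le_of_le_one_right h0.le hq.le).trans e2
      · exact e2
    obtain ⟨e1, e2⟩ := roots_eq v hv hA hS hP hm0 hb (by
      rw [hc, ha, ← mul_pow, hqm, sq, hss])
    refine close0 v t h0 h1 x₁ x₂ z₁ z₂ (by rw [tr1, tr2]; exact hqs.le) rfl rfl (Or.inl ?_)
    rw [tr1, tr2]
    have hmax : max (s * v x₂) (v t / (s * v x₂)) = m := by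
      have e3 : v t / (s * v x₂) = m := by
        rw [← hss, hm]
        field_simp
      rw [e3, max_eq_right]
      refine le_trans ?_ hsm
      exact mul_le_of_le_one_right hs0.le hq.le
    rw [hmax]
    constructor
    · unfold tr
      rw [e1, min_eq_left hm1.le, max_eq_left (by rw [← hs]; exact hsm)]
    · unfold tr
      rw [e2, min_eq_left hm1.le, max_eq_left (by rw [← hs]; exact hsm)]

end LangForms
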