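import Pool.Agent.Lib_MP_f5471b_j.AddNABase

/-!
# MP_f5471b_nt: the nonarchimedean addition law, `|t| < |x₁|²`, `|x₂| < 1`
-/

namespace LangForms

open AddNAaux

theorem add_na3 {F : Type} [Field F] (v : AbsoluteValue F ℝ) (hv : IsNonarchimedean v) (t : F)
    (h0 : 0 < v t) (h1 : v t < 1) : AddOn v t 0 fun p q => p ≤ q ∧ q < 1 ∧ v t < p ^ 2 := by
  intro x₁ x₂ z₁ z₂ hR hne hS hP
  obtain ⟨hpq, hq, hpt⟩ := hR
  have hA : (x₁ - x₂) ^ 2 ≠ 0 := pow_ne_zero 2 (sub_ne_zero.2 hne)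
  change _ = cB t x₁ x₂ at hS
  change _ = cC t x₁ x₂ at hP
  set s := √(v t) with hs
  have hs0 : 0 < s := Real.sqrt_pos.2 h0
  have hss : s * s = v t := Real.mul_self_sqrt h0.le
  have hs1 : s < 1 := by nlinarith
  have hsp : s < v x₁ := (Real.sqrt_lt' ((v.nonneg _).lt_of_ne fun h => by
    rw [← h] at hpt
    norm_num at hpt
    linarith)).2 hpt
  have hp0 : 0 < v x₁ := hs0.trans hsp
  have hq0 : 0 < v x₂ := hp0.trans_le hpq
  have hp1 : v x₁ < 1 := hpq.trans_lt hq
  have hb0 : 0 < v x₁ * v x₂ := mul_pos hp0 hq0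
  have hb1 : v x₁ * v x₂ < 1 := by nlinarith
  have htb : v t < v x₁ * v x₂ := hpt.trans_le (by rw [sq]; exact mul_le_mul_of_nonneg_left hpq hp0.le)
  have tr1 : tr v t x₁ = v x₁ := by
    unfold tr
    rw [min_eq_left hp1.le, max_eq_left hsp.le]
  have tr2 : tr v t x₂ = v x₂ := by
    unfold tr
    rw [min_eq_left hq.le, max_eq_left (hsp.le.trans hpq)]
  have hb : v (cB t x₁ x₂) = v x₁ * v x₂ := cB_eq v hv hpq hq h0 htb
  have ha0 : 0 < v ((x₁ - x₂) ^ 2) := v.pos hA
  have ha : v ((x₁ - x₂) ^ 2) ≤ v x₂ ^ 2 := cA_le v hv hpq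
  have hc : v (cC t x₁ x₂) ≤ max ((v x₁ * v x₂) ^ 2) (v t) := by
    apply cC_le v hv hpq h1
    · exact le_max_left _ _
    · exact (mul_le_of_le_one_right h0.le hb1.le).trans (le_max_right _ _)
    · exact (mul_le_of_le_one_right h0.le hq.le).trans (le_max_right _ _)
    · exact le_max_right _ _
  have hsep : v ((x₁ - x₂) ^ 2) * v (cC t x₁ x₂) < v (cB t x₁ x₂) ^ 2 := by
    rw [hb]
    have hmx : max ((v x₁ * v x₂) ^ 2) (v t) < v x₁ ^ 2 := by
      apply max_lt _ hpt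
      rw [mul_pow]
      exact mul_lt_of_lt_one_right (by positivity) (by nlinarith)
    calc v ((x₁ - x₂) ^ 2) * v (cC t x₁ x₂) ≤ v x₂ ^ 2 * max ((v x₁ * v x₂) ^ 2) (v t) :=
          mul_le_mul ha hc (v.nonneg _) (by positivity)
      _ < v x₂ ^ 2 * v x₁ ^ 2 := mul_lt_mul_of_pos_left hmx (by positivity)
      _ = (v x₁ * v x₂) ^ 2 := by ring
  have k1 : ∀ z : F, v z = v (cB t x₁ x₂) / v ((x₁ - x₂) ^ 2) → tr v t z = v x₁ / v x₂ := by
    intro z hz
    rw [hb] at hz
    unfold tr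
    rcases hpq.lt_or_eq with h | h
    · rw [cA_eq v hv h] at hz
      have hz' : v z = v x₁ / v x₂ := by
        rw [hz]
        field_simp
      have l1 : v x₁ / v x₂ < 1 := (div_lt_one hq0).2 h
      have l2 : s ≤ v x₁ / v x₂ := by
        rw [le_div_iff₀ hq0]
        nlinarith
      rw [hz', min_eq_left l1.le, max_eq_left (by rw [← hs]; exact l2)]
    · have l1 : 1 ≤ v z := by
        rw [hz, le_div_iff₀ ha0, one_mul, h, ← sq]
        exact ha
      rw [min_eq_right l1, max_eq_left (by rw [← hs]; exact hs1.le), h, div_self hq0.ne']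
  have k2 : ∀ z : F, v z = v (cC t x₁ x₂) / v (cB t x₁ x₂) →
      tr v t z = max (v x₁ * v x₂) (v t / (v x₁ * v x₂)) := by
    intro z hz
    rw [hb] at hz
    unfold tr
    rw [← hs]
    rcases lt_trichotomy (v x₁ * v x₂) s with h | h | h
    · have h2 : (v x₁ * v x₂) ^ 2 < v t := by
        rw [← hss, sq]
        exact mul_lt_mul'' h h hb0.le hb0.le
      rw [cC_eq_t v hv hpq hq h0 h1 h2] at hz
      have l1 : v t / (v x₁ * v x₂) < 1 := (div_lt_one hb0).2 htb
      have l2 : s < v t / (v x₁ * v x₂) := by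
        rw [lt_div_iff₀ hb0, ← hss]
        exact mul_lt_mul_of_pos_left h hs0
      rw [hz, min_eq_left l1.le, max_eq_left l2.le, max_eq_right (h.trans l2).le]
    · have h2 : v t / (v x₁ * v x₂) = s := by
        rw [h, ← hss]
        field_simp
      have l1 : v z ≤ s := by
        rw [hz, div_le_iff₀ hb0, h, hss]
        refine hc.trans (max_le ?_ le_rfl)
        rw [h, sq, hss]
      rw [min_eq_left (l1.trans hs1.le), max_eq_right l1, h2, h, max_self]
    · have h2 : v t < (v x₁ * v x₂) ^ 2 := by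
        rw [← hss, sq]
        exact mul_lt_mul'' h h hs0.le hs0.le
      have h3 : v (cC t x₁ x₂) = (v x₁ * v x₂) ^ 2 := by
        apply cC_eq_pq v hv hpq h1
        · exact (mul_le_of_le_one_right h0.le hb1.le).trans_lt h2
        · exact (mul_le_of_le_one_right h0.le hq.le).trans_lt h2
        · exact h2
      have hz' : v z = v x₁ * v x₂ := by
        rw [hz, h3]
        field_simp
      have l2 : v t / (v x₁ * v x₂) < s := by
        rw [div_lt_iff₀ hb0, ← hss]
        exact mul_lt_mul_of_pos_left h hs0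
      rw [hz', min_eq_left hb1.le, max_eq_left h.le, max_eq_left (l2.trans h).le]
  refine close0 v t h0 h1 x₁ x₂ z₁ z₂ (by rw [tr1, tr2]; exact hpq) rfl rfl ?_
  rw [tr1, tr2]
  rcases roots_sep v hv hA hS hP hsep with ⟨e1, e2⟩ | ⟨e1, e2⟩
  · exact Or.inl ⟨k1 z₁ e1, k2 z₂ e2⟩
  · exact Or.inr ⟨k2 z₁ e1, k1 z₂ e2⟩

end LangForms
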