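import Pool.Agent.Lib_MP_f5471b_j.AddNA1
import Pool.Agent.Lib_MP_f5471b_j.AddNA2
import Pool.Agent.Lib_MP_f5471b_j.AddNA3

/-!
# MP_f5471b_nt: the nonarchimedean addition law
-/

namespace LangForms

theorem add_na {F : Type} [Field F] (v : AbsoluteValue F ℝ) (hv : IsNonarchimedean v) (t : F)
    (h0 : 0 < v t) (h1 : v t < 1) : AddRho v t 0 := by
  have key : AddOn v t 0 fun p q => p ≤ q := by
    intro x₁ x₂ z₁ z₂ hR hne hS hP
    rcases le_or_gt 1 (v x₂) with hq | hq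
    · exact add_na1 v hv t h0 h1 x₁ x₂ z₁ z₂ ⟨hR, hq⟩ hne hS hP
    · rcases le_or_gt (v x₁ ^ 2) (v t) with hp | hp
      · exact add_na2 v hv t h0 h1 x₁ x₂ z₁ z₂ ⟨hR, hq, hp⟩ hne hS hP
      · exact add_na3 v hv t h0 h1 x₁ x₂ z₁ z₂ ⟨hR, hq, hp⟩ hne hS hP
  intro x₁ x₂ z₁ z₂ _ hne hS hP
  rcases le_total (v x₁) (v x₂) with h | h
  · exact key x₁ x₂ z₁ z₂ h hne hS hP
  · have := key x₂ x₁ z₁ z₂ h hne.symm (by linear_combination hS) (by linear_combination hP)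
    rw [abs_sub_comm, add_comm (rho v t ![x₂, 1]), sub_right_comm] at this
    exact this

end LangForms
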