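import Pool.Agent.Lib_MP_f5471b_j.AddNABase

/-!
# MP_f5471b_nt: the nonarchimedean addition law, `1 ≤ |x₂|`
-/

namespace LangForms

open AddNAaux

theorem add_na1 {F : Type} [Field F] (v : AbsoluteValue F ℝ) (hv : IsNonarchimedean v) (t : F)
    (h0 : 0 < v t) (h1 : v t < 1) : AddOn v t 0 fun p q => p ≤ q ∧ 1 ≤ q := by
  intro x₁ x₂ z₁ z₂ hR hne hS hP
  obtain ⟨hpq, hq⟩ := hR
  have hA : (x₁ - x₂) ^ 2 ≠ 0 := pow_ne_zero 2 (sub_ne_zero.2 hne)
  change _ = cB t x₁ x₂ at hS
  change _ = cC t x₁ x₂ at hP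
  have hq0 : 0 < v x₂ := one_pos.trans_le hq
  have hp0 : 0 ≤ v x₁ := v.nonneg _
  set s := √(v t) with hs
  have hs0 : 0 < s := Real.sqrt_pos.2 h0
  have hss : s * s = v t := Real.mul_self_sqrt h0.le
  have hs1 : s < 1 := by nlinarith
  have hts : v t < s := by nlinarith
  have tr2 : tr v t x₂ = 1 := by
    unfold tr
    rw [min_eq_right hq, max_eq_left hs1.le]
  rcases le_or_gt 1 (v x₁) with hp | hp
  · -- `1 ≤ p`
    have tr1 : tr v t x₁ = 1 := by
      unfold tr
      rw [min_eq_right hp, max_eq_left hs1.le]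
    have hpq1 : 1 ≤ v x₁ * v x₂ := one_le_mul_of_one_le_of_one_le hp hq
    have h2 : v x₁ * v x₂ ≤ (v x₁ * v x₂) ^ 2 := by nlinarith
    have hc : v (cC t x₁ x₂) = (v x₁ * v x₂) ^ 2 := by
      apply cC_eq_pq v hv hpq h1
      · nlinarith
      · nlinarith [mul_le_mul_of_nonneg_right hp hq0.le]
      · nlinarith
    have hb : v (cB t x₁ x₂) ≤ v x₁ * v x₂ * v x₂ := by
      apply cB_le v hv hpq
      · nlinarith
      · exact le_rfl
      · nlinarith [mul_le_mul_of_nonneg_right hpq1 hq0.le]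
      · nlinarith [mul_le_mul_of_nonneg_right hpq1 hq0.le]
    obtain ⟨l1, l2⟩ := roots_ge v hv hA hS hP (M := 1) (by
      rw [hc, mul_one]
      refine hb.trans ?_
      nlinarith [mul_le_mul_of_nonneg_right hp (mul_nonneg hp0 (mul_nonneg hq0.le hq0.le))]) (by
      rw [hc, one_pow, mul_one]
      refine (cA_le v hv hpq).trans ?_
      have := pow_le_pow_left₀ hq0.le (show v x₂ ≤ v x₁ * v x₂ by nlinarith) 2
      exact this)
    refine close0 v t h0 h1 x₁ x₂ z₁ z₂ (by rw [tr1, tr2]) rfl rfl (Or.inl ?_)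
    rw [tr1, tr2]
    refine ⟨?_, ?_⟩
    · unfold tr
      rw [min_eq_right l1, max_eq_left hs1.le]
      norm_num
    · unfold tr
      rw [min_eq_right l2, max_eq_left hs1.le]
      norm_num
      exact h1.le
  · -- `p < 1`
    have hpq' : v x₁ < v x₂ := hp.trans_le hq
    have ha : v ((x₁ - x₂) ^ 2) = v x₂ ^ 2 := cA_eq v hv hpq'
    set r := tr v t x₁ with hr
    have hr' : r = max (v x₁) s := by
      rw [hr]
      unfold tr
      rw [min_eq_left hp.le]
    have hrs : s ≤ r := hr' ▸ le_max_right _ _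
    have hrp : v x₁ ≤ r := hr' ▸ le_max_left _ _
    have hr0 : 0 < r := hs0.trans_le hrs
    have hr1 : r < 1 := by
      rw [hr']
      exact max_lt hp hs1
    have htr : v t ≤ r * r := by
      rw [← hss]
      exact mul_le_mul hrs hrs hs0.le hr0.le
    have htr' : v t ≤ r := hts.le.trans hrs
    have hb : v (cB t x₁ x₂) ≤ v ((x₁ - x₂) ^ 2) * r := by
      rw [ha]
      have hqq : v x₂ ≤ v x₂ ^ 2 := by nlinarith
      apply cB_le v hv hpq
      · nlinarith
      · nlinarith [mul_le_mul_of_nonneg_right hrp (mul_nonneg hq0.le hq0.le)]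
      · nlinarith [mul_le_mul_of_nonneg_right htr' hq0.le]
      · nlinarith
    have hc : v (cC t x₁ x₂) ≤ v ((x₁ - x₂) ^ 2) * r ^ 2 := by
      rw [ha]
      have hqq : v x₂ ≤ v x₂ ^ 2 := by nlinarith
      have hqq1 : 1 ≤ v x₂ ^ 2 := hq.trans hqq
      apply cC_le v hv hpq h1
      · rw [mul_pow, mul_comm]
        exact mul_le_mul_of_nonneg_left (pow_le_pow_left₀ hp0 hrp 2) (sq_nonneg _)
      · calc v t * (v x₁ * v x₂) ≤ r * r * (1 * v x₂ ^ 2) := by
              apply mul_le_mul htr _ (mul_nonneg hp0 hq0.le) (mul_nonneg hr0.le hr0.le)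
              exact mul_le_mul hp.le hqq hq0.le zero_le_one
          _ = v x₂ ^ 2 * r ^ 2 := by ring
      · calc v t * v x₂ ≤ r * r * v x₂ ^ 2 := mul_le_mul htr hqq hq0.le (mul_nonneg hr0.le hr0.le)
          _ = v x₂ ^ 2 * r ^ 2 := by ring
      · calc v t = v t * 1 := (mul_one _).symm
          _ ≤ r * r * v x₂ ^ 2 := mul_le_mul htr hqq1 zero_le_one (mul_nonneg hr0.le hr0.le)
          _ = v x₂ ^ 2 * r ^ 2 := by ring
    obtain ⟨u1, u2⟩ := roots_le v hv hA hS hP hr0.le hb hc
    have key : tr v t z₁ = r ∧ tr v t z₂ = r := by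
      rcases le_or_gt (v x₁) s with hps | hps
      · have hrs' : r = s := by rw [hr', max_eq_right hps]
        constructor
        · unfold tr
          rw [min_eq_left (u1.trans hr1.le), max_eq_right (by rw [← hs, ← hrs']; exact u1), hrs']
        · unfold tr
          rw [min_eq_left (u2.trans hr1.le), max_eq_right (by rw [← hs, ← hrs']; exact u2), hrs']
      · have hrp' : r = v x₁ := by rw [hr', max_eq_left hps.le]
        have hp0' : 0 < v x₁ := hs0.trans hps
        have htp : v t < v x₁ ^ 2 := by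
          rw [← hss, sq]
          exact mul_lt_mul'' hps hps hs0.le hs0.le
        have hqq : v x₂ ≤ v x₂ ^ 2 := by nlinarith
        have hqq1 : 1 ≤ v x₂ ^ 2 := hq.trans hqq
        have hceq : v (cC t x₁ x₂) = (v x₁ * v x₂) ^ 2 := by
          apply cC_eq_pq v hv hpq h1
          · calc v t * (v x₁ * v x₂) ≤ v t * (1 * v x₂ ^ 2) := by
                  apply mul_le_mul_of_nonneg_left _ h0.le
                  exact mul_le_mul hp.le hqq hq0.le zero_le_one
              _ = v t * v x₂ ^ 2 := by ring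
              _ < v x₁ ^ 2 * v x₂ ^ 2 := mul_lt_mul_of_pos_right htp (by positivity)
              _ = _ := by ring
          · calc v t * v x₂ ≤ v t * v x₂ ^ 2 := mul_le_mul_of_nonneg_left hqq h0.le
              _ < v x₁ ^ 2 * v x₂ ^ 2 := mul_lt_mul_of_pos_right htp (by positivity)
              _ = _ := by ring
          · calc v t ≤ v t * v x₂ ^ 2 := le_mul_of_one_le_right h0.le hqq1
              _ < v x₁ ^ 2 * v x₂ ^ 2 := mul_lt_mul_of_pos_right htp (by positivity)
              _ = _ := by ring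
        obtain ⟨e1, e2⟩ := roots_eq v hv hA hS hP hr0 hb (by
          rw [hceq, ha, hrp']
          ring)
        constructor
        · unfold tr
          rw [e1, min_eq_left hr1.le, max_eq_left (by rw [← hs]; exact hrs)]
        · unfold tr
          rw [e2, min_eq_left hr1.le, max_eq_left (by rw [← hs]; exact hrs)]
    refine close0 v t h0 h1 x₁ x₂ z₁ z₂ (by rw [tr2]; exact hr1.le) rfl rfl (Or.inl ?_)
    rw [tr2, ← hr, div_one, mul_one, max_eq_left]
    · exact key
    · rw [div_le_iff₀ hr0]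
      exact htr

end LangForms
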