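import Pool.Agent.Lib_MP_f5471b_j.Defs

/-!
# MP_f5471b_nt: the nonarchimedean addition law, preparation

Root lemmas for quadratic equations over a nonarchimedean field and the translation of
`PairClose 0` into a multiplicative statement.
-/

namespace LangForms

namespace AddNAaux

open Real

variable {F : Type} [Field F]

/-- the truncated absolute value -/
noncomputable def tr (v : AbsoluteValue F ℝ) (t x : F) : ℝ := max (min (v x) 1) (√(v t))

theorem rho_aff (v : AbsoluteValue F ℝ) (t : F) (ht : v t ≤ 1) (x : F) :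
    rho v t ![x, 1] = -Real.log (tr v t x) := by
  unfold rho tr nrm
  simp only [Matrix.cons_val_zero, Matrix.cons_val_one, map_one]
  have hs : √(v t) ≤ 1 := Real.sqrt_le_one.2 ht
  rcases le_total (v x) 1 with h | h
  · rw [max_eq_right h, div_one, min_eq_left h]
  · have h0 : 0 < v x := lt_of_lt_of_le one_pos h
    rw [max_eq_left h, div_self h0.ne', min_eq_right h]

theorem tr_pos (v : AbsoluteValue F ℝ) (t x : F) (h0 : 0 < v t) : 0 < tr v t x :=
  lt_of_lt_of_le (Real.sqrt_pos.2 h0) (le_max_right _ _)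

/-- Multiplicative form of `PairClose 0`. -/
theorem close0 (v : AbsoluteValue F ℝ) (t : F) (h0 : 0 < v t) (h1 : v t < 1) (x₁ x₂ z₁ z₂ : F)
    (h12 : tr v t x₁ ≤ tr v t x₂) {a b : ℝ} (ha : a = tr v t x₁ / tr v t x₂)
    (hb : b = max (tr v t x₁ * tr v t x₂) (v t / (tr v t x₁ * tr v t x₂)))
    (h : (tr v t z₁ = a ∧ tr v t z₂ = b) ∨ (tr v t z₁ = b ∧ tr v t z₂ = a)) :
    PairClose 0 (rho v t ![z₁, 1]) (rho v t ![z₂, 1])
      |rho v t ![x₁, 1] - rho v t ![x₂, 1]|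
      (min (rho v t ![x₁, 1] + rho v t ![x₂, 1])
        (Lt v t - rho v t ![x₁, 1] - rho v t ![x₂, 1])) := by
  have p1 := tr_pos v t x₁ h0
  have p2 := tr_pos v t x₂ h0
  have hA : |rho v t ![x₁, 1] - rho v t ![x₂, 1]| = -Real.log a := by
    rw [rho_aff v t h1.le, rho_aff v t h1.le, ha, Real.log_div p1.ne' p2.ne', abs_of_nonneg]
    · ring
    · have := Real.log_le_log p1 h12
      linarith
  have hB : min (rho v t ![x₁, 1] + rho v t ![x₂, 1])
        (Lt v t - rho v t ![x₁, 1] - rho v t ![x₂, 1]) = -Real.log b := by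
    rw [rho_aff v t h1.le, rho_aff v t h1.le, hb]
    have p12 : 0 < tr v t x₁ * tr v t x₂ := mul_pos p1 p2
    have pd : 0 < v t / (tr v t x₁ * tr v t x₂) := div_pos h0 p12
    have e1 : Real.log (tr v t x₁ * tr v t x₂) = Real.log (tr v t x₁) + Real.log (tr v t x₂) :=
      Real.log_mul p1.ne' p2.ne'
    have e2 : Real.log (v t / (tr v t x₁ * tr v t x₂)) =
        Real.log (v t) - (Real.log (tr v t x₁) + Real.log (tr v t x₂)) := by
      rw [Real.log_div h0.ne' p12.ne', e1]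
    unfold Lt
    rcases le_total (tr v t x₁ * tr v t x₂) (v t / (tr v t x₁ * tr v t x₂)) with hle | hle
    · rw [max_eq_right hle, e2]
      have := Real.log_le_log p12 hle
      rw [e1, e2] at this
      rw [min_eq_right (by linarith)]
      ring
    · rw [max_eq_left hle, e1]
      have := Real.log_le_log pd hle
      rw [e1, e2] at this
      rw [min_eq_left (by linarith)]
      ring
  rw [hA, hB]
  rcases h with ⟨ha', hb'⟩ | ⟨hb', ha'⟩
  · left
    rw [rho_aff v t h1.le, rho_aff v t h1.le, ha', hb']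
    simp
  · right
    rw [rho_aff v t h1.le, rho_aff v t h1.le, ha', hb']
    simp

/-! ### Nonarchimedean estimates -/

theorem nat_le (v : AbsoluteValue F ℝ) (hv : IsNonarchimedean v) (n : ℕ) : v (n : F) ≤ 1 := by
  induction n with
  | zero => simp
  | succ n ih =>
    rw [Nat.cast_succ]
    refine (hv _ _).trans (max_le ih ?_)
    simp

theorem add_le (v : AbsoluteValue F ℝ) (hv : IsNonarchimedean v) {x y : F} {M : ℝ} (hx : v x ≤ M)
    (hy : v y ≤ M) : v (x + y) ≤ M :=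
  (hv x y).trans (max_le hx hy)

theorem sub_le (v : AbsoluteValue F ℝ) (hv : IsNonarchimedean v) {x y : F} {M : ℝ} (hx : v x ≤ M)
    (hy : v y ≤ M) : v (x - y) ≤ M := by
  rw [sub_eq_add_neg]
  exact add_le v hv hx (by rwa [map_neg_eq_map])

theorem add_lt (v : AbsoluteValue F ℝ) (hv : IsNonarchimedean v) {x y : F} {M : ℝ} (hx : v x < M)
    (hy : v y < M) : v (x + y) < M :=
  (hv x y).trans_lt (max_lt hx hy)

theorem sub_lt (v : AbsoluteValue F ℝ) (hv : IsNonarchimedean v) {x y : F} {M : ℝ} (hx : v x < M)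
    (hy : v y < M) : v (x - y) < M := by
  rw [sub_eq_add_neg]
  exact add_lt v hv hx (by rwa [map_neg_eq_map])

/-- the dominant term gives the absolute value -/
theorem add_eq (v : AbsoluteValue F ℝ) (hv : IsNonarchimedean v) {x y : F} (hx : v y < v x) :
    v (x + y) = v x := by
  apply le_antisymm (add_le v hv le_rfl hx.le)
  by_contra hlt
  push Not at hlt
  have : v ((x + y) - y) < v x := sub_lt v hv hlt hx
  rw [add_sub_cancel_right] at this
  exact lt_irrefl _ this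

theorem sub_eq (v : AbsoluteValue F ℝ) (hv : IsNonarchimedean v) {x y : F} (hx : v y < v x) :
    v (x - y) = v x := by
  rw [sub_eq_add_neg]
  exact add_eq v hv (by rwa [map_neg_eq_map])

/-- integer multiples -/
theorem nmul_le (v : AbsoluteValue F ℝ) (hv : IsNonarchimedean v) (n : ℕ) {x : F} {M : ℝ}
    (hx : v x ≤ M) : v ((n : F) * x) ≤ M := by
  rw [map_mul]
  calc v (n : F) * v x ≤ 1 * v x := mul_le_mul_of_nonneg_right (nat_le v hv n) (v.nonneg _)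
    _ = v x := one_mul _
    _ ≤ M := hx

/-! ### Roots -/

/-- If `|A||C| < |B|²` the roots have absolute values `|B|/|A|` and `|C|/|B|`. -/
theorem roots_sep (v : AbsoluteValue F ℝ) (hv : IsNonarchimedean v) {A B C z₁ z₂ : F} (hA : A ≠ 0)
    (hS : A * (z₁ + z₂) = B) (hP : A * (z₁ * z₂) = C) (h : v A * v C < v B ^ 2) :
    (v z₁ = v B / v A ∧ v z₂ = v C / v B) ∨ (v z₁ = v C / v B ∧ v z₂ = v B / v A) := by
  have a0 : 0 < v A := v.pos hA
  have hB0 : 0 < v B := by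
    rcases (v.nonneg B).lt_or_eq with h' | h'
    · exact h'
    · rw [← h'] at h
      have := mul_nonneg (v.nonneg A) (v.nonneg C)
      norm_num at h
      linarith
  have eS : v A * v (z₁ + z₂) = v B := by rw [← map_mul, hS]
  have eP : v A * (v z₁ * v z₂) = v C := by rw [← map_mul, ← map_mul, hP]
  rcases lt_trichotomy (v z₁) (v z₂) with h' | h' | h'
  · right
    have e1 : v (z₁ + z₂) = v z₂ := by rw [add_comm]; exact add_eq v hv h'
    rw [e1] at eS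
    have z2 : v z₂ = v B / v A := by rw [← eS]; field_simp
    refine ⟨?_, z2⟩
    rw [← eP, ← eS]
    have z20 : v z₂ ≠ 0 := by
      intro h0
      rw [h0, mul_zero] at eS
      exact hB0.ne eS
    field_simp
  · exfalso
    have hle : v (z₁ + z₂) ≤ v z₁ := add_le v hv le_rfl h'.symm.le
    have hb : v B ≤ v A * v z₁ := by
      rw [← eS]
      exact mul_le_mul_of_nonneg_left hle a0.le
    have : v B ^ 2 ≤ (v A * v z₁) ^ 2 := pow_le_pow_left₀ hB0.le hb 2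
    rw [← eP, ← h'] at h
    nlinarith
  · left
    have e1 : v (z₁ + z₂) = v z₁ := add_eq v hv h'
    rw [e1] at eS
    have z2 : v z₁ = v B / v A := by rw [← eS]; field_simp
    refine ⟨z2, ?_⟩
    rw [← eP, ← eS]
    have z20 : v z₁ ≠ 0 := by
      intro h0
      rw [h0, mul_zero] at eS
      exact hB0.ne eS
    field_simp

/-- Upper bound for the roots. -/
theorem roots_le (v : AbsoluteValue F ℝ) (hv : IsNonarchimedean v) {A B C z₁ z₂ : F} (hA : A ≠ 0)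
    (hS : A * (z₁ + z₂) = B) (hP : A * (z₁ * z₂) = C) {M : ℝ} (hM : 0 ≤ M) (hb : v B ≤ v A * M)
    (hc : v C ≤ v A * M ^ 2) : v z₁ ≤ M ∧ v z₂ ≤ M := by
  have a0 : 0 < v A := v.pos hA
  have eS : v A * v (z₁ + z₂) = v B := by rw [← map_mul, hS]
  have eP : v A * (v z₁ * v z₂) = v C := by rw [← map_mul, ← map_mul, hP]
  have hs : v (z₁ + z₂) ≤ M := by
    rw [← eS] at hb
    exact le_of_mul_le_mul_left hb a0
  have hp : v z₁ * v z₂ ≤ M ^ 2 := by
    rw [← eP] at hc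
    exact le_of_mul_le_mul_left hc a0
  rcases lt_trichotomy (v z₁) (v z₂) with h' | h' | h'
  · have e1 : v (z₁ + z₂) = v z₂ := by rw [add_comm]; exact add_eq v hv h'
    rw [e1] at hs
    exact ⟨h'.le.trans hs, hs⟩
  · rw [← h'] at hp ⊢
    have : v z₁ ≤ M := by
      apply le_of_sq_le_sq _ hM
      rw [sq]
      exact hp
    exact ⟨this, this⟩
  · have e1 : v (z₁ + z₂) = v z₁ := add_eq v hv h'
    rw [e1] at hs
    exact ⟨hs, h'.le.trans hs⟩

/-- Lower bound for the roots. -/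
theorem roots_ge (v : AbsoluteValue F ℝ) (hv : IsNonarchimedean v) {A B C z₁ z₂ : F} (hA : A ≠ 0)
    (hS : A * (z₁ + z₂) = B) (hP : A * (z₁ * z₂) = C) {M : ℝ} (hb : v B * M ≤ v C)
    (hc : v A * M ^ 2 ≤ v C) : M ≤ v z₁ ∧ M ≤ v z₂ := by
  have a0 : 0 < v A := v.pos hA
  have eS : v A * v (z₁ + z₂) = v B := by rw [← map_mul, hS]
  have eP : v A * (v z₁ * v z₂) = v C := by rw [← map_mul, ← map_mul, hP]
  have hp : M ^ 2 ≤ v z₁ * v z₂ := by
    rw [← eP] at hc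
    exact le_of_mul_le_mul_left hc a0
  have hb' : v (z₁ + z₂) * M ≤ v z₁ * v z₂ := by
    rw [← eP, ← eS] at hb
    rw [mul_assoc] at hb
    exact le_of_mul_le_mul_left hb a0
  rcases lt_trichotomy (v z₁) (v z₂) with h' | h' | h'
  · have e1 : v (z₁ + z₂) = v z₂ := by rw [add_comm]; exact add_eq v hv h'
    rw [e1, mul_comm] at hb'
    have z2 : 0 < v z₂ := lt_of_le_of_lt (v.nonneg _) h'
    have : M ≤ v z₁ := le_of_mul_le_mul_right hb' z2
    exact ⟨this, this.trans h'.le⟩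
  · rw [← h'] at hp ⊢
    have : M ≤ v z₁ := by
      apply le_of_sq_le_sq _ (v.nonneg _)
      rw [sq (v z₁)]
      exact hp
    exact ⟨this, this⟩
  · have e1 : v (z₁ + z₂) = v z₁ := add_eq v hv h'
    rw [e1] at hb'
    have z1 : 0 < v z₁ := lt_of_le_of_lt (v.nonneg _) h'
    have : M ≤ v z₂ := le_of_mul_le_mul_left hb' z1
    exact ⟨this.trans h'.le, this⟩

/-- Both roots have the same absolute value. -/
theorem roots_eq (v : AbsoluteValue F ℝ) (hv : IsNonarchimedean v) {A B C z₁ z₂ : F} (hA : A ≠ 0)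
    (hS : A * (z₁ + z₂) = B) (hP : A * (z₁ * z₂) = C) {M : ℝ} (hM : 0 < M) (hb : v B ≤ v A * M)
    (hc : v C = v A * M ^ 2) : v z₁ = M ∧ v z₂ = M := by
  obtain ⟨u1, u2⟩ := roots_le v hv hA hS hP hM.le hb hc.le
  obtain ⟨l1, l2⟩ := roots_ge v hv hA hS hP (by
    rw [hc]
    nlinarith [mul_le_mul_of_nonneg_right hb hM.le]) hc.ge
  exact ⟨le_antisymm u1 l1, le_antisymm u2 l2⟩

/-! ### The coefficients of the quadratic equation -/

/-- middle coefficient -/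
def cB (t x₁ x₂ : F) : F := x₁ * x₂ * (1 + 2 * (x₁ + x₂)) - 72 * t * (x₁ + x₂) - 4 * t

/-- last coefficient -/
def cC (t x₁ x₂ : F) : F :=
  (x₁ * x₂) ^ 2 + 72 * t * (x₁ * x₂) + 4 * t * (x₁ + x₂) + t + 1296 * t ^ 2

theorem cA_le (v : AbsoluteValue F ℝ) (hv : IsNonarchimedean v) {x₁ x₂ : F} (h : v x₁ ≤ v x₂) :
    v ((x₁ - x₂) ^ 2) ≤ v x₂ ^ 2 := by
  rw [map_pow]
  exact pow_le_pow_left₀ (v.nonneg _) (sub_le v hv h le_rfl) 2

theorem cA_eq (v : AbsoluteValue F ℝ) (hv : IsNonarchimedean v) {x₁ x₂ : F} (h : v x₁ < v x₂) :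
    v ((x₁ - x₂) ^ 2) = v x₂ ^ 2 := by
  rw [map_pow, v.map_sub, sub_eq v hv h]

theorem cB_le (v : AbsoluteValue F ℝ) (hv : IsNonarchimedean v) {t x₁ x₂ : F} (h : v x₁ ≤ v x₂)
    {M : ℝ} (h1 : v x₁ * v x₂ ≤ M) (h2 : v x₁ * v x₂ * v x₂ ≤ M) (h3 : v t * v x₂ ≤ M)
    (h4 : v t ≤ M) : v (cB t x₁ x₂) ≤ M := by
  have hs : v (x₁ + x₂) ≤ v x₂ := add_le v hv h le_rfl
  unfold cB
  have e : x₁ * x₂ * (1 + 2 * (x₁ + x₂)) - 72 * t * (x₁ + x₂) - 4 * t =
      x₁ * x₂ + (2 : ℕ) * (x₁ * x₂ * (x₁ + x₂)) - (72 : ℕ) * (t * (x₁ + x₂)) - (4 : ℕ) * t := by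
    push_cast
    ring
  rw [e]
  refine sub_le v hv (sub_le v hv (add_le v hv ?_ (nmul_le v hv _ ?_)) (nmul_le v hv _ ?_))
    (nmul_le v hv _ h4)
  · rwa [map_mul]
  · rw [map_mul, map_mul]
    exact (mul_le_mul_of_nonneg_left hs (mul_nonneg (v.nonneg _) (v.nonneg _))).trans h2
  · rw [map_mul]
    exact (mul_le_mul_of_nonneg_left hs (v.nonneg _)).trans h3

theorem cB_eq (v : AbsoluteValue F ℝ) (hv : IsNonarchimedean v) {t x₁ x₂ : F} (h : v x₁ ≤ v x₂)
    (hq : v x₂ < 1) (h0 : 0 < v t) (h1 : v t < v x₁ * v x₂) : v (cB t x₁ x₂) = v x₁ * v x₂ := by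
  have hs : v (x₁ + x₂) ≤ v x₂ := add_le v hv h le_rfl
  have hpq : 0 < v x₁ * v x₂ := h0.trans h1
  unfold cB
  have e : x₁ * x₂ * (1 + 2 * (x₁ + x₂)) - 72 * t * (x₁ + x₂) - 4 * t =
      x₁ * x₂ + ((2 : ℕ) * (x₁ * x₂ * (x₁ + x₂)) - (72 : ℕ) * (t * (x₁ + x₂)) - (4 : ℕ) * t) := by
    push_cast
    ring
  rw [e, add_eq v hv, map_mul]
  rw [map_mul]
  refine sub_lt v hv (sub_lt v hv ((nmul_le v hv _ le_rfl).trans_lt ?_)
    ((nmul_le v hv _ le_rfl).trans_lt ?_)) ((nmul_le v hv _ le_rfl).trans_lt h1)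
  · rw [map_mul, map_mul]
    calc v x₁ * v x₂ * v (x₁ + x₂) ≤ v x₁ * v x₂ * v x₂ :=
          mul_le_mul_of_nonneg_left hs hpq.le
      _ < v x₁ * v x₂ * 1 := mul_lt_mul_of_pos_left hq hpq
      _ = v x₁ * v x₂ := mul_one _
  · rw [map_mul]
    calc v t * v (x₁ + x₂) ≤ v t * v x₂ := mul_le_mul_of_nonneg_left hs (v.nonneg _)
      _ ≤ v t * 1 := mul_le_mul_of_nonneg_left hq.le (v.nonneg _)
      _ = v t := mul_one _
      _ < _ := h1

theorem cC_le (v : AbsoluteValue F ℝ) (hv : IsNonarchimedean v) {t x₁ x₂ : F} (h : v x₁ ≤ v x₂)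
    (h1 : v t < 1) {M : ℝ} (m1 : (v x₁ * v x₂) ^ 2 ≤ M) (m2 : v t * (v x₁ * v x₂) ≤ M)
    (m3 : v t * v x₂ ≤ M) (m4 : v t ≤ M) : v (cC t x₁ x₂) ≤ M := by
  have hs : v (x₁ + x₂) ≤ v x₂ := add_le v hv h le_rfl
  unfold cC
  have e : (x₁ * x₂) ^ 2 + 72 * t * (x₁ * x₂) + 4 * t * (x₁ + x₂) + t + 1296 * t ^ 2 =
      (x₁ * x₂) ^ 2 + (72 : ℕ) * (t * (x₁ * x₂)) + (4 : ℕ) * (t * (x₁ + x₂)) + t +
        (1296 : ℕ) * t ^ 2 := by
    push_cast
    ring
  rw [e]
  refine add_le v hv (add_le v hv (add_le v hv (add_le v hv ?_ (nmul_le v hv _ ?_))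
    (nmul_le v hv _ ?_)) m4) (nmul_le v hv _ ?_)
  · rwa [map_pow, map_mul]
  · rwa [map_mul, map_mul]
  · rw [map_mul]
    exact (mul_le_mul_of_nonneg_left hs (v.nonneg _)).trans m3
  · rw [map_pow]
    refine le_trans ?_ m4
    nlinarith [v.nonneg t]

theorem cC_eq_pq (v : AbsoluteValue F ℝ) (hv : IsNonarchimedean v) {t x₁ x₂ : F}
    (h : v x₁ ≤ v x₂) (h1 : v t < 1) (m2 : v t * (v x₁ * v x₂) < (v x₁ * v x₂) ^ 2)
    (m3 : v t * v x₂ < (v x₁ * v x₂) ^ 2) (m4 : v t < (v x₁ * v x₂) ^ 2) :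
    v (cC t x₁ x₂) = (v x₁ * v x₂) ^ 2 := by
  have hs : v (x₁ + x₂) ≤ v x₂ := add_le v hv h le_rfl
  unfold cC
  have e : (x₁ * x₂) ^ 2 + 72 * t * (x₁ * x₂) + 4 * t * (x₁ + x₂) + t + 1296 * t ^ 2 =
      (x₁ * x₂) ^ 2 + ((72 : ℕ) * (t * (x₁ * x₂)) + (4 : ℕ) * (t * (x₁ + x₂)) + t +
        (1296 : ℕ) * t ^ 2) := by
    push_cast
    ring
  rw [e, add_eq v hv, map_pow, map_mul]
  rw [map_pow, map_mul]
  refine add_lt v hv (add_lt v hv (add_lt v hv ((nmul_le v hv _ le_rfl).trans_lt ?_)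
    ((nmul_le v hv _ le_rfl).trans_lt ?_)) m4) ((nmul_le v hv _ le_rfl).trans_lt ?_)
  · rwa [map_mul, map_mul]
  · rw [map_mul]
    exact (mul_le_mul_of_nonneg_left hs (v.nonneg _)).trans_lt m3
  · rw [map_pow]
    refine lt_of_le_of_lt ?_ m4
    nlinarith [v.nonneg t]

theorem cC_eq_t (v : AbsoluteValue F ℝ) (hv : IsNonarchimedean v) {t x₁ x₂ : F}
    (h : v x₁ ≤ v x₂) (hq : v x₂ < 1) (h0 : 0 < v t) (h1 : v t < 1)
    (m1 : (v x₁ * v x₂) ^ 2 < v t) : v (cC t x₁ x₂) = v t := by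
  have hs : v (x₁ + x₂) ≤ v x₂ := add_le v hv h le_rfl
  have hp1 : v x₁ < 1 := h.trans_lt hq
  unfold cC
  have e : (x₁ * x₂) ^ 2 + 72 * t * (x₁ * x₂) + 4 * t * (x₁ + x₂) + t + 1296 * t ^ 2 =
      t + ((x₁ * x₂) ^ 2 + (72 : ℕ) * (t * (x₁ * x₂)) + (4 : ℕ) * (t * (x₁ + x₂)) +
        (1296 : ℕ) * t ^ 2) := by
    push_cast
    ring
  rw [e, add_eq v hv]
  refine add_lt v hv (add_lt v hv (add_lt v hv ?_ ((nmul_le v hv _ le_rfl).trans_lt ?_))
    ((nmul_le v hv _ le_rfl).trans_lt ?_)) ((nmul_le v hv _ le_rfl).trans_lt ?_)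
  · rwa [map_pow, map_mul]
  · rw [map_mul, map_mul]
    have : v x₁ * v x₂ < 1 := by nlinarith [v.nonneg x₁, v.nonneg x₂]
    nlinarith
  · rw [map_mul]
    calc v t * v (x₁ + x₂) ≤ v t * v x₂ := mul_le_mul_of_nonneg_left hs (v.nonneg _)
      _ < v t * 1 := mul_lt_mul_of_pos_left hq h0
      _ = v t := mul_one _
  · rw [map_pow]
    nlinarith

end AddNAaux

end LangForms
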