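import Pool.Agent.Lib_MP_f5471b_j.Defs

/-!
# MP_f5471b_nt part 2: real inequalities behind the addition law
-/

namespace LangForms
namespace AddSit

theorem v_nat_le {F : Type} [Field F] (v : AbsoluteValue F ℝ) (n : ℕ) : v (n : F) ≤ n := by
  induction n with
  | zero => simp
  | succ n ih =>
    rw [Nat.cast_succ, Nat.cast_succ]
    calc v ((n : F) + 1) ≤ v (n : F) + v 1 := v.add_le _ _
      _ ≤ n + 1 := by rw [map_one]; linarith

/-- The truncated size of an affine point. -/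
noncomputable def rr (e x : ℝ) : ℝ := max (min x 1) (Real.sqrt e)

/-- The inequalities satisfied by the sizes in the addition law. -/
structure Sit (e p q a b c y z : ℝ) : Prop where
  e_pos : 0 < e
  p_nn : 0 ≤ p
  q_nn : 0 ≤ q
  a_pos : 0 < a
  b_nn : 0 ≤ b
  c_nn : 0 ≤ c
  y_nn : 0 ≤ y
  z_nn : 0 ≤ z
  a_le : a ≤ (p + q) ^ 2
  a_ge : (q - p) ^ 2 ≤ a
  b_le : b ≤ p * q * (1 + 2 * (p + q)) + 72 * e * (p + q) + 4 * e
  b_ge : p * q ≤ b + p * q * (2 * (p + q)) + 72 * e * (p + q) + 4 * e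
  c_le : c ≤ (p * q) ^ 2 + 72 * e * (p * q) + 4 * e * (p + q) + e + 1296 * e ^ 2
  c_ge : (p * q) ^ 2 ≤ c + 72 * e * (p * q) + 4 * e * (p + q) + e + 1296 * e ^ 2
  c_ge' : e ≤ c + (p * q) ^ 2 + 72 * e * (p * q) + 4 * e * (p + q) + 1296 * e ^ 2
  prod : a * (y * z) = c
  sum1 : b ≤ a * (y + z)
  sum2 : a * y ≤ b + a * z
  sum3 : a * z ≤ b + a * y

theorem Sit.swap {e p q a b c y z : ℝ} (h : Sit e p q a b c y z) : Sit e p q a b c z y :=
  { h with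
    y_nn := h.z_nn
    z_nn := h.y_nn
    prod := by rw [mul_comm z y]; exact h.prod
    sum1 := by rw [add_comm z y]; exact h.sum1
    sum2 := h.sum3
    sum3 := h.sum2 }

/-- `|A| y² ≤ |B| y + |C|`. -/
theorem Sit.R1 {e p q a b c y z : ℝ} (h : Sit e p q a b c y z) : a * y ^ 2 ≤ b * y + c := by
  have h1 := mul_le_mul_of_nonneg_right h.sum2 h.y_nn
  have h2 := h.prod
  nlinarith

/-- `|C| ≤ |B| y + |A| y²`. -/
theorem Sit.R2 {e p q a b c y z : ℝ} (h : Sit e p q a b c y z) : c ≤ b * y + a * y ^ 2 := by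
  have h1 := mul_le_mul_of_nonneg_right h.sum3 h.y_nn
  have h2 := h.prod
  nlinarith

theorem sit_of {F : Type} [Field F] (v : AbsoluteValue F ℝ) (t x₁ x₂ z₁ z₂ : F) (h0 : 0 < v t)
    (hx : x₁ ≠ x₂)
    (hS : (x₁ - x₂) ^ 2 * (z₁ + z₂) =
      x₁ * x₂ * (1 + 2 * (x₁ + x₂)) - 72 * t * (x₁ + x₂) - 4 * t)
    (hP : (x₁ - x₂) ^ 2 * (z₁ * z₂) =
      (x₁ * x₂) ^ 2 + 72 * t * (x₁ * x₂) + 4 * t * (x₁ + x₂) + t + 1296 * t ^ 2) :
    Sit (v t) (v x₁) (v x₂) (v ((x₁ - x₂) ^ 2))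
      (v (x₁ * x₂ * (1 + 2 * (x₁ + x₂)) - 72 * t * (x₁ + x₂) - 4 * t))
      (v ((x₁ * x₂) ^ 2 + 72 * t * (x₁ * x₂) + 4 * t * (x₁ + x₂) + t + 1296 * t ^ 2))
      (v z₁) (v z₂) := by
  have n2 : v (2 : F) ≤ 2 := by simpa using v_nat_le v 2
  have n4 : v (4 : F) ≤ 4 := by simpa using v_nat_le v 4
  have n72 : v (72 : F) ≤ 72 := by simpa using v_nat_le v 72
  have n1296 : v (1296 : F) ≤ 1296 := by simpa using v_nat_le v 1296
  have hp := v.nonneg x₁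
  have hq := v.nonneg x₂
  have hs : v (x₁ + x₂) ≤ v x₁ + v x₂ := v.add_le _ _
  have hs0 := v.nonneg (x₁ + x₂)
  have hd : v (x₁ - x₂) ≤ v x₁ + v x₂ := by
    have := v.add_le x₁ (-x₂)
    rwa [v.map_neg, ← sub_eq_add_neg] at this
  have hd1 : v x₂ ≤ v x₁ + v (x₁ - x₂) := by
    have := v.add_le x₁ (-(x₁ - x₂))
    rwa [v.map_neg, show x₁ + -(x₁ - x₂) = x₂ by ring] at this
  have hd2 : v x₁ ≤ v x₂ + v (x₁ - x₂) := by
    have := v.add_le x₂ (x₁ - x₂)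
    rwa [show x₂ + (x₁ - x₂) = x₁ by ring] at this
  have hd0 : 0 < v (x₁ - x₂) := v.pos (sub_ne_zero.2 hx)
  -- the small terms
  have s1 : v (72 * t * (x₁ + x₂)) ≤ 72 * v t * (v x₁ + v x₂) := by
    rw [map_mul, map_mul]
    gcongr
  have s2 : v (4 * t) ≤ 4 * v t := by
    rw [map_mul]
    gcongr
  have s3 : v (2 * (x₁ + x₂)) ≤ 2 * (v x₁ + v x₂) := by
    rw [map_mul]
    gcongr
  have s3' : v (x₁ * x₂ * (2 * (x₁ + x₂))) ≤ v x₁ * v x₂ * (2 * (v x₁ + v x₂)) := by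
    rw [map_mul, map_mul v x₁]
    gcongr
  have s4 : v (72 * t * (x₁ * x₂)) ≤ 72 * v t * (v x₁ * v x₂) := by
    rw [map_mul, map_mul, map_mul v x₁]
    gcongr
  have s5 : v (4 * t * (x₁ + x₂)) ≤ 4 * v t * (v x₁ + v x₂) := by
    rw [map_mul, map_mul]
    gcongr
  have s6 : v (1296 * t ^ 2) ≤ 1296 * v t ^ 2 := by
    rw [map_mul, map_pow]
    gcongr
  have s7 : v ((x₁ * x₂) ^ 2) = (v x₁ * v x₂) ^ 2 := by rw [map_pow, map_mul]
  have s8 : v (x₁ * x₂) = v x₁ * v x₂ := map_mul v _ _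
  set B := x₁ * x₂ * (1 + 2 * (x₁ + x₂)) - 72 * t * (x₁ + x₂) - 4 * t with hB
  set C := (x₁ * x₂) ^ 2 + 72 * t * (x₁ * x₂) + 4 * t * (x₁ + x₂) + t + 1296 * t ^ 2 with hC
  have htri : ∀ a b : F, v (a - b) ≤ v a + v b := by
    intro a b
    have := v.add_le a (-b)
    rwa [v.map_neg, ← sub_eq_add_neg] at this
  have hA2 : v ((x₁ - x₂) ^ 2) = v (x₁ - x₂) ^ 2 := map_pow v _ _
  refine ⟨h0, hp, hq, by rw [hA2]; positivity, v.nonneg _, v.nonneg _, v.nonneg _, v.nonneg _,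
    ?_, ?_, ?_, ?_, ?_, ?_, ?_, ?_, ?_, ?_, ?_⟩
  · rw [hA2]
    gcongr
  · rw [hA2]
    rcases le_total (v x₁) (v x₂) with h | h
    · exact pow_le_pow_left₀ (by linarith) (by linarith) 2
    · rw [show (v x₂ - v x₁) ^ 2 = (v x₁ - v x₂) ^ 2 by ring]
      exact pow_le_pow_left₀ (by linarith) (by linarith) 2
  · have e1 : B = x₁ * x₂ + x₁ * x₂ * (2 * (x₁ + x₂)) - 72 * t * (x₁ + x₂) - 4 * t := by
      rw [hB]; ring
    rw [e1]
    have t1 := htri (x₁ * x₂ + x₁ * x₂ * (2 * (x₁ + x₂)) - 72 * t * (x₁ + x₂)) (4 * t)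
    have t2 := htri (x₁ * x₂ + x₁ * x₂ * (2 * (x₁ + x₂))) (72 * t * (x₁ + x₂))
    have t3 := v.add_le (x₁ * x₂) (x₁ * x₂ * (2 * (x₁ + x₂)))
    nlinarith
  · have e1 : x₁ * x₂ = B - x₁ * x₂ * (2 * (x₁ + x₂)) + 72 * t * (x₁ + x₂) + 4 * t := by
      rw [hB]; ring
    have t1 := v.add_le (B - x₁ * x₂ * (2 * (x₁ + x₂)) + 72 * t * (x₁ + x₂)) (4 * t)
    have t2 := v.add_le (B - x₁ * x₂ * (2 * (x₁ + x₂))) (72 * t * (x₁ + x₂))
    have t3 := htri B (x₁ * x₂ * (2 * (x₁ + x₂)))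
    rw [← e1, s8] at t1
    linarith
  · have t1 := v.add_le ((x₁ * x₂) ^ 2 + 72 * t * (x₁ * x₂) + 4 * t * (x₁ + x₂) + t)
      (1296 * t ^ 2)
    have t2 := v.add_le ((x₁ * x₂) ^ 2 + 72 * t * (x₁ * x₂) + 4 * t * (x₁ + x₂)) t
    have t3 := v.add_le ((x₁ * x₂) ^ 2 + 72 * t * (x₁ * x₂)) (4 * t * (x₁ + x₂))
    have t4 := v.add_le ((x₁ * x₂) ^ 2) (72 * t * (x₁ * x₂))
    linarith
  · have e1 : (x₁ * x₂) ^ 2 = C - 72 * t * (x₁ * x₂) - 4 * t * (x₁ + x₂) - t - 1296 * t ^ 2 := by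
      rw [hC]; ring
    have t1 := htri (C - 72 * t * (x₁ * x₂) - 4 * t * (x₁ + x₂) - t) (1296 * t ^ 2)
    have t2 := htri (C - 72 * t * (x₁ * x₂) - 4 * t * (x₁ + x₂)) t
    have t3 := htri (C - 72 * t * (x₁ * x₂)) (4 * t * (x₁ + x₂))
    have t4 := htri C (72 * t * (x₁ * x₂))
    rw [← e1, s7] at t1
    linarith
  · have e1 : t = C - (x₁ * x₂) ^ 2 - 72 * t * (x₁ * x₂) - 4 * t * (x₁ + x₂) - 1296 * t ^ 2 := by
      rw [hC]; ring
    have t1 := htri (C - (x₁ * x₂) ^ 2 - 72 * t * (x₁ * x₂) - 4 * t * (x₁ + x₂)) (1296 * t ^ 2)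
    have t2 := htri (C - (x₁ * x₂) ^ 2 - 72 * t * (x₁ * x₂)) (4 * t * (x₁ + x₂))
    have t3 := htri (C - (x₁ * x₂) ^ 2) (72 * t * (x₁ * x₂))
    have t4 := htri C ((x₁ * x₂) ^ 2)
    rw [← e1] at t1
    linarith
  · rw [← hP, map_mul, map_mul]
  · rw [← hS, map_mul]
    gcongr
    exact v.add_le _ _
  · rw [← hS, ← map_mul, ← map_mul]
    have := htri ((x₁ - x₂) ^ 2 * (z₁ + z₂)) ((x₁ - x₂) ^ 2 * z₂)
    rwa [show (x₁ - x₂) ^ 2 * (z₁ + z₂) - (x₁ - x₂) ^ 2 * z₂ = (x₁ - x₂) ^ 2 * z₁ by ring] at this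
  · rw [← hS, ← map_mul, ← map_mul]
    have := htri ((x₁ - x₂) ^ 2 * (z₁ + z₂)) ((x₁ - x₂) ^ 2 * z₁)
    rwa [show (x₁ - x₂) ^ 2 * (z₁ + z₂) - (x₁ - x₂) ^ 2 * z₁ = (x₁ - x₂) ^ 2 * z₂ by ring] at this

/-! ### The truncated size -/

theorem rr_pos {e : ℝ} (he : 0 < e) (x : ℝ) : 0 < rr e x :=
  lt_of_lt_of_le (Real.sqrt_pos.2 he) (le_max_right _ _)

theorem sqrt_le_rr (e x : ℝ) : Real.sqrt e ≤ rr e x := le_max_right _ _

theorem rr_le_one {e : ℝ} (he : e ≤ 1) (x : ℝ) : rr e x ≤ 1 :=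
  max_le (min_le_right _ _) (by rw [Real.sqrt_le_one]; exact he)

theorem rr_mono {e x y : ℝ} (h : x ≤ y) : rr e x ≤ rr e y :=
  max_le_max (min_le_min h le_rfl) le_rfl

theorem le_rr_of {e x g M : ℝ} (hM : 1 ≤ M) (hg : g ≤ 1) (h : g ≤ M * x) :
    g ≤ M * rr e x := by
  have h1 : g ≤ M * min x 1 := by
    rcases le_total x 1 with hx | hx
    · rw [min_eq_left hx]; exact h
    · rw [min_eq_right hx]; linarith
  have h2 : min x 1 ≤ rr e x := le_max_left _ _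
  nlinarith

theorem rr_le_of {e x g M : ℝ} (hM : 1 ≤ M) (hg : Real.sqrt e ≤ g) (hg0 : 0 ≤ g)
    (h : x ≤ M * g) : rr e x ≤ M * g := by
  apply max_le
  · exact (min_le_left _ _).trans h
  · nlinarith

theorem rr_eq {e x : ℝ} (h1 : Real.sqrt e ≤ x) (h2 : x ≤ 1) : rr e x = x := by
  rw [rr, min_eq_left h2, max_eq_left h1]

theorem rr_eq' {e x : ℝ} (h2 : x ≤ 1) : rr e x = max x (Real.sqrt e) := by
  rw [rr, min_eq_left h2]

theorem rho_aff {F : Type} [Field F] (v : AbsoluteValue F ℝ) (t : F) (x : F) :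
    rho v t ![x, 1] = -Real.log (rr (v t) (v x)) := by
  have h1 : v ((![x, 1] : Fin 2 → F) 0) / nrm v ![x, 1] = min (v x) 1 := by
    simp only [nrm, Matrix.cons_val_zero, Matrix.cons_val_one, map_one]
    rcases le_total (v x) 1 with h | h
    · rw [max_eq_right h, min_eq_left h, div_one]
    · rw [max_eq_left h, min_eq_right h, div_self (by linarith)]
  rw [rho, h1, rr]

theorem close_of {x g M : ℝ} (hM : 1 ≤ M) (hx : 0 < x) (hg : 0 < g) (h1 : x ≤ M * g)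
    (h2 : g ≤ M * x) : |(-Real.log x) - (-Real.log g)| ≤ Real.log M := by
  have hM0 : (0 : ℝ) < M := by linarith
  have e1 := Real.log_le_log hx h1
  have e2 := Real.log_le_log hg h2
  rw [Real.log_mul hM0.ne' hg.ne'] at e1
  rw [Real.log_mul hM0.ne' hx.ne'] at e2
  rw [abs_le]
  constructor <;> linarith

/-- The first target value. -/
noncomputable def al (e p q : ℝ) : ℝ := rr e p / rr e q

/-- The second target value. -/
noncomputable def be (e p q : ℝ) : ℝ := max (rr e p * rr e q) (e / (rr e p * rr e q))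

theorem al_pos {e : ℝ} (he : 0 < e) (p q : ℝ) : 0 < al e p q :=
  div_pos (rr_pos he _) (rr_pos he _)

theorem be_pos {e : ℝ} (he : 0 < e) (p q : ℝ) : 0 < be e p q :=
  lt_of_lt_of_le (mul_pos (rr_pos he _) (rr_pos he _)) (le_max_left _ _)

theorem al_le_one {e p q : ℝ} (he : 0 < e) (h : p ≤ q) : al e p q ≤ 1 := by
  rw [al, div_le_one (rr_pos he _)]
  exact rr_mono h

theorem sqrt_le_al {e : ℝ} (he : 0 < e) (he1 : e ≤ 1) (p q : ℝ) : Real.sqrt e ≤ al e p q := by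
  rw [al, le_div_iff₀ (rr_pos he _)]
  have h1 := sqrt_le_rr e p
  have h2 := rr_le_one he1 q
  have h3 := rr_pos he q
  have h4 := Real.sqrt_nonneg e
  nlinarith

theorem sqrt_le_be {e : ℝ} (he : 0 < e) (p q : ℝ) : Real.sqrt e ≤ be e p q := by
  have h0 : 0 < rr e p * rr e q := mul_pos (rr_pos he _) (rr_pos he _)
  rcases le_total (Real.sqrt e) (rr e p * rr e q) with h | h
  · exact h.trans (le_max_left _ _)
  · refine le_trans ?_ (le_max_right _ _)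
    rw [le_div_iff₀ h0]
    have h4 := Real.sqrt_nonneg e
    have h5 := Real.mul_self_sqrt he.le
    nlinarith

theorem be_le_al {e : ℝ} (he : 0 < e) (he1 : e ≤ 1) (p q : ℝ) : be e p q ≤ al e p q := by
  have hp := rr_pos he p
  have hq := rr_pos he q
  have hq1 := rr_le_one he1 q
  have hsp := sqrt_le_rr e p
  have hs := Real.sqrt_nonneg e
  have hss := Real.mul_self_sqrt he.le
  apply max_le
  · rw [al, le_div_iff₀ hq]
    have : rr e q * rr e q ≤ 1 := by nlinarith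
    nlinarith
  · rw [al, div_le_div_iff₀ (mul_pos hp hq) hq]
    have : e ≤ rr e p * rr e p := by nlinarith
    nlinarith

theorem be_le_one {e p q : ℝ} (he : 0 < e) (he1 : e ≤ 1) (h : p ≤ q) : be e p q ≤ 1 :=
  (be_le_al he he1 p q).trans (al_le_one he h)

/-- From multiplicative estimates to `AddOn`. -/
theorem addOn_of {M : ℝ} (hM : 1 ≤ M) {R : ℝ → ℝ → Prop} (hR : ∀ p q, R p q → p ≤ q)
    {F : Type} [Field F] (v : AbsoluteValue F ℝ) (t : F) (h0 : 0 < v t)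
    (H : ∀ p q a b c y z, R p q → Sit (v t) p q a b c y z → y ≤ z →
      (rr (v t) y ≤ M * be (v t) p q ∧ be (v t) p q ≤ M * rr (v t) y) ∧
      (rr (v t) z ≤ M * al (v t) p q ∧ al (v t) p q ≤ M * rr (v t) z)) :
    AddOn v t (Real.log M) R := by
  intro x₁ x₂ z₁ z₂ hRx hx hS hP
  have hs := sit_of v t x₁ x₂ z₁ z₂ h0 hx hS hP
  have hpq := hR _ _ hRx
  rw [rho_aff, rho_aff, rho_aff, rho_aff]
  have hp := rr_pos h0 (v x₁)
  have hq := rr_pos h0 (v x₂)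
  have e1 : |(-Real.log (rr (v t) (v x₁))) - (-Real.log (rr (v t) (v x₂)))| =
      -Real.log (al (v t) (v x₁) (v x₂)) := by
    have := Real.log_le_log hp (rr_mono (e := v t) hpq)
    rw [al, Real.log_div hp.ne' hq.ne', abs_of_nonneg (by linarith)]
    ring
  have e2 : min (-Real.log (rr (v t) (v x₁)) + -Real.log (rr (v t) (v x₂)))
      (Lt v t - -Real.log (rr (v t) (v x₁)) - -Real.log (rr (v t) (v x₂))) =
      -Real.log (be (v t) (v x₁) (v x₂)) := by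
    have hpq0 : 0 < rr (v t) (v x₁) * rr (v t) (v x₂) := mul_pos hp hq
    have hd0 : 0 < v t / (rr (v t) (v x₁) * rr (v t) (v x₂)) := div_pos h0 hpq0
    rw [be, Lt]
    rcases le_total (v t / (rr (v t) (v x₁) * rr (v t) (v x₂)))
      (rr (v t) (v x₁) * rr (v t) (v x₂)) with h | h
    · have h' := Real.log_le_log hd0 h
      rw [Real.log_div h0.ne' hpq0.ne', Real.log_mul hp.ne' hq.ne'] at h'
      rw [max_eq_left h, Real.log_mul hp.ne' hq.ne', min_eq_left (by linarith)]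
      ring
    · have h' := Real.log_le_log hpq0 h
      rw [Real.log_div h0.ne' hpq0.ne', Real.log_mul hp.ne' hq.ne'] at h'
      rw [max_eq_right h, Real.log_div h0.ne' hpq0.ne', Real.log_mul hp.ne' hq.ne',
        min_eq_right (by linarith)]
      ring
  rw [e1, e2]
  rcases le_total (v z₁) (v z₂) with h | h
  · obtain ⟨⟨a1, a2⟩, b1, b2⟩ := H _ _ _ _ _ _ _ hRx hs h
    right
    exact ⟨close_of hM (rr_pos h0 _) (be_pos h0 _ _) a1 a2,
      close_of hM (rr_pos h0 _) (al_pos h0 _ _) b1 b2⟩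
  · obtain ⟨⟨a1, a2⟩, b1, b2⟩ := H _ _ _ _ _ _ _ hRx hs.swap h
    left
    exact ⟨close_of hM (rr_pos h0 _) (al_pos h0 _ _) b1 b2,
      close_of hM (rr_pos h0 _) (be_pos h0 _ _) a1 a2⟩

end AddSit
end LangForms
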