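import Pool.Agent.Lib_MP_f5471b_j.AddSit

/-!
# MP_f5471b_nt part 2: the addition law near the node, preliminary inequalities
-/

namespace LangForms
namespace AddSit

/-- The simplified inequalities for small sizes. -/
structure Small (e p q a b c : ℝ) : Prop where
  b_le : b ≤ 2 * (p * q) + 5 * e
  b_ge : 99 / 100 * (p * q) ≤ b + 5 * e
  c_le : c ≤ (p * q) ^ 2 + 2 * e
  c_ge : (p * q) ^ 2 ≤ c + 2 * e
  c_ge' : 98 / 100 * e ≤ c + (p * q) ^ 2

theorem small_of {e p q a b c y z : ℝ} (h : Sit e p q a b c y z) (hpq : p ≤ q)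
    (hq : q ≤ 1 / 1000) (he : e ≤ 1 / 1000000) : Small e p q a b c := by
  have he0 := h.e_pos
  have hp0 := h.p_nn
  have hq0 := h.q_nn
  have hpq0 : 0 ≤ p * q := mul_nonneg hp0 hq0
  have hpq1 : p * q ≤ 1 / 1000000 := by nlinarith
  have s1 : e * (p + q) ≤ e * (1 / 500) := mul_le_mul_of_nonneg_left (by linarith) he0.le
  have s2 : p * q * (2 * (p + q)) ≤ p * q * (1 / 250) :=
    mul_le_mul_of_nonneg_left (by linarith) hpq0
  have s3 : e * (p * q) ≤ e * (1 / 1000000) := mul_le_mul_of_nonneg_left hpq1 he0.le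
  have s4 : e ^ 2 ≤ e * (1 / 1000000) := by nlinarith
  refine ⟨?_, ?_, ?_, ?_, ?_⟩
  · have := h.b_le
    nlinarith
  · have := h.b_ge
    nlinarith
  · have := h.c_le
    nlinarith
  · have := h.c_ge
    nlinarith
  · have := h.c_ge'
    nlinarith

/-- Three ranges for the comparison of `|C|` with the second target value `X` or `e / X`,
`X = p q`. -/
theorem c_lower {e p q a b c s : ℝ} (h : Small e p q a b c) (hs0 : 0 < s) (hs : s * s = e)
    (hX : 0 < p * q) :
    (4 * s ≤ p * q ∧ 7 / 8 * (p * q) ^ 2 ≤ c) ∨ (p * q ≤ s / 4 ∧ e / 2 ≤ c) ∨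
      (s / 4 ≤ p * q ∧ p * q ≤ 4 * s) := by
  have h1 := h.c_ge
  have h2 := h.c_ge'
  rcases le_total (4 * s) (p * q) with h3 | h3
  · left
    refine ⟨h3, ?_⟩
    nlinarith
  · rcases le_total (p * q) (s / 4) with h4 | h4
    · right; left
      refine ⟨h4, ?_⟩
      nlinarith
    · right; right
      exact ⟨h4, h3⟩

end AddSit
end LangForms
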