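import Pool.Agent.Lib_MP_f5471b_j.Defs

/-!
# MP_f5471b_nt, part 2, piece DIT: iteration of the duplication estimate
-/

namespace LangForms

private theorem dit_rho_bounds {F : Type} [Field F] (v : AbsoluteValue F ℝ) (t : F)
    (h0 : 0 < v t) (h1 : v t < 1) (w : Fin 2 → F) (hw : w ≠ 0) :
    0 ≤ rho v t w ∧ rho v t w ≤ Lt v t / 2 := by
  have hn : 0 < nrm v w := by
    unfold nrm
    by_contra hcon
    push Not at hcon
    apply hw
    funext i
    have ha : v (w 0) ≤ 0 := le_trans (le_max_left _ _) hcon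
    have hb : v (w 1) ≤ 0 := le_trans (le_max_right _ _) hcon
    have ha' : w 0 = 0 := v.eq_zero.1 (le_antisymm ha (v.nonneg _))
    have hb' : w 1 = 0 := v.eq_zero.1 (le_antisymm hb (v.nonneg _))
    fin_cases i
    · exact ha'
    · exact hb'
  have hs : 0 < Real.sqrt (v t) := Real.sqrt_pos.2 h0
  have hmax : 0 < max (v (w 0) / nrm v w) (Real.sqrt (v t)) := lt_of_lt_of_le hs (le_max_right _ _)
  constructor
  · unfold rho
    have h2 : max (v (w 0) / nrm v w) (Real.sqrt (v t)) ≤ 1 := by
      apply max_le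
      · rw [div_le_one hn]; exact le_max_left _ _
      · rw [Real.sqrt_le_one]; exact h1.le
    have := Real.log_nonpos hmax.le h2
    linarith
  · unfold rho Lt
    have h3 : Real.log (Real.sqrt (v t)) ≤ Real.log (max (v (w 0) / nrm v w) (Real.sqrt (v t))) :=
      Real.log_le_log hs (le_max_right _ _)
    rw [Real.log_sqrt h0.le] at h3
    linarith

private theorem dit_g_lip (L a b : ℝ) (hL : 0 < L) (ha0 : 0 ≤ a) (ha : a ≤ L / 2) (hb0 : 0 ≤ b)
    (hb : b ≤ L / 2) : b ^ 2 / L - b - |a - b| ≤ a ^ 2 / L - a := by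
  have e : (a ^ 2 / L - a) - (b ^ 2 / L - b) = (a - b) * ((a + b) / L - 1) := by
    field_simp
    ring
  have h1 : 0 ≤ (a + b) / L := div_nonneg (by linarith) hL.le
  have h2 : (a + b) / L ≤ 1 := by rw [div_le_one hL]; linarith
  rcases abs_cases (a - b) with ⟨h, _⟩ | ⟨h, _⟩ <;> rw [h] <;> nlinarith

private theorem dit_g_tent (L r : ℝ) (hL : 0 < L) :
    (min (2 * r) (L - 2 * r)) ^ 2 / L - min (2 * r) (L - 2 * r) = 4 * (r ^ 2 / L - r) + 2 * r := by
  rcases min_choice (2 * r) (L - 2 * r) with h | h <;> rw [h] <;> field_simp <;> ring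

theorem dup_iter {F : Type} [Field F] (v : AbsoluteValue F ℝ) (t : F) (c : ℝ) (h0 : 0 < v t)
    (h1 : v t < 1) (hc : 0 ≤ c) (hF : ∀ w : Fin 2 → F, w ≠ 0 → Fm t w ≠ 0) (hlow : DupLow v t c)
    (hrho : DupRho v t c) (w : Fin 2 → F) (hw : w ≠ 0) (n : ℕ) :
    4 ^ n * (rho v t w ^ 2 / Lt v t - rho v t w + Real.log (nrm v w) - c) ≤
      Real.log (nrm v ((Fm t)^[n] w)) := by
  have hL : 0 < Lt v t := by
    unfold Lt
    have := Real.log_neg h0 h1
    linarith
  induction n generalizing w with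
  | zero =>
    obtain ⟨ha, hb⟩ := dit_rho_bounds v t h0 h1 w hw
    have hg : rho v t w ^ 2 / Lt v t ≤ rho v t w := by
      rw [div_le_iff₀ hL]
      nlinarith
    simp only [pow_zero, one_mul, Function.iterate_zero, id_eq]
    linarith
  | succ n ih =>
    have hw' := hF w hw
    have h := ih (Fm t w) hw'
    rw [Function.iterate_succ, Function.comp_apply]
    refine le_trans ?_ h
    obtain ⟨ha, hb⟩ := dit_rho_bounds v t h0 h1 w hw
    obtain ⟨ha', hb'⟩ := dit_rho_bounds v t h0 h1 (Fm t w) hw'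
    have hl := hlow w hw
    have hr := hrho w hw
    set r := rho v t w with hrdef
    set r' := rho v t (Fm t w) with hr'def
    set L := Lt v t with hLdef
    have hT0 : 0 ≤ min (2 * r) (L - 2 * r) := le_min (by linarith) (by linarith)
    have hT1 : min (2 * r) (L - 2 * r) ≤ L / 2 := by
      rcases le_total (2 * r) (L / 2) with h | h
      · exact le_trans (min_le_left _ _) h
      · exact le_trans (min_le_right _ _) (by linarith)
    have hlip := dit_g_lip L r' (min (2 * r) (L - 2 * r)) hL ha' hb' hT0 hT1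
    rw [dit_g_tent L r hL] at hlip
    rw [pow_succ, mul_assoc]
    apply mul_le_mul_of_nonneg_left _ (by positivity)
    linarith

end LangForms
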