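import Pool.Agent.Lib_MP_f5471b_j.Defs

/-!
# MP_f5471b_nt part 2, piece DNA: the duplication map, nonarchimedean case
-/

namespace LangForms

namespace DupNA

variable {F : Type} [Field F] (v : AbsoluteValue F ℝ)

theorem smul_nrm (c : F) (w : Fin 2 → F) : nrm v (c • w) = v c * nrm v w := by
  unfold nrm
  simp only [Pi.smul_apply, smul_eq_mul, map_mul]
  rw [← mul_max_of_nonneg _ _ (v.nonneg c)]

theorem smul_rho (t c : F) (hc : c ≠ 0) (w : Fin 2 → F) : rho v t (c • w) = rho v t w := by
  unfold rho
  rw [smul_nrm, Pi.smul_apply, smul_eq_mul, map_mul, mul_div_mul_left _ _ (by simpa using hc)]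

theorem smul_Fm (t c : F) (w : Fin 2 → F) : Fm t (c • w) = c ^ 4 • Fm t w := by
  funext i
  fin_cases i <;> simp [Fm] <;> ring

theorem Fm_affine (t x : F) : Fm t ![x, 1] =
    ![x ^ 4 + t * (1 + (8 * x + 72 * x ^ 2 + 1296 * t)),
      x ^ 2 * (1 + 4 * x) + -(t * (4 * (1 + 36 * x)))] := by
  funext i
  fin_cases i <;> simp [Fm] <;> ring

variable {v}

theorem nat_le (hv : IsNonarchimedean v) (n : ℕ) : v (n : F) ≤ 1 := by
  induction n with
  | zero => simp
  | succ n ih =>
    rw [Nat.cast_succ]
    exact (hv _ _).trans (max_le ih (by simp))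

theorem ofNat_le (hv : IsNonarchimedean v) (n : ℕ) [n.AtLeastTwo] :
    v (OfNat.ofNat n : F) ≤ 1 := by
  have := nat_le hv (OfNat.ofNat n)
  rwa [Nat.cast_ofNat] at this

theorem add_eq (hv : IsNonarchimedean v) {a b : F} (h : v b < v a) : v (a + b) = v a := by
  apply le_antisymm
  · exact (hv a b).trans (max_le le_rfl h.le)
  · have h1 : v a ≤ max (v (a + b)) (v (-b)) := by
      have := hv (a + b) (-b)
      rwa [add_neg_cancel_right] at this
    rw [v.map_neg] at h1
    rcases le_max_iff.1 h1 with h2 | h2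
    · exact h2
    · exact absurd h (not_lt.2 h2)

theorem add_eq' (hv : IsNonarchimedean v) {a b : F} (h : v a < v b) : v (a + b) = v b := by
  rw [add_comm]
  exact add_eq hv h

theorem unit_u (hv : IsNonarchimedean v) {x t : F} (hx : v x < 1) (ht : v t < 1) :
    v (1 + (8 * x + 72 * x ^ 2 + 1296 * t)) = 1 := by
  have hx0 := v.nonneg x
  have h1 : v (8 * x + 72 * x ^ 2 + 1296 * t) < 1 := by
    refine lt_of_le_of_lt (hv _ _) (max_lt (lt_of_le_of_lt (hv _ _) (max_lt ?_ ?_)) ?_)
    · rw [map_mul]
      exact lt_of_le_of_lt (mul_le_of_le_one_left hx0 (ofNat_le hv 8)) hx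
    · rw [map_mul, map_pow]
      refine lt_of_le_of_lt (mul_le_of_le_one_left (by positivity) (ofNat_le hv 72)) ?_
      exact pow_lt_one₀ hx0 hx two_ne_zero
    · rw [map_mul]
      exact lt_of_le_of_lt (mul_le_of_le_one_left (v.nonneg t) (ofNat_le hv 1296)) ht
  rw [add_eq hv (by rwa [map_one]), map_one]

theorem unit_four (hv : IsNonarchimedean v) {x : F} (hx : v x < 1) : v (1 + 4 * x) = 1 := by
  have h1 : v (4 * x) < 1 := by
    rw [map_mul]
    exact lt_of_le_of_lt (mul_le_of_le_one_left (v.nonneg x) (ofNat_le hv 4)) hx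
  rw [add_eq hv (by rwa [map_one]), map_one]

/-- the second term of the second entry is small -/
theorem small_le (hv : IsNonarchimedean v) {x t : F} (hx : v x ≤ 1) :
    v (-(t * (4 * (1 + 36 * x)))) ≤ v t := by
  rw [v.map_neg, map_mul, map_mul]
  have h1 : v (1 + 36 * x) ≤ 1 := by
    refine (hv _ _).trans (max_le (by simp) ?_)
    rw [map_mul]
    exact mul_le_one₀ (ofNat_le hv 36) (v.nonneg x) hx
  exact mul_le_of_le_one_right (v.nonneg t) (mul_le_one₀ (ofNat_le hv 4) (v.nonneg _) h1)

/-- large `x` -/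
theorem val_large (hv : IsNonarchimedean v) {x t : F} (h1 : v t < 1) (hx : 1 ≤ v x) :
    v (Fm t ![x, 1] 0) = v x ^ 4 ∧ v (Fm t ![x, 1] 1) ≤ v x ^ 4 := by
  have hx0 := v.nonneg x
  have ht0 := v.nonneg t
  have p1 : v x ≤ v x ^ 2 := by nlinarith
  have p2 : v x ^ 2 ≤ v x ^ 3 := by nlinarith [sq_nonneg (v x)]
  have p3 : v x ^ 3 ≤ v x ^ 4 := by
    have : 0 ≤ v x ^ 3 := by positivity
    nlinarith
  have p4 : 1 ≤ v x ^ 4 := one_le_pow₀ hx
  constructor
  · rw [Fm_affine]
    simp only [Matrix.cons_val_zero]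
    rw [add_eq hv, map_pow]
    rw [map_mul, map_pow]
    have h2 : v (1 + (8 * x + 72 * x ^ 2 + 1296 * t)) ≤ v x ^ 2 := by
      refine (hv _ _).trans (max_le ?_ ((hv _ _).trans (max_le ((hv _ _).trans
        (max_le ?_ ?_)) ?_)))
      · rw [map_one]; exact one_le_pow₀ hx
      · rw [map_mul]
        exact (mul_le_of_le_one_left hx0 (ofNat_le hv 8)).trans p1
      · rw [map_mul, map_pow]
        exact mul_le_of_le_one_left (by positivity) (ofNat_le hv 72)
      · rw [map_mul]
        exact ((mul_le_of_le_one_left ht0 (ofNat_le hv 1296)).trans h1.le).trans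
          (one_le_pow₀ hx)
    have h3 : 0 < v x ^ 2 := by positivity
    calc v t * v (1 + (8 * x + 72 * x ^ 2 + 1296 * t)) ≤ v t * v x ^ 2 :=
          mul_le_mul_of_nonneg_left h2 ht0
      _ < 1 * v x ^ 2 := mul_lt_mul_of_pos_right h1 h3
      _ ≤ v x ^ 4 := by rw [one_mul]; linarith
  · rw [Fm_affine]
    simp only [Matrix.cons_val_one, Matrix.cons_val_fin_one]
    refine (hv _ _).trans (max_le ?_ ?_)
    · rw [map_mul, map_pow]
      have h2 : v (1 + 4 * x) ≤ v x := by
        refine (hv _ _).trans (max_le ?_ ?_)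
        · rw [map_one]; exact hx
        · rw [map_mul]; exact mul_le_of_le_one_left hx0 (ofNat_le hv 4)
      have : v x ^ 2 * v (1 + 4 * x) ≤ v x ^ 2 * v x := mul_le_mul_of_nonneg_left h2 (by positivity)
      nlinarith
    · rw [v.map_neg, map_mul, map_mul]
      have h3 : v (1 + 36 * x) ≤ v x := by
        refine (hv _ _).trans (max_le ?_ ?_)
        · rw [map_one]; exact hx
        · rw [map_mul]; exact mul_le_of_le_one_left hx0 (ofNat_le hv 36)
      have h4 : v 4 * v (1 + 36 * x) ≤ v x := by
        have := mul_le_mul (ofNat_le hv 4 : v (OfNat.ofNat 4 : F) ≤ 1) h3 (v.nonneg _) zero_le_one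
        rwa [one_mul] at this
      have h5 : v t * (v 4 * v (1 + 36 * x)) ≤ 1 * v x :=
        mul_le_mul h1.le h4 (mul_nonneg (v.nonneg _) (v.nonneg _)) zero_le_one
      rw [one_mul] at h5
      linarith

theorem val_mid (hv : IsNonarchimedean v) {x t : F} (h1 : v t < 1)
    (hx : v x < 1) (hxt : v t < v x ^ 2) :
    v (Fm t ![x, 1] 0) ≤ max (v x ^ 4) (v t) ∧
      (v x ^ 4 ≠ v t → v (Fm t ![x, 1] 0) = max (v x ^ 4) (v t)) ∧
      v (Fm t ![x, 1] 1) = v x ^ 2 := by
  have hu := unit_u hv hx h1
  refine ⟨?_, ?_, ?_⟩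
  · rw [Fm_affine]
    simp only [Matrix.cons_val_zero]
    refine (hv _ _).trans ?_
    rw [map_mul, hu, mul_one, map_pow]
  · intro hne
    rw [Fm_affine]
    simp only [Matrix.cons_val_zero]
    rcases lt_or_gt_of_ne hne with h | h
    · rw [add_eq' hv, map_mul, hu, mul_one, max_eq_right h.le]
      rwa [map_mul, hu, mul_one, map_pow]
    · rw [add_eq hv, map_pow, max_eq_left h.le]
      rwa [map_mul, hu, mul_one, map_pow]
  · rw [Fm_affine]
    simp only [Matrix.cons_val_one, Matrix.cons_val_fin_one]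
    rw [add_eq hv, map_mul, unit_four hv hx, mul_one, map_pow]
    rw [map_mul, unit_four hv hx, mul_one, map_pow]
    exact lt_of_le_of_lt (small_le hv hx.le) hxt

theorem val_small (hv : IsNonarchimedean v) {x t : F} (h0 : 0 < v t) (h1 : v t < 1)
    (hxt : v x ^ 2 ≤ v t) :
    v (Fm t ![x, 1] 0) = v t ∧ v (Fm t ![x, 1] 1) ≤ v t := by
  have hx : v x < 1 := by
    by_contra hcon
    push Not at hcon
    have := one_le_pow₀ hcon (n := 2)
    linarith
  have hu := unit_u hv hx h1
  constructor
  · rw [Fm_affine]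
    simp only [Matrix.cons_val_zero]
    rw [add_eq' hv, map_mul, hu, mul_one]
    rw [map_mul, hu, mul_one, map_pow]
    have h3 : 0 ≤ v x ^ 2 := by positivity
    nlinarith
  · rw [Fm_affine]
    simp only [Matrix.cons_val_one, Matrix.cons_val_fin_one]
    refine (hv _ _).trans (max_le ?_ (small_le hv hx.le))
    rwa [map_mul, unit_four hv hx, mul_one, map_pow]

/-- the two statements for a vector, together with nonvanishing -/
def Ok (v : AbsoluteValue F ℝ) (t : F) (w : Fin 2 → F) : Prop :=
  0 < nrm v w ∧ 0 < nrm v (Fm t w) ∧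
    -2 * rho v t w + 4 * Real.log (nrm v w) ≤ Real.log (nrm v (Fm t w)) ∧
    rho v t (Fm t w) = min (2 * rho v t w) (Lt v t - 2 * rho v t w)

theorem ok_smul {t : F} {w : Fin 2 → F} (h : Ok v t w) {c : F} (hc : c ≠ 0) : Ok v t (c • w) := by
  obtain ⟨h1, h2, h3, h4⟩ := h
  have hvc : 0 < v c := v.pos hc
  have hvc4 : v (c ^ 4) = v c ^ 4 := map_pow _ _ _
  refine ⟨?_, ?_, ?_, ?_⟩
  · rw [smul_nrm]; positivity
  · rw [smul_Fm, smul_nrm, hvc4]; positivity
  · rw [smul_Fm, smul_nrm, smul_nrm, smul_rho v t c hc, hvc4, Real.log_mul hvc.ne' h1.ne',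
      Real.log_mul (pow_pos hvc 4).ne' h2.ne', Real.log_pow]
    push_cast
    linarith
  · rw [smul_Fm, smul_rho v t _ (pow_ne_zero 4 hc), smul_rho v t c hc, h4]

theorem ok_inf {t : F} (h0 : 0 < v t) (h1 : v t < 1) : Ok v t ![1, 0] := by
  have hF : Fm t ![(1 : F), 0] = ![1, 0] := by
    funext i
    fin_cases i <;> simp [Fm]
  have hn : nrm v ![(1 : F), 0] = 1 := by
    simp [nrm]
  have hr : rho v t ![(1 : F), 0] = 0 := by
    unfold rho
    rw [hn]
    have : Real.sqrt (v t) ≤ 1 := Real.sqrt_le_one.2 h1.le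
    simp [this]
  have hL : 0 < Lt v t := by
    unfold Lt
    have := Real.log_neg h0 h1
    linarith
  unfold Ok
  rw [hF, hn, hr]
  refine ⟨one_pos, one_pos, by simp, ?_⟩
  rw [mul_zero, sub_zero, min_eq_left hL.le]

theorem nrm_affine (x : F) : nrm v ![x, 1] = max (v x) 1 := by
  simp [nrm]

theorem ok_affine (hv : IsNonarchimedean v) {t : F} (h0 : 0 < v t) (h1 : v t < 1) (x : F) :
    Ok v t ![x, 1] := by
  have hs1 : Real.sqrt (v t) < 1 := by
    rw [Real.sqrt_lt' one_pos]; simpa using h1
  have hs0 : 0 < Real.sqrt (v t) := Real.sqrt_pos.2 h0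
  have hss : Real.sqrt (v t) ^ 2 = v t := Real.sq_sqrt h0.le
  have hL : 0 < Lt v t := by
    unfold Lt
    have := Real.log_neg h0 h1
    linarith
  have hx0 := v.nonneg x
  have hLs : Lt v t = -(2 * Real.log (Real.sqrt (v t))) := by
    unfold Lt
    rw [Real.log_sqrt h0.le]
    ring
  unfold Ok
  rcases le_or_gt 1 (v x) with hx | hx
  · -- large
    obtain ⟨e0, e1⟩ := val_large hv h1 hx
    have hN : nrm v (Fm t ![x, 1]) = v x ^ 4 := by
      unfold nrm
      rw [e0, max_eq_left e1]
    have hp : 0 < v x := by linarith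
    have hn : nrm v ![x, 1] = v x := by
      rw [nrm_affine, max_eq_left hx]
    have hr : rho v t ![x, 1] = 0 := by
      unfold rho
      rw [hn]
      simp only [Matrix.cons_val_zero]
      rw [div_self hp.ne', max_eq_left hs1.le, Real.log_one, neg_zero]
    have hr' : rho v t (Fm t ![x, 1]) = 0 := by
      unfold rho
      rw [hN, e0, div_self (pow_pos hp 4).ne', max_eq_left hs1.le, Real.log_one, neg_zero]
    rw [hN, hn, hr, hr']
    refine ⟨hp, pow_pos hp 4, ?_, ?_⟩
    · rw [Real.log_pow]
      push_cast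
      linarith
    · rw [mul_zero, sub_zero, min_eq_left hL.le]
  · have hn : nrm v ![x, 1] = 1 := by
      rw [nrm_affine, max_eq_right hx.le]
    have hr : rho v t ![x, 1] = -Real.log (max (v x) (Real.sqrt (v t))) := by
      unfold rho
      rw [hn]
      simp
    rw [hn, Real.log_one, mul_zero, add_zero]
    rcases le_or_gt (v x ^ 2) (v t) with hxt | hxt
    · -- small
      obtain ⟨e0, e1⟩ := val_small hv h0 h1 hxt
      have hN : nrm v (Fm t ![x, 1]) = v t := by
        unfold nrm
        rw [e0, max_eq_left e1]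
      have hxs : v x ≤ Real.sqrt (v t) := Real.le_sqrt_of_sq_le hxt
      have hr2 : rho v t ![x, 1] = Lt v t / 2 := by
        rw [hr, max_eq_right hxs, hLs]
        ring
      have hr' : rho v t (Fm t ![x, 1]) = 0 := by
        unfold rho
        rw [hN, e0, div_self h0.ne', max_eq_left hs1.le, Real.log_one, neg_zero]
      rw [hN, hr2, hr']
      refine ⟨one_pos, h0, ?_, ?_⟩
      · unfold Lt
        linarith
      · rw [min_eq_right]
        · ring
        · linarith
    · -- middle
      obtain ⟨e0, e0', e1⟩ := val_mid hv h1 hx hxt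
      have hp : 0 < v x := by
        rcases hx0.lt_or_eq with h | h
        · exact h
        · rw [← h] at hxt
          simp at hxt
          linarith
      have hp2 : 0 < v x ^ 2 := pow_pos hp 2
      have hp42 : v x ^ 4 ≤ v x ^ 2 := pow_le_pow_of_le_one hx0 hx.le (by norm_num)
      have hN : nrm v (Fm t ![x, 1]) = v x ^ 2 := by
        unfold nrm
        rw [e1, max_eq_right]
        exact e0.trans (max_le hp42 hxt.le)
      have hsx : Real.sqrt (v t) < v x := (Real.sqrt_lt' hp).2 hxt
      have hr2 : rho v t ![x, 1] = -Real.log (v x) := by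
        rw [hr, max_eq_left hsx.le]
      rw [hN, hr2]
      refine ⟨one_pos, hp2, ?_, ?_⟩
      · rw [Real.log_pow]
        push_cast
        linarith
      · -- the target
        have htgt : min (2 * -Real.log (v x)) (Lt v t - 2 * -Real.log (v x)) =
            -Real.log (max (v x ^ 2) (v t / v x ^ 2)) := by
          have e2 : 2 * -Real.log (v x) = -Real.log (v x ^ 2) := by
            rw [Real.log_pow]; push_cast; ring
          have e3 : Lt v t - 2 * -Real.log (v x) = -Real.log (v t / v x ^ 2) := by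
            rw [Real.log_div h0.ne' hp2.ne', Real.log_pow]
            unfold Lt
            push_cast
            ring
          rw [e3, e2]
          have hq : 0 < v t / v x ^ 2 := div_pos h0 hp2
          rcases le_total (v x ^ 2) (v t / v x ^ 2) with h | h
          · rw [max_eq_right h, min_eq_right]
            exact neg_le_neg (Real.log_le_log hp2 h)
          · rw [max_eq_left h, min_eq_left]
            exact neg_le_neg (Real.log_le_log hq h)
        rw [htgt]
        unfold rho
        rw [hN]
        congr 2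
        have hmd : max (v x ^ 4) (v t) / v x ^ 2 = max (v x ^ 2) (v t / v x ^ 2) := by
          rw [← max_div_div_right hp2.le]
          congr 1
          field_simp
        by_cases hne : v x ^ 4 = v t
        · have e4 : Real.sqrt (v t) = v x ^ 2 := by
            rw [← hne]
            have : v x ^ 4 = (v x ^ 2) ^ 2 := by ring
            rw [this, Real.sqrt_sq hp2.le]
          have e5 : v t / v x ^ 2 = v x ^ 2 := by
            rw [← hne]
            field_simp
          rw [e4, e5, max_self]
          apply max_eq_right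
          rw [div_le_iff₀ hp2]
          refine e0.trans ?_
          rw [← hne, max_self]
          have : v x ^ 4 = v x ^ 2 * v x ^ 2 := by ring
          linarith
        · rw [e0' hne, hmd]
          apply max_eq_left
          by_contra hcon
          push Not at hcon
          obtain ⟨h5, h6⟩ := max_lt_iff.1 hcon
          have h7 : v x ^ 2 * (v t / v x ^ 2) = v t := by field_simp
          have h8 : v x ^ 2 * (v t / v x ^ 2) < Real.sqrt (v t) * Real.sqrt (v t) :=
            mul_lt_mul'' h5 h6 hp2.le (div_pos h0 hp2).le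
          rw [h7, ← sq, hss] at h8
          exact lt_irrefl _ h8

theorem ok_all (hv : IsNonarchimedean v) {t : F} (h0 : 0 < v t) (h1 : v t < 1) (w : Fin 2 → F)
    (hw : w ≠ 0) : Ok v t w := by
  by_cases h : w 1 = 0
  · have hw0 : w 0 ≠ 0 := by
      intro h'
      apply hw
      funext i
      fin_cases i
      · exact h'
      · exact h
    have e : w = w 0 • ![(1 : F), 0] := by
      funext i
      fin_cases i
      · simp
      · simp [h]
    rw [e]
    exact ok_smul (ok_inf h0 h1) hw0
  · have e : w = w 1 • ![w 0 / w 1, 1] := by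
      funext i
      fin_cases i
      · simp
        field_simp
      · simp
    rw [e]
    exact ok_smul (ok_affine hv h0 h1 _) h

end DupNA

theorem dup_na {F : Type} [Field F] (v : AbsoluteValue F ℝ) (hv : IsNonarchimedean v) (t : F)
    (h0 : 0 < v t) (h1 : v t < 1) : DupLow v t 0 ∧ DupRho v t 0 := by
  constructor
  · intro w hw
    have := (DupNA.ok_all hv h0 h1 w hw).2.2.1
    linarith
  · intro w hw
    rw [(DupNA.ok_all hv h0 h1 w hw).2.2.2, sub_self, abs_zero]

end LangForms
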