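import Pool.Agent.Lib_MP_f5471b_j.Defs
import Pool.Agent.Lib_MP_f5471b_nt.LocGlob

/-!
Piece GL: local inequalities with weights at all places give a global inequality.
-/

namespace LangForms

open Height NumberField WeierstrassCurve Topology Filter IsDedekindDomain Function

namespace GlobAux

lemma nrm_eq {F : Type} [Field F] (v : AbsoluteValue F ℝ) (w : Fin 2 → F) :
    nrm v w = ⨆ i, v (w i) := by
  unfold nrm
  apply le_antisymm
  · exact max_le (Finite.le_ciSup_of_le 0 le_rfl) (Finite.le_ciSup_of_le 1 le_rfl)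
  · apply ciSup_le
    intro i
    fin_cases i
    · exact le_max_left _ _
    · exact le_max_right _ _

lemma max_eq {F : Type} [Field F] (v : AbsoluteValue F ℝ) (D : F) :
    max 1 (v D) = ⨆ i, v ((![D, 1] : Fin 2 → F) i) := by
  rw [← nrm_eq]
  unfold nrm
  rw [max_comm]
  simp

end GlobAux

open LocGlobAux GlobAux in
theorem global_lower {F : Type} [Field F] [NumberField F] (y : Fin 2 → F) (hy : y ≠ 0) (D : F)
    (hD : D ≠ 0) (N : ℕ) (T : Finset (FinitePlace F)) (gf : FinitePlace F → ℝ)
    (gi : InfinitePlace F → ℝ) (hgf : ∀ v ∈ T, 0 < gf v) (hgi : ∀ v, 0 < gi v)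
    (hinf : ∀ v : InfinitePlace F, gi v * v D ^ N ≤ nrm v.1 y ^ 6 * max 1 (v D))
    (hT : ∀ v ∈ T, gf v * v D ^ N ≤ nrm v.1 y ^ 6 * max 1 (v D))
    (hfin : ∀ v : FinitePlace F, v ∉ T → v D ^ N ≤ nrm v.1 y ^ 6 * max 1 (v D)) :
    ∑ v ∈ T, Real.log (gf v) + ∑ v : InfinitePlace F, v.mult * Real.log (gi v) ≤
      6 * logHeight y + logHeight₁ D := by
  classical
  set z : Fin 2 → F := ![D, 1] with hz
  have hz0 : z ≠ 0 := by
    intro h
    have := congrFun h 1
    simp [hz] at this
  set g' : FinitePlace F → ℝ := fun v => if v ∈ T then gf v else 1 with hg'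
  have hg'pos : ∀ v, 0 < g' v := by
    intro v
    rw [hg']
    simp only
    split_ifs with h
    · exact hgf v h
    · exact one_pos
  have hinf' : ∀ v : InfinitePlace F,
      gi v * v D ^ N ≤ (⨆ i, v (y i)) ^ 6 * (⨆ i, v (z i)) := by
    intro v
    have h := hinf v
    rw [nrm_eq] at h
    have h2 := max_eq v.1 D
    rw [show (max 1 (v D) : ℝ) = ⨆ i, v.1 (z i) from h2] at h
    exact h
  have hfin' : ∀ v : FinitePlace F,
      g' v * v D ^ N ≤ (⨆ i, v (y i)) ^ 6 * (⨆ i, v (z i)) := by
    intro v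
    have h2 := max_eq v.1 D
    by_cases hv : v ∈ T
    · have h := hT v hv
      rw [nrm_eq, show (max 1 (v D) : ℝ) = ⨆ i, v.1 (z i) from h2] at h
      rw [hg']
      simp only [if_pos hv]
      exact h
    · have h := hfin v hv
      rw [nrm_eq, show (max 1 (v D) : ℝ) = ⨆ i, v.1 (z i) from h2] at h
      rw [hg']
      simp only [if_neg hv, one_mul]
      exact h
  have hsup : (Function.mulSupport g') ⊆ (T : Set (FinitePlace F)) := by
    intro v hv
    by_contra hcon
    apply hv
    rw [hg']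
    simp only
    rw [if_neg (fun h => hcon (Finset.mem_coe.mpr h))]
  have hg'fin : g'.HasFiniteMulSupport := T.finite_toSet.subset hsup
  have hDN : (fun v : FinitePlace F => v D ^ N).HasFiniteMulSupport :=
    (FinitePlace.hasFiniteMulSupport hD).pow N
  have hprodg : ∏ᶠ v, g' v = ∏ v ∈ T, gf v := by
    rw [finprod_eq_prod_of_mulSupport_subset g' hsup]
    apply Finset.prod_congr rfl
    intro v hv
    rw [hg']
    simp only [if_pos hv]
  have key : (∏ v ∈ T, gf v) * (∏ v : InfinitePlace F, gi v ^ v.mult) ≤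
      mulHeight y ^ 6 * mulHeight₁ D := by
    have h1 := prod_abs_eq_one (K := F) hD
    have e1 : (∏ v ∈ T, gf v) * (∏ v : InfinitePlace F, gi v ^ v.mult) =
        (∏ v : InfinitePlace F, (gi v * v D ^ N) ^ v.mult) *
        ∏ᶠ v : FinitePlace F, (g' v * v D ^ N) := by
      rw [finprod_mul_distrib hg'fin hDN,
        ← finprod_pow (FinitePlace.hasFiniteMulSupport hD), hprodg]
      simp only [mul_pow, Finset.prod_mul_distrib]
      have e3 : ∏ v : InfinitePlace F, (v D ^ N) ^ v.mult =
          (∏ v : InfinitePlace F, v D ^ v.mult) ^ N := by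
        rw [← Finset.prod_pow]
        exact Finset.prod_congr rfl fun v _ => by ring
      rw [e3]
      have e4 : ∀ a b c d : ℝ, a * b ^ N * (c * d ^ N) = (c * a) * (b * d) ^ N := by
        intro a b c d
        rw [mul_pow]
        ring
      rw [e4, h1, one_pow, mul_one]
    have e2 : mulHeight y ^ 6 * mulHeight₁ D =
        (∏ v : InfinitePlace F, ((⨆ i, v (y i)) ^ 6 * (⨆ i, v (z i))) ^ v.mult) *
        ∏ᶠ v : FinitePlace F, ((⨆ i, v (y i)) ^ 6 * (⨆ i, v (z i))) := by
      rw [finprod_mul_distrib (hfmp hy 6) (hfm hz0), ← finprod_pow (hfm hy)]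
      simp only [mul_pow, Finset.prod_mul_distrib]
      rw [mulHeight₁_eq_mulHeight, NumberField.mulHeight_eq hy, NumberField.mulHeight_eq hz0]
      have p1 : ∀ n : ℕ, ∀ g : InfinitePlace F → ℝ,
          ∏ v : InfinitePlace F, (g v ^ n) ^ v.mult = (∏ v : InfinitePlace F, g v ^ v.mult) ^ n := by
        intro n g
        rw [← Finset.prod_pow]
        refine Finset.prod_congr rfl fun v _ => ?_
        ring
      rw [p1]
      ring
    rw [e1, e2]
    have pi : ∀ v : InfinitePlace F, 0 ≤ gi v * v D ^ N := fun v =>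
      mul_nonneg (hgi v).le (pow_nonneg (apply_nonneg v _) _)
    have pf : ∀ v : FinitePlace F, 0 ≤ g' v * v D ^ N := fun v =>
      mul_nonneg (hg'pos v).le (pow_nonneg (apply_nonneg v _) _)
    refine mul_le_mul ?_ ?_ (finprod_nonneg pf) ?_
    · exact Finset.prod_le_prod (fun v _ => pow_nonneg (pi v) _)
        fun v _ => pow_le_pow_left₀ (pi v) (hinf' v) _
    · refine finprod_le_finprod ?_ pf ?_ hfin'
      · exact hg'fin.mul ((FinitePlace.hasFiniteMulSupport hD).pow N)
      · exact ((hfm hy).pow 6).mul (hfm hz0)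
    · exact Finset.prod_nonneg fun v _ => pow_nonneg ((pi v).trans (hinf' v)) _
  have hy0 := mulHeight_pos y
  have hD0 := mulHeight₁_pos D
  have hp1 : 0 < ∏ v ∈ T, gf v := Finset.prod_pos hgf
  have hp2 : 0 < ∏ v : InfinitePlace F, gi v ^ v.mult :=
    Finset.prod_pos fun v _ => pow_pos (hgi v) _
  have := Real.log_le_log (mul_pos hp1 hp2) key
  rw [Real.log_mul hp1.ne' hp2.ne', Real.log_mul (by positivity) (by positivity),
    Real.log_pow, Real.log_prod (fun v hv => (hgf v hv).ne'),
    Real.log_prod (fun v _ => (pow_pos (hgi v) _).ne')] at this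
  simp only [Real.log_pow] at this
  exact this

end LangForms
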