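import Pool.Agent.Lib_MP_f5471b_j.Defs

/-!
# MP_f5471b_nt part 2: no degeneration under duplication, approximate version
-/

namespace LangForms

namespace NDA

variable {F : Type} [Field F]

theorem ofNat_le (v : AbsoluteValue F ℝ) (n : ℕ) [n.AtLeastTwo] :
    v (OfNat.ofNat n : F) ≤ (OfNat.ofNat n : ℝ) := by
  have h := AbsoluteValue.apply_nat_le_self v n
  exact_mod_cast h

/-- Large `ξ`. -/
theorem far (v : AbsoluteValue F ℝ) (κ ξ ζ : F) (S : ℝ) (hS : 0 < S)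
    (h2 : v κ ≤ S ^ 2) (h3 : v κ ≤ S ^ 3) (h : 10 * S * v ζ ≤ v ξ) :
    v ξ ^ 4 / 2 ≤ v (ξ ^ 4 + 6 * κ * ξ ^ 2 * ζ ^ 2 - 16 * κ * ξ * ζ ^ 3 + 9 * κ ^ 2 * ζ ^ 4) := by
  have ha := v.nonneg ξ
  have hb := v.nonneg ζ
  have hk := v.nonneg κ
  set a := v ξ with hadef
  set b := v ζ with hbdef
  have e : ξ ^ 4 + 6 * κ * ξ ^ 2 * ζ ^ 2 - 16 * κ * ξ * ζ ^ 3 + 9 * κ ^ 2 * ζ ^ 4
      = ξ ^ 4 - (16 * κ * ξ * ζ ^ 3 - 6 * κ * ξ ^ 2 * ζ ^ 2 - 9 * κ ^ 2 * ζ ^ 4) := by ring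
  rw [e]
  have h1 := v.le_sub (ξ ^ 4) (16 * κ * ξ * ζ ^ 3 - 6 * κ * ξ ^ 2 * ζ ^ 2 - 9 * κ ^ 2 * ζ ^ 4)
  have h4 : v (16 * κ * ξ * ζ ^ 3 - 6 * κ * ξ ^ 2 * ζ ^ 2 - 9 * κ ^ 2 * ζ ^ 4) ≤
      v (16 * κ * ξ * ζ ^ 3) + v (6 * κ * ξ ^ 2 * ζ ^ 2) + v (9 * κ ^ 2 * ζ ^ 4) := by
    refine (v.sub_le_add _ _).trans ?_
    have := v.sub_le_add (16 * κ * ξ * ζ ^ 3) (6 * κ * ξ ^ 2 * ζ ^ 2)
    linarith
  have t1 : v (16 * κ * ξ * ζ ^ 3) ≤ 16 * S ^ 3 * a * b ^ 3 := by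
    rw [v.map_mul, v.map_mul, v.map_mul, v.map_pow]
    have := ofNat_le v 16
    gcongr
  have t2 : v (6 * κ * ξ ^ 2 * ζ ^ 2) ≤ 6 * S ^ 2 * a ^ 2 * b ^ 2 := by
    rw [v.map_mul, v.map_mul, v.map_mul, v.map_pow, v.map_pow]
    have := ofNat_le v 6
    gcongr
  have t3 : v (9 * κ ^ 2 * ζ ^ 4) ≤ 9 * (S ^ 2) ^ 2 * b ^ 4 := by
    rw [v.map_mul, v.map_mul, v.map_pow, v.map_pow]
    have := ofNat_le v 9
    gcongr
  rw [v.map_pow] at h1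
  -- u = S b ≤ a / 10
  have hu : S * b ≤ a / 10 := by linarith
  have hu0 : 0 ≤ S * b := by positivity
  have p2 : (S * b) ^ 2 ≤ (a / 10) ^ 2 := by gcongr
  have p3 : (S * b) ^ 3 ≤ (a / 10) ^ 3 := by gcongr
  have p4 : (S * b) ^ 4 ≤ (a / 10) ^ 4 := by gcongr
  have q1 : 16 * S ^ 3 * a * b ^ 3 ≤ 16 * a * (a / 10) ^ 3 := by
    calc 16 * S ^ 3 * a * b ^ 3 = 16 * a * (S * b) ^ 3 := by ring
      _ ≤ _ := by gcongr
  have q2 : 6 * S ^ 2 * a ^ 2 * b ^ 2 ≤ 6 * a ^ 2 * (a / 10) ^ 2 := by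
    calc 6 * S ^ 2 * a ^ 2 * b ^ 2 = 6 * a ^ 2 * (S * b) ^ 2 := by ring
      _ ≤ _ := by gcongr
  have q3 : 9 * (S ^ 2) ^ 2 * b ^ 4 ≤ 9 * (a / 10) ^ 4 := by
    calc 9 * (S ^ 2) ^ 2 * b ^ 4 = 9 * (S * b) ^ 4 := by ring
      _ ≤ _ := by gcongr
  have hr : 16 * a * (a / 10) ^ 3 + 6 * a ^ 2 * (a / 10) ^ 2 + 9 * (a / 10) ^ 4 ≤ a ^ 4 / 2 := by
    have : 0 ≤ a ^ 4 := by positivity
    nlinarith
  linarith

/-- Bounded `ξ`. -/
theorem near (v : AbsoluteValue F ℝ) (κ t ξ ζ : F) (S c c₀ : ℝ) (hS : 0 < S)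
    (hκ : κ = 1 + 1728 * t) (h2 : v κ ≤ S ^ 2) (h3 : v κ ≤ S ^ 3)
    (hc : 0 < c) (hc1 : c ≤ 1) (hc0 : 0 < c₀) (hc01 : c₀ ≤ 1) (hv2 : c₀ ≤ v 2)
    (hd : c * S ^ 6 ≤ v (108 * 1728 * κ ^ 2 * t)) (h : v ξ ≤ 10 * S * v ζ) :
    c₀ ^ 2 * (c ^ 2 / (160 * 4032 ^ 2)) * (S * v ζ) ^ 4 ≤
      max (v (ξ ^ 4 + 6 * κ * ξ ^ 2 * ζ ^ 2 - 16 * κ * ξ * ζ ^ 3 + 9 * κ ^ 2 * ζ ^ 4))
        (S * v (4 * ζ * (ξ ^ 3 - 3 * κ * ξ * ζ ^ 2 + 2 * κ * ζ ^ 3))) := by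
  have ha := v.nonneg ξ
  have hb := v.nonneg ζ
  have hk := v.nonneg κ
  set g : F := ξ ^ 3 - 3 * κ * ξ * ζ ^ 2 + 2 * κ * ζ ^ 3 with hg
  set g' : F := 3 * ξ ^ 2 - 3 * κ * ζ ^ 2 with hg'
  set η : ℝ := c ^ 2 / (160 * 4032 ^ 2) with hη
  have hη0 : 0 < η := by positivity
  have hηc : η ≤ c / 1188 := by
    rw [hη]
    have : c ^ 2 ≤ c := by nlinarith
    rw [div_le_div_iff₀ (by norm_num) (by norm_num)]
    nlinarith
  by_cases hcase : v g < η * (S * v ζ) ^ 3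
  · -- the derivative is large
    apply le_max_of_le_left
    have hbpos : 0 < v ζ := by
      by_contra hcon
      have h0 : v ζ = 0 := le_antisymm (not_lt.mp hcon) hb
      rw [h0] at hcase
      have := v.nonneg g
      have e0 : η * (S * 0) ^ 3 = 0 := by ring
      linarith
    have hid : 108 * 1728 * κ ^ 2 * t * ζ ^ 4 =
        (18 * κ * ξ ^ 2 + 18 * κ * ξ * ζ - 36 * κ ^ 2 * ζ ^ 2) * g' - (54 * κ * (ξ + ζ)) * g := by
      have e : 1728 * t = κ - 1 := by rw [hκ]; ring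
      have e2 : 108 * 1728 * κ ^ 2 * t * ζ ^ 4 = 108 * κ ^ 2 * ζ ^ 4 * (1728 * t) := by ring
      rw [e2, e, hg, hg']
      ring
    have hG : ξ ^ 4 + 6 * κ * ξ ^ 2 * ζ ^ 2 - 16 * κ * ξ * ζ ^ 3 + 9 * κ ^ 2 * ζ ^ 4 =
        g' ^ 2 - 8 * ξ * g := by
      rw [hg, hg']; ring
    have b1 : v (54 * κ * (ξ + ζ)) ≤ 594 * S ^ 3 * v ζ := by
      rw [v.map_mul, v.map_mul]
      have h54 := ofNat_le v 54
      have hadd : v (ξ + ζ) ≤ v ξ + v ζ := v.add_le ξ ζ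
      calc v 54 * v κ * v (ξ + ζ) ≤ 54 * v κ * (v ξ + v ζ) := by gcongr
        _ = 54 * (v κ * v ξ) + 54 * (v κ * v ζ) := by ring
        _ ≤ 54 * (S ^ 2 * (10 * S * v ζ)) + 54 * (S ^ 3 * v ζ) := by gcongr
        _ = _ := by ring
    have b2 : v (18 * κ * ξ ^ 2 + 18 * κ * ξ * ζ - 36 * κ ^ 2 * ζ ^ 2) ≤
        2016 * S ^ 4 * v ζ ^ 2 := by
      have h18 := ofNat_le v 18
      have h36 := ofNat_le v 36
      have s1 := v.sub_le_add (18 * κ * ξ ^ 2 + 18 * κ * ξ * ζ) (36 * κ ^ 2 * ζ ^ 2)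
      have s2 := v.add_le (18 * κ * ξ ^ 2) (18 * κ * ξ * ζ)
      have r1 : v (18 * κ * ξ ^ 2) ≤ 18 * S ^ 2 * (10 * S * v ζ) ^ 2 := by
        rw [v.map_mul, v.map_mul, v.map_pow]; gcongr
      have r2 : v (18 * κ * ξ * ζ) ≤ 18 * S ^ 3 * (10 * S * v ζ) * v ζ := by
        rw [v.map_mul, v.map_mul, v.map_mul]; gcongr
      have r3 : v (36 * κ ^ 2 * ζ ^ 2) ≤ 36 * (S ^ 2) ^ 2 * v ζ ^ 2 := by
        rw [v.map_mul, v.map_mul, v.map_pow, v.map_pow]; gcongr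
      nlinarith
    have hbig : c * S ^ 6 * v ζ ^ 4 ≤ 2016 * S ^ 4 * v ζ ^ 2 * v g' +
        594 * S ^ 3 * v ζ * (η * (S * v ζ) ^ 3) := by
      have s1 := v.sub_le_add ((18 * κ * ξ ^ 2 + 18 * κ * ξ * ζ - 36 * κ ^ 2 * ζ ^ 2) * g')
        ((54 * κ * (ξ + ζ)) * g)
      rw [← hid, v.map_mul _ (ζ ^ 4), v.map_pow, v.map_mul _ g', v.map_mul _ g] at s1
      have hg0 := v.nonneg g
      have hg0' := v.nonneg g'
      calc c * S ^ 6 * v ζ ^ 4 ≤ v (108 * 1728 * κ ^ 2 * t) * v ζ ^ 4 := by gcongr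
        _ ≤ _ := s1
        _ ≤ _ := by gcongr
    have hg'big : c / 4032 * (S * v ζ) ^ 2 ≤ v g' := by
      have hx : 594 * S ^ 3 * v ζ * (η * (S * v ζ) ^ 3) ≤ c / 2 * (S ^ 6 * v ζ ^ 4) := by
        calc 594 * S ^ 3 * v ζ * (η * (S * v ζ) ^ 3) = 594 * η * (S ^ 6 * v ζ ^ 4) := by ring
          _ ≤ 594 * (c / 1188) * (S ^ 6 * v ζ ^ 4) := by gcongr
          _ = _ := by ring
      have hy : c / 2 * (S ^ 6 * v ζ ^ 4) ≤ 2016 * S ^ 4 * v ζ ^ 2 * v g' := by linarith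
      have hpos : 0 < 2016 * S ^ 4 * v ζ ^ 2 := by positivity
      rw [← mul_le_mul_iff_right₀ hpos]
      calc 2016 * S ^ 4 * v ζ ^ 2 * (c / 4032 * (S * v ζ) ^ 2) = c / 2 * (S ^ 6 * v ζ ^ 4) := by
            ring
        _ ≤ _ := hy
    rw [hG]
    have s1 := v.le_sub (g' ^ 2) (8 * ξ * g)
    rw [v.map_pow] at s1
    have s2 : v (8 * ξ * g) ≤ 8 * (10 * S * v ζ) * (η * (S * v ζ) ^ 3) := by
      rw [v.map_mul, v.map_mul]
      have h8 := ofNat_le v 8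
      gcongr
    have s3 : (c / 4032 * (S * v ζ) ^ 2) ^ 2 ≤ v g' ^ 2 := by gcongr
    have s4 : (c / 4032 * (S * v ζ) ^ 2) ^ 2 = 160 * η * (S * v ζ) ^ 4 := by
      rw [hη]; ring
    have s5 : 8 * (10 * S * v ζ) * (η * (S * v ζ) ^ 3) = 80 * η * (S * v ζ) ^ 4 := by ring
    have s6 : 0 ≤ η * (S * v ζ) ^ 4 := by positivity
    have s7 : c₀ ^ 2 * η * (S * v ζ) ^ 4 ≤ η * (S * v ζ) ^ 4 := by
      have : c₀ ^ 2 ≤ 1 := by nlinarith
      calc c₀ ^ 2 * η * (S * v ζ) ^ 4 = c₀ ^ 2 * (η * (S * v ζ) ^ 4) := by ring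
        _ ≤ 1 * (η * (S * v ζ) ^ 4) := by gcongr
        _ = _ := by ring
    linarith
  · -- the value is large
    apply le_max_of_le_right
    push Not at hcase
    have h4 : v (4 : F) = v 2 ^ 2 := by
      rw [← v.map_pow]; norm_num
    rw [v.map_mul, v.map_mul, h4]
    have hvv : c₀ ^ 2 ≤ v 2 ^ 2 := by gcongr
    calc c₀ ^ 2 * η * (S * v ζ) ^ 4 = c₀ ^ 2 * (S * v ζ) * (η * (S * v ζ) ^ 3) := by ring
      _ ≤ v 2 ^ 2 * (S * v ζ) * (v g) := by gcongr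
      _ = _ := by ring

/-- The coordinates in which the curve is in short Weierstrass form. -/
def M (v : AbsoluteValue F ℝ) (S : ℝ) (w : Fin 2 → F) : ℝ :=
  max (v (12 * w 0 + w 1)) (S * v (w 1))

theorem M_nonneg (v : AbsoluteValue F ℝ) (S : ℝ) (w : Fin 2 → F) : 0 ≤ M v S w :=
  le_max_of_le_left (v.nonneg _)

theorem step (v : AbsoluteValue F ℝ) (t : F) (S c c₀ : ℝ) (hS : 0 < S)
    (h2 : v (1 + 1728 * t) ≤ S ^ 2) (h3 : v (1 + 1728 * t) ≤ S ^ 3)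
    (hc : 0 < c) (hc1 : c ≤ 1) (hc0 : 0 < c₀) (hc01 : c₀ ≤ 1) (hv2 : c₀ ≤ v 2)
    (hd : c * S ^ 6 ≤ v (108 * 1728 * (1 + 1728 * t) ^ 2 * t)) (w : Fin 2 → F) :
    c₀ ^ 2 * (c ^ 2 / (160 * 4032 ^ 2)) / 10 ^ 4 / 1728 * M v S w ^ 4 ≤ M v S (Fm t w) := by
  set κ : F := 1 + 1728 * t with hκ
  set ξ : F := 12 * w 0 + w 1 with hξ
  set ζ : F := w 1 with hζ
  set δ : ℝ := c₀ ^ 2 * (c ^ 2 / (160 * 4032 ^ 2)) with hδ
  have hδ0 : 0 < δ := by positivity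
  have hδ1 : δ ≤ 1 / 2 := by
    have i1 : c₀ ^ 2 ≤ 1 := by nlinarith
    have i2 : c ^ 2 ≤ 1 := by nlinarith
    have i3 : c ^ 2 / (160 * 4032 ^ 2) ≤ 1 / 2 := by
      rw [div_le_div_iff₀ (by norm_num) (by norm_num)]
      linarith
    calc δ ≤ 1 * (1 / 2) := by rw [hδ]; gcongr
      _ = _ := by norm_num
  have e1 : ξ ^ 4 + 6 * κ * ξ ^ 2 * ζ ^ 2 - 16 * κ * ξ * ζ ^ 3 + 9 * κ ^ 2 * ζ ^ 4 =
      1728 * (12 * Fm t w 0 + Fm t w 1) := by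
    simp only [Fm, Matrix.cons_val_zero, Matrix.cons_val_one, hξ, hζ, hκ]
    ring
  have e2 : 4 * ζ * (ξ ^ 3 - 3 * κ * ξ * ζ ^ 2 + 2 * κ * ζ ^ 3) = 1728 * Fm t w 1 := by
    simp only [Fm, Matrix.cons_val_zero, Matrix.cons_val_one, hξ, hζ, hκ]
    ring
  have h1728 := ofNat_le v 1728
  have key : δ / 10 ^ 4 * M v S w ^ 4 ≤
      max (v (ξ ^ 4 + 6 * κ * ξ ^ 2 * ζ ^ 2 - 16 * κ * ξ * ζ ^ 3 + 9 * κ ^ 2 * ζ ^ 4))
        (S * v (4 * ζ * (ξ ^ 3 - 3 * κ * ξ * ζ ^ 2 + 2 * κ * ζ ^ 3))) := by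
    have ha := v.nonneg ξ
    have hb := v.nonneg ζ
    rcases le_total (10 * S * v ζ) (v ξ) with h | h
    · have hM : M v S w = v ξ := by
        apply max_eq_left
        change S * v ζ ≤ v ξ
        nlinarith [mul_nonneg hS.le hb]
      rw [hM]
      refine le_max_of_le_left (le_trans ?_ (far v κ ξ ζ S hS h2 h3 h))
      have : 0 ≤ v ξ ^ 4 := by positivity
      have h10 : δ / 10 ^ 4 ≤ 1 / 2 := by
        rw [div_le_iff₀ (by norm_num)]; linarith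
      nlinarith
    · have hM : M v S w ≤ 10 * (S * v ζ) := by
        apply max_le
        · change v ξ ≤ _
          linarith
        · change S * v ζ ≤ _
          nlinarith [mul_nonneg hS.le hb]
      have hM4 : M v S w ^ 4 ≤ (10 * (S * v ζ)) ^ 4 := by
        have := M_nonneg v S w
        gcongr
      refine le_trans ?_ (near v κ t ξ ζ S c c₀ hS hκ h2 h3 hc hc1 hc0 hc01 hv2 hd h)
      calc δ / 10 ^ 4 * M v S w ^ 4 ≤ δ / 10 ^ 4 * (10 * (S * v ζ)) ^ 4 := by gcongr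
        _ = δ * (S * v ζ) ^ 4 := by ring
        _ = _ := by rw [hδ]
  rw [e1, e2, v.map_mul, v.map_mul] at key
  have hfin : max (v 1728 * v (12 * Fm t w 0 + Fm t w 1)) (S * (v 1728 * v (Fm t w 1))) ≤
      1728 * M v S (Fm t w) := by
    have n1 := v.nonneg (12 * Fm t w 0 + Fm t w 1)
    have n2 := v.nonneg (Fm t w 1)
    apply max_le
    · have : v (12 * Fm t w 0 + Fm t w 1) ≤ M v S (Fm t w) := le_max_left _ _
      gcongr
    · have : S * v (Fm t w 1) ≤ M v S (Fm t w) := le_max_right _ _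
      calc S * (v 1728 * v (Fm t w 1)) = v 1728 * (S * v (Fm t w 1)) := by ring
        _ ≤ _ := by gcongr
  have := key.trans hfin
  have e3 : δ / 10 ^ 4 / 1728 * M v S w ^ 4 = (δ / 10 ^ 4 * M v S w ^ 4) / 1728 := by ring
  rw [e3, div_le_iff₀ (by norm_num)]
  linarith

theorem iter (v : AbsoluteValue F ℝ) (t : F) (S δ : ℝ) (hδ : 0 < δ) (hδ1 : δ ≤ 1)
    (h : ∀ w : Fin 2 → F, δ * M v S w ^ 4 ≤ M v S (Fm t w)) (w : Fin 2 → F) (n : ℕ) :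
    (δ * M v S w) ^ (4 ^ n) ≤ δ * M v S ((Fm t)^[n] w) := by
  induction n with
  | zero => simp
  | succ n ih =>
    rw [Function.iterate_succ_apply']
    have h0 := M_nonneg v S w
    have h1 := M_nonneg v S ((Fm t)^[n] w)
    calc (δ * M v S w) ^ (4 ^ (n + 1)) = ((δ * M v S w) ^ (4 ^ n)) ^ 4 := by
          rw [← pow_mul, pow_succ]
      _ ≤ (δ * M v S ((Fm t)^[n] w)) ^ 4 := by gcongr
      _ = δ ^ 3 * (δ * M v S ((Fm t)^[n] w) ^ 4) := by ring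
      _ ≤ δ ^ 1 * (δ * M v S ((Fm t)^[n] w) ^ 4) := by
          have : δ ^ 3 ≤ δ ^ 1 := pow_le_pow_of_le_one hδ.le hδ1 (by norm_num)
          gcongr
      _ ≤ δ ^ 1 * M v S (Fm t ((Fm t)^[n] w)) := by
          gcongr
          exact h _
      _ = _ := by ring

end NDA

open NDA in
theorem nd_approx (c₀ ε : ℝ) (hc₀ : 0 < c₀) (hε : 0 < ε) : ∃ C : ℝ, 1 ≤ C ∧
    ∀ (F : Type) [Field F] (v : AbsoluteValue F ℝ) (t : F), c₀ ≤ v 2 → c₀ ≤ v 3 → ε ≤ v t →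
    1 + 1728 * t ≠ 0 → ∀ (x : F) (n : ℕ),
    v (t * (1 + 1728 * t) ^ 2) ^ (4 ^ n) ≤
      C ^ (4 ^ n) * nrm v ((Fm t)^[n] ![x, 1]) ^ 6 *
        max 1 (v (t * (1 + 1728 * t) ^ 2)) := by
  -- normalise the constants
  set b : ℝ := min c₀ 1 with hb
  have hb0 : 0 < b := lt_min hc₀ one_pos
  have hb1 : b ≤ 1 := min_le_right _ _
  set e : ℝ := 1 / ε + 1728 with he
  have he1 : 1 ≤ e := by
    have : 0 ≤ 1 / ε := by positivity
    linarith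
  have he0 : 0 < e := by linarith
  set c : ℝ := b ^ 14 / e with hc
  have hc0 : 0 < c := by positivity
  have hc1 : c ≤ 1 := by
    rw [hc, div_le_one he0]
    exact (pow_le_one₀ hb0.le hb1).trans he1
  set δ : ℝ := b ^ 2 * (c ^ 2 / (160 * 4032 ^ 2)) / 10 ^ 4 / 1728 with hδ
  have hδ0 : 0 < δ := by positivity
  have hδ1 : δ ≤ 1 := by
    have i1 : b ^ 2 ≤ 1 := by nlinarith
    have i2 : c ^ 2 ≤ 1 := by nlinarith
    have i3 : c ^ 2 / (160 * 4032 ^ 2) ≤ 1 := by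
      rw [div_le_one (by norm_num)]
      linarith
    have i4 : b ^ 2 * (c ^ 2 / (160 * 4032 ^ 2)) ≤ 1 := by
      calc _ ≤ (1 : ℝ) * 1 := by gcongr
        _ = 1 := by norm_num
    rw [hδ, div_div, div_le_one (by norm_num)]
    linarith
  -- the constant
  set A : ℝ := 2 / b ^ 9 with hA
  have hA1 : 1 ≤ A := by
    rw [hA, one_le_div (by positivity)]
    have : b ^ 9 ≤ 1 := pow_le_one₀ hb0.le hb1
    linarith
  have hd1 : 1 ≤ 1 / δ := by rw [one_le_div hδ0]; exact hδ1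
  refine ⟨A * (1 / δ) ^ 6 * (13 ^ 6 * e), ?_, ?_⟩
  · have j1 : 1 ≤ (1 / δ) ^ 6 := one_le_pow₀ hd1
    have j2 : (1 : ℝ) ≤ 13 ^ 6 * e := by nlinarith
    calc (1 : ℝ) = 1 * 1 * 1 := by norm_num
      _ ≤ _ := by gcongr
  intro F _ v t h2 h3 ht hk x n
  set κ : F := 1 + 1728 * t with hκ
  have h2' : b ≤ v 2 := (min_le_left _ _).trans h2
  have h3' : b ≤ v 3 := (min_le_left _ _).trans h3
  have hκ0 : 0 < v κ := v.pos hk
  have ht0 : 0 < v t := hε.trans_le ht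
  -- the scale
  set S : ℝ := (max (v κ ^ 3) (v κ ^ 2)) ^ (1 / 6 : ℝ) with hS
  have hm0 : 0 < max (v κ ^ 3) (v κ ^ 2) := lt_max_of_lt_left (by positivity)
  have hS0 : 0 < S := Real.rpow_pos_of_pos hm0 _
  have hS6 : S ^ 6 = max (v κ ^ 3) (v κ ^ 2) := by
    rw [hS, ← Real.rpow_natCast, ← Real.rpow_mul hm0.le]
    norm_num
  have hS2 : v κ ≤ S ^ 2 := by
    have : v κ ^ 3 ≤ (S ^ 2) ^ 3 := by
      rw [← pow_mul, hS6]; exact le_max_left _ _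
    exact le_of_pow_le_pow_left₀ (by norm_num) (by positivity) this
  have hS3 : v κ ≤ S ^ 3 := by
    have : v κ ^ 2 ≤ (S ^ 3) ^ 2 := by
      rw [← pow_mul, hS6]; exact le_max_right _ _
    exact le_of_pow_le_pow_left₀ (by norm_num) (by positivity) this
  -- `S ^ 6` and the discriminant
  have hv1728 : b ^ 9 ≤ v (1728 : F) := by
    have : (1728 : F) = 2 ^ 6 * 3 ^ 3 := by norm_num
    rw [this, v.map_mul, v.map_pow, v.map_pow]
    calc b ^ 9 = b ^ 6 * b ^ 3 := by ring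
      _ ≤ _ := by gcongr
  have hv108 : b ^ 5 ≤ v (108 : F) := by
    have : (108 : F) = 2 ^ 2 * 3 ^ 3 := by norm_num
    rw [this, v.map_mul, v.map_pow, v.map_pow]
    calc b ^ 5 = b ^ 2 * b ^ 3 := by ring
      _ ≤ _ := by gcongr
  set D : ℝ := v (t * κ ^ 2) with hD
  have hD' : D = v t * v κ ^ 2 := by rw [hD, v.map_mul, v.map_pow]
  have hD0 : 0 < D := by rw [hD']; positivity
  have hone : (1 : ℝ) ≤ 1 / ε * v t := by
    rw [div_mul_eq_mul_div, one_mul, one_le_div hε]; exact ht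
  have hup : S ^ 6 ≤ e * D := by
    rw [hS6, hD']
    have k1 : v κ ≤ 1 + 1728 * v t := by
      have := v.add_le (1 : F) (1728 * t)
      rw [v.map_mul, v.map_one] at this
      have h17 := ofNat_le v 1728 (F := F)
      have := mul_le_mul_of_nonneg_right h17 ht0.le
      linarith
    have k2 : v κ ≤ e * v t := by rw [he]; linarith
    have k3 : 1 ≤ e * v t := by
      rw [he]
      nlinarith
    apply max_le
    · calc v κ ^ 3 = v κ * v κ ^ 2 := by ring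
        _ ≤ (e * v t) * v κ ^ 2 := by gcongr
        _ = _ := by ring
    · calc v κ ^ 2 = 1 * v κ ^ 2 := by ring
        _ ≤ (e * v t) * v κ ^ 2 := by gcongr
        _ = _ := by ring
  have hlow : D ≤ A * S ^ 6 := by
    -- `|t| ≤ 2 max (|κ|, 1) / |1728|`
    have k1 : v (1728 : F) * v t ≤ v κ + 1 := by
      have h := v.sub_le_add κ 1
      have e0 : κ - 1 = 1728 * t := by rw [hκ]; ring
      rw [e0, v.map_mul, v.map_one] at h
      exact h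
    have k2 : b ^ 9 * v t ≤ v κ + 1 := (mul_le_mul_of_nonneg_right hv1728 ht0.le).trans k1
    have k3 : v t ≤ (v κ + 1) / b ^ 9 := by
      rw [le_div_iff₀ (by positivity)]; linarith
    have k4 : (v κ + 1) * v κ ^ 2 ≤ 2 * S ^ 6 := by
      have m1 : v κ ^ 3 ≤ S ^ 6 := by rw [hS6]; exact le_max_left _ _
      have m2 : v κ ^ 2 ≤ S ^ 6 := by rw [hS6]; exact le_max_right _ _
      nlinarith
    calc D = v t * v κ ^ 2 := hD'
      _ ≤ (v κ + 1) / b ^ 9 * v κ ^ 2 := by gcongr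
      _ = ((v κ + 1) * v κ ^ 2) / b ^ 9 := by ring
      _ ≤ 2 * S ^ 6 / b ^ 9 := by gcongr
      _ = A * S ^ 6 := by rw [hA]; ring
  have hd : c * S ^ 6 ≤ v (108 * 1728 * κ ^ 2 * t) := by
    have : (108 * 1728 * κ ^ 2 * t : F) = 108 * 1728 * (t * κ ^ 2) := by ring
    rw [this, v.map_mul, v.map_mul]
    calc c * S ^ 6 ≤ c * (e * D) := by gcongr
      _ = b ^ 5 * b ^ 9 * D := by
          rw [hc, ← mul_assoc, div_mul_cancel₀ _ he0.ne', ← pow_add]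
      _ ≤ _ := by gcongr
  have hst : ∀ w : Fin 2 → F, δ * M v S w ^ 4 ≤ M v S (Fm t w) := fun w =>
    step v t S c b hS0 hS2 hS3 hc0 hc1 hb0 hb1 h2' hd w
  have hit := iter v t S δ hδ0 hδ1 hst ![x, 1] n
  set w := (Fm t)^[n] ![x, 1] with hw
  -- start
  have hstart : S ≤ M v S ![x, 1] := by
    refine le_max_of_le_right ?_
    simp
  -- end
  have hend : M v S w ≤ 13 * max 1 S * nrm v w := by
    have n0 : v (w 0) ≤ nrm v w := le_max_left _ _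
    have n1 : v (w 1) ≤ nrm v w := le_max_right _ _
    have nn : 0 ≤ nrm v w := (v.nonneg _).trans n0
    have m1 : (1 : ℝ) ≤ max 1 S := le_max_left _ _
    have m2 : S ≤ max 1 S := le_max_right _ _
    apply max_le
    · have h12 := ofNat_le v 12 (F := F)
      calc v (12 * w 0 + w 1) ≤ v (12 * w 0) + v (w 1) := v.add_le _ _
        _ = v 12 * v (w 0) + v (w 1) := by rw [v.map_mul]
        _ ≤ 12 * nrm v w + nrm v w := by gcongr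
        _ = 13 * 1 * nrm v w := by ring
        _ ≤ _ := by gcongr
    · calc S * v (w 1) ≤ max 1 S * nrm v w := by gcongr
        _ = 1 * max 1 S * nrm v w := by ring
        _ ≤ _ := by gcongr; norm_num
  have nn : 0 ≤ nrm v w := (v.nonneg _).trans (le_max_left _ _)
  have h4n : 1 ≤ 4 ^ n := Nat.one_le_pow _ _ (by norm_num)
  have main : (δ * S) ^ (4 ^ n) ≤ 13 * max 1 S * nrm v w := by
    calc (δ * S) ^ (4 ^ n) ≤ (δ * M v S ![x, 1]) ^ (4 ^ n) := by gcongr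
      _ ≤ δ * M v S w := hit
      _ ≤ 1 * M v S w := by
          have := M_nonneg v S w
          gcongr
      _ ≤ _ := by rw [one_mul]; exact hend
  have main6 : (δ ^ 6 * S ^ 6) ^ (4 ^ n) ≤ 13 ^ 6 * max 1 (S ^ 6) * nrm v w ^ 6 := by
    calc (δ ^ 6 * S ^ 6) ^ (4 ^ n) = ((δ * S) ^ (4 ^ n)) ^ 6 := by
          rw [← mul_pow, ← pow_mul, ← pow_mul, mul_comm 6]
      _ ≤ (13 * max 1 S * nrm v w) ^ 6 := by gcongr
      _ = 13 ^ 6 * (max 1 S) ^ 6 * nrm v w ^ 6 := by ring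
      _ = _ := by
          congr 2
          rcases le_total 1 S with h | h
          · rw [max_eq_right h, max_eq_right (one_le_pow₀ h)]
          · rw [max_eq_left h, max_eq_left (pow_le_one₀ hS0.le h), one_pow]
  have hmax : max 1 (S ^ 6) ≤ e * max 1 D := by
    apply max_le
    · calc (1 : ℝ) = 1 * 1 := by norm_num
        _ ≤ e * max 1 D := by gcongr; exact le_max_left _ _
    · calc S ^ 6 ≤ e * D := hup
        _ ≤ _ := by gcongr; exact le_max_right _ _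
  have hδS : D ≤ A * (1 / δ) ^ 6 * (δ ^ 6 * S ^ 6) := by
    have hone' : (1 / δ) ^ 6 * δ ^ 6 = 1 := by
      rw [← mul_pow, one_div, inv_mul_cancel₀ hδ0.ne', one_pow]
    calc D ≤ A * S ^ 6 := hlow
      _ = A * ((1 / δ) ^ 6 * δ ^ 6) * S ^ 6 := by rw [hone', mul_one]
      _ = _ := by ring
  calc D ^ (4 ^ n) ≤ (A * (1 / δ) ^ 6 * (δ ^ 6 * S ^ 6)) ^ (4 ^ n) := by gcongr
    _ = (A * (1 / δ) ^ 6) ^ (4 ^ n) * (δ ^ 6 * S ^ 6) ^ (4 ^ n) := by rw [mul_pow]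
    _ ≤ (A * (1 / δ) ^ 6) ^ (4 ^ n) * (13 ^ 6 * max 1 (S ^ 6) * nrm v w ^ 6) := by gcongr
    _ ≤ (A * (1 / δ) ^ 6) ^ (4 ^ n) * (13 ^ 6 * (e * max 1 D) * nrm v w ^ 6) := by gcongr
    _ = (A * (1 / δ) ^ 6) ^ (4 ^ n) * (13 ^ 6 * e) * nrm v w ^ 6 * max 1 D := by ring
    _ ≤ (A * (1 / δ) ^ 6) ^ (4 ^ n) * (13 ^ 6 * e) ^ (4 ^ n) * nrm v w ^ 6 * max 1 D := by
        have j2 : (1 : ℝ) ≤ 13 ^ 6 * e := by nlinarith
        have : 13 ^ 6 * e ≤ (13 ^ 6 * e) ^ (4 ^ n) := by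
          calc 13 ^ 6 * e = (13 ^ 6 * e) ^ 1 := by ring
            _ ≤ _ := pow_le_pow_right₀ j2 h4n
        gcongr
    _ = _ := by rw [← mul_pow]

end LangForms
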