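import Pool.Agent.Lib_MP_f5471b_j.Defs

/-!
Piece NDE: no degeneration of the duplication map, exact nonarchimedean bound.
-/

namespace LangForms

namespace NDEAux

variable {F : Type} [Field F]

lemma na_le {v : AbsoluteValue F ℝ} (hv : IsNonarchimedean v) {a b : F} {M : ℝ} (ha : v a ≤ M)
    (hb : v b ≤ M) : v (a + b) ≤ M :=
  (hv a b).trans (max_le ha hb)

lemma na_sub_le {v : AbsoluteValue F ℝ} (hv : IsNonarchimedean v) {a b : F} {M : ℝ}
    (ha : v a ≤ M) (hb : v b ≤ M) : v (a - b) ≤ M := by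
  rw [sub_eq_add_neg]
  exact na_le hv ha (by rw [v.map_neg]; exact hb)

lemma na_lt {v : AbsoluteValue F ℝ} (hv : IsNonarchimedean v) {a b : F} {M : ℝ} (ha : v a < M)
    (hb : v b < M) : v (a + b) < M :=
  (hv a b).trans_lt (max_lt ha hb)

/-- a strictly dominant term -/
lemma na_dom {v : AbsoluteValue F ℝ} (hv : IsNonarchimedean v) {a b : F} {M : ℝ} (ha : M ≤ v a)
    (hb : v b < M) : M ≤ v (a + b) := by
  by_contra hcon
  push Not at hcon
  have h : v ((a + b) - b) < M := by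
    rw [sub_eq_add_neg]
    exact na_lt hv hcon (by rw [v.map_neg]; exact hb)
  rw [add_sub_cancel_right] at h
  linarith

/-- the two forms of degree `4` -/
def G1 (κ ξ ζ : F) : F := ξ ^ 4 + 6 * κ * ξ ^ 2 * ζ ^ 2 - 16 * κ * ξ * ζ ^ 3 + 9 * κ ^ 2 * ζ ^ 4

def G2 (κ ξ ζ : F) : F := 4 * ζ * (ξ ^ 3 - 3 * κ * ξ * ζ ^ 2 + 2 * κ * ζ ^ 3)

/-- the norm -/
def M (v : AbsoluteValue F ℝ) (S : ℝ) (ξ ζ : F) : ℝ := max (v ξ) (S * v ζ)

theorem step (v : AbsoluteValue F ℝ) (hv : IsNonarchimedean v) (t : F)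
    (h2 : v 2 = 1) (h3 : v 3 = 1) (ht : 1 ≤ v t) (κ : F) (hκdef : κ = 1 + 1728 * t)
    (S : ℝ) (hS : 0 < S) (hS6 : S ^ 6 = v (t * κ ^ 2)) (ξ ζ : F) :
    M v S ξ ζ ^ 4 ≤ M v S (G1 κ ξ ζ) (G2 κ ξ ζ) := by
  have v4 : v (4 : F) = 1 := by rw [show (4 : F) = 2 * 2 by norm_num]; simp [h2]
  have v6 : v (6 : F) = 1 := by rw [show (6 : F) = 2 * 3 by norm_num]; simp [h2, h3]
  have v8 : v (8 : F) = 1 := by rw [show (8 : F) = 2 * 2 * 2 by norm_num]; simp [h2]
  have v9 : v (9 : F) = 1 := by rw [show (9 : F) = 3 * 3 by norm_num]; simp [h3]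
  have v16 : v (16 : F) = 1 := by rw [show (16 : F) = 2 * 2 * 2 * 2 by norm_num]; simp [h2]
  have v54 : v (54 : F) = 1 := by
    rw [show (54 : F) = 2 * 3 * 3 * 3 by norm_num]; simp [h2, h3]
  have v18 : v (18 : F) = 1 := by
    rw [show (18 : F) = 2 * 3 * 3 by norm_num]; simp [h2, h3]
  have v36 : v (36 : F) = 1 := by
    rw [show (36 : F) = 2 * 2 * 3 * 3 by norm_num]; simp [h2, h3]
  have v1728 : v (1728 : F) = 1 := by
    rw [show (1728 : F) = 2 * 2 * 2 * 2 * 2 * 2 * 3 * 3 * 3 by norm_num]; simp [h2, h3]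
  have vbig : v (186624 : F) = 1 := by
    rw [show (186624 : F) = 1728 * (2 * 2 * 3 * 3 * 3) by norm_num]
    simp [h2, h3, v1728]
  have hκt : v κ ≤ v t := by
    rw [hκdef]
    apply na_le hv
    · rw [map_one]; exact ht
    · rw [map_mul, v1728, one_mul]
  have hκ0 : 0 ≤ v κ := v.nonneg κ
  have ht0 : 0 ≤ v t := v.nonneg t
  rw [map_mul, map_pow] at hS6
  have hκS2 : v κ ≤ S ^ 2 := by
    have h : v κ ^ 3 ≤ (S ^ 2) ^ 3 := by
      rw [← pow_mul, hS6, show v κ ^ 3 = v κ * v κ ^ 2 by ring]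
      exact mul_le_mul_of_nonneg_right hκt (by positivity)
    exact le_of_pow_le_pow_left₀ (by norm_num) (by positivity) h
  have hκS3 : v κ ≤ S ^ 3 := by
    have h : v κ ^ 2 ≤ (S ^ 3) ^ 2 := by
      rw [← pow_mul, hS6]
      nlinarith [sq_nonneg (v κ)]
    exact le_of_pow_le_pow_left₀ (by norm_num) (by positivity) h
  unfold M
  set s : ℝ := S * v ζ with hs
  have hs0 : 0 ≤ s := mul_nonneg hS.le (v.nonneg ζ)
  have hz0 : 0 ≤ v ζ := v.nonneg ζ
  have hx0 : 0 ≤ v ξ := v.nonneg ξ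
  have b2 : v κ * v ζ ^ 2 ≤ s ^ 2 := by
    rw [hs, mul_pow]
    exact mul_le_mul_of_nonneg_right hκS2 (by positivity)
  have b3 : v κ * v ζ ^ 3 ≤ s ^ 3 := by
    rw [hs, mul_pow]
    exact mul_le_mul_of_nonneg_right hκS3 (by positivity)
  have b4 : v κ ^ 2 * v ζ ^ 4 ≤ s ^ 4 := by
    have := mul_le_mul b2 b2 (by positivity) (by positivity)
    nlinarith [this]
  rcases lt_or_ge s (v ξ) with hlt | hge
  · -- `ξ` dominates
    have hxpos : 0 < v ξ := lt_of_le_of_lt hs0 hlt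
    rw [max_eq_left hlt.le]
    apply le_max_of_le_left
    have hG : G1 κ ξ ζ = ξ ^ 4 +
        (6 * κ * ξ ^ 2 * ζ ^ 2 + (-(16 * κ * ξ * ζ ^ 3) + 9 * κ ^ 2 * ζ ^ 4)) := by
      unfold G1
      ring
    rw [hG]
    have l2 : s ^ 2 < v ξ ^ 2 := pow_lt_pow_left₀ hlt hs0 (by norm_num)
    have l3 : s ^ 3 < v ξ ^ 3 := pow_lt_pow_left₀ hlt hs0 (by norm_num)
    have l4 : s ^ 4 < v ξ ^ 4 := pow_lt_pow_left₀ hlt hs0 (by norm_num)
    apply na_dom hv
    · rw [map_pow]
    · apply na_lt hv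
      · rw [map_mul, map_mul, map_mul, v6, map_pow, map_pow, one_mul]
        calc v κ * v ξ ^ 2 * v ζ ^ 2 = (v κ * v ζ ^ 2) * v ξ ^ 2 := by ring
          _ ≤ s ^ 2 * v ξ ^ 2 := mul_le_mul_of_nonneg_right b2 (by positivity)
          _ < v ξ ^ 2 * v ξ ^ 2 := mul_lt_mul_of_pos_right l2 (by positivity)
          _ = v ξ ^ 4 := by ring
      · apply na_lt hv
        · rw [v.map_neg, map_mul, map_mul, map_mul, v16, map_pow, one_mul]
          calc v κ * v ξ * v ζ ^ 3 = (v κ * v ζ ^ 3) * v ξ := by ring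
            _ ≤ s ^ 3 * v ξ := mul_le_mul_of_nonneg_right b3 (by positivity)
            _ < v ξ ^ 3 * v ξ := mul_lt_mul_of_pos_right l3 (by positivity)
            _ = v ξ ^ 4 := by ring
        · rw [map_mul, map_mul, v9, map_pow, map_pow, one_mul]
          exact lt_of_le_of_lt b4 l4
  · rw [max_eq_right hge]
    set g : F := ξ ^ 3 - 3 * κ * ξ * ζ ^ 2 + 2 * κ * ζ ^ 3 with hg
    set g' : F := 3 * ξ ^ 2 - 3 * κ * ζ ^ 2 with hg'
    rcases le_or_gt (s ^ 3) (v g) with hgl | hgs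
    · apply le_max_of_le_right
      have : v (G2 κ ξ ζ) = v ζ * v g := by
        unfold G2
        rw [map_mul, map_mul, v4, one_mul]
      rw [this]
      calc s ^ 4 = s * s ^ 3 := by ring
        _ ≤ s * v g := mul_le_mul_of_nonneg_left hgl hs0
        _ = S * (v ζ * v g) := by rw [hs]; ring
    · have hspos : 0 < s := by
        rcases hs0.lt_or_eq with h | h
        · exact h
        · exfalso
          rw [← h] at hgs
          have := v.nonneg g
          norm_num at hgs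
          linarith
      apply le_max_of_le_left
      have hid : (-(54 * κ * ζ ^ 2 * ξ) - 54 * κ * ζ ^ 3) * g -
          (-(18 * κ * ζ ^ 2 * ξ ^ 2) - 18 * κ * ζ ^ 3 * ξ + 36 * κ ^ 2 * ζ ^ 4) * g' =
          186624 * (t * κ ^ 2) * ζ ^ 6 := by
        rw [hg, hg', hκdef]
        ring
      have hval : v (186624 * (t * κ ^ 2) * ζ ^ 6) = s ^ 6 := by
        rw [map_mul, map_mul, vbig, one_mul, map_mul, map_pow, ← hS6, map_pow, hs, mul_pow]
      have c1 : v (-(54 * κ * ζ ^ 2 * ξ) - 54 * κ * ζ ^ 3) ≤ s ^ 3 := by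
        apply na_sub_le hv
        · rw [v.map_neg, map_mul, map_mul, map_mul, v54, map_pow, one_mul]
          calc v κ * v ζ ^ 2 * v ξ ≤ s ^ 2 * s := mul_le_mul b2 hge hx0 (by positivity)
            _ = s ^ 3 := by ring
        · rw [map_mul, map_mul, v54, map_pow, one_mul]
          exact b3
      have c2 : v (-(18 * κ * ζ ^ 2 * ξ ^ 2) - 18 * κ * ζ ^ 3 * ξ + 36 * κ ^ 2 * ζ ^ 4) ≤
          s ^ 4 := by
        apply na_le hv
        · apply na_sub_le hv
          · rw [v.map_neg, map_mul, map_mul, map_mul, v18, map_pow, map_pow, one_mul]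
            calc v κ * v ζ ^ 2 * v ξ ^ 2 ≤ s ^ 2 * s ^ 2 :=
                  mul_le_mul b2 (pow_le_pow_left₀ hx0 hge 2) (by positivity) (by positivity)
              _ = s ^ 4 := by ring
          · rw [map_mul, map_mul, map_mul, v18, map_pow, one_mul]
            calc v κ * v ζ ^ 3 * v ξ ≤ s ^ 3 * s := mul_le_mul b3 hge hx0 (by positivity)
              _ = s ^ 4 := by ring
        · rw [map_mul, map_mul, v36, map_pow, map_pow, one_mul]
          exact b4
      have c3 : s ^ 2 ≤ v g' := by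
        by_contra hcon
        push Not at hcon
        have d1 : v ((-(54 * κ * ζ ^ 2 * ξ) - 54 * κ * ζ ^ 3) * g) < s ^ 6 := by
          rw [map_mul]
          calc _ ≤ s ^ 3 * v g := mul_le_mul_of_nonneg_right c1 (v.nonneg g)
            _ < s ^ 3 * s ^ 3 := mul_lt_mul_of_pos_left hgs (by positivity)
            _ = s ^ 6 := by ring
        have d2 : v (-((-(18 * κ * ζ ^ 2 * ξ ^ 2) - 18 * κ * ζ ^ 3 * ξ + 36 * κ ^ 2 * ζ ^ 4) *
            g')) < s ^ 6 := by
          rw [v.map_neg, map_mul]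
          calc _ ≤ s ^ 4 * v g' := mul_le_mul_of_nonneg_right c2 (v.nonneg g')
            _ < s ^ 4 * s ^ 2 := mul_lt_mul_of_pos_left hcon (by positivity)
            _ = s ^ 6 := by ring
        have d3 := na_lt hv d1 d2
        rw [← sub_eq_add_neg, hid, hval] at d3
        exact lt_irrefl _ d3
      have hG : G1 κ ξ ζ = g' ^ 2 + -(8 * ξ * g) := by
        unfold G1
        rw [hg, hg']
        ring
      rw [hG]
      apply na_dom hv
      · rw [map_pow]
        calc s ^ 4 = (s ^ 2) ^ 2 := by ring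
          _ ≤ v g' ^ 2 := pow_le_pow_left₀ (by positivity) c3 2
      · rw [v.map_neg, map_mul, map_mul, v8, one_mul]
        calc v ξ * v g ≤ s * v g := mul_le_mul_of_nonneg_right hge (v.nonneg g)
          _ < s * s ^ 3 := mul_lt_mul_of_pos_left hgs hspos
          _ = s ^ 4 := by ring

end NDEAux

open NDEAux in
theorem nd_exact {F : Type} [Field F] (v : AbsoluteValue F ℝ) (hv : IsNonarchimedean v) (t : F)
    (h2 : v 2 = 1) (h3 : v 3 = 1) (ht : 1 ≤ v t) (hκ : 1 + 1728 * t ≠ 0) (x : F) (n : ℕ) :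
    v (t * (1 + 1728 * t) ^ 2) ^ (4 ^ n) ≤
      nrm v ((Fm t)^[n] ![x, 1]) ^ 6 * max 1 (v (t * (1 + 1728 * t) ^ 2)) := by
  set κ : F := 1 + 1728 * t with hκdef
  have ht0 : t ≠ 0 := by
    intro h
    rw [h, map_zero] at ht
    linarith
  set D : ℝ := v (t * κ ^ 2) with hD
  have hDpos : 0 < D := v.pos (mul_ne_zero ht0 (pow_ne_zero _ hκ))
  set S : ℝ := D ^ ((1 : ℝ) / 6) with hSdef
  have hS : 0 < S := Real.rpow_pos_of_pos hDpos _
  have hS6 : S ^ 6 = D := by
    rw [hSdef, ← Real.rpow_natCast, ← Real.rpow_mul hDpos.le]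
    norm_num
  have v12 : v (12 : F) = 1 := by
    rw [show (12 : F) = 2 * 2 * 3 by norm_num]; simp [h2, h3]
  have v1728 : v (1728 : F) = 1 := by
    rw [show (1728 : F) = 2 * 2 * 2 * 2 * 2 * 2 * 3 * 3 * 3 by norm_num]; simp [h2, h3]
  have hL : ∀ w : Fin 2 → F, M v S (12 * w 0 + w 1) (w 1) ^ 4 ≤
      M v S (12 * (Fm t w) 0 + (Fm t w) 1) ((Fm t w) 1) := by
    intro w
    have h := step v hv t h2 h3 ht κ hκdef S hS (by rw [hS6]) (12 * w 0 + w 1) (w 1)
    have e1 : G1 κ (12 * w 0 + w 1) (w 1) = 1728 * (12 * (Fm t w) 0 + (Fm t w) 1) := by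
      unfold G1 Fm
      rw [hκdef]
      simp only [Matrix.cons_val_zero, Matrix.cons_val_one]
      ring
    have e2 : G2 κ (12 * w 0 + w 1) (w 1) = 1728 * (Fm t w) 1 := by
      have hf1 : Fm t w 1 = 4 * w 0 ^ 3 * w 1 + w 0 ^ 2 * w 1 ^ 2 - 144 * t * w 0 * w 1 ^ 3 -
          4 * t * w 1 ^ 4 := rfl
      unfold G2
      rw [hκdef, hf1]
      ring
    rw [e1, e2] at h
    unfold M at h ⊢
    rw [map_mul, map_mul, v1728, one_mul, one_mul] at h
    exact h
  have hiter : ∀ n : ℕ, S ^ (4 ^ n) ≤ M v S (12 * ((Fm t)^[n] ![x, 1]) 0 +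
      ((Fm t)^[n] ![x, 1]) 1) (((Fm t)^[n] ![x, 1]) 1) := by
    intro n
    induction n with
    | zero =>
      unfold M
      apply le_max_of_le_right
      simp
    | succ n ih =>
      rw [Function.iterate_succ_apply']
      refine le_trans ?_ (hL _)
      rw [pow_succ, pow_mul]
      exact pow_le_pow_left₀ (by positivity) ih 4
  have hup : ∀ w : Fin 2 → F, M v S (12 * w 0 + w 1) (w 1) ≤ max 1 S * nrm v w := by
    intro w
    unfold M nrm
    have h0 : 0 ≤ max (v (w 0)) (v (w 1)) := le_max_of_le_left (v.nonneg _)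
    apply max_le
    · have : v (12 * w 0 + w 1) ≤ max (v (w 0)) (v (w 1)) := by
        apply na_le hv
        · rw [map_mul, v12, one_mul]
          exact le_max_left _ _
        · exact le_max_right _ _
      calc _ ≤ 1 * max (v (w 0)) (v (w 1)) := by rw [one_mul]; exact this
        _ ≤ _ := mul_le_mul_of_nonneg_right (le_max_left _ _) h0
    · calc S * v (w 1) ≤ S * max (v (w 0)) (v (w 1)) :=
            mul_le_mul_of_nonneg_left (le_max_right _ _) hS.le
        _ ≤ _ := mul_le_mul_of_nonneg_right (le_max_right _ _) h0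
  have hfin := (hiter n).trans (hup _)
  have h6 := pow_le_pow_left₀ (by positivity) hfin 6
  rw [← pow_mul, mul_comm (4 ^ n) 6, pow_mul, hS6, mul_pow] at h6
  have hmax : (max 1 S) ^ 6 = max 1 D := by
    rcases le_total 1 S with h | h
    · rw [max_eq_right h, hS6, max_eq_right]
      rw [← hS6]
      exact one_le_pow₀ h
    · rw [max_eq_left h, one_pow, max_eq_left]
      rw [← hS6]
      exact pow_le_one₀ hS.le h
  rw [hmax, mul_comm] at h6
  exact h6

end LangForms
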