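import Pool.Agent.Lib_MP_f5471b_j.RhoFin

/-!
# MP_f5471b_nt part 2: places above `2` and `3`
-/

namespace LangForms

open Height NumberField WeierstrassCurve Topology Filter IsDedekindDomain

namespace PlacesAux

theorem nat_le_one {F : Type} [Field F] [NumberField F] (v : FinitePlace F) (n : ℕ) :
    v (n : F) ≤ 1 := by
  rw [← FinitePlace.norm_embedding_eq v, FinitePlace.norm_embedding]
  exact HeightOneSpectrum.adicAbv_natCast_le_one F v.maximalIdeal n

theorem le_half {F : Type} [Field F] [NumberField F] (v : FinitePlace F) (x : F) (hx : x ≠ 0)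
    (h : v x < 1) : v x ≤ 1 / 2 := by
  obtain ⟨k, hk⟩ := RhoFinAux.apply_eq_zpow v x hx
  have hN : (2 : ℝ) ≤ plNorm v := by
    unfold plNorm
    exact_mod_cast HeightOneSpectrum.one_lt_absNorm v.maximalIdeal
  have hkneg : k ≤ -1 := by
    rw [hk] at h
    by_contra hcon
    push Not at hcon
    exact absurd h (not_lt.mpr (one_le_zpow₀ (by linarith) (by omega)))
  rw [hk]
  calc plNorm v ^ k ≤ plNorm v ^ (-1 : ℤ) := zpow_le_zpow_right₀ (by linarith) hkneg
    _ = 1 / plNorm v := by rw [zpow_neg_one, one_div]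
    _ ≤ 1 / 2 := one_div_le_one_div_of_le (by norm_num) hN

theorem finprod_six (F : Type) [Field F] [NumberField F] :
    ∏ᶠ w : FinitePlace F, w (6 : F) = ((6 : ℝ) ^ Module.finrank ℚ F)⁻¹ := by
  rw [FinitePlace.prod_eq_inv_abs_norm (by norm_num)]
  have h : (Algebra.norm ℚ) (6 : F) = 6 ^ Module.finrank ℚ F := by
    have h1 := Algebra.norm_algebraMap (R := ℚ) (S := F) 6
    rw [← h1]
    congr 1
    simp
  rw [h]
  push_cast
  rw [abs_of_pos (by positivity)]

end PlacesAux

open PlacesAux

theorem places23 (F : Type) [Field F] [NumberField F] (d : ℕ) (hd : Module.finrank ℚ F ≤ d) :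
    ∃ S : Finset (FinitePlace F), S.card ≤ 3 * d ∧
      (∀ v ∉ S, v (2 : F) = 1 ∧ v (3 : F) = 1) ∧
      ∀ v : FinitePlace F, (1 / 6 : ℝ) ^ d ≤ v (2 : F) ∧ (1 / 6 : ℝ) ^ d ≤ v (3 : F) := by
  classical
  set n := Module.finrank ℚ F with hn
  have h6 : (6 : F) ≠ 0 := by norm_num
  have hfin : (Function.mulSupport fun w : FinitePlace F => w (6 : F)).Finite :=
    FinitePlace.hasFiniteMulSupport h6
  set S : Finset (FinitePlace F) := hfin.toFinset with hS
  have hmem : ∀ v : FinitePlace F, v ∈ S ↔ v (6 : F) ≠ 1 := by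
    intro v
    rw [hS, Set.Finite.mem_toFinset]
    rfl
  have hprod : ∏ v ∈ S, v (6 : F) = ((6 : ℝ) ^ n)⁻¹ := by
    rw [hn, ← finprod_six F, finprod_eq_prod _ hfin]
  have h2le : ∀ v : FinitePlace F, v (2 : F) ≤ 1 := fun v => by
    simpa using nat_le_one v 2
  have h3le : ∀ v : FinitePlace F, v (3 : F) ≤ 1 := fun v => by
    simpa using nat_le_one v 3
  have h6le : ∀ v : FinitePlace F, v (6 : F) ≤ 1 := fun v => by
    simpa using nat_le_one v 6
  have h2pos : ∀ v : FinitePlace F, 0 < v (2 : F) := fun v =>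
    FinitePlace.pos_iff.mpr (by norm_num)
  have h3pos : ∀ v : FinitePlace F, 0 < v (3 : F) := fun v =>
    FinitePlace.pos_iff.mpr (by norm_num)
  have h6pos : ∀ v : FinitePlace F, 0 < v (6 : F) := fun v =>
    FinitePlace.pos_iff.mpr h6
  have hmul : ∀ v : FinitePlace F, v (6 : F) = v (2 : F) * v (3 : F) := by
    intro v
    rw [← map_mul]
    norm_num
  refine ⟨S, ?_, ?_, ?_⟩
  · -- the cardinality
    have h1 : ((6 : ℝ) ^ n)⁻¹ ≤ (1 / 2) ^ S.card := by
      rw [← hprod]
      calc ∏ v ∈ S, v (6 : F) ≤ ∏ _v ∈ S, (1 / 2 : ℝ) := by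
            apply Finset.prod_le_prod
            · intro v _
              exact (h6pos v).le
            · intro v hv
              exact le_half v _ h6 (lt_of_le_of_ne (h6le v) ((hmem v).mp hv))
        _ = (1 / 2) ^ S.card := by rw [Finset.prod_const]
    have h2 : (2 : ℝ) ^ S.card ≤ 6 ^ n := by
      rw [one_div, inv_pow] at h1
      exact (inv_le_inv₀ (by positivity) (by positivity)).mp h1
    have h3 : (2 : ℝ) ^ S.card ≤ 2 ^ (3 * n) := by
      rw [pow_mul]
      calc (2 : ℝ) ^ S.card ≤ 6 ^ n := h2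
        _ ≤ (2 ^ 3) ^ n := by
          apply pow_le_pow_left₀ (by norm_num)
          norm_num
    have h4 : S.card ≤ 3 * n := (pow_le_pow_iff_right₀ (by norm_num)).mp h3
    omega
  · intro v hv
    rw [hmem] at hv
    push Not at hv
    rw [hmul] at hv
    have a := h2le v
    have b := h3le v
    have c := h2pos v
    have e := h3pos v
    constructor
    · nlinarith
    · nlinarith
  · intro v
    have hlow : (1 / 6 : ℝ) ^ d ≤ v (6 : F) := by
      have h1 : (1 / 6 : ℝ) ^ d ≤ ((6 : ℝ) ^ n)⁻¹ := by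
        rw [one_div, inv_pow]
        apply inv_anti₀ (by positivity)
        exact pow_le_pow_right₀ (by norm_num) hd
      refine h1.trans ?_
      rw [← hprod]
      by_cases hv : v ∈ S
      · rw [← Finset.mul_prod_erase S _ hv]
        have h2 : ∏ w ∈ S.erase v, w (6 : F) ≤ 1 :=
          Finset.prod_le_one (fun w _ => (h6pos w).le) (fun w _ => h6le w)
        nlinarith [h6pos v]
      · rw [hmem] at hv
        push Not at hv
        rw [hv]
        exact Finset.prod_le_one (fun w _ => (h6pos w).le) (fun w _ => h6le w)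
    rw [hmul] at hlow
    have a := h2le v
    have b := h3le v
    have c := h2pos v
    have e := h3pos v
    constructor
    · nlinarith
    · nlinarith

end LangForms
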