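import Pool.Agent.Lib_MP_f5471b_j.Defs

/-!
# MP_f5471b_nt: basic lemmas on `nrm` and `rho`
-/

namespace LangForms

theorem nrm_pos {F : Type} [Field F] (v : AbsoluteValue F ℝ) {w : Fin 2 → F} (hw : w ≠ 0) :
    0 < nrm v w := by
  by_contra hcon
  rw [not_lt] at hcon
  apply hw
  have h0 : v (w 0) ≤ 0 := le_trans (le_max_left _ _) hcon
  have h1 : v (w 1) ≤ 0 := le_trans (le_max_right _ _) hcon
  have h0' : w 0 = 0 := v.eq_zero.1 (le_antisymm h0 (v.nonneg _))
  have h1' : w 1 = 0 := v.eq_zero.1 (le_antisymm h1 (v.nonneg _))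
  funext i
  fin_cases i
  · exact h0'
  · exact h1'

theorem nrm_smul {F : Type} [Field F] (v : AbsoluteValue F ℝ) (c : F) (w : Fin 2 → F) :
    nrm v (c • w) = v c * nrm v w := by
  unfold nrm
  rw [Pi.smul_apply, Pi.smul_apply, smul_eq_mul, smul_eq_mul, map_mul, map_mul,
    mul_max_of_nonneg _ _ (v.nonneg c)]

theorem rho_smul {F : Type} [Field F] (v : AbsoluteValue F ℝ) (t c : F) (hc : c ≠ 0)
    (w : Fin 2 → F) : rho v t (c • w) = rho v t w := by
  unfold rho
  rw [nrm_smul, Pi.smul_apply, smul_eq_mul, map_mul, mul_div_mul_left]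
  exact (v.pos hc).ne'

/-- The quotient in the definition of `rho` is at most `1`. -/
theorem rho_quot_le {F : Type} [Field F] (v : AbsoluteValue F ℝ) (w : Fin 2 → F) :
    v (w 0) / nrm v w ≤ 1 := by
  apply div_le_one_of_le₀
  · exact le_max_left _ _
  · exact le_trans (v.nonneg _) (le_max_left _ _)

/-- The quotient in the definition of `rho` is nonnegative. -/
theorem rho_quot_nonneg {F : Type} [Field F] (v : AbsoluteValue F ℝ) (w : Fin 2 → F) :
    0 ≤ v (w 0) / nrm v w := by
  apply div_nonneg (v.nonneg _)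
  exact le_trans (v.nonneg _) (le_max_left _ _)

theorem rho_nonneg {F : Type} [Field F] (v : AbsoluteValue F ℝ) (t : F) (ht : v t ≤ 1)
    (w : Fin 2 → F) : 0 ≤ rho v t w := by
  unfold rho
  rw [neg_nonneg]
  apply Real.log_nonpos
  · exact le_trans (rho_quot_nonneg v w) (le_max_left _ _)
  · apply max_le (rho_quot_le v w)
    exact Real.sqrt_le_one.2 ht

theorem rho_le {F : Type} [Field F] (v : AbsoluteValue F ℝ) (t : F) (ht : 0 < v t)
    (w : Fin 2 → F) : rho v t w ≤ Lt v t / 2 := by
  unfold rho Lt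
  have h1 : Real.log (Real.sqrt (v t)) ≤ Real.log (max (v (w 0) / nrm v w) (Real.sqrt (v t))) :=
    Real.log_le_log (Real.sqrt_pos.2 ht) (le_max_right _ _)
  rw [Real.log_sqrt ht.le] at h1
  linarith

theorem rho_inf {F : Type} [Field F] (v : AbsoluteValue F ℝ) (t : F) (ht : v t ≤ 1)
    (w : Fin 2 → F) (h0 : w 0 ≠ 0) (h1 : w 1 = 0) : rho v t w = 0 := by
  unfold rho
  have hn : nrm v w = v (w 0) := by
    unfold nrm
    rw [h1, map_zero]
    exact max_eq_left (v.nonneg _)
  rw [hn, div_self (v.pos h0).ne', max_eq_left, Real.log_one, neg_zero]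
  exact Real.sqrt_le_one.2 ht

/-- `ρ` of an affine point. -/
theorem rho_affine {F : Type} [Field F] (v : AbsoluteValue F ℝ) (t : F) (ht : v t ≤ 1) (x : F) :
    rho v t ![x, 1] = -Real.log (max (min (v x) 1) (Real.sqrt (v t))) := by
  unfold rho
  have hn : nrm v ![x, 1] = max (v x) 1 := by
    unfold nrm
    simp
  have hq : v ((![x, 1] : Fin 2 → F) 0) / nrm v ![x, 1] = min (v x) 1 := by
    rw [hn]
    have h0 : v ((![x, 1] : Fin 2 → F) 0) = v x := by simp
    rw [h0]
    rcases le_total (v x) 1 with hx | hx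
    · rw [max_eq_right hx, min_eq_left hx, div_one]
    · rw [max_eq_left hx, min_eq_right hx, div_self]
      exact (lt_of_lt_of_le one_pos hx).ne'
  rw [hq]

theorem nrm_eq_iSup {F : Type} [Field F] (v : AbsoluteValue F ℝ) (w : Fin 2 → F) :
    nrm v w = ⨆ i, v (w i) := by
  have hbdd : BddAbove (Set.range fun i : Fin 2 => v (w i)) := Set.finite_range _ |>.bddAbove
  apply le_antisymm
  · apply max_le
    · exact le_ciSup hbdd 0
    · exact le_ciSup hbdd 1
  · apply ciSup_le
    intro i
    fin_cases i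
    · exact le_max_left _ _
    · exact le_max_right _ _

end LangForms
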