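import Pool.Agent.Lib_MP_f5471b_j.Fm
import Pool.Agent.Lib_MP_f5471b_j.Rho
import Pool.Agent.Lib_MP_f5471b_j.DupNA
import Pool.Agent.Lib_MP_f5471b_j.DupIter
import Pool.Agent.Lib_MP_f5471b_j.NDExact
import Pool.Agent.Lib_MP_f5471b_j.NDApprox
import Pool.Agent.Lib_MP_f5471b_j.Glob
import Pool.Agent.Lib_MP_f5471b_j.Places23

/-!
# MP_f5471b_nt, piece CL: lower bound for the canonical height by local terms
-/

namespace LangForms

open Height NumberField WeierstrassCurve Topology Filter IsDedekindDomain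

namespace CLaux

theorem iter_smul {F : Type} [Field F] (t : F) (n : ℕ) (c : F) (w : Fin 2 → F) :
    (Fm t)^[n] (c • w) = c ^ (4 ^ n) • (Fm t)^[n] w := by
  induction n generalizing c w with
  | zero => simp
  | succ n ih =>
    rw [Function.iterate_succ_apply, Function.iterate_succ_apply, Fm_smul, ih, ← pow_mul,
      ← pow_succ']

theorem iter_ne_zero {F : Type} [Field F] [CharZero F] {t : F} (ht : t ≠ 0)
    (hκ : 1 + 1728 * t ≠ 0) {w : Fin 2 → F} (hw : w ≠ 0) (n : ℕ) : (Fm t)^[n] w ≠ 0 := by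
  induction n generalizing w with
  | zero => simpa using hw
  | succ n ih =>
    rw [Function.iterate_succ_apply]
    exact ih (Fm_ne_zero ht hκ hw)

theorem phi_smul {F : Type} [Field F] (v : AbsoluteValue F ℝ) (t c : F) (hc : c ≠ 0)
    (w : Fin 2 → F) : phi v t (c • w) = phi v t w := by
  unfold phi
  rw [rho_smul v t c hc w]

/-- Local estimate where `t` is small. -/
theorem small {F : Type} [Field F] [CharZero F] (v : AbsoluteValue F ℝ) {t : F} (ht : t ≠ 0)
    (hκ : 1 + 1728 * t ≠ 0) (c B : ℝ) (hc : 0 ≤ c) (hB : 1 ≤ B) (h1 : v t < 1)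
    (hvB : v (1 + 1728 * t) ≤ B) (hlow : DupLow v t c) (hrho : DupRho v t c) (x : F) (n : ℕ) :
    Real.exp (6 * 4 ^ n * (phi v t ![x, 1] - c - Real.log B / 3)) *
        v (t * (1 + 1728 * t) ^ 2) ^ (4 ^ n) ≤
      nrm v ((Fm t)^[n] ![x, 1]) ^ 6 * max 1 (v (t * (1 + 1728 * t) ^ 2)) := by
  have h0 : 0 < v t := v.pos ht
  have hw : (![x, 1] : Fin 2 → F) ≠ 0 := by
    intro h
    have := congrFun h 1
    simp at this
  have hit := dup_iter v t c h0 h1 hc (fun w hw => Fm_ne_zero ht hκ hw) hlow hrho ![x, 1] hw n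
  have hn1 : 0 ≤ Real.log (nrm v ![x, 1]) := by
    apply Real.log_nonneg
    unfold nrm
    apply le_max_of_le_right
    simp
  have hpos : 0 < nrm v ((Fm t)^[n] ![x, 1]) := nrm_pos v (iter_ne_zero ht hκ hw n)
  have hN : (0 : ℝ) < 4 ^ n := by positivity
  have hB0 : 0 < B := by linarith
  -- the discriminant
  have hD : v (t * (1 + 1728 * t) ^ 2) ≤ Real.exp (-Lt v t + 2 * Real.log B) := by
    rw [map_mul, map_pow]
    have e1 : Real.exp (-Lt v t) = v t := by
      unfold Lt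
      rw [neg_neg, Real.exp_log h0]
    have e2 : Real.exp (2 * Real.log B) = B ^ 2 := by
      rw [mul_comm, Real.exp_mul, Real.exp_log hB0]
      norm_num
    rw [Real.exp_add, e1, e2]
    exact mul_le_mul_of_nonneg_left (pow_le_pow_left₀ (apply_nonneg v _) hvB 2) h0.le
  have hD0 : 0 ≤ v (t * (1 + 1728 * t) ^ 2) := apply_nonneg v _
  calc Real.exp (6 * 4 ^ n * (phi v t ![x, 1] - c - Real.log B / 3)) *
        v (t * (1 + 1728 * t) ^ 2) ^ (4 ^ n)
      ≤ Real.exp (6 * 4 ^ n * (phi v t ![x, 1] - c - Real.log B / 3)) *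
        Real.exp (-Lt v t + 2 * Real.log B) ^ (4 ^ n) := by
        apply mul_le_mul_of_nonneg_left _ (Real.exp_pos _).le
        exact pow_le_pow_left₀ hD0 hD _
    _ = Real.exp (6 * (4 ^ n * (rho v t ![x, 1] ^ 2 / Lt v t - rho v t ![x, 1] - c))) := by
        rw [← Real.exp_nat_mul, ← Real.exp_add]
        congr 1
        unfold phi
        push_cast
        ring
    _ ≤ Real.exp (6 * Real.log (nrm v ((Fm t)^[n] ![x, 1]))) := by
        apply Real.exp_le_exp.mpr
        apply mul_le_mul_of_nonneg_left _ (by norm_num)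
        refine le_trans ?_ hit
        apply mul_le_mul_of_nonneg_left _ hN.le
        linarith
    _ = nrm v ((Fm t)^[n] ![x, 1]) ^ 6 := by
        rw [mul_comm, Real.exp_mul, Real.exp_log hpos]
        norm_cast
    _ ≤ nrm v ((Fm t)^[n] ![x, 1]) ^ 6 * max 1 (v (t * (1 + 1728 * t) ^ 2)) := by
        apply le_mul_of_one_le_right (by positivity)
        exact le_max_left _ _

theorem nonarch {F : Type} [Field F] [NumberField F] (v : FinitePlace F) :
    IsNonarchimedean v.1 := fun x y => v.add_le x y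

theorem nat_le_one {F : Type} [Field F] [NumberField F] (v : FinitePlace F) (n : ℕ) :
    v.1 (n : F) ≤ 1 :=
  IsNonarchimedean.apply_natCast_le_one (nonarch v) (n := n)

/-- The local estimate at a finite place with `v t < 1`. -/
theorem fin_small {F : Type} [Field F] [NumberField F] (v : FinitePlace F) {t : F} (ht : t ≠ 0)
    (hκ : 1 + 1728 * t ≠ 0) (h1 : v.1 t < 1) (x : F) (n : ℕ) :
    Real.exp (6 * 4 ^ n * phi v.1 t ![x, 1]) * v.1 (t * (1 + 1728 * t) ^ 2) ^ (4 ^ n) ≤
      nrm v.1 ((Fm t)^[n] ![x, 1]) ^ 6 * max 1 (v.1 (t * (1 + 1728 * t) ^ 2)) := by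
  have h0 : 0 < v.1 t := v.1.pos ht
  obtain ⟨hlow, hrho⟩ := dup_na v.1 (nonarch v) t h0 h1
  have hvB : v.1 (1 + 1728 * t) ≤ 1 := by
    have h2 := nonarch v 1 (1728 * t)
    refine h2.trans (max_le (by simp) ?_)
    rw [map_mul]
    have h3 := nat_le_one v 1728
    push_cast at h3
    exact mul_le_one₀ h3 h0.le h1.le
  have h4 := small v.1 ht hκ 0 1 le_rfl le_rfl h1 hvB hlow hrho x n
  rwa [Real.log_one, zero_div, sub_zero, sub_zero] at h4

/-- The local estimate at an infinite place with `v t` small. -/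
theorem inf_small {F : Type} [Field F] [CharZero F] (v : AbsoluteValue F ℝ) {t : F} (ht : t ≠ 0)
    (hκ : 1 + 1728 * t ≠ 0) (ε c : ℝ) (hε1 : ε < 1) (hc : 0 ≤ c)
    (hdup : ∀ (F : Type) [Field F] (v : AbsoluteValue F ℝ) (t : F), 0 < v t → v t ≤ ε →
      DupLow v t c ∧ DupRho v t c) (h1 : v t ≤ ε) (x : F) (n : ℕ) :
    Real.exp (6 * 4 ^ n * (phi v t ![x, 1] - c - Real.log 1729 / 3)) *
        v (t * (1 + 1728 * t) ^ 2) ^ (4 ^ n) ≤
      nrm v ((Fm t)^[n] ![x, 1]) ^ 6 * max 1 (v (t * (1 + 1728 * t) ^ 2)) := by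
  have h0 : 0 < v t := v.pos ht
  obtain ⟨hlow, hrho⟩ := hdup F v t h0 h1
  have hvB : v (1 + 1728 * t) ≤ 1729 := by
    refine (v.add_le _ _).trans ?_
    rw [map_mul, map_one]
    have h3 := v.apply_nat_le_self 1728
    push_cast at h3
    nlinarith
  exact small v ht hκ c 1729 hc (by norm_num) (by linarith) hvB hlow hrho x n

/-- Division of the estimate of `nd_approx`. -/
theorem div_pow_le {C D M : ℝ} {N : ℕ} (hC : 1 ≤ C) (h : D ^ N ≤ C ^ N * M) :
    Real.exp (-(N * Real.log C)) * D ^ N ≤ M := by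
  have hC0 : 0 < C := by linarith
  have e1 : Real.exp (-(N * Real.log C)) = (C ^ N)⁻¹ := by
    rw [Real.exp_neg, Real.exp_nat_mul, Real.exp_log hC0]
  rw [e1, inv_mul_le_iff₀ (by positivity)]
  exact h

end CLaux

open CLaux in
theorem can_lower (d : ℕ) (ε c : ℝ) (hε : 0 < ε) (hε1 : ε < 1) (hc : 0 ≤ c)
    (hdup : ∀ (F : Type) [Field F] (v : AbsoluteValue F ℝ) (t : F), 0 < v t → v t ≤ ε →
      DupLow v t c ∧ DupRho v t c) :
    ∃ C : ℝ, 0 ≤ C ∧ ∀ (F : Type) [Field F] [NumberField F], Module.finrank ℚ F ≤ d →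
    ∀ t : F, t ≠ 0 → 1 + 1728 * t ≠ 0 → ∀ (X : Type) [AddCommGroup X] (ξ : X → Fin 2 → F),
    XMap t ξ → ∀ Tf : Finset (FinitePlace F), (∀ v, v ∈ Tf ↔ v t < 1) →
    ∀ (Q : X) (h : ℝ), Q ≠ 0 →
    Tendsto (fun n : ℕ => logHeight (ξ ((2 ^ n) • Q)) / 4 ^ n) atTop (𝓝 h) →
    ∑ v ∈ Tf, phi v.1 t (ξ Q) +
      ∑ v : InfinitePlace F, (if v t ≤ ε then v.mult * phi v.1 t (ξ Q) else 0) - C ≤ h := by
  classical
  obtain ⟨C1, hC1, hnd1⟩ := nd_approx ((1 / 6 : ℝ) ^ d) 1 (by positivity) one_pos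
  obtain ⟨C2, hC2, hnd2⟩ := nd_approx 1 ε one_pos hε
  have hl1 : 0 ≤ Real.log C1 := Real.log_nonneg hC1
  have hl2 : 0 ≤ Real.log C2 := Real.log_nonneg hC2
  have hl3 : 0 ≤ Real.log 1729 := Real.log_nonneg (by norm_num)
  set A : ℝ := 6 * c + 2 * Real.log 1729 + Real.log C2 with hA
  have hA0 : 0 ≤ A := by positivity
  refine ⟨(3 * d * Real.log C1 + d * A) / 6, by positivity, ?_⟩
  intro F _ _ hd t ht hκ X _ ξ hξ Tf hTf Q h hQ hlim
  obtain ⟨S, hS1, hS2, hS3⟩ := places23 F d hd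
  -- normalisation of the point
  have hb : ξ Q 1 ≠ 0 := fun h0 => hQ ((hξ.zero_iff Q).mp h0)
  obtain ⟨x, hx⟩ : ∃ x : F, ξ Q = ξ Q 1 • ![x, 1] := by
    refine ⟨ξ Q 0 / ξ Q 1, ?_⟩
    funext i
    fin_cases i
    · simp [mul_div_cancel₀ _ hb]
    · simp
  have hphi : ∀ v : AbsoluteValue F ℝ, phi v t (ξ Q) = phi v t ![x, 1] := by
    intro v
    rw [hx]
    exact phi_smul v t _ hb _
  simp only [hphi]
  have hw : (![x, 1] : Fin 2 → F) ≠ 0 := by
    intro h
    have := congrFun h 1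
    simp at this
  have hlog : ∀ n : ℕ, logHeight (ξ ((2 ^ n) • Q)) = logHeight ((Fm t)^[n] ![x, 1]) := by
    intro n
    rw [← hξ.logHeight_iter Q n, hx, iter_smul]
    exact logHeight_smul_eq_logHeight _ (pow_ne_zero _ hb)
  simp only [hlog] at hlim
  set D : F := t * (1 + 1728 * t) ^ 2 with hDdef
  have hD : D ≠ 0 := mul_ne_zero ht (pow_ne_zero _ hκ)
  set Φ : ℝ := ∑ v ∈ Tf, phi v.1 t ![x, 1] +
      ∑ v : InfinitePlace F, (if v t ≤ ε then v.mult * phi v.1 t ![x, 1] else 0) with hΦ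
  have key : ∀ n : ℕ, Φ - (3 * d * Real.log C1 + d * A) / 6 ≤
      logHeight ((Fm t)^[n] ![x, 1]) / 4 ^ n + logHeight₁ D / 6 * ((1 / 4 : ℝ)) ^ n := by
    intro n
    have hN : (0 : ℝ) < 4 ^ n := by positivity
    have hgl := global_lower ((Fm t)^[n] ![x, 1]) (iter_ne_zero ht hκ hw n) D hD (4 ^ n) (Tf ∪ S)
      (fun v => if v ∈ Tf then Real.exp (6 * 4 ^ n * phi v.1 t ![x, 1])
        else Real.exp (-((4 ^ n : ℕ) * Real.log C1)))
      (fun v => if v t ≤ ε then Real.exp (6 * 4 ^ n * (phi v.1 t ![x, 1] - c - Real.log 1729 / 3))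
        else Real.exp (-((4 ^ n : ℕ) * Real.log C2)))
      (fun v _ => by split <;> exact Real.exp_pos _)
      (fun v => by split <;> exact Real.exp_pos _)
      (fun v => by
        split
        · next hv => exact inf_small v.1 ht hκ ε c hε1 hc hdup hv x n
        · next hv =>
          rw [mul_comm (nrm v.1 _ ^ 6)]
          apply div_pow_le hC2
          have h2 : (1 : ℝ) ≤ v.1 2 := by
            have := InfinitePlace.map_natCast v 2
            have h3 : v.1 ((2 : ℕ) : F) = ((2 : ℕ) : ℝ) := this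
            push_cast at h3
            rw [h3]; norm_num
          have h3 : (1 : ℝ) ≤ v.1 3 := by
            have := InfinitePlace.map_natCast v 3
            have h3 : v.1 ((3 : ℕ) : F) = ((3 : ℕ) : ℝ) := this
            push_cast at h3
            rw [h3]; norm_num
          have h4 := hnd2 F v.1 t h2 h3 (not_le.mp hv).le hκ x n
          rw [mul_assoc, mul_comm (nrm v.1 _ ^ 6)] at h4
          exact h4)
      (fun v hv => by
        split
        · next hvT => exact fin_small v ht hκ ((hTf v).mp hvT) x n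
        · next hvT =>
          rw [mul_comm (nrm v.1 _ ^ 6)]
          apply div_pow_le hC1
          have h1t : (1 : ℝ) ≤ v.1 t := not_lt.mp (fun h => hvT ((hTf v).mpr h))
          have h4 := hnd1 F v.1 t (hS3 v).1 (hS3 v).2 h1t hκ x n
          rw [mul_assoc, mul_comm (nrm v.1 _ ^ 6)] at h4
          exact h4)
      (fun v hv => by
        rw [Finset.mem_union, not_or] at hv
        have h1t : (1 : ℝ) ≤ v.1 t := not_lt.mp (fun h => hv.1 ((hTf v).mpr h))
        exact nd_exact v.1 (nonarch v) t (hS2 v hv.2).1 (hS2 v hv.2).2 h1t hκ x n)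
    -- the finite places
    have hf : 6 * 4 ^ n * ∑ v ∈ Tf, phi v.1 t ![x, 1] - 4 ^ n * (3 * d * Real.log C1) ≤
        ∑ v ∈ Tf ∪ S, Real.log (if v ∈ Tf then Real.exp (6 * 4 ^ n * phi v.1 t ![x, 1])
        else Real.exp (-((4 ^ n : ℕ) * Real.log C1))) := by
      have e0 : Tf ∪ S = Tf ∪ (S \ Tf) := by
        rw [Finset.union_sdiff_self_eq_union]
      rw [e0, Finset.sum_union Finset.disjoint_sdiff]
      have e1 : ∑ v ∈ Tf, Real.log (if v ∈ Tf then Real.exp (6 * 4 ^ n * phi v.1 t ![x, 1])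
          else Real.exp (-((4 ^ n : ℕ) * Real.log C1))) =
          6 * 4 ^ n * ∑ v ∈ Tf, phi v.1 t ![x, 1] := by
        rw [Finset.mul_sum]
        apply Finset.sum_congr rfl
        intro v hv
        rw [if_pos hv, Real.log_exp]
      have e2 : ∑ v ∈ S \ Tf, Real.log (if v ∈ Tf then Real.exp (6 * 4 ^ n * phi v.1 t ![x, 1])
          else Real.exp (-((4 ^ n : ℕ) * Real.log C1))) =
          ((S \ Tf).card : ℝ) * (-(4 ^ n * Real.log C1)) := by
        have e5 : ∀ v ∈ S \ Tf, Real.log (if v ∈ Tf then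
            Real.exp (6 * 4 ^ n * phi v.1 t ![x, 1])
            else Real.exp (-((4 ^ n : ℕ) * Real.log C1))) = -(4 ^ n * Real.log C1) := by
          intro v hv
          rw [if_neg (Finset.mem_sdiff.mp hv).2, Real.log_exp]
          push_cast
          rfl
        rw [Finset.sum_congr rfl e5, Finset.sum_const, nsmul_eq_mul]
      have e3 : ((S \ Tf).card : ℝ) ≤ 3 * d := by
        have := (Finset.card_le_card (Finset.sdiff_subset (s := S) (t := Tf))).trans hS1
        exact_mod_cast this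
      have e4 : ((S \ Tf).card : ℝ) * (4 ^ n * Real.log C1) ≤ 3 * d * (4 ^ n * Real.log C1) :=
        mul_le_mul_of_nonneg_right e3 (by positivity)
      rw [e1, e2]
      linarith
    -- the infinite places
    have hi : 6 * 4 ^ n * ∑ v : InfinitePlace F,
          (if v t ≤ ε then v.mult * phi v.1 t ![x, 1] else 0) - 4 ^ n * (d * A) ≤
        ∑ v : InfinitePlace F, v.mult * Real.log (if v t ≤ ε then
          Real.exp (6 * 4 ^ n * (phi v.1 t ![x, 1] - c - Real.log 1729 / 3))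
          else Real.exp (-((4 ^ n : ℕ) * Real.log C2))) := by
      have e1 : ∀ v : InfinitePlace F,
          6 * 4 ^ n * (if v t ≤ ε then v.mult * phi v.1 t ![x, 1] else 0) -
            v.mult * (4 ^ n * A) ≤ v.mult * Real.log (if v t ≤ ε then
          Real.exp (6 * 4 ^ n * (phi v.1 t ![x, 1] - c - Real.log 1729 / 3))
          else Real.exp (-((4 ^ n : ℕ) * Real.log C2))) := by
        intro v
        have hm : (0 : ℝ) ≤ v.mult := Nat.cast_nonneg _
        split
        · rw [Real.log_exp]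
          have e5 : (0 : ℝ) ≤ v.mult * (4 ^ n * Real.log C2) := by positivity
          rw [hA]
          linarith
        · rw [Real.log_exp]
          have e5 : (0 : ℝ) ≤ v.mult * (4 ^ n * (6 * c + 2 * Real.log 1729)) := by positivity
          rw [hA]
          push_cast
          linarith
      have e2 := Finset.sum_le_sum (fun v (_ : v ∈ (Finset.univ : Finset (InfinitePlace F))) => e1 v)
      rw [Finset.sum_sub_distrib, ← Finset.mul_sum, ← Finset.sum_mul] at e2
      have e3 : (∑ v : InfinitePlace F, (v.mult : ℝ)) ≤ d := by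
        rw [← Nat.cast_sum, InfinitePlace.sum_mult_eq]
        exact_mod_cast hd
      have e4 : (∑ v : InfinitePlace F, (v.mult : ℝ)) * (4 ^ n * A) ≤ d * (4 ^ n * A) :=
        mul_le_mul_of_nonneg_right e3 (by positivity)
      linarith
    have h6 : 6 * 4 ^ n * Φ - 4 ^ n * (3 * d * Real.log C1 + d * A) ≤
        6 * logHeight ((Fm t)^[n] ![x, 1]) + logHeight₁ D := by
      rw [hΦ]
      linarith
    have h7 : Φ - (3 * d * Real.log C1 + d * A) / 6 =
        (6 * 4 ^ n * Φ - 4 ^ n * (3 * d * Real.log C1 + d * A)) / (6 * 4 ^ n) := by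
      field_simp
    have h8 : logHeight ((Fm t)^[n] ![x, 1]) / 4 ^ n + logHeight₁ D / 6 * ((1 / 4 : ℝ)) ^ n =
        (6 * logHeight ((Fm t)^[n] ![x, 1]) + logHeight₁ D) / (6 * 4 ^ n) := by
      rw [one_div, inv_pow]
      field_simp
    rw [h7, h8]
    exact div_le_div_of_nonneg_right h6 (by positivity)
  have hlim2 : Tendsto (fun n : ℕ => logHeight ((Fm t)^[n] ![x, 1]) / 4 ^ n +
      logHeight₁ D / 6 * ((1 / 4 : ℝ)) ^ n) atTop (𝓝 (h + logHeight₁ D / 6 * 0)) :=
    hlim.add ((tendsto_pow_atTop_nhds_zero_of_lt_one (by norm_num) (by norm_num)).const_mul _)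
  rw [mul_zero, add_zero] at hlim2
  exact ge_of_tendsto' hlim2 key

end LangForms
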