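import Pool.Agent.Lib_MP_f5471b_nt.Defs

/-!
# MP_f5471b_nt: definitions for the lower bound in terms of the `j`-invariant
-/

namespace LangForms

open Height NumberField WeierstrassCurve Topology Filter

/-- The absolute logarithmic Weil height of the `j`-invariant. -/
noncomputable def hJ {K : Type} [Field K] [NumberField K] (W : WeierstrassCurve K)
    [W.IsElliptic] : ℝ :=
  logHeight₁ W.j / Module.finrank ℚ K

/-- The absolute norm of a finite place. -/
noncomputable def plNorm {F : Type} [Field F] [NumberField F] (v : FinitePlace F) : ℝ :=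
  (Ideal.absNorm v.maximalIdeal.asIdeal : ℝ)

/-- The condition on the `j`-invariant: for some set `T` of at most `s` finite places, the height
of `j` is at most `σ` times one plus the sum of the archimedean part of the height of `j`, the part
of the height of `j` at the places in `T`, and the logarithm of the norm of the radical of the
denominator of `j` (all relative to the field). -/
def JCond {F : Type} [Field F] [NumberField F] (j : F) (s : ℕ) (σ : ℝ) : Prop :=
  ∃ T : Finset (FinitePlace F), T.card ≤ s ∧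
    logHeight₁ j ≤ σ * (1 + ∑ v : InfinitePlace F, v.mult * Real.posLog (v j) +
      ∑ v ∈ T, Real.posLog (v j) +
      ∑ᶠ v : {v : FinitePlace F // 1 < v j}, Real.log (plNorm v.1))

/-! ### Auxiliary notions used in the proofs -/

/-- The elliptic curve `y² + x y = x³ - 36 t x - t` with `j = 1728 + 1 / t`. -/
def curveT {F : Type} [Field F] (t : F) : WeierstrassCurve F := ⟨1, 0, 0, -36 * t, -t⟩

/-- The symmetric product of two points of the projective line. -/
def sy {F : Type} [Field F] (w z : Fin 2 → F) : Fin 3 → F :=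
  ![w 0 * z 0, w 0 * z 1 + w 1 * z 0, w 1 * z 1]

/-- The map `{x(P), x(Q)} ↦ {x(P + Q), x(P - Q)}` for the curve `curveT t`. -/
def Am {F : Type} [Field F] (t : F) (u : Fin 3 → F) : Fin 3 → F :=
  ![u 0 ^ 2 + 72 * t * u 0 * u 2 + 4 * t * u 1 * u 2 + (t + 1296 * t ^ 2) * u 2 ^ 2,
    2 * u 1 * u 0 + u 0 * u 2 - 72 * t * u 1 * u 2 - 4 * t * u 2 ^ 2,
    u 1 ^ 2 - 4 * u 0 * u 2]

/-- The duplication map on the `x`-line for `curveT t`, homogeneous of degree `4`. -/
def Fm {F : Type} [Field F] (t : F) (w : Fin 2 → F) : Fin 2 → F :=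
  ![w 0 ^ 4 + 72 * t * w 0 ^ 2 * w 1 ^ 2 + 8 * t * w 0 * w 1 ^ 3 + (t + 1296 * t ^ 2) * w 1 ^ 4,
    4 * w 0 ^ 3 * w 1 + w 0 ^ 2 * w 1 ^ 2 - 144 * t * w 0 * w 1 ^ 3 - 4 * t * w 1 ^ 4]

/-- `ξ` has the properties of the `x`-coordinate map on the points of (a twist of) `curveT t`. -/
structure XMap {F X : Type} [Field F] [AddCommGroup X] (t : F) (ξ : X → Fin 2 → F) : Prop where
  zero_iff : ∀ Q, ξ Q 1 = 0 ↔ Q = 0
  ne_zero : ∀ Q, ξ Q ≠ 0
  rel : ∀ P Q, ∃ c : F, c ≠ 0 ∧ Am t (sy (ξ P) (ξ Q)) = c • sy (ξ (P + Q)) (ξ (P - Q))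

/-- The change of coordinates on the `x`-line from `W` to `curveT (Δ / c₆ ^ 2)`. -/
def xiW {F : Type} [Field F] (W : WeierstrassCurve F) (w : Fin 2 → F) : Fin 2 → F :=
  ![-(W.c₄ * (12 * w 0 + W.b₂ * w 1)) - W.c₆ * w 1, 12 * W.c₆ * w 1]

/-- The maximum norm at `v`. -/
def nrm {F : Type} [Field F] (v : AbsoluteValue F ℝ) (w : Fin 2 → F) : ℝ :=
  max (v (w 0)) (v (w 1))

/-- `L = log (1 / |t|)`. -/
noncomputable def Lt {F : Type} [Field F] (v : AbsoluteValue F ℝ) (t : F) : ℝ :=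
  -Real.log (v t)

/-- The position of a point of the `x`-line between the smooth part (`0`) and the node
(`L / 2`): `-log` of `min (|x|, 1)`, truncated at `L / 2`. -/
noncomputable def rho {F : Type} [Field F] (v : AbsoluteValue F ℝ) (t : F) (w : Fin 2 → F) : ℝ :=
  -Real.log (max (v (w 0) / nrm v w) (Real.sqrt (v t)))

/-- The local contribution `L B₂(ρ / L) = L / 6 - ρ + ρ² / L`. -/
noncomputable def phi {F : Type} [Field F] (v : AbsoluteValue F ℝ) (t : F) (w : Fin 2 → F) : ℝ :=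
  Lt v t / 6 - rho v t w + rho v t w ^ 2 / Lt v t

/-- Distance to the nearest integer. -/
noncomputable def ncirc (x : ℝ) : ℝ := |x - round x|

/-- The second Bernoulli polynomial. -/
noncomputable def bern (r : ℝ) : ℝ := 1 / 6 - r + r ^ 2

/-- The unordered pairs `{a, b}` and `{x, y}` are equal up to `c`. -/
def PairClose (c a b x y : ℝ) : Prop :=
  (|a - x| ≤ c ∧ |b - y| ≤ c) ∨ (|a - y| ≤ c ∧ |b - x| ≤ c)

/-- First estimate for the duplication map. -/
def DupLow {F : Type} [Field F] (v : AbsoluteValue F ℝ) (t : F) (c : ℝ) : Prop :=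
  ∀ w : Fin 2 → F, w ≠ 0 →
    -2 * rho v t w + 4 * Real.log (nrm v w) - c ≤ Real.log (nrm v (Fm t w))

/-- Second estimate for the duplication map. -/
def DupRho {F : Type} [Field F] (v : AbsoluteValue F ℝ) (t : F) (c : ℝ) : Prop :=
  ∀ w : Fin 2 → F, w ≠ 0 →
    |rho v t (Fm t w) - min (2 * rho v t w) (Lt v t - 2 * rho v t w)| ≤ c

/-- Estimate for the addition law on `x`-coordinates, for `x₁, x₂` with `R |x₁| |x₂|`. -/
def AddOn {F : Type} [Field F] (v : AbsoluteValue F ℝ) (t : F) (c : ℝ) (R : ℝ → ℝ → Prop) :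
    Prop :=
  ∀ x₁ x₂ z₁ z₂ : F, R (v x₁) (v x₂) → x₁ ≠ x₂ →
    (x₁ - x₂) ^ 2 * (z₁ + z₂) = x₁ * x₂ * (1 + 2 * (x₁ + x₂)) - 72 * t * (x₁ + x₂) - 4 * t →
    (x₁ - x₂) ^ 2 * (z₁ * z₂) =
      (x₁ * x₂) ^ 2 + 72 * t * (x₁ * x₂) + 4 * t * (x₁ + x₂) + t + 1296 * t ^ 2 →
    PairClose c (rho v t ![z₁, 1]) (rho v t ![z₂, 1])
      |rho v t ![x₁, 1] - rho v t ![x₂, 1]|
      (min (rho v t ![x₁, 1] + rho v t ![x₂, 1])
        (Lt v t - rho v t ![x₁, 1] - rho v t ![x₂, 1]))

/-- Estimate for the addition law on `x`-coordinates. -/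
def AddRho {F : Type} [Field F] (v : AbsoluteValue F ℝ) (t : F) (c : ℝ) : Prop :=
  AddOn v t c fun _ _ => True

/-- A function `ρ` on an abelian group which behaves like the distance to `0` on the circle
`ℝ / L ℤ`, up to `c`. -/
def PtRho {X : Type} [AddCommGroup X] (L c : ℝ) (ρ : X → ℝ) : Prop :=
  ∀ P Q : X, PairClose c (ρ (P + Q)) (ρ (P - Q)) |ρ P - ρ Q| (min (ρ P + ρ Q) (L - ρ P - ρ Q))

/-- The condition on the parameter `t`. -/
def TCond {F : Type} [Field F] [NumberField F] (t : F) (s : ℕ) (σ : ℝ) : Prop :=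
  ∃ T Tf : Finset (FinitePlace F), T.card ≤ s ∧ T ⊆ Tf ∧ (∀ v, v ∈ Tf ↔ v t < 1) ∧
    logHeight₁ t ≤ σ * (1 + ∑ v : InfinitePlace F, v.mult * Real.posLog (v t)⁻¹ +
      ∑ v ∈ T, Lt v.1 t + ∑ v ∈ Tf, Real.log (plNorm v))

end LangForms
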