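import Pool.Agent.Lib_MP_f5471b_j.Defs

/-!
# MP_f5471b_nt, part 2, piece DIR: simultaneous approximation by pigeonhole
-/

namespace LangForms

theorem dirichlet {ι : Type} (s : Finset ι) (r M : ℕ) (hM : 1 ≤ M) (hs : s.card ≤ r)
    (θ : ι → ℝ) : ∃ m : ℕ, 1 ≤ m ∧ m ≤ M ^ r ∧ ∀ i ∈ s, ncirc (m * θ i) ≤ 1 / M := by
  classical
  have hM0 : (0 : ℝ) < M := by exact_mod_cast hM
  -- the cell map
  let f : ℕ → (s → Fin M) := fun m i =>
    ⟨⌊(M : ℝ) * Int.fract (m * θ i)⌋₊, by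
      rw [Nat.floor_lt (mul_nonneg hM0.le (Int.fract_nonneg _))]
      calc (M : ℝ) * Int.fract (m * θ i) < M * 1 :=
            mul_lt_mul_of_pos_left (Int.fract_lt_one _) hM0
        _ = M := mul_one _⟩
  have hcard : (Finset.univ : Finset (s → Fin M)).card < (Finset.range (M ^ r + 1)).card := by
    rw [Finset.card_range, Finset.card_univ, Fintype.card_fun, Fintype.card_fin,
      Fintype.card_coe]
    exact Nat.lt_succ_of_le (Nat.pow_le_pow_right hM hs)
  obtain ⟨x, hx, y, hy, hxy, hf⟩ := Finset.exists_ne_map_eq_of_card_lt_of_maps_to hcard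
    (f := f) (fun a _ => Finset.mem_univ (f a))
  have key : ∀ x y : ℕ, x < y → y < M ^ r + 1 → f x = f y →
      ∃ m : ℕ, 1 ≤ m ∧ m ≤ M ^ r ∧ ∀ i ∈ s, ncirc (m * θ i) ≤ 1 / M := by
    intro x y hlt hy hf
    refine ⟨y - x, by omega, by omega, fun i hi => ?_⟩
    have h1 : ⌊(M : ℝ) * Int.fract (x * θ i)⌋₊ = ⌊(M : ℝ) * Int.fract (y * θ i)⌋₊ := by
      have := congrFun hf ⟨i, hi⟩
      simpa [f] using this
    have hx0 : 0 ≤ (M : ℝ) * Int.fract (x * θ i) := mul_nonneg hM0.le (Int.fract_nonneg _)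
    have hy0 : 0 ≤ (M : ℝ) * Int.fract (y * θ i) := mul_nonneg hM0.le (Int.fract_nonneg _)
    have ax := Nat.floor_le hx0
    have bx := Nat.lt_floor_add_one ((M : ℝ) * Int.fract (x * θ i))
    have ay := Nat.floor_le hy0
    have by' := Nat.lt_floor_add_one ((M : ℝ) * Int.fract (y * θ i))
    rw [h1] at ax bx
    have hd : |(M : ℝ) * Int.fract (y * θ i) - M * Int.fract (x * θ i)| ≤ 1 := by
      rw [abs_le]; constructor <;> linarith
    rw [← mul_sub, abs_mul, abs_of_pos hM0] at hd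
    have hd' : |Int.fract (y * θ i) - Int.fract (x * θ i)| ≤ 1 / M := by
      rw [le_div_iff₀ hM0, mul_comm]; exact hd
    have e : ((y - x : ℕ) : ℝ) * θ i - ((⌊(y : ℝ) * θ i⌋ - ⌊(x : ℝ) * θ i⌋ : ℤ) : ℝ) =
        Int.fract (y * θ i) - Int.fract (x * θ i) := by
      rw [Nat.cast_sub hlt.le, Int.fract, Int.fract]
      push_cast
      ring
    unfold ncirc
    calc |((y - x : ℕ) : ℝ) * θ i - round (((y - x : ℕ) : ℝ) * θ i)|
        ≤ |((y - x : ℕ) : ℝ) * θ i - ((⌊(y : ℝ) * θ i⌋ - ⌊(x : ℝ) * θ i⌋ : ℤ) : ℝ)| :=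
          round_le _ _
      _ = |Int.fract (y * θ i) - Int.fract (x * θ i)| := by rw [e]
      _ ≤ 1 / M := hd'
  rw [Finset.mem_range] at hx hy
  rcases Nat.lt_or_gt_of_ne hxy with h | h
  · exact key x y h hy hf
  · exact key y x h hx hf.symm

end LangForms
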