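import Pool.Agent.Lib_MP_f5471b_j.Defs

/-!
# MP_f5471b_nt part 2: the duplication estimate for an arbitrary absolute value
-/

namespace LangForms

namespace DGen

theorem nrm_smul' {F : Type} [Field F] (v : AbsoluteValue F ℝ) (c : F) (w : Fin 2 → F) :
    nrm v (c • w) = v c * nrm v w := by
  unfold nrm
  simp only [Pi.smul_apply, smul_eq_mul, map_mul]
  rw [mul_max_of_nonneg _ _ (v.nonneg c)]

theorem Fm_smul' {F : Type} [Field F] (t c : F) (w : Fin 2 → F) :
    Fm t (c • w) = c ^ 4 • Fm t w := by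
  ext i
  fin_cases i
  · simp [Fm]
    ring
  · simp [Fm]
    ring

theorem rho_smul' {F : Type} [Field F] (v : AbsoluteValue F ℝ) (t c : F) (hc : c ≠ 0)
    (w : Fin 2 → F) : rho v t (c • w) = rho v t w := by
  unfold rho
  rw [nrm_smul']
  have h : v c ≠ 0 := v.ne_zero hc
  simp only [Pi.smul_apply, smul_eq_mul, map_mul]
  rw [mul_div_mul_left _ _ h]

theorem natCast_le {F : Type} [Field F] (v : AbsoluteValue F ℝ) (n : ℕ) : v (n : F) ≤ n := by
  induction n with
  | zero => simp
  | succ n ih =>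
    push_cast
    calc v ((n : F) + 1) ≤ v (n : F) + v 1 := v.add_le _ _
      _ ≤ n + 1 := by rw [v.map_one]; linarith

/-- Passing to logarithms. -/
theorem log_form {r R e K : ℝ} (hr : 0 < r) (hR : 0 < R) (he : 0 < e) (hK : 0 < K)
    (h1 : max (r ^ 2) (e / r ^ 2) ≤ K * R) (h2 : R ≤ K * max (r ^ 2) (e / r ^ 2)) :
    |-Real.log R - min (2 * -Real.log r) (-Real.log e - 2 * -Real.log r)| ≤ Real.log K := by
  set T := max (r ^ 2) (e / r ^ 2) with hT
  have hr2 : 0 < r ^ 2 := by positivity
  have hT0 : 0 < T := lt_of_lt_of_le hr2 (le_max_left _ _)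
  have e1 : Real.log (r ^ 2) = 2 * Real.log r := by
    rw [Real.log_pow]; norm_num
  have e2 : Real.log (e / r ^ 2) = Real.log e - 2 * Real.log r := by
    rw [Real.log_div he.ne' hr2.ne', e1]
  have hmin : min (2 * -Real.log r) (-Real.log e - 2 * -Real.log r) = -Real.log T := by
    rcases le_total (r ^ 2) (e / r ^ 2) with h | h
    · have h3 := Real.log_le_log hr2 h
      rw [e1, e2] at h3
      rw [hT, max_eq_right h, e2, min_eq_right (by linarith)]
      ring
    · have h3 := Real.log_le_log (by positivity) h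
      rw [e1, e2] at h3
      rw [hT, max_eq_left h, e1, min_eq_left (by linarith)]
      ring
  rw [hmin, abs_le]
  have h3 := Real.log_le_log hT0 h1
  rw [Real.log_mul hK.ne' hR.ne'] at h3
  have h4 := Real.log_le_log hR h2
  rw [Real.log_mul hK.ne' hT0.ne'] at h4
  constructor <;> linarith

/-- The real inequalities. -/
theorem real_bounds (p s a b : ℝ) (hp : 0 ≤ p) (hs : 0 < s) (hs1 : s ≤ 1 / 10 ^ 6)
    (ha : a ≤ p ^ 4 + s ^ 2 + s ^ 2 * (72 * p ^ 2 + 8 * p + 1296 * s ^ 2))
    (ha1 : p ^ 4 - s ^ 2 - s ^ 2 * (72 * p ^ 2 + 8 * p + 1296 * s ^ 2) ≤ a)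
    (ha2 : s ^ 2 - p ^ 4 - s ^ 2 * (72 * p ^ 2 + 8 * p + 1296 * s ^ 2) ≤ a)
    (hb : b ≤ p ^ 2 + (4 * p ^ 3 + 144 * s ^ 2 * p + 4 * s ^ 2))
    (hb1 : p ^ 2 - (4 * p ^ 3 + 144 * s ^ 2 * p + 4 * s ^ 2) ≤ b) :
    0 < max a b ∧
    (max (p / max p 1) s) ^ 2 * (max p 1) ^ 4 ≤ 10 ^ 9 * max a b ∧
    max ((max (p / max p 1) s) ^ 2) (s ^ 2 / (max (p / max p 1) s) ^ 2) ≤
      10 ^ 9 * max (a / max a b) s ∧
    max (a / max a b) s ≤
      10 ^ 9 * max ((max (p / max p 1) s) ^ 2) (s ^ 2 / (max (p / max p 1) s) ^ 2) := by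
  have he0 : 0 < s ^ 2 := by positivity
  have he1 : s ^ 2 ≤ 1 / 10 ^ 12 := by
    have := mul_le_mul hs1 hs1 hs.le (by norm_num)
    norm_num at this ⊢
    nlinarith only [this]
  have hsle : s ≤ 1 := by
    refine hs1.trans ?_
    norm_num
  rcases le_or_gt (1 / 100) p with hA | hA
  · -- large `p`
    have hp0 : 0 < p := by linarith
    have q3 : p ^ 3 ≤ 100 * p ^ 4 := by
      have : 0 ≤ p ^ 3 * (100 * p - 1) := mul_nonneg (by positivity) (by linarith)
      nlinarith only [this]
    have q2 : p ^ 2 ≤ 10 ^ 4 * p ^ 4 := by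
      have : 0 ≤ p ^ 2 * (100 * p - 1) := mul_nonneg (by positivity) (by linarith)
      nlinarith only [this, q3]
    have q1 : p ≤ 10 ^ 6 * p ^ 4 := by
      have : 0 ≤ p * (100 * p - 1) := mul_nonneg (by positivity) (by linarith)
      nlinarith only [this, q2]
    have q0 : 1 ≤ 10 ^ 8 * p ^ 4 := by
      nlinarith only [hA, q1]
    have hp4 : 0 < p ^ 4 := by positivity
    have k1 : 72 * p ^ 2 + 8 * p + 1296 * s ^ 2 + 1 ≤ 3 * 10 ^ 8 * p ^ 4 := by
      have : 1296 * s ^ 2 ≤ 1 := by
        have := mul_le_mul_of_nonneg_left he1 (by norm_num : (0 : ℝ) ≤ 1296)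
        norm_num at this ⊢
        linarith
      norm_num at q2 q1 q0 ⊢
      linarith
    have k2 : s ^ 2 * (72 * p ^ 2 + 8 * p + 1296 * s ^ 2) + s ^ 2 ≤ 1 / 1000 * p ^ 4 := by
      have h1 : s ^ 2 * (72 * p ^ 2 + 8 * p + 1296 * s ^ 2 + 1) ≤
          1 / 10 ^ 12 * (3 * 10 ^ 8 * p ^ 4) :=
        mul_le_mul he1 k1 (by positivity) (by norm_num)
      norm_num at h1 ⊢
      linarith
    have hage : p ^ 4 / 2 ≤ a := by linarith
    have hale : a ≤ 2 * p ^ 4 := by linarith
    have hble : b ≤ 11000 * p ^ 4 := by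
      have h1 : s ^ 2 * p ≤ 1 / 10 ^ 12 * p := mul_le_mul_of_nonneg_right he1 hp
      norm_num at h1 q2 q1 q0 he1
      linarith
    have hMge : p ^ 4 / 2 ≤ max a b := hage.trans (le_max_left _ _)
    have hM0 : 0 < max a b := by linarith
    have hMle : max a b ≤ 11000 * p ^ 4 := max_le (by linarith) hble
    have hR1 : 1 / 22000 ≤ max (a / max a b) s := by
      refine le_trans ?_ (le_max_left _ _)
      rw [le_div_iff₀ hM0]
      linarith
    have hR2 : max (a / max a b) s ≤ 1 :=
      max_le ((div_le_one hM0).mpr (le_max_left _ _)) hsle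
    have hn0 : 0 < max p 1 := lt_of_lt_of_le one_pos (le_max_right _ _)
    have hnle : max p 1 ≤ 100 * p := max_le (by linarith) (by linarith)
    have hr1 : 1 / 100 ≤ max (p / max p 1) s := by
      refine le_trans ?_ (le_max_left _ _)
      rw [le_div_iff₀ hn0]
      linarith
    have hr2 : max (p / max p 1) s ≤ 1 :=
      max_le ((div_le_one hn0).mpr (le_max_left _ _)) hsle
    set r := max (p / max p 1) s with hr
    have hr0 : 0 < r := by linarith
    have hrr1 : 1 / 10000 ≤ r ^ 2 := by nlinarith only [hr1]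
    have hrr2 : r ^ 2 ≤ 1 := by nlinarith only [hr2, hr0]
    have hrr0 : 0 < r ^ 2 := by linarith
    have hn4 : (max p 1) ^ 4 ≤ 10 ^ 8 * p ^ 4 := by
      have := pow_le_pow_left₀ hn0.le hnle 4
      rw [mul_pow] at this
      norm_num at this ⊢
      exact this
    have hT1 : 1 / 10000 ≤ max (r ^ 2) (s ^ 2 / r ^ 2) := hrr1.trans (le_max_left _ _)
    have hT2 : max (r ^ 2) (s ^ 2 / r ^ 2) ≤ 1 := by
      refine max_le hrr2 ?_
      rw [div_le_one hrr0]
      refine he1.trans (le_trans ?_ hrr1)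
      norm_num
    refine ⟨hM0, ?_, ?_, ?_⟩
    · calc r ^ 2 * (max p 1) ^ 4 ≤ 1 * (10 ^ 8 * p ^ 4) :=
            mul_le_mul hrr2 hn4 (by positivity) (by norm_num)
        _ ≤ 10 ^ 9 * max a b := by norm_num; linarith
    · linarith
    · linarith
  · -- `p < 1 / 100`
    have hn : max p 1 = 1 := max_eq_right (by linarith)
    rw [hn, div_one, one_pow, mul_one]
    have hpp : p ^ 2 ≤ 1 / 10000 := by nlinarith only [hA, hp]
    have hE : s ^ 2 * (72 * p ^ 2 + 8 * p + 1296 * s ^ 2) ≤ s ^ 2 * (1 / 10) := by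
      apply mul_le_mul_of_nonneg_left _ he0.le
      have : 1296 * s ^ 2 ≤ 1 / 1000 := by
        have := mul_le_mul_of_nonneg_left he1 (by norm_num : (0 : ℝ) ≤ 1296)
        norm_num at this ⊢
        linarith
      linarith
    have hE0 : 0 ≤ s ^ 2 * (72 * p ^ 2 + 8 * p + 1296 * s ^ 2) := by positivity
    have hp3 : p ^ 3 ≤ 1 / 100 * p ^ 2 := by
      have : 0 ≤ p ^ 2 * (1 / 100 - p) := mul_nonneg (by positivity) (by linarith)
      nlinarith only [this]
    have hsp : s ^ 2 * p ≤ s ^ 2 * (1 / 100) := mul_le_mul_of_nonneg_left hA.le he0.le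
    have hsp0 : 0 ≤ s ^ 2 * p := by positivity
    have hp30 : 0 ≤ p ^ 3 := by positivity
    rcases le_or_gt (p ^ 2) (100 * s ^ 2) with hC | hB
    · -- small `p`
      have hp4 : p ^ 4 ≤ 1 / 100 * s ^ 2 := by
        have h1 : p ^ 2 * p ^ 2 ≤ (100 * s ^ 2) * (1 / 10000) :=
          mul_le_mul hC hpp (by positivity) (by positivity)
        nlinarith only [h1]
      have hp40 : 0 ≤ p ^ 4 := by positivity
      have hage : 1 / 2 * s ^ 2 ≤ a := by linarith
      have hale : a ≤ 2 * s ^ 2 := by linarith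
      have hble : b ≤ 110 * s ^ 2 := by linarith
      have hMge : 1 / 2 * s ^ 2 ≤ max a b := hage.trans (le_max_left _ _)
      have hM0 : 0 < max a b := by linarith
      have hMle : max a b ≤ 110 * s ^ 2 := max_le (by linarith) hble
      have hR1 : 1 / 220 ≤ max (a / max a b) s := by
        refine le_trans ?_ (le_max_left _ _)
        rw [le_div_iff₀ hM0]
        linarith
      have hR2 : max (a / max a b) s ≤ 1 :=
        max_le ((div_le_one hM0).mpr (le_max_left _ _)) hsle
      have hps : p ≤ 10 * s := by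
        by_contra hcon
        push Not at hcon
        nlinarith only [hcon, hC, hs, hp]
      set r := max p s with hr
      have hr1 : s ≤ r := le_max_right _ _
      have hr2 : r ≤ 10 * s := max_le hps (by linarith)
      have hr0 : 0 < r := by linarith
      have hrr1 : s ^ 2 ≤ r ^ 2 := pow_le_pow_left₀ hs.le hr1 2
      have hrr2 : r ^ 2 ≤ 100 * s ^ 2 := by
        have := pow_le_pow_left₀ hr0.le hr2 2
        nlinarith only [this]
      have hrr0 : 0 < r ^ 2 := by linarith
      have hT1 : 1 / 100 ≤ max (r ^ 2) (s ^ 2 / r ^ 2) := by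
        refine le_trans ?_ (le_max_right _ _)
        rw [le_div_iff₀ hrr0]
        linarith
      have hT2 : max (r ^ 2) (s ^ 2 / r ^ 2) ≤ 1 := by
        refine max_le ?_ ?_
        · norm_num at he1
          linarith
        · rw [div_le_one hrr0]
          exact hrr1
      refine ⟨hM0, ?_, ?_, ?_⟩
      · linarith
      · linarith
      · linarith
    · -- intermediate `p`
      have hp0 : 0 < p := by
        rcases hp.lt_or_eq with h | h
        · exact h
        · rw [← h] at hB
          nlinarith only [hB, he0]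
      have hpp0 : 0 < p ^ 2 := by positivity
      have hsltp : s < p := by
        by_contra hcon
        push Not at hcon
        nlinarith only [hcon, hB, hs, hp]
      have hrmax : max p s = p := max_eq_left hsltp.le
      rw [hrmax]
      have hbge : 9 / 10 * p ^ 2 ≤ b := by linarith
      have hble : b ≤ 11 / 10 * p ^ 2 := by linarith
      have hp4 : p ^ 4 ≤ 1 / 10000 * p ^ 2 := by
        have h1 : p ^ 2 * p ^ 2 ≤ (1 / 10000) * p ^ 2 :=
          mul_le_mul_of_nonneg_right hpp hpp0.le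
        nlinarith only [h1]
      have hab : a ≤ b := by linarith
      have hM : max a b = b := max_eq_right hab
      rw [hM]
      have hb0 : 0 < b := by linarith
      set T := max (p ^ 2) (s ^ 2 / p ^ 2) with hT
      have hTs : s ≤ T := by
        rcases le_or_gt s (p ^ 2) with h | h
        · exact h.trans (le_max_left _ _)
        · refine le_trans ?_ (le_max_right _ _)
          rw [le_div_iff₀ hpp0]
          nlinarith only [h, hs]
      have hT1 : p ^ 2 ≤ T := le_max_left _ _
      have hT2 : s ^ 2 / p ^ 2 ≤ T := le_max_right _ _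
      have hT2' : s ^ 2 ≤ T * p ^ 2 := (div_le_iff₀ hpp0).mp hT2
      have hT0 : 0 < T := lt_of_lt_of_le hpp0 hT1
      refine ⟨hb0, by norm_num; linarith, ?_, ?_⟩
      · -- `T ≤ K R`
        have hR1 : a / b ≤ max (a / b) s := le_max_left _ _
        have hR2 : s ≤ max (a / b) s := le_max_right _ _
        rcases le_or_gt (4 * s ^ 2) (p ^ 4) with h | h
        · have h1 : p ^ 4 / 2 ≤ a := by linarith
          have h2 : s ^ 2 / p ^ 2 ≤ p ^ 2 := by
            rw [div_le_iff₀ hpp0]
            nlinarith only [h, he0]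
          have h3 : T ≤ p ^ 2 := max_le le_rfl h2
          have h4 : p ^ 2 ≤ 4 * (a / b) := by
            rw [mul_div_assoc', le_div_iff₀ hb0]
            have : p ^ 2 * b ≤ p ^ 2 * (11 / 10 * p ^ 2) := mul_le_mul_of_nonneg_left hble hpp0.le
            nlinarith only [this, h1, hpp0]
          linarith
        · rcases le_or_gt (4 * p ^ 4) (s ^ 2) with h' | h'
          · have h1 : s ^ 2 / 2 ≤ a := by linarith
            have h2 : p ^ 2 ≤ s ^ 2 / p ^ 2 := by
              rw [le_div_iff₀ hpp0]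
              nlinarith only [h', hpp0]
            have h3 : T ≤ s ^ 2 / p ^ 2 := max_le h2 le_rfl
            have h4 : s ^ 2 / p ^ 2 ≤ 4 * (a / b) := by
              rw [mul_div_assoc', div_le_div_iff₀ hpp0 hb0]
              have h5 : s ^ 2 * b ≤ s ^ 2 * (11 / 10 * p ^ 2) :=
                mul_le_mul_of_nonneg_left hble he0.le
              have h6 : s ^ 2 / 2 * p ^ 2 ≤ a * p ^ 2 := mul_le_mul_of_nonneg_right h1 hpp0.le
              have h7 : 0 ≤ s ^ 2 * p ^ 2 := by positivity
              nlinarith only [h5, h6, h7]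
            linarith
          · have h1 : p ^ 2 ≤ 2 * s := by
              by_contra hcon
              push Not at hcon
              nlinarith only [hcon, h, hs, hpp0]
            have h2 : s ≤ 2 * p ^ 2 := by
              by_contra hcon
              push Not at hcon
              nlinarith only [hcon, h', hs, hpp0]
            have h3 : T ≤ 2 * s := by
              refine max_le h1 ?_
              rw [div_le_iff₀ hpp0]
              nlinarith only [h2, hs]
            linarith
      · -- `R ≤ K T`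
        refine max_le ?_ (by norm_num; linarith)
        rw [div_le_iff₀ hb0]
        have h1 : a ≤ p ^ 2 * p ^ 2 + 2 * s ^ 2 := by
          have e4 : p ^ 4 = p ^ 2 * p ^ 2 := by ring
          linarith
        have h2 : p ^ 2 * p ^ 2 ≤ T * p ^ 2 := mul_le_mul_of_nonneg_right hT1 hpp0.le
        have h3 : T * p ^ 2 ≤ 2 * (T * b) := by
          have : T * (9 / 10 * p ^ 2) ≤ T * b := mul_le_mul_of_nonneg_left hbge hT0.le
          have h0 : 0 < T * p ^ 2 := by positivity
          linarith
        have h4 : 0 < T * b := by positivity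
        linarith

/-- The bounds for the entries of `Fm t ![x, 1]`. -/
theorem entry_bounds {F : Type} [Field F] (v : AbsoluteValue F ℝ) (t x : F) :
    (v (Fm t ![x, 1] 0) ≤ v x ^ 4 + v t + v t * (72 * v x ^ 2 + 8 * v x + 1296 * v t)) ∧
    (v x ^ 4 - v t - v t * (72 * v x ^ 2 + 8 * v x + 1296 * v t) ≤ v (Fm t ![x, 1] 0)) ∧
    (v t - v x ^ 4 - v t * (72 * v x ^ 2 + 8 * v x + 1296 * v t) ≤ v (Fm t ![x, 1] 0)) ∧
    (v (Fm t ![x, 1] 1) ≤ v x ^ 2 + (4 * v x ^ 3 + 144 * v t * v x + 4 * v t)) ∧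
    (v x ^ 2 - (4 * v x ^ 3 + 144 * v t * v x + 4 * v t) ≤ v (Fm t ![x, 1] 1)) := by
  have n72 : v (72 : F) ≤ 72 := by
    have := natCast_le v 72
    exact_mod_cast this
  have n8 : v (8 : F) ≤ 8 := by
    have := natCast_le v 8
    exact_mod_cast this
  have n1296 : v (1296 : F) ≤ 1296 := by
    have := natCast_le v 1296
    exact_mod_cast this
  have n4 : v (4 : F) ≤ 4 := by
    have := natCast_le v 4
    exact_mod_cast this
  have n144 : v (144 : F) ≤ 144 := by
    have := natCast_le v 144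
    exact_mod_cast this
  have hx := v.nonneg x
  have ht := v.nonneg t
  -- first entry
  have e0 : Fm t ![x, 1] 0 = x ^ 4 + t + (72 * t * x ^ 2 + 8 * t * x + 1296 * t ^ 2) := by
    simp [Fm]
    ring
  have e1 : Fm t ![x, 1] 1 = x ^ 2 + (4 * x ^ 3 - (144 * t * x + 4 * t)) := by
    simp [Fm]
    ring
  have hE : v (72 * t * x ^ 2 + 8 * t * x + 1296 * t ^ 2) ≤
      v t * (72 * v x ^ 2 + 8 * v x + 1296 * v t) := by
    have h1 : v (72 * t * x ^ 2) ≤ 72 * v t * v x ^ 2 := by
      rw [map_mul, map_mul, map_pow]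
      gcongr
    have h2 : v (8 * t * x) ≤ 8 * v t * v x := by
      rw [map_mul, map_mul]
      gcongr
    have h3 : v (1296 * t ^ 2) ≤ 1296 * v t ^ 2 := by
      rw [map_mul, map_pow]
      gcongr
    have h4 := v.add_le (72 * t * x ^ 2 + 8 * t * x) (1296 * t ^ 2)
    have h5 := v.add_le (72 * t * x ^ 2) (8 * t * x)
    nlinarith only [h1, h2, h3, h4, h5]
  have hG : v (4 * x ^ 3 - (144 * t * x + 4 * t)) ≤
      4 * v x ^ 3 + 144 * v t * v x + 4 * v t := by
    have h1 : v (4 * x ^ 3) ≤ 4 * v x ^ 3 := by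
      rw [map_mul, map_pow]
      gcongr
    have h2 : v (144 * t * x) ≤ 144 * v t * v x := by
      rw [map_mul, map_mul]
      gcongr
    have h3 : v (4 * t) ≤ 4 * v t := by
      rw [map_mul]
      gcongr
    have h4 := v.sub_le_add (4 * x ^ 3) (144 * t * x + 4 * t)
    have h5 := v.add_le (144 * t * x) (4 * t)
    linarith
  have f1 : v (Fm t ![x, 1] 0) ≤ v (x ^ 4 + t) +
      v (72 * t * x ^ 2 + 8 * t * x + 1296 * t ^ 2) := by
    rw [e0]
    exact v.add_le _ _
  have f2 : v (x ^ 4 + t) ≤ v (Fm t ![x, 1] 0) +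
      v (72 * t * x ^ 2 + 8 * t * x + 1296 * t ^ 2) := by
    have h := v.sub_le_add (Fm t ![x, 1] 0) (72 * t * x ^ 2 + 8 * t * x + 1296 * t ^ 2)
    rw [e0] at h ⊢
    rwa [add_sub_cancel_right] at h
  have f3 : v (x ^ 4 + t) ≤ v x ^ 4 + v t := by
    rw [← map_pow]
    exact v.add_le _ _
  have f4 : v x ^ 4 ≤ v (x ^ 4 + t) + v t := by
    have h := v.sub_le_add (x ^ 4 + t) t
    rwa [add_sub_cancel_right, map_pow] at h
  have f5 : v t ≤ v (x ^ 4 + t) + v x ^ 4 := by
    have h := v.sub_le_add (x ^ 4 + t) (x ^ 4)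
    rwa [add_sub_cancel_left, map_pow] at h
  have g1 : v (Fm t ![x, 1] 1) ≤ v x ^ 2 + v (4 * x ^ 3 - (144 * t * x + 4 * t)) := by
    rw [e1, ← map_pow]
    exact v.add_le _ _
  have g2 : v x ^ 2 ≤ v (Fm t ![x, 1] 1) + v (4 * x ^ 3 - (144 * t * x + 4 * t)) := by
    have h := v.sub_le_add (Fm t ![x, 1] 1) (4 * x ^ 3 - (144 * t * x + 4 * t))
    rw [e1] at h ⊢
    rwa [add_sub_cancel_right, map_pow] at h
  refine ⟨by linarith, by linarith, by linarith, by linarith, by linarith⟩

/-- Affine points. -/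
theorem dup_affine {F : Type} [Field F] (v : AbsoluteValue F ℝ) (t : F) (h0 : 0 < v t)
    (h1 : v t ≤ 1 / 10 ^ 12) (x : F) :
    (-2 * rho v t ![x, 1] + 4 * Real.log (nrm v ![x, 1]) - Real.log (10 ^ 9) ≤
      Real.log (nrm v (Fm t ![x, 1]))) ∧
    |rho v t (Fm t ![x, 1]) - min (2 * rho v t ![x, 1]) (Lt v t - 2 * rho v t ![x, 1])| ≤
      Real.log (10 ^ 9) := by
  have hs0 : 0 < Real.sqrt (v t) := Real.sqrt_pos.mpr h0
  have hss : Real.sqrt (v t) ^ 2 = v t := Real.sq_sqrt h0.le
  have hs1 : Real.sqrt (v t) ≤ 1 / 10 ^ 6 := by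
    rw [Real.sqrt_le_left (by norm_num)]
    refine h1.trans (le_of_eq ?_)
    norm_num
  obtain ⟨b1, b2, b3, b4, b5⟩ := entry_bounds v t x
  rw [← hss] at b1 b2 b3 b4 b5
  obtain ⟨c1, c2, c3, c4⟩ := real_bounds (v x) (Real.sqrt (v t)) _ _ (v.nonneg x) hs0 hs1
    b1 b2 b3 b4 b5
  have hn : nrm v ![x, 1] = max (v x) 1 := by
    unfold nrm
    simp
  have hM : nrm v (Fm t ![x, 1]) = max (v (Fm t ![x, 1] 0)) (v (Fm t ![x, 1] 1)) := rfl
  have hrho : rho v t ![x, 1] = -Real.log (max (v x / max (v x) 1) (Real.sqrt (v t))) := by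
    unfold rho
    rw [hn]
    simp
  set r := max (v x / max (v x) 1) (Real.sqrt (v t)) with hr
  have hr0 : 0 < r := lt_of_lt_of_le hs0 (le_max_right _ _)
  have hn0 : 0 < max (v x) 1 := lt_of_lt_of_le one_pos (le_max_right _ _)
  constructor
  · rw [hrho, hn, hM]
    have h2 := Real.log_le_log (by positivity) c2
    rw [Real.log_mul (by positivity) (by positivity), Real.log_mul (by positivity) c1.ne',
      Real.log_pow, Real.log_pow] at h2
    push_cast at h2
    linarith
  · have hR : rho v t (Fm t ![x, 1]) =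
        -Real.log (max (v (Fm t ![x, 1] 0) / max (v (Fm t ![x, 1] 0)) (v (Fm t ![x, 1] 1)))
          (Real.sqrt (v t))) := rfl
    rw [hR, hrho]
    unfold Lt
    have hR0 : 0 < max (v (Fm t ![x, 1] 0) / max (v (Fm t ![x, 1] 0)) (v (Fm t ![x, 1] 1)))
        (Real.sqrt (v t)) := lt_of_lt_of_le hs0 (le_max_right _ _)
    rw [hss] at c3 c4
    exact log_form hr0 hR0 h0 (by norm_num) c3 c4

end DGen

theorem dup_gen : ∃ ε c : ℝ, 0 < ε ∧ ε < 1 ∧ 0 ≤ c ∧ ∀ (F : Type) [Field F]
    (v : AbsoluteValue F ℝ) (t : F), 0 < v t → v t ≤ ε → DupLow v t c ∧ DupRho v t c := by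
  refine ⟨1 / 10 ^ 12, Real.log (10 ^ 9), by norm_num, by norm_num,
    Real.log_nonneg (by norm_num), ?_⟩
  intro F _ v t h0 h1
  have hc : 0 ≤ Real.log ((10 : ℝ) ^ 9) := Real.log_nonneg (by norm_num)
  have hle1 : v t ≤ 1 := h1.trans (by norm_num)
  have hsle : Real.sqrt (v t) ≤ 1 := by
    rw [Real.sqrt_le_left (by norm_num)]
    linarith
  have key : ∀ w : Fin 2 → F, w ≠ 0 →
      (-2 * rho v t w + 4 * Real.log (nrm v w) - Real.log (10 ^ 9) ≤
        Real.log (nrm v (Fm t w))) ∧
      |rho v t (Fm t w) - min (2 * rho v t w) (Lt v t - 2 * rho v t w)| ≤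
        Real.log (10 ^ 9) := by
    intro w hw
    by_cases hw1 : w 1 = 0
    · have hw0 : w 0 ≠ 0 := by
        intro h
        apply hw
        ext i
        fin_cases i
        · exact h
        · exact hw1
      have hwe : w = w 0 • ![(1 : F), 0] := by
        ext i
        fin_cases i
        · simp
        · simpa using hw1
      have hF : Fm t ![(1 : F), 0] = ![1, 0] := by
        ext i
        fin_cases i
        · simp [Fm]
        · simp [Fm]
      have hn : nrm v ![(1 : F), 0] = 1 := by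
        unfold nrm
        simp
      have hr : rho v t ![(1 : F), 0] = 0 := by
        unfold rho
        rw [hn]
        simp only [Matrix.cons_val_zero, map_one, div_one]
        rw [max_eq_left hsle, Real.log_one, neg_zero]
      have hL : 0 ≤ Lt v t := by
        unfold Lt
        have := Real.log_nonpos h0.le hle1
        linarith
      have hv0 : 0 < v (w 0) := v.pos hw0
      rw [hwe, DGen.rho_smul' v t _ hw0, DGen.Fm_smul',
        DGen.rho_smul' v t _ (pow_ne_zero 4 hw0), DGen.nrm_smul', DGen.nrm_smul', hF, hn, hr,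
        map_pow]
      constructor
      · have e4 : Real.log (v (w 0) ^ 4) = 4 * Real.log (v (w 0)) := by
          rw [Real.log_pow]
          norm_num
        simp only [mul_one, mul_zero, zero_add]
        rw [e4]
        linarith
      · simp only [mul_zero, sub_zero]
        rw [min_eq_left hL, sub_zero, abs_zero]
        exact hc
    · have hwe : w = w 1 • ![w 0 / w 1, 1] := by
        ext i
        fin_cases i
        · simp [mul_div_cancel₀ _ hw1]
        · simp
      have hv1 : 0 < v (w 1) := v.pos hw1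
      obtain ⟨k1, k2⟩ := DGen.dup_affine v t h0 h1 (w 0 / w 1)
      have hnpos : 0 < nrm v ![w 0 / w 1, 1] := by
        unfold nrm
        refine lt_of_lt_of_le one_pos ?_
        simp
      have hFpos : 0 < nrm v (Fm t ![w 0 / w 1, 1]) := by
        have hs0 : 0 < Real.sqrt (v t) := Real.sqrt_pos.mpr h0
        have hss : Real.sqrt (v t) ^ 2 = v t := Real.sq_sqrt h0.le
        have hs1 : Real.sqrt (v t) ≤ 1 / 10 ^ 6 := by
          rw [Real.sqrt_le_left (by norm_num)]
          refine h1.trans (le_of_eq ?_)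
          norm_num
        obtain ⟨b1, b2, b3, b4, b5⟩ := DGen.entry_bounds v t (w 0 / w 1)
        rw [← hss] at b1 b2 b3 b4 b5
        exact (DGen.real_bounds (v (w 0 / w 1)) (Real.sqrt (v t)) _ _ (v.nonneg _) hs0 hs1
          b1 b2 b3 b4 b5).1
      rw [hwe, DGen.rho_smul' v t _ hw1, DGen.Fm_smul',
        DGen.rho_smul' v t _ (pow_ne_zero 4 hw1), DGen.nrm_smul', DGen.nrm_smul', map_pow]
      refine ⟨?_, ?_⟩
      · have e4 : Real.log (v (w 1) ^ 4) = 4 * Real.log (v (w 1)) := by
          rw [Real.log_pow]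
          norm_num
        rw [Real.log_mul hv1.ne' hnpos.ne', Real.log_mul (pow_ne_zero 4 hv1.ne') hFpos.ne', e4]
        linarith
      · exact k2
  exact ⟨fun w hw => (key w hw).1, fun w hw => (key w hw).2⟩

end LangForms
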