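import Pool.Agent.Lib_MP_f5471b_j.Defs

/-!
# Fejer kernel against the second Bernoulli polynomial
-/

namespace LangForms

open Finset

/-- Square of the Dirichlet sum. -/
lemma fejer_sq (y : ℝ) (N : ℕ) :
    (∑ k ∈ range N, Real.cos (k * y)) ^ 2 + (∑ k ∈ range N, Real.sin (k * y)) ^ 2 =
      2 * ∑ k ∈ range N, ((N : ℝ) - k) * Real.cos (k * y) - N := by
  induction N with
  | zero => simp
  | succ N ih =>
    have h1 : ∑ k ∈ range (N + 1), (((N + 1 : ℕ) : ℝ) - k) * Real.cos (k * y) =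
        ∑ k ∈ range N, ((N : ℝ) - k) * Real.cos (k * y) +
          ∑ k ∈ range (N + 1), Real.cos (k * y) := by
      have h2 : ∑ k ∈ range N, ((N : ℝ) - k) * Real.cos (k * y) =
          ∑ k ∈ range (N + 1), ((N : ℝ) - k) * Real.cos (k * y) := by
        rw [sum_range_succ]
        simp
      rw [h2, ← sum_add_distrib]
      refine sum_congr rfl fun k _ => ?_
      push_cast
      ring
    have h3 : (∑ k ∈ range N, Real.cos (k * y)) * Real.cos (N * y) +
        (∑ k ∈ range N, Real.sin (k * y)) * Real.sin (N * y) =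
        ∑ k ∈ range (N + 1), Real.cos (k * y) - 1 := by
      have h4 : ∑ k ∈ range (N + 1), Real.cos (k * y) =
          ∑ k ∈ range (N + 1), Real.cos (((N - k : ℕ) : ℝ) * y) := by
        rw [← sum_range_reflect]
        refine sum_congr rfl fun k hk => ?_
        have : N + 1 - 1 - k = N - k := by omega
        rw [this]
      rw [h4, sum_range_succ]
      have h5 : Real.cos (((N - N : ℕ) : ℝ) * y) = 1 := by simp
      rw [h5, add_sub_cancel_right, sum_mul, sum_mul, ← sum_add_distrib]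
      refine sum_congr rfl fun k hk => ?_
      have hk' : k ≤ N := (mem_range.1 hk).le
      rw [Nat.cast_sub hk', sub_mul, Real.cos_sub]
      ring
    rw [sum_range_succ (fun k => Real.cos (k * y)) N, sum_range_succ (fun k => Real.sin (k * y)) N,
      h1]
    have h6 := Real.sin_sq_add_cos_sq (N * y)
    push_cast
    have h7 : (∑ k ∈ range (N + 1), Real.cos (k * y)) =
        (∑ k ∈ range N, Real.cos (k * y)) * Real.cos (N * y) +
        (∑ k ∈ range N, Real.sin (k * y)) * Real.sin (N * y) + 1 := by linarith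
    rw [h7]
    nlinarith [ih, h6]

/-- The Fejer kernel is nonnegative. -/
lemma fejer_nonneg (y : ℝ) (N : ℕ) (hN : 1 ≤ N) :
    -(1 / 2) ≤ ∑ k ∈ Ico 1 N, (1 - (k : ℝ) / N) * Real.cos (k * y) := by
  have h := fejer_sq y N
  have h1 : ∑ k ∈ range N, ((N : ℝ) - k) * Real.cos (k * y) =
      N + ∑ k ∈ Ico 1 N, ((N : ℝ) - k) * Real.cos (k * y) := by
    rw [range_eq_Ico, sum_eq_sum_Ico_succ_bot (by omega : 0 < N)]
    simp
  have hN0 : (0 : ℝ) < N := by exact_mod_cast hN
  have h2 : ∑ k ∈ Ico 1 N, (1 - (k : ℝ) / N) * Real.cos (k * y) =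
      (∑ k ∈ Ico 1 N, ((N : ℝ) - k) * Real.cos (k * y)) / N := by
    rw [sum_div]
    refine sum_congr rfl fun k _ => ?_
    field_simp
  rw [h2, le_div_iff₀ hN0]
  rw [h1] at h
  have h3 := sq_nonneg (∑ k ∈ range N, Real.cos (k * y))
  have h4 := sq_nonneg (∑ k ∈ range N, Real.sin (k * y))
  linarith

/-- The second Bernoulli polynomial. -/
lemma bernoulli_two_eval (r : ℝ) :
    (Polynomial.map (algebraMap ℚ ℝ) (Polynomial.bernoulli 2)).eval r = r ^ 2 - r + 1 / 6 := by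
  have h0 : Polynomial.bernoulli 2 =
      Polynomial.X ^ 2 - Polynomial.X + Polynomial.C (1 / 6 : ℚ) := by
    simp only [Polynomial.bernoulli, Finset.sum_range_succ, Finset.sum_range_zero, zero_add,
      ← Polynomial.C_mul_X_pow_eq_monomial]
    simp only [bernoulli_zero, bernoulli_one, bernoulli_two]
    simp [Polynomial.C_neg]
    ring_nf
  rw [h0]
  simp

/-- The second Bernoulli polynomial is symmetric. -/
lemma bern_ncirc (x : ℝ) : bern (ncirc x) = Int.fract x ^ 2 - Int.fract x + 1 / 6 := by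
  unfold bern ncirc
  rw [abs_sub_round_eq_min]
  rcases min_choice (Int.fract x) (1 - Int.fract x) with h | h <;> rw [h] <;> ring

/-- Fourier expansion of the second Bernoulli polynomial. -/
lemma bern_hasSum (x : ℝ) :
    HasSum (fun m : ℕ => 1 / Real.pi ^ 2 * (1 / (m : ℝ) ^ 2 * Real.cos (m * (2 * Real.pi * x))))
      (bern (ncirc x)) := by
  have hf : Int.fract x ∈ Set.Icc (0 : ℝ) 1 := ⟨Int.fract_nonneg x, (Int.fract_lt_one x).le⟩
  have h := hasSum_one_div_nat_pow_mul_cos (k := 1) one_ne_zero hf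
  have hpi : Real.pi ≠ 0 := Real.pi_ne_zero
  have h2 := h.mul_left (1 / Real.pi ^ 2)
  have h3 : bern (ncirc x) = 1 / Real.pi ^ 2 *
      ((-1) ^ (1 + 1) * (2 * Real.pi) ^ (2 * 1) / 2 / ((2 * 1).factorial : ℕ) *
        Polynomial.eval (Int.fract x)
          (Polynomial.map (algebraMap ℚ ℝ) (Polynomial.bernoulli (2 * 1)))) := by
    rw [bern_ncirc, mul_one, bernoulli_two_eval]
    have : ((Nat.factorial 2 : ℕ) : ℝ) = 2 := by norm_num [Nat.factorial]
    rw [this]
    field_simp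
    ring
  rw [h3]
  have h4 : (fun m : ℕ => 1 / Real.pi ^ 2 * (1 / (m : ℝ) ^ 2 *
      Real.cos (m * (2 * Real.pi * x)))) = fun m : ℕ => 1 / Real.pi ^ 2 *
      (1 / (m : ℝ) ^ (2 * 1) * Real.cos (2 * Real.pi * m * Int.fract x)) := by
    funext m
    have h5 : (m : ℝ) * (2 * Real.pi * x) =
        2 * Real.pi * m * Int.fract x + ((m * ⌊x⌋ : ℤ) : ℝ) * (2 * Real.pi) := by
      have h6 := Int.fract_add_floor x
      push_cast
      nth_rw 1 [← h6]
      ring
    rw [h5, Real.cos_add_int_mul_two_pi]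
  rw [h4]
  exact h2

theorem fejer (N : ℕ) (hN : 1 ≤ N) (θ : ℝ) :
    -(1 / 12) ≤ ∑ k ∈ Finset.Ico 1 N, (1 - (k : ℝ) / N) * bern (ncirc (k * θ)) := by
  have h1 : HasSum (fun m : ℕ => ∑ k ∈ Finset.Ico 1 N, (1 - (k : ℝ) / N) *
      (1 / Real.pi ^ 2 * (1 / (m : ℝ) ^ 2 * Real.cos (m * (2 * Real.pi * (k * θ))))))
      (∑ k ∈ Finset.Ico 1 N, (1 - (k : ℝ) / N) * bern (ncirc (k * θ))) :=
    hasSum_sum fun k _ => (bern_hasSum (k * θ)).mul_left _
  have h2 : HasSum (fun m : ℕ => -(1 / (2 * Real.pi ^ 2)) * (1 / (m : ℝ) ^ 2)) (-(1 / 12)) := by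
    have h3 := hasSum_zeta_two.mul_left (-(1 / (2 * Real.pi ^ 2)))
    have h4 : -(1 / (2 * Real.pi ^ 2)) * (Real.pi ^ 2 / 6) = -(1 / 12) := by
      have hpi : Real.pi ≠ 0 := Real.pi_ne_zero
      field_simp
      norm_num
    rwa [h4] at h3
  refine hasSum_le (fun m => ?_) h2 h1
  have h5 := fejer_nonneg (m * (2 * Real.pi * θ)) N hN
  have h6 : ∑ k ∈ Finset.Ico 1 N, (1 - (k : ℝ) / N) *
      (1 / Real.pi ^ 2 * (1 / (m : ℝ) ^ 2 * Real.cos (m * (2 * Real.pi * (k * θ))))) =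
      (1 / Real.pi ^ 2 * (1 / (m : ℝ) ^ 2)) * ∑ k ∈ Finset.Ico 1 N, (1 - (k : ℝ) / N) *
        Real.cos (k * (m * (2 * Real.pi * θ))) := by
    rw [Finset.mul_sum]
    refine Finset.sum_congr rfl fun k _ => ?_
    have : (m : ℝ) * (2 * Real.pi * (k * θ)) = k * (m * (2 * Real.pi * θ)) := by ring
    rw [this]
    ring
  rw [h6]
  have h7 : 0 ≤ 1 / Real.pi ^ 2 * (1 / (m : ℝ) ^ 2) := by positivity
  have h8 := mul_le_mul_of_nonneg_left h5 h7
  refine le_trans (le_of_eq ?_) h8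
  have hpi : Real.pi ≠ 0 := Real.pi_ne_zero
  field_simp

end LangForms
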