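import Pool.Agent.Lib_MP_f5471b_j.Defs

/-!
# MP_f5471b_nt: the duplication map on the `x`-line of `curveT t`
-/

namespace LangForms

open Height NumberField WeierstrassCurve Topology Filter

theorem Fm_ne_zero {F : Type} [Field F] [CharZero F] {t : F} (ht : t ≠ 0) (hκ : 1 + 1728 * t ≠ 0)
    {w : Fin 2 → F} (hw : w ≠ 0) : Fm t w ≠ 0 := by
  intro h
  have h0 : w 0 ^ 4 + 72 * t * w 0 ^ 2 * w 1 ^ 2 + 8 * t * w 0 * w 1 ^ 3 +
      (t + 1296 * t ^ 2) * w 1 ^ 4 = 0 := by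
    have := congrFun h 0
    simpa [Fm] using this
  have h1 : 4 * w 0 ^ 3 * w 1 + w 0 ^ 2 * w 1 ^ 2 - 144 * t * w 0 * w 1 ^ 3 -
      4 * t * w 1 ^ 4 = 0 := by
    have := congrFun h 1
    simpa [Fm] using this
  by_cases hw1 : w 1 = 0
  · rw [hw1] at h0
    have hw0 : w 0 = 0 := by
      have : w 0 ^ 4 = 0 := by
        rw [← h0]
        ring
      exact pow_eq_zero_iff (by norm_num) |>.1 this
    apply hw
    funext i
    fin_cases i
    · exact hw0
    · exact hw1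
  · have key : t * (1 + 1728 * t) ^ 2 * w 1 ^ 7 = 0 := by
      linear_combination
        -(48 * w 0 ^ 2 + 8 * w 0 * w 1 + (32 * (-72 * t) - 1) * w 1 ^ 2) * w 1 * h0 +
        (12 * w 0 ^ 3 - w 0 ^ 2 * w 1 - 10 * (-72 * t) * w 0 * w 1 ^ 2 +
          (-72 * t - 27 * (-4 * t)) * w 1 ^ 3) * h1
    exact (mul_ne_zero (mul_ne_zero ht (pow_ne_zero _ hκ)) (pow_ne_zero _ hw1)) key

theorem Fm_smul {F : Type} [Field F] (t c : F) (w : Fin 2 → F) :
    Fm t (c • w) = c ^ 4 • Fm t w := by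
  funext i
  fin_cases i
  · simp [Fm]
    ring
  · simp [Fm]
    ring

theorem XMap.double {F X : Type} [Field F] [AddCommGroup X] {t : F} {ξ : X → Fin 2 → F}
    (h : XMap t ξ) (Q : X) : ∃ c : F, c ≠ 0 ∧ ξ (Q + Q) = c • Fm t (ξ Q) := by
  obtain ⟨c, hc, he⟩ := h.rel Q Q
  rw [sub_self] at he
  have ha1 : ξ 0 1 = 0 := (h.zero_iff 0).2 rfl
  have ha0 : ξ 0 0 ≠ 0 := by
    intro h0
    apply h.ne_zero 0
    funext i
    fin_cases i
    · exact h0
    · exact ha1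
  have e0 := congrFun he 0
  have e1 := congrFun he 1
  simp only [Am, sy, Pi.smul_apply, smul_eq_mul, ha1, Matrix.cons_val_zero, Matrix.cons_val_one,
    Matrix.cons_val_two, Matrix.head_cons, Matrix.tail_cons, Matrix.cons_val] at e0 e1
  have hca : c * ξ 0 0 ≠ 0 := mul_ne_zero hc ha0
  refine ⟨(c * ξ 0 0)⁻¹, inv_ne_zero hca, ?_⟩
  rw [eq_inv_smul_iff₀ hca]
  funext i
  fin_cases i
  · simp only [Fm, Pi.smul_apply, smul_eq_mul, Fin.zero_eta, Fin.mk_one, Matrix.cons_val_zero,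
      Matrix.cons_val_one, Matrix.cons_val]
    linear_combination -e0
  · simp only [Fm, Pi.smul_apply, smul_eq_mul, Fin.zero_eta, Fin.mk_one, Matrix.cons_val_zero,
      Matrix.cons_val_one, Matrix.cons_val]
    linear_combination -e1

theorem XMap.logHeight_iter {F X : Type} [Field F] [NumberField F] [AddCommGroup X] {t : F}
    {ξ : X → Fin 2 → F} (h : XMap t ξ) (Q : X) (n : ℕ) :
    logHeight ((Fm t)^[n] (ξ Q)) = logHeight (ξ ((2 ^ n) • Q)) := by
  have key : ∃ c : F, c ≠ 0 ∧ (Fm t)^[n] (ξ Q) = c • ξ ((2 ^ n) • Q) := by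
    induction n with
    | zero => exact ⟨1, one_ne_zero, by simp⟩
    | succ n ih =>
      obtain ⟨c, hc, he⟩ := ih
      obtain ⟨d, hd, he2⟩ := h.double ((2 ^ n) • Q)
      refine ⟨c ^ 4 * d⁻¹, mul_ne_zero (pow_ne_zero _ hc) (inv_ne_zero hd), ?_⟩
      have e2 : (2 ^ (n + 1)) • Q = (2 ^ n) • Q + (2 ^ n) • Q := by
        rw [pow_succ, mul_two, add_smul]
      rw [Function.iterate_succ', Function.comp_apply, he, Fm_smul, e2, he2, smul_smul, mul_assoc,
        inv_mul_cancel₀ hd, mul_one]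
  obtain ⟨c, hc, he⟩ := key
  rw [he, logHeight_smul_eq_logHeight _ hc]

end LangForms
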