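import Pool.Agent.Lib_MP_f5471b_j.Defs

/-!
# MP_f5471b_nt part 2: formula for the height of `t`
-/

namespace LangForms

open Height NumberField WeierstrassCurve Topology Filter IsDedekindDomain

theorem logHeight₁_eq_Lt {F : Type} [Field F] [NumberField F] (t : F) (ht : t ≠ 0)
    (Tf : Finset (FinitePlace F)) (hTf : ∀ v, v ∈ Tf ↔ v t < 1) :
    logHeight₁ t = ∑ v : InfinitePlace F, v.mult * Real.posLog (v t)⁻¹ +
      ∑ v ∈ Tf, Lt v.1 t := by
  rw [← logHeight₁_inv, NumberField.logHeight₁_eq]
  congr 1
  · apply Finset.sum_congr rfl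
    intro v _
    rw [map_inv₀]
  · rw [finsum_eq_sum_of_support_subset (s := Tf)]
    · apply Finset.sum_congr rfl
      intro v hv
      have h1 : v t < 1 := (hTf v).mp hv
      have h0 : 0 < v t := FinitePlace.pos_iff.mpr ht
      rw [map_inv₀, Real.posLog_eq_log, Real.log_inv]
      · rfl
      · rw [abs_of_pos (inv_pos.mpr h0)]
        exact (one_le_inv₀ h0).mpr h1.le
    · intro v hv
      rw [Function.mem_support] at hv
      rw [Finset.mem_coe, hTf]
      by_contra hcon
      push Not at hcon
      apply hv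
      rw [Real.posLog_eq_zero_iff, map_inv₀]
      have h0 : 0 < v t := lt_of_lt_of_le one_pos hcon
      rw [abs_of_pos (inv_pos.mpr h0)]
      exact inv_le_one_of_one_le₀ hcon

end LangForms
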