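import Pool.Agent.Lib_MP_f5471b_j.NCirc

/-!
# MP_f5471b_nt part 2, piece MUL: multiples of a point on the circle
-/

namespace LangForms


theorem MultAux.min_close {a b c d e : ℝ} (h1 : |a - c| ≤ e) (h2 : |b - d| ≤ e) :
    |min a b - min c d| ≤ e := by
  rw [abs_le] at h1 h2 ⊢
  rcases min_cases a b with h | h <;> rcases min_cases c d with h' | h' <;>
    constructor <;> linarith [h.1, h.2, h'.1, h'.2, h1.1, h1.2, h2.1, h2.2]

theorem MultAux.step {L c : ℝ} {p q r N1 Nk Np Nm e e' : ℝ}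
    (hpair : PairClose c p q |r - N1| (min (r + N1) (L - r - N1)))
    (hr : |r - Nk| ≤ e) (hq : |q - Nm| ≤ e')
    (hN : (Np = |Nk - N1| ∧ Nm = min (Nk + N1) (L - Nk - N1)) ∨
      (Nm = |Nk - N1| ∧ Np = min (Nk + N1) (L - Nk - N1))) (he' : 0 ≤ e') (hc : 0 ≤ c) :
    |p - Np| ≤ 2 * c + 2 * e + e' := by
  have he : 0 ≤ e := (abs_nonneg _).trans hr
  have ha : |(|r - N1|) - (|Nk - N1|)| ≤ e := by
    have h1 := abs_abs_sub_abs_le_abs_sub (r - N1) (Nk - N1)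
    have h2 : r - N1 - (Nk - N1) = r - Nk := by ring
    rw [h2] at h1
    exact h1.trans hr
  have hb : |min (r + N1) (L - r - N1) - min (Nk + N1) (L - Nk - N1)| ≤ e := by
    apply MultAux.min_close
    · rw [show r + N1 - (Nk + N1) = r - Nk by ring]
      exact hr
    · rw [show L - r - N1 - (L - Nk - N1) = -(r - Nk) by ring, abs_neg]
      exact hr
  rw [abs_le] at ha hb hq
  rcases hpair with ⟨h1, h2⟩ | ⟨h1, h2⟩ <;> rcases hN with ⟨h3, h4⟩ | ⟨h3, h4⟩ <;>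
    rw [abs_le] at h1 h2 ⊢ <;> constructor <;>
    linarith [h1.1, h1.2, h2.1, h2.2, ha.1, ha.2, hb.1, hb.2, hq.1, hq.2]

theorem mult_rho {X : Type} [AddCommGroup X] (L c : ℝ) (hL : 0 < L) (hc : 0 ≤ c) (ρ : X → ℝ)
    (h0 : ρ 0 = 0) (hρ : ∀ Q, 0 ≤ ρ Q) (hρ' : ∀ Q, ρ Q ≤ L / 2) (h : PtRho L c ρ) (Q : X) (k : ℕ) :
    |ρ (k • Q) - L * ncirc (k * (ρ Q / L))| ≤ 4 ^ k * c := by
  have hθ0 : 0 ≤ ρ Q / L := div_nonneg (hρ Q) hL.le
  have hθ1 : ρ Q / L ≤ 1 / 2 := by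
    rw [div_le_iff₀ hL]
    linarith [hρ' Q]
  have hn1 : ncirc (ρ Q / L) = ρ Q / L := ncirc_of_mem hθ0 hθ1
  have hN1 : L * ncirc (ρ Q / L) = ρ Q := by
    rw [hn1]
    field_simp
  have key : ∀ k : ℕ, |ρ (k • Q) - L * ncirc (k * (ρ Q / L))| ≤ 4 ^ k * c ∧
      |ρ ((k + 1) • Q) - L * ncirc ((k + 1 : ℕ) * (ρ Q / L))| ≤ 4 ^ (k + 1) * c := by
    intro k
    induction k with
    | zero =>
      constructor
      · have : ncirc 0 = 0 := ncirc_of_mem le_rfl (by norm_num)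
        simp [h0, this, hc]
      · simp only [zero_add, one_smul, Nat.cast_one, one_mul]
        rw [hN1, sub_self, abs_zero]
        positivity
    | succ k ih =>
      refine ⟨ih.2, ?_⟩
      have hp := h ((k + 1) • Q) Q
      have e1 : (k + 1) • Q + Q = (k + 1 + 1) • Q := (succ_nsmul Q (k + 1)).symm
      have e2 : (k + 1) • Q - Q = k • Q := by rw [succ_nsmul, add_sub_cancel_right]
      rw [e1, e2] at hp
      have hN : (L * ncirc ((k + 1 + 1 : ℕ) * (ρ Q / L)) =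
            |L * ncirc ((k + 1 : ℕ) * (ρ Q / L)) - ρ Q| ∧
          L * ncirc (k * (ρ Q / L)) = min (L * ncirc ((k + 1 : ℕ) * (ρ Q / L)) + ρ Q)
            (L - L * ncirc ((k + 1 : ℕ) * (ρ Q / L)) - ρ Q)) ∨
          (L * ncirc (k * (ρ Q / L)) = |L * ncirc ((k + 1 : ℕ) * (ρ Q / L)) - ρ Q| ∧
          L * ncirc ((k + 1 + 1 : ℕ) * (ρ Q / L)) =
            min (L * ncirc ((k + 1 : ℕ) * (ρ Q / L)) + ρ Q)
            (L - L * ncirc ((k + 1 : ℕ) * (ρ Q / L)) - ρ Q)) := by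
        have hpr := ncirc_pair ((k + 1 : ℕ) * (ρ Q / L)) (ρ Q / L)
        have a1 : ((k + 1 : ℕ) : ℝ) * (ρ Q / L) + ρ Q / L = ((k + 1 + 1 : ℕ) : ℝ) * (ρ Q / L) := by
          push_cast
          ring
        have a2 : ((k + 1 : ℕ) : ℝ) * (ρ Q / L) - ρ Q / L = (k : ℝ) * (ρ Q / L) := by
          push_cast
          ring
        rw [a1, a2] at hpr
        set n := ncirc ((k + 1 : ℕ) * (ρ Q / L))
        have b1 : L * |n - ncirc (ρ Q / L)| = |L * n - ρ Q| := by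
          rw [← hN1, ← mul_sub, abs_mul, abs_of_pos hL]
          rw [hN1]
        have b2 : L * min (n + ncirc (ρ Q / L)) (1 - n - ncirc (ρ Q / L)) =
            min (L * n + ρ Q) (L - L * n - ρ Q) := by
          rw [mul_min_of_nonneg _ _ hL.le]
          congr 1
          · rw [mul_add, hN1]
          · rw [mul_sub, mul_sub, hN1, mul_one]
        rcases hpr with ⟨h1, h2⟩ | ⟨h1, h2⟩
        · left
          rw [h1, h2, b1, b2]
          exact ⟨rfl, rfl⟩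
        · right
          rw [h1, h2, b1, b2]
          exact ⟨rfl, rfl⟩
      have hs := MultAux.step hp ih.2 ih.1 hN (by positivity) hc
      refine hs.trans ?_
      have hk : (1 : ℝ) ≤ 4 ^ k := one_le_pow₀ (by norm_num)
      have : (4 : ℝ) ^ (k + 1 + 1) = 16 * 4 ^ k := by ring
      rw [this, show (4 : ℝ) ^ (k + 1) = 4 * 4 ^ k by ring]
      nlinarith
  exact (key k).1

end LangForms
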