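import Pool.Agent.Lib_MP_f5471b_j.Defs
import Pool.Agent.Lib_MP_f5471b_j.Fm
import Pool.Agent.Lib_MP_f5471b_j.Rho

/-!
# MP_f5471b_nt part 2, piece PTR: the addition estimate for points
-/

namespace LangForms

open Height NumberField WeierstrassCurve Topology Filter

namespace PTR

variable {F X : Type} [Field F] [AddCommGroup X] {t : F} {ξ : X → Fin 2 → F}

theorem eq_smul_of_sy {w z : Fin 2 → F} {k : F} (hw : w ≠ 0) (h : sy w z = k • sy w w) :
    z = k • w := by
  have e0 := congrFun h 0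
  have e1 := congrFun h 1
  have e2 := congrFun h 2
  simp [sy] at e0 e1 e2
  by_cases h0 : w 0 = 0
  · have h1 : w 1 ≠ 0 := by
      intro h1
      apply hw
      funext i
      fin_cases i
      · exact h0
      · exact h1
    have z1 : z 1 = k * w 1 := by
      apply mul_left_cancel₀ h1
      rw [e2]; ring
    have z0 : z 0 = k * w 0 := by
      apply mul_left_cancel₀ h1
      rw [z1] at e1
      linear_combination e1
    funext i
    fin_cases i
    · exact z0
    · exact z1
  · have z0 : z 0 = k * w 0 := by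
      apply mul_left_cancel₀ h0
      rw [e0]; ring
    have z1 : z 1 = k * w 1 := by
      apply mul_left_cancel₀ h0
      rw [z0] at e1
      linear_combination e1
    funext i
    fin_cases i
    · exact z0
    · exact z1

/-- `ξ (-Q)` is proportional to `ξ Q` -/
theorem neg (h : XMap t ξ) (Q : X) : ∃ k : F, k ≠ 0 ∧ ξ (-Q) = k • ξ Q := by
  obtain ⟨c, hc, hrel⟩ := h.rel 0 Q
  rw [zero_add, zero_sub] at hrel
  have h01 : ξ 0 1 = 0 := (h.zero_iff 0).mpr rfl
  have h00 : ξ 0 0 ≠ 0 := by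
    intro h00
    apply h.ne_zero 0
    funext i
    fin_cases i
    · exact h00
    · exact h01
  refine ⟨ξ 0 0 ^ 2 / c, div_ne_zero (pow_ne_zero 2 h00) hc, ?_⟩
  apply eq_smul_of_sy (h.ne_zero Q)
  have e0 := congrFun hrel 0
  have e1 := congrFun hrel 1
  have e2 := congrFun hrel 2
  simp [sy, Am, h01] at e0 e1 e2
  funext i
  fin_cases i
  · simp [sy]
    field_simp
    linear_combination -e0
  · simp [sy]
    field_simp
    linear_combination -e1
  · simp [sy]
    field_simp
    linear_combination -e2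

theorem rho_neg (h : XMap t ξ) (v : AbsoluteValue F ℝ) (Q : X) :
    rho v t (ξ (-Q)) = rho v t (ξ Q) := by
  obtain ⟨k, hk, e⟩ := neg h Q
  rw [e, rho_smul v t k hk]

theorem rho_zero (h : XMap t ξ) (v : AbsoluteValue F ℝ) (h1 : v t < 1) :
    rho v t (ξ 0) = 0 := by
  have h01 : ξ 0 1 = 0 := (h.zero_iff 0).mpr rfl
  have h00 : ξ 0 0 ≠ 0 := by
    intro h00
    apply h.ne_zero 0
    funext i
    fin_cases i
    · exact h00
    · exact h01
  exact rho_inf v t h1.le _ h00 h01

theorem affine {w : Fin 2 → F} (hw : w 1 ≠ 0) : w = w 1 • ![w 0 / w 1, 1] := by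
  funext i
  fin_cases i
  · simp
    field_simp
  · simp

theorem rho_affine' (v : AbsoluteValue F ℝ) (t : F) {w : Fin 2 → F} (hw : w 1 ≠ 0) :
    rho v t w = rho v t ![w 0 / w 1, 1] := by
  conv_lhs => rw [affine hw]
  exact rho_smul v t _ hw _

end PTR

theorem ptRho_of {F X : Type} [Field F] [AddCommGroup X] {t : F} {ξ : X → Fin 2 → F}
    (h : XMap t ξ) (v : AbsoluteValue F ℝ) (c : ℝ) (hc : 0 ≤ c) (h0 : 0 < v t) (h1 : v t < 1)
    (hdup : DupRho v t c) (hadd : AddRho v t c) :
    PtRho (Lt v t) c fun Q => rho v t (ξ Q) := by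
  intro P Q
  show PairClose c (rho v t (ξ (P + Q))) (rho v t (ξ (P - Q))) |rho v t (ξ P) - rho v t (ξ Q)|
    (min (rho v t (ξ P) + rho v t (ξ Q)) (Lt v t - rho v t (ξ P) - rho v t (ξ Q)))
  by_cases hP : P = 0
  · rw [hP, zero_add, zero_sub, PTR.rho_neg h, PTR.rho_zero h v h1]
    have a1 := rho_nonneg v t h1.le (ξ Q)
    have a2 := rho_le v t h0 (ξ Q)
    rw [zero_sub, abs_neg, abs_of_nonneg a1, zero_add, sub_zero, min_eq_left (by linarith)]
    left
    rw [sub_self, abs_zero]
    exact ⟨hc, hc⟩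
  by_cases hQ : Q = 0
  · rw [hQ, add_zero, sub_zero, PTR.rho_zero h v h1]
    have a1 := rho_nonneg v t h1.le (ξ P)
    have a2 := rho_le v t h0 (ξ P)
    rw [sub_zero, abs_of_nonneg a1, add_zero, sub_zero, min_eq_left (by linarith)]
    left
    rw [sub_self, abs_zero]
    exact ⟨hc, hc⟩
  have hP1 : ξ P 1 ≠ 0 := fun e => hP ((h.zero_iff P).mp e)
  have hQ1 : ξ Q 1 ≠ 0 := fun e => hQ ((h.zero_iff Q).mp e)
  obtain ⟨k, hk, hrel⟩ := h.rel P Q
  have e0 := congrFun hrel 0
  have e1 := congrFun hrel 1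
  have e2 := congrFun hrel 2
  simp [sy, Am] at e0 e1 e2
  set U := ξ (P + Q) with hU
  set V := ξ (P - Q) with hV
  by_cases hx : ξ P 0 / ξ P 1 = ξ Q 0 / ξ Q 1
  · have hx' : ξ P 0 * ξ Q 1 = ξ Q 0 * ξ P 1 := by
      field_simp at hx
      linear_combination hx
    have hUV : U 1 * V 1 = 0 := by
      have : k * (U 1 * V 1) = 0 := by
        rw [← e2]
        linear_combination (ξ P 0 * ξ Q 1 - ξ Q 0 * ξ P 1) * hx'
      exact (mul_eq_zero.mp this).resolve_left hk
    have hd : ∀ R : X, |rho v t (ξ (R + R)) -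
        min (rho v t (ξ R) + rho v t (ξ R)) (Lt v t - rho v t (ξ R) - rho v t (ξ R))| ≤ c := by
      intro R
      obtain ⟨k', hk', e⟩ := h.double R
      have := hdup (ξ R) (h.ne_zero R)
      rw [e, rho_smul v t k' hk']
      have e3 : rho v t (ξ R) + rho v t (ξ R) = 2 * rho v t (ξ R) := by ring
      have e4 : Lt v t - rho v t (ξ R) - rho v t (ξ R) = Lt v t - 2 * rho v t (ξ R) := by ring
      rw [e3, e4]
      exact this
    rcases mul_eq_zero.mp hUV with hz | hz
    · -- P + Q = 0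
      have hPQ : P + Q = 0 := (h.zero_iff _).mp hz
      have hQP : Q = -P := by
        rw [eq_neg_iff_add_eq_zero, add_comm]; exact hPQ
      have hm : P - Q = P + P := by rw [hQP, sub_neg_eq_add]
      rw [hU, hV, hPQ, hm, hQP, PTR.rho_neg h, PTR.rho_zero h v h1]
      left
      refine ⟨?_, hd P⟩
      rw [sub_self, abs_zero, sub_zero, abs_zero]
      exact hc
    · have hPQ : P - Q = 0 := (h.zero_iff _).mp hz
      have hQP : Q = P := (sub_eq_zero.mp hPQ).symm
      rw [hU, hV, hPQ, hQP, PTR.rho_zero h v h1]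
      right
      refine ⟨hd P, ?_⟩
      rw [sub_self, abs_zero, sub_zero, abs_zero]
      exact hc
  · have hx' : ξ P 0 * ξ Q 1 - ξ Q 0 * ξ P 1 ≠ 0 := by
      intro e
      apply hx
      rw [div_eq_div_iff hP1 hQ1]
      linear_combination e
    have hUV : k * (U 1 * V 1) ≠ 0 := by
      rw [← e2]
      have : (ξ P 0 * ξ Q 1 + ξ P 1 * ξ Q 0) ^ 2 - 4 * (ξ P 0 * ξ Q 0) * (ξ P 1 * ξ Q 1) =
          (ξ P 0 * ξ Q 1 - ξ Q 0 * ξ P 1) ^ 2 := by ring
      rw [this]
      exact pow_ne_zero 2 hx'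
    have hU1 : U 1 ≠ 0 := fun e => hUV (by rw [e]; ring)
    have hV1 : V 1 ≠ 0 := fun e => hUV (by rw [e]; ring)
    rw [PTR.rho_affine' v t hP1, PTR.rho_affine' v t hQ1, PTR.rho_affine' v t hU1,
      PTR.rho_affine' v t hV1]
    apply hadd _ _ _ _ trivial hx
    · field_simp
      linear_combination (U 0 * V 1 + U 1 * V 0) * e2 - (U 1 * V 1) * e1
    · field_simp
      linear_combination (U 0 * V 0) * e2 - (U 1 * V 1) * e0

end LangForms
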