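import Pool.Agent.Lib_MP_f5471b_j.Defs

/-!
# MP_f5471b_nt part 2: the radical sum grows in an extension of number fields
-/

namespace LangForms

open Height NumberField WeierstrassCurve Topology Filter

namespace RadAux

open IsDedekindDomain

theorem one_lt_iff {F : Type} [Field F] [NumberField F] (w : FinitePlace F) (x : F) :
    1 < w x ↔ 1 < w.maximalIdeal.valuation F x := by
  have h1 : w x = HeightOneSpectrum.adicAbv F w.maximalIdeal x := by
    rw [← FinitePlace.norm_embedding_eq, FinitePlace.norm_embedding]
  rw [h1, HeightOneSpectrum.adicAbv_def,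
    ← (WithZeroMulInt.toNNReal_strictMono
      (HeightOneSpectrum.one_lt_absNorm_nnreal w.maximalIdeal)).lt_iff_lt, map_one]
  exact_mod_cast Iff.rfl

theorem exists_above {K F : Type} [Field K] [NumberField K] [Field F] [NumberField F]
    [Algebra K F] (v : HeightOneSpectrum (𝓞 K)) :
    ∃ w : HeightOneSpectrum (𝓞 F), w.asIdeal.LiesOver v.asIdeal := by
  obtain ⟨Q, hQ, hQ2⟩ := Ideal.exists_maximal_ideal_liesOver_of_isIntegral (S := 𝓞 F) v.asIdeal
  refine ⟨⟨Q, hQ.isPrime, ?_⟩, hQ2⟩
  intro h
  subst h
  apply v.ne_bot
  rw [hQ2.over]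
  exact Ideal.comap_bot_of_injective _ (FaithfulSMul.algebraMap_injective (𝓞 K) (𝓞 F))

theorem finite_gt {F : Type} [Field F] [NumberField F] (x : F) :
    Finite {w : FinitePlace F // 1 < w x} := by
  by_cases hx : x = 0
  · subst hx
    have : IsEmpty {w : FinitePlace F // 1 < w 0} := by
      refine ⟨fun w => ?_⟩
      have := w.2
      rw [map_zero] at this
      linarith
    infer_instance
  · have h := FinitePlace.hasFiniteMulSupport hx
    refine Set.Finite.subset h (s := Function.mulSupport fun w : FinitePlace F => w x)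
      (t := {w : FinitePlace F | 1 < w x}) ?_
    intro w hw
    simp only [Set.mem_ofPred_eq] at hw
    simp only [Function.mem_mulSupport]
    exact hw.ne'

theorem logN_nonneg {F : Type} [Field F] [NumberField F] (w : FinitePlace F) :
    0 ≤ Real.log (plNorm w) := by
  apply Real.log_nonneg
  unfold plNorm
  exact_mod_cast (HeightOneSpectrum.one_lt_absNorm w.maximalIdeal).le

end RadAux

open RadAux IsDedekindDomain in
theorem rad_le {K F : Type} [Field K] [NumberField K] [Field F] [NumberField F]
    [Algebra K F] (x : K) :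
    ∑ᶠ v : {v : FinitePlace K // 1 < v x}, Real.log (plNorm v.1) ≤
      ∑ᶠ w : {w : FinitePlace F // 1 < w (algebraMap K F x)}, Real.log (plNorm w.1) := by
  classical
  have hf1 := finite_gt x
  have hf2 := finite_gt (algebraMap K F x)
  have := Fintype.ofFinite {v : FinitePlace K // 1 < v x}
  have := Fintype.ofFinite {w : FinitePlace F // 1 < w (algebraMap K F x)}
  rw [finsum_eq_sum_of_fintype, finsum_eq_sum_of_fintype]
  choose up hup using fun v : FinitePlace K => exists_above (F := F) v.maximalIdeal
  have hlo : ∀ v : FinitePlace K, (FinitePlace.mk (up v)).maximalIdeal = up v := fun v =>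
    FinitePlace.maximalIdeal_mk _
  have hgt : ∀ v : FinitePlace K, 1 < v x → 1 < FinitePlace.mk (up v) (algebraMap K F x) := by
    intro v hv
    rw [one_lt_iff, hlo]
    have := hup v
    rw [← HeightOneSpectrum.valuation_liesOver F v.maximalIdeal (up v) x]
    rw [one_lt_iff] at hv
    refine one_lt_pow₀ hv ?_
    exact Ideal.IsDedekindDomain.ramificationIdx'_ne_zero_of_liesOver _ v.maximalIdeal.ne_bot
  have hle : ∀ v : FinitePlace K,
      Real.log (plNorm v) ≤ Real.log (plNorm (FinitePlace.mk (up v))) := by
    intro v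
    have h1 := HeightOneSpectrum.one_lt_absNorm v.maximalIdeal
    unfold plNorm
    rw [hlo]
    apply Real.log_le_log
    · exact_mod_cast (lt_trans Nat.zero_lt_one h1)
    · have := hup v
      have h2 := HeightOneSpectrum.one_lt_absNorm (up v)
      rw [Ideal.absNorm_eq_pow_inertiaDeg'_of_liesOver (up v).asIdeal v.maximalIdeal.asIdeal
        v.maximalIdeal.isPrime v.maximalIdeal.ne_bot] at h2 ⊢
      have h3 : v.maximalIdeal.asIdeal.inertiaDeg' (up v).asIdeal ≠ 0 := by
        intro h
        rw [h, pow_zero] at h2
        omega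
      exact_mod_cast Nat.le_self_pow h3 _
  have hinj : ∀ v v' : FinitePlace K, up v = up v' → v = v' := by
    intro v v' h
    apply FinitePlace.maximalIdeal_injective
    have e1 := (hup v).over
    have e2 := (hup v').over
    apply HeightOneSpectrum.ext
    rw [e1, e2, h]
  let g : {v : FinitePlace K // 1 < v x} ↪ {w : FinitePlace F // 1 < w (algebraMap K F x)} :=
    ⟨fun v => ⟨FinitePlace.mk (up v.1), hgt v.1 v.2⟩, by
      intro v v' h
      have h1 := congrArg (fun w => (w : FinitePlace F).maximalIdeal) (Subtype.ext_iff.mp h)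
      simp only [FinitePlace.maximalIdeal_mk] at h1
      exact Subtype.ext (hinj _ _ h1)⟩
  calc ∑ v : {v : FinitePlace K // 1 < v x}, Real.log (plNorm v.1)
      ≤ ∑ v : {v : FinitePlace K // 1 < v x}, Real.log (plNorm (g v).1) :=
        Finset.sum_le_sum fun v _ => hle v.1
    _ = ∑ w ∈ Finset.univ.map g, Real.log (plNorm w.1) := by rw [Finset.sum_map]
    _ ≤ _ := Finset.sum_le_sum_of_subset_of_nonneg (Finset.subset_univ _)
        fun w _ _ => logN_nonneg w.1

end LangForms
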