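import Pool.Agent.Lib_MP_f5471b_j.Defs

/-!
# MP_f5471b_nt part 2: integrality of `ρ` at the finite places
-/

namespace LangForms

open Height NumberField WeierstrassCurve Topology Filter IsDedekindDomain

namespace RhoFinAux

theorem one_lt_plNorm {F : Type} [Field F] [NumberField F] (v : FinitePlace F) :
    1 < plNorm v := by
  unfold plNorm
  exact_mod_cast HeightOneSpectrum.one_lt_absNorm v.maximalIdeal

/-- the values of a finite place are integral powers of the norm -/
theorem apply_eq_zpow {F : Type} [Field F] [NumberField F] (v : FinitePlace F) (x : F)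
    (hx : x ≠ 0) : ∃ k : ℤ, v x = plNorm v ^ k := by
  have h1 : (v.maximalIdeal).valuation F x ≠ 0 :=
    (((v.maximalIdeal).valuation F).ne_zero_iff).mpr hx
  rw [← FinitePlace.norm_embedding_eq v x, FinitePlace.norm_embedding',
    WithZeroMulInt.toNNReal_neg_apply _ h1]
  refine ⟨Multiplicative.toAdd (WithZero.unzero h1), ?_⟩
  push_cast
  rfl

end RhoFinAux

open RhoFinAux

theorem log_plNorm_pos {F : Type} [Field F] [NumberField F] (v : FinitePlace F) :
    0 < Real.log (plNorm v) :=
  Real.log_pos (one_lt_plNorm v)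

theorem rho_fin {F : Type} [Field F] [NumberField F] (v : FinitePlace F) (t : F) (ht : t ≠ 0)
    (h1 : v t < 1) (w : Fin 2 → F) (hw : w ≠ 0) :
    ∃ n a : ℕ, 1 ≤ n ∧ Lt v.1 t = n * Real.log (plNorm v) ∧
      2 * rho v.1 t w = a * Real.log (plNorm v) := by
  have hN := one_lt_plNorm v
  have hN0 : 0 < plNorm v := by linarith
  have hlog := log_plNorm_pos v
  obtain ⟨k, hk⟩ := apply_eq_zpow v t ht
  have hkneg : k < 0 := by
    rw [hk] at h1
    by_contra hcon
    push Not at hcon
    exact absurd h1 (not_lt.mpr (one_le_zpow₀ hN.le hcon))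
  have hv0 : 0 < v t := FinitePlace.pos_iff.mpr ht
  have hLt : Lt v.1 t = ((-k).toNat : ℝ) * Real.log (plNorm v) := by
    unfold Lt
    have h2 : v.1 t = plNorm v ^ k := hk
    rw [h2, Real.log_zpow]
    have h3 : (((-k).toNat : ℤ) : ℝ) = ((-k : ℤ) : ℝ) := by
      rw [Int.toNat_of_nonneg (by omega)]
    rw [Int.cast_natCast] at h3
    rw [h3]
    push_cast
    ring
  have hvt : v.1 t = v t := rfl
  by_cases hc : v.1 (w 0) / nrm v.1 w ≤ Real.sqrt (v.1 t)
  · refine ⟨(-k).toNat, (-k).toNat, by omega, hLt, ?_⟩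
    rw [← hLt]
    unfold rho Lt
    rw [max_eq_right hc, Real.log_sqrt (by rw [hvt]; exact hv0.le)]
    ring
  · push Not at hc
    have hr0 : 0 < v.1 (w 0) / nrm v.1 w := lt_of_le_of_lt (Real.sqrt_nonneg _) hc
    have hn0 : 0 ≤ nrm v.1 w := le_max_of_le_left (v.1.nonneg _)
    have hw0 : w 0 ≠ 0 := by
      intro h0
      rw [h0, map_zero, zero_div] at hr0
      exact lt_irrefl _ hr0
    have hn : ∃ m : ℤ, nrm v.1 w = plNorm v ^ m := by
      unfold nrm
      rcases le_total (v.1 (w 0)) (v.1 (w 1)) with h | h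
      · rw [max_eq_right h]
        have hw1 : w 1 ≠ 0 := by
          intro h0
          rw [h0, map_zero] at h
          exact hw0 (v.1.eq_zero.mp (le_antisymm h (v.1.nonneg _)))
        exact apply_eq_zpow v _ hw1
      · rw [max_eq_left h]
        exact apply_eq_zpow v _ hw0
    obtain ⟨m, hm⟩ := hn
    obtain ⟨l, hl⟩ := apply_eq_zpow v (w 0) hw0
    have hl' : v.1 (w 0) = plNorm v ^ l := hl
    have hle : v.1 (w 0) ≤ nrm v.1 w := le_max_left _ _
    have hlm : l ≤ m := by
      rw [hl', hm] at hle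
      exact (zpow_le_zpow_iff_right₀ hN).mp hle
    refine ⟨(-k).toNat, (2 * (m - l)).toNat, by omega, hLt, ?_⟩
    unfold rho
    rw [max_eq_left hc.le, hl', hm, ← zpow_sub₀ hN0.ne', Real.log_zpow]
    have h3 : (((2 * (m - l)).toNat : ℤ) : ℝ) = ((2 * (m - l) : ℤ) : ℝ) := by
      rw [Int.toNat_of_nonneg (by omega)]
    rw [Int.cast_natCast] at h3
    rw [h3]
    push_cast
    ring

end LangForms
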