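import Pool.Agent.Lib_MP_f5471b_j.Defs

/-! Piece TC: from the condition on `j` to the condition on `t = 1 / (j - 1728)`. -/

namespace LangForms

open Height NumberField WeierstrassCurve Topology Filter IsDedekindDomain

namespace TCondAux

variable {F : Type} [Field F] [NumberField F]

lemma fin_nat_le (v : FinitePlace F) (n : ℕ) : v (n : F) ≤ 1 := by
  induction n with
  | zero => simp
  | succ n ih =>
    push_cast
    refine (FinitePlace.add_le v _ _).trans ?_
    simp [ih]

lemma fin_1728_le (v : FinitePlace F) : v (1728 : F) ≤ 1 := by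
  exact_mod_cast fin_nat_le v 1728

/-- at finite places `|j| > 1` iff `|j - 1728| > 1`, and then they are equal -/
lemma fin_eq (v : FinitePlace F) (j : F) (h : 1 < v j) : v (j - 1728) = v j := by
  apply le_antisymm
  · have := FinitePlace.add_le v j (-1728)
    rw [map_neg_eq_map] at this
    rw [sub_eq_add_neg]
    exact this.trans (max_le le_rfl ((fin_1728_le v).trans h.le))
  · have := FinitePlace.add_le v (j - 1728) 1728
    rw [sub_add_cancel] at this
    rcases le_max_iff.1 this with h1 | h1
    · exact h1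
    · exact absurd (h1.trans (fin_1728_le v)) (not_le.2 h)

lemma fin_iff (v : FinitePlace F) (j : F) : 1 < v (j - 1728) ↔ 1 < v j := by
  constructor
  · intro h
    by_contra hj
    have := FinitePlace.add_le v j (-1728)
    rw [map_neg_eq_map, ← sub_eq_add_neg] at this
    exact absurd (this.trans (max_le (not_lt.1 hj) (fin_1728_le v))) (not_le.2 h)
  · intro h
    rw [fin_eq v j h]
    exact h

lemma inf_1728 (v : InfinitePlace F) : v (1728 : F) = 1728 := by
  rw [← InfinitePlace.norm_embedding_eq, map_ofNat]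
  norm_num

lemma height_1728 : logHeight₁ (1728 : F) ≤ Module.finrank ℚ F * Real.log 1728 := by
  rw [NumberField.logHeight₁_eq]
  have h1 : ∑ᶠ v : FinitePlace F, Real.posLog (v (1728 : F)) = 0 := by
    rw [finsum_eq_zero_of_forall_eq_zero]
    intro v
    rw [Real.posLog_eq_zero_iff, abs_of_nonneg (apply_nonneg v _)]
    exact fin_1728_le v
  rw [h1, add_zero]
  have h2 : ∀ v : InfinitePlace F, (v.mult : ℝ) * Real.posLog (v (1728 : F)) =
      v.mult * Real.log 1728 := by
    intro v
    rw [inf_1728, Real.posLog_eq_log]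
    norm_num
  rw [Finset.sum_congr rfl fun v _ => h2 v, ← Finset.sum_mul]
  have h3 : (∑ v : InfinitePlace F, (v.mult : ℝ)) = Module.finrank ℚ F := by
    exact_mod_cast InfinitePlace.sum_mult_eq (K := F)
  rw [h3]

lemma one_le_finrank : (1 : ℝ) ≤ Module.finrank ℚ F := by
  exact_mod_cast Module.finrank_pos

lemma height_sub (j : F) : logHeight₁ (j - 1728) ≤
    logHeight₁ j + Module.finrank ℚ F * (Real.log 2 + Real.log 1728) := by
  have h := logHeight₁_sub_le j 1728
  rw [NumberField.totalWeight_eq_finrank] at h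
  have := height_1728 (F := F)
  linarith

lemma height_add (j : F) : logHeight₁ j ≤
    logHeight₁ (j - 1728) + Module.finrank ℚ F * (Real.log 2 + Real.log 1728) := by
  have h := logHeight₁_add_le (j - 1728) 1728
  rw [NumberField.totalWeight_eq_finrank, sub_add_cancel] at h
  have := height_1728 (F := F)
  linarith

lemma inf_posLog (v : InfinitePlace F) (j : F) :
    Real.posLog (v j) ≤ Real.posLog (v (j - 1728)) + (Real.log 2 + Real.log 1728) := by
  have h1 : v j ≤ v (j - 1728) + 1728 := by
    have := v.1.add_le' (j - 1728) 1728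
    rw [sub_add_cancel] at this
    have h2 : v.1 (1728 : F) = 1728 := inf_1728 v
    calc v j ≤ v.1 (j - 1728) + v.1 1728 := this
      _ = v (j - 1728) + 1728 := by rw [h2]; rfl
  refine (Real.posLog_le_posLog (apply_nonneg v _) h1).trans ?_
  refine Real.posLog_add.trans ?_
  have h3 : Real.posLog (1728 : ℝ) = Real.log 1728 := by
    rw [Real.posLog_eq_log]
    norm_num
  rw [h3]
  linarith

lemma inf_sum (j : F) : ∑ v : InfinitePlace F, v.mult * Real.posLog (v j) ≤
    ∑ v : InfinitePlace F, v.mult * Real.posLog (v (j - 1728)) +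
      Module.finrank ℚ F * (Real.log 2 + Real.log 1728) := by
  have h3 : (∑ v : InfinitePlace F, (v.mult : ℝ)) = Module.finrank ℚ F := by
    exact_mod_cast InfinitePlace.sum_mult_eq (K := F)
  rw [← h3, Finset.sum_mul, ← Finset.sum_add_distrib]
  refine Finset.sum_le_sum fun v _ => ?_
  rw [← mul_add]
  exact mul_le_mul_of_nonneg_left (inf_posLog v j) (Nat.cast_nonneg _)

lemma finite_gt (j : F) : {v : FinitePlace F | 1 < v j}.Finite := by
  rcases eq_or_ne j 0 with rfl | hj
  · simp
    convert Set.finite_empty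
    ext v
    simp
  · refine (FinitePlace.hasFiniteMulSupport hj).subset ?_
    intro v hv
    exact ne_of_gt hv

end TCondAux

open TCondAux

theorem tcond_of_jcond : ∃ C : ℝ, 0 < C ∧ ∀ (F : Type) [Field F] [NumberField F] (j : F) (s : ℕ)
    (σ : ℝ), 0 ≤ σ → j ≠ 1728 → JCond j s σ →
    TCond (1 / (j - 1728)) s (C * (Module.finrank ℚ F) * (1 + σ)) := by
  classical
  have hc : 0 < Real.log 2 + Real.log 1728 := by
    have := Real.log_pos (show (1 : ℝ) < 2 by norm_num)
    have := Real.log_pos (show (1 : ℝ) < 1728 by norm_num)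
    linarith
  refine ⟨1 + (Real.log 2 + Real.log 1728), by linarith, ?_⟩
  intro F _ _ j s σ hσ hj ⟨T, hTc, hT⟩
  have hj' : j - 1728 ≠ 0 := sub_ne_zero.2 hj
  set c : ℝ := Real.log 2 + Real.log 1728 with hcdef
  refine ⟨T.filter (fun v => 1 < v j), (finite_gt j).toFinset, ?_, ?_, ?_, ?_⟩
  · exact (Finset.card_filter_le _ _).trans hTc
  · intro v hv
    rw [Finset.mem_filter] at hv
    simpa using hv.2
  · intro v
    rw [Set.Finite.mem_toFinset, Set.mem_ofPred_eq, ← fin_iff v j, map_div₀, map_one]
    rw [div_lt_one (FinitePlace.pos_iff.2 hj')]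
  · have hD := one_le_finrank (F := F)
    have e1 : ∑ v : InfinitePlace F, (v.mult : ℝ) * Real.posLog (v (1 / (j - 1728)))⁻¹ =
        ∑ v : InfinitePlace F, (v.mult : ℝ) * Real.posLog (v (j - 1728)) := by
      refine Finset.sum_congr rfl fun v _ => ?_
      rw [one_div, map_inv₀, inv_inv]
    have e2 : ∑ v ∈ T.filter (fun v => 1 < v j), Lt v.1 (1 / (j - 1728)) =
        ∑ v ∈ T, Real.posLog (v j) := by
      rw [Finset.sum_filter]
      refine Finset.sum_congr rfl fun v _ => ?_
      split_ifs with h
      · unfold Lt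
        have h1 : v.1 (1 / (j - 1728)) = (v j)⁻¹ := by
          rw [one_div, map_inv₀]
          exact congrArg _ (fin_eq v j h)
        rw [h1, Real.log_inv, neg_neg, Real.posLog_eq_log]
        rw [abs_of_nonneg (apply_nonneg v _)]
        exact h.le
      · symm
        rw [Real.posLog_eq_zero_iff, abs_of_nonneg (apply_nonneg v _)]
        exact not_lt.1 h
    have e3 : ∑ᶠ v : {v : FinitePlace F // 1 < v j}, Real.log (plNorm v.1) =
        ∑ v ∈ (finite_gt j).toFinset, Real.log (plNorm v) := by
      rw [finsum_subtype_eq_finsum_cond (f := fun v : FinitePlace F => Real.log (plNorm v))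
        (p := fun v => 1 < v j)]
      exact finsum_mem_eq_finite_toFinset_sum _ (finite_gt j)
    rw [e3] at hT
    rw [e1, e2]
    have hS1 : 0 ≤ ∑ v : InfinitePlace F, (v.mult : ℝ) * Real.posLog (v (j - 1728)) :=
      Finset.sum_nonneg fun v _ => mul_nonneg (Nat.cast_nonneg _) Real.posLog_nonneg
    have hS2 : 0 ≤ ∑ v ∈ T, Real.posLog (v j) :=
      Finset.sum_nonneg fun v _ => Real.posLog_nonneg
    have hS3 : 0 ≤ ∑ v ∈ (finite_gt j).toFinset, Real.log (plNorm v) := by
      refine Finset.sum_nonneg fun v _ => ?_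
      unfold plNorm
      exact Real.log_natCast_nonneg _
    have h4 : logHeight₁ (1 / (j - 1728)) = logHeight₁ (j - 1728) := by
      rw [one_div, logHeight₁_inv]
    have h5 := height_sub j
    have h6 := inf_sum j
    rw [h4]
    set S1 := ∑ v : InfinitePlace F, (v.mult : ℝ) * Real.posLog (v (j - 1728))
    set S2 := ∑ v ∈ T, Real.posLog (v j)
    set S3 := ∑ v ∈ (finite_gt j).toFinset, Real.log (plNorm v)
    set D : ℝ := (Module.finrank ℚ F : ℝ) with hDdef
    have h7 : logHeight₁ j ≤ σ * (1 + (S1 + D * c) + S2 + S3) := by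
      refine hT.trans (mul_le_mul_of_nonneg_left ?_ hσ)
      linarith
    have h8 : 0 ≤ S1 + S2 + S3 := by linarith
    have h9 : logHeight₁ (j - 1728) ≤ σ * (1 + (S1 + D * c) + S2 + S3) + D * c := by linarith
    refine h9.trans ?_
    have hDc : 0 ≤ D * c := by positivity
    nlinarith [mul_nonneg hσ h8, mul_nonneg hDc h8, mul_nonneg (mul_nonneg hDc hσ) h8,
      mul_nonneg (sub_nonneg.2 hD) hσ, mul_nonneg (mul_nonneg (sub_nonneg.2 hD) hσ) h8,
      mul_nonneg (sub_nonneg.2 hD) h8]

theorem logHeight₁_t_comp : ∃ C : ℝ, 0 < C ∧ ∀ (F : Type) [Field F] [NumberField F] (j : F),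
    j ≠ 1728 → |logHeight₁ (1 / (j - 1728)) - logHeight₁ j| ≤ C * Module.finrank ℚ F := by
  refine ⟨Real.log 2 + Real.log 1728, ?_, ?_⟩
  · have := Real.log_pos (show (1 : ℝ) < 2 by norm_num)
    have := Real.log_pos (show (1 : ℝ) < 1728 by norm_num)
    linarith
  intro F _ _ j hj
  have h4 : logHeight₁ (1 / (j - 1728)) = logHeight₁ (j - 1728) := by
    rw [one_div, logHeight₁_inv]
  rw [h4, abs_le]
  have h5 := height_sub j
  have h6 := height_add j
  constructor <;> linarith

end LangForms
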