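import Pool.Agent.Lib_MP_f5471b_j.Defs
import Pool.Agent.Lib_MP_f5471b_nt.BaseCh

/-!
# MP_f5471b_nt, part 2: sums over the places above a set of places
-/

set_option linter.unusedVariables false
set_option linter.deprecated false

namespace LangForms

open Height NumberField WeierstrassCurve Topology Filter IsDedekindDomain

namespace Trf

open WithZeroMulInt

theorem toNNReal_pow {a b : NNReal} (ha : a ≠ 0) (hb : b ≠ 0) {f : ℕ} (hf : f ≠ 0)
    (h : b = a ^ f) (γ : WithZero (Multiplicative ℤ)) :
    toNNReal hb γ = toNNReal ha γ ^ f := by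
  by_cases hγ : γ = 0
  · subst hγ
    rw [map_zero, map_zero, zero_pow hf]
  · rw [toNNReal_neg_apply hb hγ, toNNReal_neg_apply ha hγ, h, ← zpow_natCast, ← zpow_natCast,
      ← zpow_mul, ← zpow_mul, mul_comm]

theorem place_apply {K F : Type} [Field K] [NumberField K] [Field F] [NumberField F]
    [Algebra K F] (v : HeightOneSpectrum (𝓞 K)) (w : HeightOneSpectrum (𝓞 F))
    [w.asIdeal.LiesOver v.asIdeal] (x : K) :
    (FinitePlace.mk w) (algebraMap K F x) =
      (FinitePlace.mk v x) ^ (v.asIdeal.ramificationIdx' w.asIdeal *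
        v.asIdeal.inertiaDeg' w.asIdeal) := by
  have h1 := Ideal.absNorm_eq_pow_inertiaDeg'_of_liesOver w.asIdeal v.asIdeal v.isPrime v.ne_bot
  have : v.asIdeal.IsMaximal := v.isMaximal
  have hf : v.asIdeal.inertiaDeg' w.asIdeal ≠ 0 := Ideal.inertiaDeg'_ne_zero v.asIdeal w.asIdeal
  rw [FinitePlace.mk_apply, FinitePlace.mk_apply, FinitePlace.norm_embedding',
    FinitePlace.norm_embedding', ← HeightOneSpectrum.valuation_liesOver F v w x, map_pow,
    toNNReal_pow (HeightOneSpectrum.absNorm_ne_zero v) (HeightOneSpectrum.absNorm_ne_zero w) hf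
      (by rw [h1]; push_cast; rfl)]
  push_cast
  rw [← pow_mul, mul_comm]

/-- `w` is a place of `F` above the place `v` of `K`. -/
def Ab {K F : Type} [Field K] [NumberField K] [Field F] [NumberField F] [Algebra K F]
    (v : FinitePlace K) (w : FinitePlace F) : Prop :=
  w.maximalIdeal.asIdeal.LiesOver v.maximalIdeal.asIdeal

theorem ab_apply {K F : Type} [Field K] [NumberField K] [Field F] [NumberField F]
    [Algebra K F] {v : FinitePlace K} {w : FinitePlace F} (h : Ab v w) (x : K) :
    w (algebraMap K F x) =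
      (v x) ^ (v.maximalIdeal.asIdeal.ramificationIdx' w.maximalIdeal.asIdeal *
        v.maximalIdeal.asIdeal.inertiaDeg' w.maximalIdeal.asIdeal) := by
  have : w.maximalIdeal.asIdeal.LiesOver v.maximalIdeal.asIdeal := h
  have h1 := place_apply v.maximalIdeal w.maximalIdeal x
  rwa [FinitePlace.mk_maximalIdeal, FinitePlace.mk_maximalIdeal] at h1

/-- the places above a place -/
theorem exists_above {K F : Type} [Field K] [NumberField K] [Field F] [NumberField F]
    [Algebra K F] (v : FinitePlace K) :
    ∃ S : Finset (FinitePlace F), (∀ w, w ∈ S ↔ Ab v w) ∧ S.card ≤ Module.finrank K F ∧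
      ∑ w ∈ S, v.maximalIdeal.asIdeal.ramificationIdx' w.maximalIdeal.asIdeal *
        v.maximalIdeal.asIdeal.inertiaDeg' w.maximalIdeal.asIdeal = Module.finrank K F := by
  classical
  have hM : v.maximalIdeal.asIdeal.IsMaximal := v.maximalIdeal.isMaximal
  have hb : v.maximalIdeal.asIdeal ≠ ⊥ := v.maximalIdeal.ne_bot
  have hinj : Function.Injective fun w : FinitePlace F => w.maximalIdeal.asIdeal := by
    intro w₁ w₂ h
    exact FinitePlace.maximalIdeal_injective (HeightOneSpectrum.ext_iff.mpr h)
  have hmem : ∀ P : Ideal (𝓞 F), P ∈ IsDedekindDomain.primesOverFinset v.maximalIdeal.asIdeal (𝓞 F) ↔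
      ∃ w : FinitePlace F, Ab v w ∧ w.maximalIdeal.asIdeal = P := by
    intro P
    rw [IsDedekindDomain.mem_primesOverFinset_iff hb]
    constructor
    · intro hP
      refine ⟨FinitePlace.mk ⟨P, hP.1, Ideal.ne_bot_of_mem_primesOver hb hP⟩, ?_, ?_⟩
      · unfold Ab
        rw [FinitePlace.maximalIdeal_mk]
        exact hP.2
      · rw [FinitePlace.maximalIdeal_mk]
    · rintro ⟨w, hw, rfl⟩
      exact ⟨w.maximalIdeal.isPrime, hw⟩
  have hfin : {w : FinitePlace F | Ab v w}.Finite := by
    refine Set.Finite.of_finite_image (f := fun w => w.maximalIdeal.asIdeal) ?_ hinj.injOn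
    refine (IsDedekindDomain.primesOverFinset v.maximalIdeal.asIdeal (𝓞 F)).finite_toSet.subset ?_
    rintro _ ⟨w, hw, rfl⟩
    exact (hmem _).mpr ⟨w, hw, rfl⟩
  have himg : hfin.toFinset.image (fun w => w.maximalIdeal.asIdeal) =
      IsDedekindDomain.primesOverFinset v.maximalIdeal.asIdeal (𝓞 F) := by
    ext P
    rw [Finset.mem_image, hmem]
    simp only [Set.Finite.mem_toFinset, Set.mem_setOf_eq]
  have hsum : ∑ w ∈ hfin.toFinset,
      v.maximalIdeal.asIdeal.ramificationIdx' w.maximalIdeal.asIdeal *
        v.maximalIdeal.asIdeal.inertiaDeg' w.maximalIdeal.asIdeal = Module.finrank K F := by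
    rw [← Ideal.sum_ramification_inertia (𝓞 F) K F hb, ← himg, Finset.sum_image hinj.injOn]
  refine ⟨hfin.toFinset, fun w => by simp, ?_, hsum⟩
  rw [← hsum, Finset.card_eq_sum_ones]
  refine Finset.sum_le_sum fun w hw => ?_
  have hw' : Ab v w := by simpa using hw
  have : w.maximalIdeal.asIdeal.LiesOver v.maximalIdeal.asIdeal := hw'
  refine Nat.mul_pos ?_ ?_
  · exact Nat.pos_iff_ne_zero.mpr
      (Ideal.IsDedekindDomain.ramificationIdx'_ne_zero_of_liesOver _ hb)
  · exact Nat.pos_iff_ne_zero.mpr (Ideal.inertiaDeg'_ne_zero _ _)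

theorem ab_unique {K F : Type} [Field K] [NumberField K] [Field F] [NumberField F]
    [Algebra K F] {v₁ v₂ : FinitePlace K} {w : FinitePlace F} (h1 : Ab v₁ w) (h2 : Ab v₂ w) :
    v₁ = v₂ := by
  apply FinitePlace.maximalIdeal_injective
  apply HeightOneSpectrum.ext_iff.mpr
  rw [h1.over, h2.over]

end Trf

open Trf

/-- the part of the height of `x` at the places above `v` -/
theorem posLog_above {K F : Type} [Field K] [NumberField K] [Field F] [NumberField F]
    [Algebra K F] (T : Finset (FinitePlace K)) :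
    ∃ T' : Finset (FinitePlace F), T'.card ≤ Module.finrank K F * T.card ∧
      ∀ x : K, ∑ w ∈ T', Real.posLog (w (algebraMap K F x)) =
        Module.finrank K F * ∑ v ∈ T, Real.posLog (v x) := by
  classical
  choose S hS1 hS2 hS3 using fun v : FinitePlace K => exists_above (F := F) v
  refine ⟨T.biUnion S, ?_, fun x => ?_⟩
  · refine (Finset.card_biUnion_le_card_mul T S _ fun v _ => hS2 v).trans ?_
    rw [mul_comm]
  · rw [Finset.sum_biUnion, Finset.mul_sum]
    · refine Finset.sum_congr rfl fun v _ => ?_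
      have : ∀ w ∈ S v, Real.posLog (w (algebraMap K F x)) =
          ((v.maximalIdeal.asIdeal.ramificationIdx' w.maximalIdeal.asIdeal *
        v.maximalIdeal.asIdeal.inertiaDeg' w.maximalIdeal.asIdeal : ℕ) : ℝ) *
          Real.posLog (v x) := by
        intro w hw
        rw [ab_apply ((hS1 v w).mp hw) x, Real.posLog_pow]
      rw [Finset.sum_congr rfl this, ← Finset.sum_mul, ← Nat.cast_sum, hS3]
    · intro v₁ _ v₂ _ hne
      rw [Function.onFun, Finset.disjoint_left]
      intro w h1 h2
      exact hne (ab_unique ((hS1 v₁ w).mp h1) ((hS1 v₂ w).mp h2))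

theorem posLog_infinite {K F : Type} [Field K] [NumberField K] [Field F] [NumberField F]
    [Algebra K F] (x : K) :
    ∑ w : InfinitePlace F, w.mult * Real.posLog (w (algebraMap K F x)) =
      Module.finrank K F * ∑ v : InfinitePlace K, v.mult * Real.posLog (v x) := by
  have key : ∀ {E : Type} [Field E] [NumberField E] (y : E),
      Real.log (∏ v : InfinitePlace E, (⨆ i, v (![y, 1] i)) ^ v.mult) =
        ∑ v : InfinitePlace E, v.mult * Real.posLog (v y) := by
    intro E _ _ y
    have e : ∀ v : InfinitePlace E, (⨆ i, v (![y, 1] i)) = max 1 (v y) := by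
      intro v
      have hbd : BddAbove (Set.range fun i => v (![y, 1] i)) := Set.finite_range _ |>.bddAbove
      refine le_antisymm (ciSup_le fun i => ?_) (max_le ?_ ?_)
      · fin_cases i <;> simp
      · simpa using le_ciSup hbd 1
      · simpa using le_ciSup hbd 0
    rw [Real.log_prod]
    · refine Finset.sum_congr rfl fun v _ => ?_
      rw [Real.log_pow, e, Real.posLog_eq_log_max_one (apply_nonneg v y)]
    · intro v _
      rw [e]
      positivity
  have h := BCh.prod_infinite_ext (F := F) ![x, 1]
  have e2 : (∏ w : InfinitePlace F, (⨆ i, w (algebraMap K F (![x, 1] i))) ^ w.mult) =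
      ∏ w : InfinitePlace F, (⨆ i, w (![algebraMap K F x, 1] i)) ^ w.mult := by
    refine Finset.prod_congr rfl fun w _ => ?_
    congr 1
    refine iSup_congr fun i => ?_
    fin_cases i <;> simp
  rw [e2] at h
  have h2 := congrArg Real.log h
  rw [Real.log_pow, key, key] at h2
  exact h2

end LangForms
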