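import Pool.Agent.Lib_MP_f5471b_j.Defs
import Pool.Agent.Lib_MP_f5471b_nt.AddSub

/-!
# The `x`-coordinates of an arbitrary curve
-/

namespace LangForms

open Height NumberField WeierstrassCurve Topology Filter IsDedekindDomain

namespace XiAux

/-- Symmetric square of `xiW`. -/
def symXi {F : Type} [Field F] (b2 c4 c6 : F) (v : Fin 3 → F) : Fin 3 → F :=
  ![144 * c4 ^ 2 * v 0 + 12 * c4 * (c4 * b2 + c6) * v 1 + (c4 * b2 + c6) ^ 2 * v 2,
    -(144 * c4 * c6 * v 1) - 24 * c6 * (c4 * b2 + c6) * v 2, 144 * c6 ^ 2 * v 2]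

lemma key {F : Type} [Field F] [CharZero F] (b2 b4 b6 b8 c4 c6 D t s r u : F)
    (hb : 4 * b8 = b2 * b6 - b4 ^ 2) (h4 : c4 = b2 ^ 2 - 24 * b4)
    (h6 : c6 = -b2 ^ 3 + 36 * b2 * b4 - 216 * b6)
    (hD : D = -b2 ^ 2 * b8 - 8 * b4 ^ 3 - 27 * b6 ^ 2 + 9 * b2 * b4 * b6)
    (ht : t * c6 ^ 2 = D) :
    Am t (symXi b2 c4 c6 ![s, r, u]) = (144 * c4 ^ 2) • symXi b2 c4 c6
      ![s ^ 2 - b4 * s * u - b6 * r * u - b8 * u ^ 2,
        2 * r * s + b2 * s * u + b4 * r * u + b6 * u ^ 2, r ^ 2 - 4 * s * u] := by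
  have hb8 : b8 = (b2 * b6 - b4 ^ 2) / 4 := by
    rw [← hb]
    field_simp
  subst hb8
  ext i
  fin_cases i
  · simp only [Am, symXi, Fin.zero_eta, Matrix.cons_val_zero, Matrix.cons_val_one, Pi.smul_apply,
      smul_eq_mul, Matrix.cons_val]
    have e : (144 * c4 ^ 2 * s + 12 * c4 * (c4 * b2 + c6) * r + (c4 * b2 + c6) ^ 2 * u) ^ 2 +
        72 * 144 * u * D * (144 * c4 ^ 2 * s + 12 * c4 * (c4 * b2 + c6) * r +
          (c4 * b2 + c6) ^ 2 * u) +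
        4 * 144 * u * D * (-(144 * c4 * c6 * r) - 24 * c6 * (c4 * b2 + c6) * u) +
        144 ^ 2 * c6 ^ 2 * u ^ 2 * D + 1296 * 144 ^ 2 * u ^ 2 * D ^ 2 =
        144 * c4 ^ 2 * (144 * c4 ^ 2 * (s ^ 2 - b4 * s * u - b6 * r * u -
          (b2 * b6 - b4 ^ 2) / 4 * u ^ 2) + 12 * c4 * (c4 * b2 + c6) *
          (2 * r * s + b2 * s * u + b4 * r * u + b6 * u ^ 2) +
          (c4 * b2 + c6) ^ 2 * (r ^ 2 - 4 * s * u)) := by
      subst hD h4 h6
      field_simp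
      ring
    rw [← e]
    linear_combination (72 * 144 * u * (144 * c4 ^ 2 * s + 12 * c4 * (c4 * b2 + c6) * r +
          (c4 * b2 + c6) ^ 2 * u) + 4 * 144 * u * (-(144 * c4 * c6 * r) -
          24 * c6 * (c4 * b2 + c6) * u) + 144 ^ 2 * c6 ^ 2 * u ^ 2 +
          1296 * 144 ^ 2 * u ^ 2 * (t * c6 ^ 2 + D)) * ht
  · simp only [Am, symXi, Fin.mk_one, Matrix.cons_val_zero, Matrix.cons_val_one, Pi.smul_apply,
      smul_eq_mul, Matrix.cons_val]
    have e : 2 * (-(144 * c4 * c6 * r) - 24 * c6 * (c4 * b2 + c6) * u) *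
        (144 * c4 ^ 2 * s + 12 * c4 * (c4 * b2 + c6) * r + (c4 * b2 + c6) ^ 2 * u) +
        (144 * c4 ^ 2 * s + 12 * c4 * (c4 * b2 + c6) * r + (c4 * b2 + c6) ^ 2 * u) *
          (144 * c6 ^ 2 * u) -
        72 * 144 * u * D * (-(144 * c4 * c6 * r) - 24 * c6 * (c4 * b2 + c6) * u) -
        4 * 144 ^ 2 * c6 ^ 2 * u ^ 2 * D =
        144 * c4 ^ 2 * (-(144 * c4 * c6 *
          (2 * r * s + b2 * s * u + b4 * r * u + b6 * u ^ 2)) -
          24 * c6 * (c4 * b2 + c6) * (r ^ 2 - 4 * s * u)) := by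
      subst hD h4 h6
      field_simp
      ring
    rw [← e]
    linear_combination (-(72 * 144 * u) * (-(144 * c4 * c6 * r) -
          24 * c6 * (c4 * b2 + c6) * u) - 4 * 144 ^ 2 * c6 ^ 2 * u ^ 2) * ht
  · simp only [Am, symXi, Fin.reduceFinMk, Matrix.cons_val_zero, Matrix.cons_val_one,
      Pi.smul_apply, smul_eq_mul, Matrix.cons_val]
    subst h4 h6
    ring

lemma sy_xi {F : Type} [Field F] (W : WeierstrassCurve F) (w z : Fin 2 → F) :
    sy (xiW W w) (xiW W z) = symXi W.b₂ W.c₄ W.c₆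
      ![w 0 * z 0, w 0 * z 1 + w 1 * z 0, w 1 * z 1] := by
  ext i
  fin_cases i
  · simp only [sy, xiW, symXi, Fin.zero_eta, Matrix.cons_val_zero, Matrix.cons_val_one,
      Matrix.cons_val]
    ring
  · simp only [sy, xiW, symXi, Fin.mk_one, Matrix.cons_val_zero, Matrix.cons_val_one,
      Matrix.cons_val]
    ring
  · simp only [sy, xiW, symXi, Fin.reduceFinMk, Matrix.cons_val_zero, Matrix.cons_val_one,
      Matrix.cons_val]
    ring

lemma symXi_smul {F : Type} [Field F] (b2 c4 c6 c : F) (v : Fin 3 → F) :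
    symXi b2 c4 c6 (c • v) = c • symXi b2 c4 c6 v := by
  ext i
  fin_cases i <;> simp [symXi] <;> ring

end XiAux

theorem xmap_W {F : Type} [Field F] [CharZero F] [DecidableEq F] (W : WeierstrassCurve F)
    [W.IsElliptic] (h4 : W.c₄ ≠ 0) (h6 : W.c₆ ≠ 0) :
    XMap (W.Δ / W.c₆ ^ 2) fun Q : W.toAffine.Point => xiW W Q.xRep where
  zero_iff Q := by
    rcases Q with _ | ⟨x, y, h⟩
    · rw [← Affine.Point.zero_def]
      simp [xiW]
    · simp [xiW, h6, Affine.Point.zero_def]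
  ne_zero Q := by
    rcases Q with _ | ⟨x, y, h⟩
    · rw [← Affine.Point.zero_def]
      intro h0
      have := congrFun h0 0
      simp [xiW, h4] at this
    · intro h0
      have := congrFun h0 1
      simp [xiW, h6] at this
  rel P Q := by
    obtain ⟨c, hc, h⟩ := addSub_rel W P Q
    refine ⟨144 * W.c₄ ^ 2 * c, mul_ne_zero (mul_ne_zero (by norm_num) (pow_ne_zero 2 h4)) hc, ?_⟩
    have ht : W.Δ / W.c₆ ^ 2 * W.c₆ ^ 2 = W.Δ := by
      field_simp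
    have hkey := XiAux.key W.b₂ W.b₄ W.b₆ W.b₈ W.c₄ W.c₆ W.Δ (W.Δ / W.c₆ ^ 2)
      (P.xRep 0 * Q.xRep 0) (P.xRep 0 * Q.xRep 1 + P.xRep 1 * Q.xRep 0) (P.xRep 1 * Q.xRep 1)
      W.b_relation rfl rfl rfl ht
    rw [XiAux.sy_xi, XiAux.sy_xi, hkey, ← AddSub.eval_addSubMap]
    have h' : (fun i => (addSubMap W i).eval ![P.xRep 0 * Q.xRep 0,
        P.xRep 0 * Q.xRep 1 + P.xRep 1 * Q.xRep 0, P.xRep 1 * Q.xRep 1]) =
        c • (P + Q).sym2x (P - Q) := h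
    rw [h', XiAux.symXi_smul, smul_smul]
    rfl

end LangForms
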