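import Pool.Agent.Lib_MP_f5471b_nt.Final
import Pool.Agent.Lib_MP_f5471b_j.AddNA
import Pool.Agent.Lib_MP_f5471b_j.Dirichlet
import Pool.Agent.Lib_MP_f5471b_j.DupIter
import Pool.Agent.Lib_MP_f5471b_j.DupNA
import Pool.Agent.Lib_MP_f5471b_j.Fejer
import Pool.Agent.Lib_MP_f5471b_j.Fm
import Pool.Agent.Lib_MP_f5471b_j.Glob
import Pool.Agent.Lib_MP_f5471b_j.HtT
import Pool.Agent.Lib_MP_f5471b_j.JBase
import Pool.Agent.Lib_MP_f5471b_j.Mult
import Pool.Agent.Lib_MP_f5471b_j.NCirc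
import Pool.Agent.Lib_MP_f5471b_j.NDApprox
import Pool.Agent.Lib_MP_f5471b_j.NDExact
import Pool.Agent.Lib_MP_f5471b_j.Places23
import Pool.Agent.Lib_MP_f5471b_j.PtRho
import Pool.Agent.Lib_MP_f5471b_j.Rad
import Pool.Agent.Lib_MP_f5471b_j.Rho
import Pool.Agent.Lib_MP_f5471b_j.RhoFin
import Pool.Agent.Lib_MP_f5471b_j.TCond
import Pool.Agent.Lib_MP_f5471b_j.TorsGap
import Pool.Agent.Lib_MP_f5471b_j.Transfer
import Pool.Agent.Lib_MP_f5471b_j.Xi
import Pool.Agent.Lib_MP_f5471b_j.XiHeight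
import Pool.Agent.Lib_MP_f5471b_j.AddGen
import Pool.Agent.Lib_MP_f5471b_j.CanLower
import Pool.Agent.Lib_MP_f5471b_j.DupGen

/-!
# MP_f5471b_nt: the lower bound for the canonical height in terms of the height of `t`
-/

namespace LangForms

open Height NumberField WeierstrassCurve Topology Filter

namespace LSAux

theorem DupLow.mono {F : Type} [Field F] {v : AbsoluteValue F ℝ} {t : F} {c c' : ℝ}
    (h : c ≤ c') (hd : DupLow v t c) : DupLow v t c' := fun w hw => by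
  have := hd w hw
  linarith

theorem DupRho.mono {F : Type} [Field F] {v : AbsoluteValue F ℝ} {t : F} {c c' : ℝ}
    (h : c ≤ c') (hd : DupRho v t c) : DupRho v t c' := fun w hw => (hd w hw).trans h

theorem PairClose.mono {c c' a b x y : ℝ} (h : c ≤ c') (hp : PairClose c a b x y) :
    PairClose c' a b x y := by
  rcases hp with hp | hp
  · exact Or.inl ⟨hp.1.trans h, hp.2.trans h⟩
  · exact Or.inr ⟨hp.1.trans h, hp.2.trans h⟩

theorem AddRho.mono {F : Type} [Field F] {v : AbsoluteValue F ℝ} {t : F} {c c' : ℝ}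
    (h : c ≤ c') (hd : AddRho v t c) : AddRho v t c' := fun x₁ x₂ z₁ z₂ h1 h2 h3 h4 =>
  PairClose.mono h (hd x₁ x₂ z₁ z₂ h1 h2 h3 h4)

theorem sum_id (N : ℕ) (hN : 1 ≤ N) : ∑ k ∈ Finset.Ico 1 N, (k : ℝ) = N * (N - 1) / 2 := by
  induction N, hN using Nat.le_induction with
  | base => simp
  | succ n hn ih =>
    rw [Finset.sum_Ico_succ_top hn, ih]
    push_cast
    ring

theorem sum_weight (N : ℕ) (hN : 1 ≤ N) :
    ∑ k ∈ Finset.Ico 1 N, (1 - (k : ℝ) / N) = ((N : ℝ) - 1) / 2 := by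
  have h0 : (N : ℝ) ≠ 0 := by exact_mod_cast (by omega : N ≠ 0)
  rw [Finset.sum_sub_distrib, ← Finset.sum_div, sum_id N hN]
  simp only [Finset.sum_const, Nat.card_Ico, nsmul_eq_mul, mul_one]
  rw [Nat.cast_sub hN]
  push_cast
  field_simp
  ring

theorem weight_nonneg {N k : ℕ} (hk : k ∈ Finset.Ico 1 N) : 0 ≤ 1 - (k : ℝ) / N := by
  rw [Finset.mem_Ico] at hk
  have h0 : (0 : ℝ) < N := by exact_mod_cast (by omega : 0 < N)
  rw [sub_nonneg, div_le_one h0]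
  exact_mod_cast hk.2.le

theorem sum_good (N : ℕ) (hN : 1 ≤ N) (f : ℕ → ℝ) (B : ℝ)
    (h : ∀ k ∈ Finset.Ico 1 N, B ≤ f k) :
    ((N : ℝ) - 1) / 2 * B ≤ ∑ k ∈ Finset.Ico 1 N, (1 - (k : ℝ) / N) * f k := by
  rw [← sum_weight N hN, Finset.sum_mul]
  exact Finset.sum_le_sum fun k hk => mul_le_mul_of_nonneg_left (h k hk) (weight_nonneg hk)

theorem main_ineq {α β : Type} (Tf Gd : Finset α) (hG : Gd ⊆ Tf) (I : Finset β) (L : α → ℝ)
    (hL : ∀ v ∈ Tf, 0 ≤ L v) (Li m : β → ℝ) (hm : ∀ v ∈ I, 0 ≤ m v) (N : ℕ) (hN : 1 ≤ N)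
    (a : ℕ → α → ℝ) (b : ℕ → β → ℝ) (Qb C c' d : ℝ) (hc' : 0 ≤ c') (hQ : 0 ≤ Qb)
    (h1 : ∀ k ∈ Finset.Ico 1 N, ∑ v ∈ Tf, a k v + ∑ v ∈ I, m v * b k v - C ≤ Qb)
    (h2 : ∀ v ∈ Tf, -(L v / 12) ≤ ∑ k ∈ Finset.Ico 1 N, (1 - (k : ℝ) / N) * a k v)
    (h3 : ∀ v ∈ Gd, ∀ k ∈ Finset.Ico 1 N, L v / 10 ≤ a k v)
    (h4 : ∀ v ∈ I, ∀ k ∈ Finset.Ico 1 N, Li v / 10 - c' ≤ b k v)
    (h5 : ∑ v ∈ I, m v ≤ d) :
    ((N : ℝ) - 1) / 20 * (∑ v ∈ Gd, L v + ∑ v ∈ I, m v * Li v) - (∑ v ∈ Tf, L v) / 12 -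
      ((N : ℝ) - 1) / 2 * (d * c' + C) ≤ N * Qb := by
  classical
  have hN1 : (1 : ℝ) ≤ N := by exact_mod_cast hN
  -- upper bound
  have hup : ∑ k ∈ Finset.Ico 1 N, (1 - (k : ℝ) / N) *
      (∑ v ∈ Tf, a k v + ∑ v ∈ I, m v * b k v - C) ≤ N * Qb := by
    calc ∑ k ∈ Finset.Ico 1 N, (1 - (k : ℝ) / N) *
        (∑ v ∈ Tf, a k v + ∑ v ∈ I, m v * b k v - C)
        ≤ ∑ k ∈ Finset.Ico 1 N, (1 - (k : ℝ) / N) * Qb :=
          Finset.sum_le_sum fun k hk => mul_le_mul_of_nonneg_left (h1 k hk) (weight_nonneg hk)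
      _ = ((N : ℝ) - 1) / 2 * Qb := by rw [← Finset.sum_mul, sum_weight N hN]
      _ ≤ N * Qb := mul_le_mul_of_nonneg_right (by linarith) hQ
  have hsplit : ∑ k ∈ Finset.Ico 1 N, (1 - (k : ℝ) / N) *
      (∑ v ∈ Tf, a k v + ∑ v ∈ I, m v * b k v - C) =
      ∑ v ∈ Tf, ∑ k ∈ Finset.Ico 1 N, (1 - (k : ℝ) / N) * a k v +
      ∑ v ∈ I, m v * ∑ k ∈ Finset.Ico 1 N, (1 - (k : ℝ) / N) * b k v -
      ((N : ℝ) - 1) / 2 * C := by
    rw [← sum_weight N hN, Finset.sum_comm, Finset.sum_mul]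
    simp only [Finset.mul_sum]
    rw [Finset.sum_comm (s := I), ← Finset.sum_add_distrib, ← Finset.sum_sub_distrib]
    refine Finset.sum_congr rfl fun k _ => ?_
    rw [mul_sub, mul_add, Finset.mul_sum, Finset.mul_sum]
    congr 2
    refine Finset.sum_congr rfl fun v _ => ?_
    ring
  have hT : ((N : ℝ) - 1) / 20 * (∑ v ∈ Gd, L v) - (∑ v ∈ Tf, L v) / 12 ≤
      ∑ v ∈ Tf, ∑ k ∈ Finset.Ico 1 N, (1 - (k : ℝ) / N) * a k v := by
    rw [← Finset.sum_sdiff hG, ← Finset.sum_sdiff hG]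
    have e1 : ((N : ℝ) - 1) / 20 * (∑ v ∈ Gd, L v) ≤
        ∑ v ∈ Gd, ∑ k ∈ Finset.Ico 1 N, (1 - (k : ℝ) / N) * a k v := by
      rw [Finset.mul_sum]
      refine Finset.sum_le_sum fun v hv => ?_
      have := sum_good N hN (fun k => a k v) (L v / 10) (h3 v hv)
      calc ((N : ℝ) - 1) / 20 * L v = ((N : ℝ) - 1) / 2 * (L v / 10) := by ring
        _ ≤ _ := this
    have e2 : -((∑ v ∈ Tf \ Gd, L v) / 12) ≤
        ∑ v ∈ Tf \ Gd, ∑ k ∈ Finset.Ico 1 N, (1 - (k : ℝ) / N) * a k v := by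
      rw [Finset.sum_div, ← Finset.sum_neg_distrib]
      exact Finset.sum_le_sum fun v hv => h2 v (Finset.mem_sdiff.1 hv).1
    have e3 : 0 ≤ ∑ v ∈ Gd, L v := Finset.sum_nonneg fun v hv => hL v (hG hv)
    linarith
  have hI : ((N : ℝ) - 1) / 20 * (∑ v ∈ I, m v * Li v) - ((N : ℝ) - 1) / 2 * (d * c') ≤
      ∑ v ∈ I, m v * ∑ k ∈ Finset.Ico 1 N, (1 - (k : ℝ) / N) * b k v := by
    have e1 : ∀ v ∈ I, m v * (((N : ℝ) - 1) / 2 * (Li v / 10 - c')) ≤
        m v * ∑ k ∈ Finset.Ico 1 N, (1 - (k : ℝ) / N) * b k v := fun v hv =>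
      mul_le_mul_of_nonneg_left (sum_good N hN (fun k => b k v) _ (h4 v hv)) (hm v hv)
    refine le_trans ?_ (Finset.sum_le_sum e1)
    have e2 : ∑ v ∈ I, m v * (((N : ℝ) - 1) / 2 * (Li v / 10 - c')) =
        ((N : ℝ) - 1) / 20 * (∑ v ∈ I, m v * Li v) -
          ((N : ℝ) - 1) / 2 * c' * (∑ v ∈ I, m v) := by
      rw [Finset.mul_sum, Finset.mul_sum, ← Finset.sum_sub_distrib]
      refine Finset.sum_congr rfl fun v _ => ?_
      ring
    rw [e2]
    have e3 : ((N : ℝ) - 1) / 2 * c' * (∑ v ∈ I, m v) ≤ ((N : ℝ) - 1) / 2 * c' * d :=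
      mul_le_mul_of_nonneg_left h5 (mul_nonneg (by linarith) hc')
    linarith
  rw [hsplit] at hup
  linarith

theorem final_real (N : ℕ) (σ h G I S dε E₀ Qb T b A ν : ℝ) (hσ : 1 ≤ σ) (hN : 10 * σ + 1 ≤ N)
    (hν : 4 * σ ≤ ν) (hh : 0 ≤ h) (hI : 0 ≤ I)
    (hcond : h ≤ σ * (1 + A + T + b)) (hA : A ≤ I + dε) (hT : T ≤ G) (hb : b ≤ G + h / ν)
    (hS : S ≤ h)
    (hmain : ((N : ℝ) - 1) / 20 * (G + I) - S / 12 - ((N : ℝ) - 1) / 2 * E₀ ≤ N * Qb)
    (hbig : 48 * (((N : ℝ) - 1) / 40 * (1 + dε) + ((N : ℝ) - 1) / 2 * E₀) ≤ h) :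
    h / 12 ≤ N * Qb := by
  have hνpos : 0 < ν := by linarith
  have h1 : σ * (h / ν) ≤ h / 4 := by
    have : σ * (h / ν) = (σ / ν) * h := by ring
    rw [this]
    have h2 : σ / ν ≤ 1 / 4 := by
      rw [div_le_div_iff₀ hνpos (by norm_num)]; linarith
    calc σ / ν * h ≤ 1 / 4 * h := mul_le_mul_of_nonneg_right h2 hh
      _ = h / 4 := by ring
  have h2 : h ≤ σ * (1 + dε + 2 * (G + I)) + h / 4 - σ * I := by
    calc h ≤ σ * (1 + A + T + b) := hcond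
      _ ≤ σ * (1 + (I + dε) + G + (G + h / ν)) :=
        mul_le_mul_of_nonneg_left (by linarith) (by linarith)
      _ = σ * (1 + dε + 2 * (G + I)) + σ * (h / ν) - σ * I := by ring
      _ ≤ _ := by linarith
  have hsI : 0 ≤ σ * I := mul_nonneg (by linarith) hI
  have h3 : 3 / 4 * h ≤ σ * (1 + dε + 2 * (G + I)) := by linarith
  have hN0 : (0 : ℝ) ≤ (N : ℝ) - 1 := by linarith
  have h4 : 10 * (3 / 4 * h) ≤ ((N : ℝ) - 1) * (1 + dε + 2 * (G + I)) := by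
    have hpos : 0 ≤ 1 + dε + 2 * (G + I) := by
      by_contra hneg
      push Not at hneg
      have : σ * (1 + dε + 2 * (G + I)) < 0 := mul_neg_of_pos_of_neg (by linarith) hneg
      linarith
    calc 10 * (3 / 4 * h) ≤ 10 * (σ * (1 + dε + 2 * (G + I))) := by linarith
      _ = (10 * σ) * (1 + dε + 2 * (G + I)) := by ring
      _ ≤ ((N : ℝ) - 1) * (1 + dε + 2 * (G + I)) :=
        mul_le_mul_of_nonneg_right (by linarith) hpos
  nlinarith

theorem card_inf_le (F : Type) [Field F] [NumberField F] :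
    Fintype.card (InfinitePlace F) ≤ Module.finrank ℚ F := by
  rw [← InfinitePlace.sum_mult_eq, ← Finset.card_univ, Finset.card_eq_sum_ones]
  exact Finset.sum_le_sum fun v _ => v.mult_pos

theorem rho_zero {F X : Type} [Field F] [AddCommGroup X] {t : F} {ξ : X → Fin 2 → F}
    (h : XMap t ξ) (v : AbsoluteValue F ℝ) (ht : v t ≤ 1) : rho v t (ξ 0) = 0 := by
  have h1 : ξ 0 1 = 0 := (h.zero_iff 0).2 rfl
  refine rho_inf v t ht _ ?_ h1
  intro h0
  apply h.ne_zero 0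
  funext i
  fin_cases i
  · exact h0
  · exact h1

theorem phi_eq {L ρ n : ℝ} (hL : 0 < L) (h : ρ = L * n) :
    L / 6 - ρ + ρ ^ 2 / L = L * bern n := by
  rw [h, bern]
  field_simp

theorem fejer' (N : ℕ) (hN : 1 ≤ N) (L θ : ℝ) (hL : 0 ≤ L) :
    -(L / 12) ≤ ∑ k ∈ Finset.Ico 1 N, (1 - (k : ℝ) / N) * (L * bern (ncirc (k * θ))) := by
  have h1 := mul_le_mul_of_nonneg_left (fejer N hN θ) hL
  rw [Finset.mul_sum] at h1
  refine le_trans (by linarith) (h1.trans (le_of_eq ?_))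
  refine Finset.sum_congr rfl fun k _ => ?_
  ring

end LSAux

open LSAux

theorem ls_abs (d s : ℕ) (σ : ℝ) : ∃ (k₀ : ℕ) (c H₀ : ℝ), 1 ≤ k₀ ∧ 0 < c ∧
    ∀ (F : Type) [Field F] [NumberField F], Module.finrank ℚ F ≤ d →
    ∀ t : F, t ≠ 0 → 1 + 1728 * t ≠ 0 → TCond t s σ → H₀ ≤ logHeight₁ t →
    ∀ (X : Type) [AddCommGroup X] (ξ : X → Fin 2 → F), XMap t ξ →
    ∀ q : X → ℝ, (∀ (k : ℕ) (Q : X), q (k • Q) = (k : ℝ) ^ 2 * q Q) →
    (∀ Q : X, Tendsto (fun n : ℕ => logHeight (ξ ((2 ^ n) • Q)) / 4 ^ n) atTop (𝓝 (q Q))) →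
    ∀ Q : X, (∃ k : ℕ, 1 ≤ k ∧ k ≤ k₀ ∧ k • Q = 0) ∨ c * logHeight₁ t ≤ q Q := by
  classical
  obtain ⟨ε₁, c₁, hε₁, hε₁', hc₁, hdup⟩ := dup_gen
  obtain ⟨ε₂, c₂, hε₂, hε₂', hc₂, hadd⟩ := add_gen
  obtain ⟨ε, hεdef⟩ : ∃ ε, ε = min ε₁ ε₂ := ⟨_, rfl⟩
  obtain ⟨c₀, hc₀def⟩ : ∃ c₀, c₀ = max c₁ c₂ := ⟨_, rfl⟩
  have hε : 0 < ε := by rw [hεdef]; exact lt_min hε₁ hε₂
  have hε' : ε < 1 := by rw [hεdef]; exact lt_of_le_of_lt (min_le_left _ _) hε₁'
  have hc₀ : 0 ≤ c₀ := by rw [hc₀def]; exact hc₁.trans (le_max_left _ _)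
  have hdup' : ∀ (F : Type) [Field F] (v : AbsoluteValue F ℝ) (t : F), 0 < v t → v t ≤ ε →
      DupLow v t c₀ ∧ DupRho v t c₀ := by
    intro F _ v t h1 h2
    have h3 := hdup F v t h1 (h2.trans (by rw [hεdef]; exact min_le_left _ _))
    have h4 : c₁ ≤ c₀ := by rw [hc₀def]; exact le_max_left _ _
    exact ⟨DupLow.mono h4 h3.1, DupRho.mono h4 h3.2⟩
  have hadd' : ∀ (F : Type) [Field F] (v : AbsoluteValue F ℝ) (t : F), 0 < v t → v t ≤ ε →
      AddRho v t c₀ := by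
    intro F _ v t h1 h2
    exact AddRho.mono (by rw [hc₀def]; exact le_max_right _ _)
      (hadd F v t h1 (h2.trans (by rw [hεdef]; exact min_le_right _ _)))
  obtain ⟨C, hC, hcl⟩ := can_lower d ε c₀ hε hε' hc₀ hdup'
  obtain ⟨σ₁, hσ₁⟩ : ∃ σ₁, σ₁ = max σ 1 := ⟨_, rfl⟩
  have hσ1 : 1 ≤ σ₁ := by rw [hσ₁]; exact le_max_right _ _
  obtain ⟨ν, hν⟩ := exists_nat_ge (4 * σ₁)
  obtain ⟨N, hN⟩ := exists_nat_ge (10 * σ₁ + 1)
  have hN1 : 1 ≤ N := by
    have : (1 : ℝ) ≤ N := by linarith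
    exact_mod_cast this
  have hNpos : (0 : ℝ) < N := by exact_mod_cast (by omega : 0 < N)
  obtain ⟨Λ, hΛ⟩ : ∃ Λ : ℕ, Λ = 2 * ν.factorial := ⟨_, rfl⟩
  have hΛ1 : 1 ≤ Λ := by have := ν.factorial_pos; omega
  obtain ⟨M, hM⟩ : ∃ M : ℕ, M = 20 * N := ⟨_, rfl⟩
  have hM1 : 1 ≤ M := by omega
  obtain ⟨k₀, hk₀⟩ : ∃ k₀ : ℕ, k₀ = N * (M ^ (s + d) * Λ) := ⟨_, rfl⟩
  have hk₀1 : 1 ≤ k₀ := by
    rw [hk₀]
    exact Nat.one_le_iff_ne_zero.2 (by positivity)
  have hk₀pos : (0 : ℝ) < k₀ := by exact_mod_cast (by omega : 0 < k₀)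
  obtain ⟨c', hc'⟩ : ∃ c' : ℝ, c' = 4 ^ k₀ * c₀ := ⟨_, rfl⟩
  have hc'0 : 0 ≤ c' := by rw [hc']; positivity
  obtain ⟨dε, hdε⟩ : ∃ dε : ℝ, dε = d * -Real.log ε := ⟨_, rfl⟩
  refine ⟨k₀, 1 / (12 * (N * k₀ ^ 2)),
    48 * (((N : ℝ) - 1) / 40 * (1 + dε) + ((N : ℝ) - 1) / 2 * (d * c' + C)), hk₀1,
    by positivity, ?_⟩
  intro F _ _ hFd t ht hκ hT hH X _ ξ hξ q hq hlim Q
  by_cases hk : ∃ k : ℕ, 1 ≤ k ∧ k ≤ k₀ ∧ k • Q = 0
  · exact Or.inl hk
  right
  push Not at hk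
  obtain ⟨T, Tf, hTs, hTTf, hTf, hcond⟩ := hT
  have hlogε : 0 ≤ -Real.log ε := by
    rw [neg_nonneg]; exact Real.log_nonpos hε.le hε'.le
  have hh := logHeight₁_eq_Lt t ht Tf hTf
  have hh0 : 0 ≤ logHeight₁ t := zero_le_logHeight₁ t
  have hvt : ∀ v : FinitePlace F, 0 < v t := fun v => by
    rw [FinitePlace.pos_iff]; exact ht
  have hvi : ∀ v : InfinitePlace F, 0 < v t := fun v => by
    rw [InfinitePlace.pos_iff]; exact ht
  -- the positions
  obtain ⟨θf, hθf⟩ : ∃ θf : FinitePlace F → ℝ, θf = fun v => rho v.1 t (ξ Q) / Lt v.1 t :=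
    ⟨_, rfl⟩
  obtain ⟨θi, hθi⟩ : ∃ θi : InfinitePlace F → ℝ, θi = fun v => rho v.1 t (ξ Q) / Lt v.1 t :=
    ⟨_, rfl⟩
  obtain ⟨m, hm1, hm2, hm3⟩ := dirichlet (ι := FinitePlace F ⊕ InfinitePlace F)
    (T.disjSum Finset.univ) (s + d) M hM1
    (by
      rw [Finset.card_disjSum, Finset.card_univ]
      exact add_le_add hTs ((card_inf_le F).trans hFd))
    (fun v => Λ * Sum.elim θf θi v)
  have hLf : ∀ v ∈ Tf, 0 < Lt v.1 t := fun v hv => by
    have := (hTf v).1 hv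
    exact neg_pos.2 (Real.log_neg (hvt v) this)
  -- exact formula at finite places
  have hfin : ∀ v ∈ Tf, ∀ k : ℕ, rho v.1 t (ξ (k • Q)) = Lt v.1 t * ncirc (k * θf v) := by
    intro v hv k
    have hna : IsNonarchimedean v.1 := FinitePlace.add_le v
    have h1 := dup_na v.1 hna t (hvt v) ((hTf v).1 hv)
    have h2 := add_na v.1 hna t (hvt v) ((hTf v).1 hv)
    have h3 := ptRho_of hξ v.1 0 le_rfl (hvt v) ((hTf v).1 hv) h1.2 h2
    have h4 := mult_rho (Lt v.1 t) 0 (hLf v hv) le_rfl (fun Q => rho v.1 t (ξ Q))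
      (rho_zero hξ v.1 ((hTf v).1 hv).le) (fun Q => rho_nonneg v.1 t ((hTf v).1 hv).le _)
      (fun Q => rho_le v.1 t (hvt v) _) h3 Q k
    rw [mul_zero] at h4
    have h5 := abs_nonpos_iff.1 h4
    rw [hθf]
    linarith
  have hinf : ∀ v : InfinitePlace F, v t ≤ ε → ∀ k : ℕ, k ≤ k₀ →
      |rho v.1 t (ξ (k • Q)) - Lt v.1 t * ncirc (k * θi v)| ≤ c' := by
    intro v hv k hk
    have hv1 : v t < 1 := lt_of_le_of_lt hv hε'
    have hL : 0 < Lt v.1 t := neg_pos.2 (Real.log_neg (hvi v) hv1)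
    have h1 := hdup' F v.1 t (hvi v) hv
    have h2 := hadd' F v.1 t (hvi v) hv
    have h3 := ptRho_of hξ v.1 c₀ hc₀ (hvi v) hv1 h1.2 h2
    have h4 := mult_rho (Lt v.1 t) c₀ hL hc₀ (fun Q => rho v.1 t (ξ Q))
      (rho_zero hξ v.1 hv1.le) (fun Q => rho_nonneg v.1 t hv1.le _)
      (fun Q => rho_le v.1 t (hvi v) _) h3 Q k
    rw [hθi]
    refine h4.trans ?_
    rw [hc']
    exact mul_le_mul_of_nonneg_right (pow_le_pow_right₀ (by norm_num) hk) hc₀
  -- the multiples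
  have hkm : ∀ k ∈ Finset.Ico 1 N, 1 ≤ k * (m * Λ) ∧ k * (m * Λ) ≤ k₀ := by
    intro k hk
    rw [Finset.mem_Ico] at hk
    refine ⟨Nat.one_le_iff_ne_zero.2 (by have := hk.1; positivity), ?_⟩
    rw [hk₀]
    exact Nat.mul_le_mul hk.2.le (Nat.mul_le_mul_right _ hm2)
  have hqQ : 0 ≤ q Q := by
    refine ge_of_tendsto' (hlim Q) fun n => ?_
    have : 0 ≤ logHeight (ξ ((2 ^ n) • Q)) := logHeight_nonneg _
    positivity
  obtain ⟨Gd, hGd⟩ : ∃ Gd : Finset (FinitePlace F), Gd = Tf.filter fun v =>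
      v ∈ T ∨ Lt v.1 t ≤ ν * Real.log (plNorm v) := ⟨_, rfl⟩
  have hGT : Gd ⊆ Tf := by rw [hGd]; exact Finset.filter_subset _ _
  obtain ⟨I, hI⟩ : ∃ I : Finset (InfinitePlace F), I = Finset.univ.filter fun v => v t ≤ ε :=
    ⟨_, rfl⟩
  have hsmall : ∀ v ∈ Gd, ∀ k ∈ Finset.Ico 1 N, ncirc ((k * (m * Λ) : ℕ) * θf v) ≤ 1 / 20 := by
    intro v hv k hk
    rw [hGd, Finset.mem_filter] at hv
    rw [Finset.mem_Ico] at hk
    rcases hv.2 with hvT | hvn
    · have h1 := hm3 (Sum.inl v) (Finset.mem_disjSum.2 (Or.inl ⟨v, hvT, rfl⟩))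
      simp only [Sum.elim_inl] at h1
      have h2 := ncirc_nat_mul_le k (m * (Λ * θf v))
      have e : ((k * (m * Λ) : ℕ) : ℝ) * θf v = k * (m * (Λ * θf v)) := by push_cast; ring
      rw [e]
      refine h2.trans ?_
      have h3 : (k : ℝ) ≤ N := by exact_mod_cast hk.2.le
      have h4 : (0 : ℝ) ≤ 1 / M := by positivity
      calc (k : ℝ) * ncirc (m * (Λ * θf v)) ≤ k * (1 / M) :=
            mul_le_mul_of_nonneg_left h1 (Nat.cast_nonneg _)
        _ ≤ N * (1 / M) := mul_le_mul_of_nonneg_right h3 h4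
        _ = 1 / 20 := by
          rw [hM]
          push_cast
          field_simp
    · obtain ⟨n, a, hn1, hn2, hn3⟩ := rho_fin v t ht ((hTf v).1 hv.1) (ξ Q) (hξ.ne_zero Q)
      have hlp := log_plNorm_pos v
      have hnν : n ≤ ν := by
        rw [hn2] at hvn
        have := le_of_mul_le_mul_right hvn hlp
        exact_mod_cast this
      obtain ⟨w, hw⟩ := Nat.dvd_factorial (by omega : 0 < n) hnν
      have hnpos : (0 : ℝ) < n := by exact_mod_cast (by omega : 0 < n)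
      have e : ((k * (m * Λ) : ℕ) : ℝ) * θf v = ((k * m * (w * a) : ℕ) : ℤ) := by
        rw [hθf, hΛ, hw]
        have h5 : rho v.1 t (ξ Q) = a * Real.log (plNorm v) / 2 := by linarith
        simp only [h5, hn2]
        push_cast
        field_simp
      rw [e]
      have h6 := ncirc_add_int 0 ((k * m * (w * a) : ℕ) : ℤ)
      rw [zero_add] at h6
      rw [h6, ncirc_of_mem le_rfl (by norm_num)]
      norm_num
  have hmain := main_ineq Tf Gd hGT I (fun v => Lt v.1 t) (fun v hv => (hLf v hv).le)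
    (fun v => Lt v.1 t) (fun v => (v.mult : ℝ)) (fun v _ => Nat.cast_nonneg _) N hN1
    (fun k v => phi v.1 t (ξ ((k * (m * Λ)) • Q)))
    (fun k v => phi v.1 t (ξ ((k * (m * Λ)) • Q))) (k₀ ^ 2 * q Q) C c' d hc'0 (by positivity)
    (by
      intro k hk'
      have h1 := hkm k hk'
      have h2 := hcl F hFd t ht hκ X ξ hξ Tf hTf ((k * (m * Λ)) • Q) (q ((k * (m * Λ)) • Q))
        (hk _ h1.1 h1.2) (hlim _)
      rw [hq] at h2
      rw [hI, Finset.sum_filter]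
      refine h2.trans ?_
      have h3 : ((k * (m * Λ) : ℕ) : ℝ) ≤ k₀ := by exact_mod_cast h1.2
      exact mul_le_mul_of_nonneg_right (pow_le_pow_left₀ (Nat.cast_nonneg _) h3 2) hqQ)
    (by
      intro v hv
      have h1 := fejer' N hN1 (Lt v.1 t) ((m * Λ : ℕ) * θf v) (hLf v hv).le
      refine h1.trans (le_of_eq ?_)
      refine Finset.sum_congr rfl fun k _ => ?_
      have h2 := hfin v hv (k * (m * Λ))
      rw [phi, phi_eq (hLf v hv) h2]
      have e : ((k * (m * Λ) : ℕ) : ℝ) * θf v = k * ((m * Λ : ℕ) * θf v) := by push_cast; ring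
      rw [e])
    (by
      intro v hv k hk'
      have h2 := hfin v (hGT hv) (k * (m * Λ))
      change Lt v.1 t / 10 ≤ phi v.1 t (ξ ((k * (m * Λ)) • Q))
      rw [phi, phi_eq (hLf v (hGT hv)) h2]
      have h3 := hsmall v hv k hk'
      have h4 : 1 / 10 ≤ bern (ncirc ((k * (m * Λ) : ℕ) * θf v)) := by
        rw [bern]
        have := sq_nonneg (ncirc ((k * (m * Λ) : ℕ) * θf v))
        linarith
      have h5 := mul_le_mul_of_nonneg_left h4 (hLf v (hGT hv)).le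
      linarith)
    (by
      intro v hv k hk'
      rw [hI, Finset.mem_filter] at hv
      have hv1 : v t < 1 := lt_of_le_of_lt hv.2 hε'
      have hL : 0 < Lt v.1 t := neg_pos.2 (Real.log_neg (hvi v) hv1)
      have h1 := hinf v hv.2 (k * (m * Λ)) (hkm k hk').2
      have h2 := hm3 (Sum.inr v) (Finset.mem_disjSum.2 (Or.inr ⟨v, Finset.mem_univ _, rfl⟩))
      simp only [Sum.elim_inr] at h2
      rw [Finset.mem_Ico] at hk'
      have h3 : ncirc ((k * (m * Λ) : ℕ) * θi v) ≤ 1 / 20 := by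
        have h2' := ncirc_nat_mul_le k (m * (Λ * θi v))
        have e : ((k * (m * Λ) : ℕ) : ℝ) * θi v = k * (m * (Λ * θi v)) := by push_cast; ring
        rw [e]
        refine h2'.trans ?_
        have h3 : (k : ℝ) ≤ N := by exact_mod_cast hk'.2.le
        have h4 : (0 : ℝ) ≤ 1 / M := by positivity
        calc (k : ℝ) * ncirc (m * (Λ * θi v)) ≤ k * (1 / M) :=
              mul_le_mul_of_nonneg_left h2 (Nat.cast_nonneg _)
          _ ≤ N * (1 / M) := mul_le_mul_of_nonneg_right h3 h4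
          _ = 1 / 20 := by
            rw [hM]
            push_cast
            field_simp
      have h5 : 0 ≤ rho v.1 t (ξ ((k * (m * Λ)) • Q)) ^ 2 / Lt v.1 t := by positivity
      have h6 := (abs_le.1 h1).2
      have h7 := mul_le_mul_of_nonneg_left h3 hL.le
      simp only [phi]
      linarith)
    (by
      have h1 : ∑ v ∈ I, (v.mult : ℝ) ≤ ∑ v : InfinitePlace F, (v.mult : ℝ) :=
        Finset.sum_le_univ_sum_of_nonneg fun v => Nat.cast_nonneg _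
      have h2 : ∑ v : InfinitePlace F, (v.mult : ℝ) = Module.finrank ℚ F := by
        exact_mod_cast InfinitePlace.sum_mult_eq
      have h3 : (Module.finrank ℚ F : ℝ) ≤ d := by exact_mod_cast hFd
      linarith)
  have hA0 : 0 ≤ ∑ v : InfinitePlace F, v.mult * Real.posLog (v t)⁻¹ :=
    Finset.sum_nonneg fun v _ => mul_nonneg (Nat.cast_nonneg _) Real.posLog_nonneg
  have hT0 : 0 ≤ ∑ v ∈ T, Lt v.1 t := Finset.sum_nonneg fun v hv => (hLf v (hTTf hv)).le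
  have hb0 : 0 ≤ ∑ v ∈ Tf, Real.log (plNorm v) :=
    Finset.sum_nonneg fun v _ => (log_plNorm_pos v).le
  have hfinal := final_real N σ₁ (logHeight₁ t) (∑ v ∈ Gd, Lt v.1 t)
    (∑ v ∈ I, (v.mult : ℝ) * Lt v.1 t) (∑ v ∈ Tf, Lt v.1 t) dε (d * c' + C) (k₀ ^ 2 * q Q)
    (∑ v ∈ T, Lt v.1 t) (∑ v ∈ Tf, Real.log (plNorm v))
    (∑ v : InfinitePlace F, v.mult * Real.posLog (v t)⁻¹) ν hσ1 hN hν hh0
    (Finset.sum_nonneg fun v hv => by
      rw [hI, Finset.mem_filter] at hv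
      exact mul_nonneg (Nat.cast_nonneg _)
        (neg_nonneg.2 (Real.log_nonpos (hvi v).le (hv.2.trans hε'.le))))
    (hcond.trans (mul_le_mul_of_nonneg_right (by rw [hσ₁]; exact le_max_left _ _)
      (by linarith)))
    (by
      have h1 : ∀ v : InfinitePlace F, (v.mult : ℝ) * Real.posLog (v t)⁻¹ ≤
          (if v t ≤ ε then (v.mult : ℝ) * Lt v.1 t else 0) + v.mult * -Real.log ε := by
        intro v
        have hm0 : (0 : ℝ) ≤ v.mult := Nat.cast_nonneg _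
        split_ifs with h
        · have h2 : Real.posLog (v t)⁻¹ = Lt v.1 t := by
            rw [Real.posLog_eq_log]
            · rw [Real.log_inv]; rfl
            · rw [abs_of_pos (inv_pos.2 (hvi v))]
              exact (one_le_inv₀ (hvi v)).2 (h.trans hε'.le)
          rw [h2]
          have := mul_nonneg hm0 hlogε
          linarith
        · rw [zero_add]
          refine mul_le_mul_of_nonneg_left ?_ hm0
          push Not at h
          rw [Real.posLog]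
          refine max_le hlogε ?_
          rw [Real.log_inv]
          exact neg_le_neg (Real.log_le_log hε h.le)
      refine (Finset.sum_le_sum fun v _ => h1 v).trans ?_
      rw [Finset.sum_add_distrib, hI, Finset.sum_filter, ← Finset.sum_mul]
      have h2 : ∑ v : InfinitePlace F, (v.mult : ℝ) = Module.finrank ℚ F := by
        exact_mod_cast InfinitePlace.sum_mult_eq
      have h3 : (Module.finrank ℚ F : ℝ) ≤ d := by exact_mod_cast hFd
      rw [h2, hdε]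
      have := mul_le_mul_of_nonneg_right h3 hlogε
      linarith)
    (Finset.sum_le_sum_of_subset_of_nonneg
      (fun v hv => by
        rw [hGd, Finset.mem_filter]
        exact ⟨hTTf hv, Or.inl hv⟩)
      fun v hv _ => (hLf v (hGT hv)).le)
    (by
      have hν0 : (0 : ℝ) < ν := by linarith
      have h1 : ∀ v ∈ Tf, Real.log (plNorm v) ≤
          (if v ∈ T ∨ Lt v.1 t ≤ ν * Real.log (plNorm v) then Lt v.1 t else 0) +
            Lt v.1 t / ν := by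
        intro v hv
        have hL := hLf v hv
        have hlp := log_plNorm_pos v
        obtain ⟨n, a, hn1, hn2, hn3⟩ := rho_fin v t ht ((hTf v).1 hv) (ξ Q) (hξ.ne_zero Q)
        have hn1' : (1 : ℝ) ≤ n := by exact_mod_cast hn1
        split_ifs with h
        · have h2 : Real.log (plNorm v) ≤ Lt v.1 t := by
            rw [hn2]
            nlinarith
          have : 0 ≤ Lt v.1 t / ν := by positivity
          linarith
        · push Not at h
          rw [zero_add, le_div_iff₀ hν0]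
          linarith [h.2]
      refine (Finset.sum_le_sum h1).trans ?_
      rw [Finset.sum_add_distrib, hGd, Finset.sum_filter, ← Finset.sum_div]
      have h2 : (∑ v ∈ Tf, Lt v.1 t) / ν ≤ logHeight₁ t / ν :=
        div_le_div_of_nonneg_right (by linarith) hν0.le
      linarith)
    (by linarith) hmain hH
  rw [div_mul_eq_mul_div, div_le_iff₀ (by positivity), one_mul]
  have e : q Q * (12 * (↑N * ↑k₀ ^ 2)) = 12 * (N * (k₀ ^ 2 * q Q)) := by ring
  rw [e]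
  linarith

end LangForms
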