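import Pool.Agent.Lib_MP_f5471b_j.Defs

/-!
# MP_f5471b_nt: distance to the nearest integer
-/

namespace LangForms

theorem ncirc_nonneg (x : ℝ) : 0 ≤ ncirc x := abs_nonneg _

theorem ncirc_le_half (x : ℝ) : ncirc x ≤ 1 / 2 := abs_sub_round x

namespace NCAux

/-- `ncirc x` is at most the distance to any integer. -/
theorem le_abs_sub (x : ℝ) (n : ℤ) : ncirc x ≤ |x - n| := round_le x n

/-- If the distance to some integer is at most `1 / 2`, it is `ncirc x`. -/
theorem eq_of_le_half {x : ℝ} {n : ℤ} (h : |x - n| ≤ 1 / 2) : ncirc x = |x - n| := by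
  apply le_antisymm (le_abs_sub x n)
  by_contra hcon
  rw [not_le] at hcon
  have h1 : |x - round x| < 1 / 2 := lt_of_lt_of_le hcon h
  have h2 : |((n : ℝ) - (round x : ℤ))| < 1 := by
    have e : ((n : ℝ) - (round x : ℤ)) = (x - round x) - (x - n) := by ring
    rw [e]
    calc |(x - round x) - (x - n)| ≤ |x - round x| + |x - n| := abs_sub _ _
      _ < 1 / 2 + 1 / 2 := add_lt_add_of_lt_of_le h1 h
      _ = 1 := by norm_num
  have h3 : n = round x := by
    have h4 : |((n - round x : ℤ) : ℝ)| < 1 := by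
      push_cast
      exact h2
    have h5 : |n - round x| < 1 := by
      exact_mod_cast h4
    have h6 : n - round x = 0 := Int.abs_lt_one_iff.1 h5
    omega
  rw [h3] at hcon
  exact lt_irrefl _ hcon

end NCAux

theorem ncirc_of_mem {x : ℝ} (h0 : 0 ≤ x) (h1 : x ≤ 1 / 2) : ncirc x = x := by
  have h : |x - ((0 : ℤ) : ℝ)| ≤ 1 / 2 := by
    rw [Int.cast_zero, sub_zero, abs_of_nonneg h0]
    exact h1
  rw [NCAux.eq_of_le_half h, Int.cast_zero, sub_zero, abs_of_nonneg h0]

theorem ncirc_add_int (x : ℝ) (n : ℤ) : ncirc (x + n) = ncirc x := by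
  unfold ncirc
  rw [round_add_intCast]
  push_cast
  congr 1
  ring

theorem ncirc_neg (x : ℝ) : ncirc (-x) = ncirc x := by
  have h : |(-x) - ((-round x : ℤ) : ℝ)| = |x - round x| := by
    push_cast
    rw [← abs_neg]
    congr 1
    ring
  have h2 : |(-x) - ((-round x : ℤ) : ℝ)| ≤ 1 / 2 := by
    rw [h]
    exact abs_sub_round x
  rw [NCAux.eq_of_le_half h2, h]
  rfl

theorem ncirc_nat_mul_le (k : ℕ) (x : ℝ) : ncirc (k * x) ≤ k * ncirc x := by
  have h := NCAux.le_abs_sub (k * x) (k * round x)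
  refine h.trans (le_of_eq ?_)
  push_cast
  rw [← mul_sub, abs_mul, Nat.abs_cast]
  rfl

namespace NCAux

/-- `ncirc (x + y)` for `x, y` in `[0, 1 / 2]`. -/
theorem add_of_mem {x y : ℝ} (hx : 0 ≤ x) (hx' : x ≤ 1 / 2) (hy : 0 ≤ y) (hy' : y ≤ 1 / 2) :
    ncirc (x + y) = min (x + y) (1 - x - y) := by
  rcases le_total (x + y) (1 / 2) with h | h
  · rw [ncirc_of_mem (by linarith) h, min_eq_left (by linarith)]
  · have e : |(x + y) - ((1 : ℤ) : ℝ)| = 1 - x - y := by
      rw [Int.cast_one, abs_of_nonpos (by linarith)]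
      ring
    have h2 : |(x + y) - ((1 : ℤ) : ℝ)| ≤ 1 / 2 := by
      rw [e]
      linarith
    rw [eq_of_le_half h2, e, min_eq_right (by linarith)]

/-- `ncirc (x - y)` for `x, y` in `[0, 1 / 2]`. -/
theorem sub_of_mem {x y : ℝ} (hx : 0 ≤ x) (hx' : x ≤ 1 / 2) (hy : 0 ≤ y) (hy' : y ≤ 1 / 2) :
    ncirc (x - y) = |x - y| := by
  have e : |(x - y) - ((0 : ℤ) : ℝ)| = |x - y| := by
    rw [Int.cast_zero, sub_zero]
  have h2 : |(x - y) - ((0 : ℤ) : ℝ)| ≤ 1 / 2 := by
    rw [e, abs_le]
    constructor <;> linarith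
  rw [eq_of_le_half h2, e]

/-- every real is an integer plus or minus its `ncirc` -/
theorem exists_rep (x : ℝ) : ∃ n : ℤ, x = n + ncirc x ∨ x = n - ncirc x := by
  refine ⟨round x, ?_⟩
  unfold ncirc
  rcases le_total 0 (x - round x) with h | h
  · left
    rw [abs_of_nonneg h]
    ring
  · right
    rw [abs_of_nonpos h]
    ring

/-- `ncirc` is invariant under integer translation on the left -/
theorem int_add (n : ℤ) (x : ℝ) : ncirc ((n : ℝ) + x) = ncirc x := by
  rw [add_comm]
  exact ncirc_add_int x n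

end NCAux

theorem ncirc_pair (a b : ℝ) :
    (ncirc (a + b) = |ncirc a - ncirc b| ∧
      ncirc (a - b) = min (ncirc a + ncirc b) (1 - ncirc a - ncirc b)) ∨
    (ncirc (a - b) = |ncirc a - ncirc b| ∧
      ncirc (a + b) = min (ncirc a + ncirc b) (1 - ncirc a - ncirc b)) := by
  obtain ⟨n, hn⟩ := NCAux.exists_rep a
  obtain ⟨m, hm⟩ := NCAux.exists_rep b
  have ha0 := ncirc_nonneg a
  have ha1 := ncirc_le_half a
  have hb0 := ncirc_nonneg b
  have hb1 := ncirc_le_half b
  set α := ncirc a with hα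
  set β := ncirc b with hβ
  have hadd := NCAux.add_of_mem ha0 ha1 hb0 hb1
  have hsub := NCAux.sub_of_mem ha0 ha1 hb0 hb1
  have hadd' : ncirc (-(α + β)) = min (α + β) (1 - α - β) := by rw [ncirc_neg, hadd]
  have hsub' : ncirc (-(α - β)) = |α - β| := by rw [ncirc_neg, hsub]
  rcases hn with hn | hn <;> rcases hm with hm | hm
  · right
    constructor
    · have e : a - b = ((n - m : ℤ) : ℝ) + (α - β) := by push_cast; linarith
      rw [e, NCAux.int_add, hsub]
    · have e : a + b = ((n + m : ℤ) : ℝ) + (α + β) := by push_cast; linarith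
      rw [e, NCAux.int_add, hadd]
  · left
    constructor
    · have e : a + b = ((n + m : ℤ) : ℝ) + (α - β) := by push_cast; linarith
      rw [e, NCAux.int_add, hsub]
    · have e : a - b = ((n - m : ℤ) : ℝ) + (α + β) := by push_cast; linarith
      rw [e, NCAux.int_add, hadd]
  · left
    constructor
    · have e : a + b = ((n + m : ℤ) : ℝ) + -(α - β) := by push_cast; linarith
      rw [e, NCAux.int_add, hsub']
    · have e : a - b = ((n - m : ℤ) : ℝ) + -(α + β) := by push_cast; linarith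
      rw [e, NCAux.int_add, hadd']
  · right
    constructor
    · have e : a - b = ((n - m : ℤ) : ℝ) + -(α - β) := by push_cast; linarith
      rw [e, NCAux.int_add, hsub']
    · have e : a + b = ((n + m : ℤ) : ℝ) + -(α + β) := by push_cast; linarith
      rw [e, NCAux.int_add, hadd']

end LangForms
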