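import Pool.Agent.Lib_MP_f5471b_j.Final

/-!
# MP_f5471b_nt: `JCond` for `j`-invariants with few poles
-/

namespace LangForms

open Height NumberField WeierstrassCurve Topology Filter

theorem jcond_of_poles {F : Type} [Field F] [NumberField F] (j : F) (s : ℕ)
    (T : Finset (FinitePlace F)) (hT : T.card ≤ s) (h : ∀ v ∉ T, v j ≤ 1) : JCond j s 1 := by
  refine ⟨T, hT, ?_⟩
  have h1 : ∑ᶠ v : FinitePlace F, Real.posLog (v j) = ∑ v ∈ T, Real.posLog (v j) := by
    refine finsum_eq_sum_of_support_subset _ fun v hv => ?_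
    by_contra hvT
    apply hv
    have h2 := h v (by simpa using hvT)
    rw [Real.posLog_eq_zero_iff, abs_of_nonneg (apply_nonneg v j)]
    exact h2
  have hb : 0 ≤ ∑ᶠ v : {v : FinitePlace F // 1 < v j}, Real.log (plNorm v.1) :=
    finsum_nonneg fun v => (log_plNorm_pos v.1).le
  rw [NumberField.logHeight₁_eq, h1]
  linarith

end LangForms
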