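import Pool.Agent.Lib_MP_f5471b_j.Defs
import Pool.Agent.Lib_MP_f5471b_nt.Can
import Pool.Agent.Lib_MP_f5471b_nt.Approx

/-!
# MP_f5471b_nt: the canonical height via the coordinate `xiW`
-/

namespace LangForms

open Height NumberField WeierstrassCurve Topology Filter

namespace XiHeight

/-- The change of coordinates as a matrix. -/
def mat {F : Type} [Field F] (W : WeierstrassCurve F) : Fin 2 × Fin 2 → F :=
  fun p => (![![-12 * W.c₄, -(W.c₄ * W.b₂) - W.c₆], ![0, 12 * W.c₆]] : Fin 2 → Fin 2 → F) p.1 p.2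

/-- The inverse matrix. -/
def mat' {F : Type} [Field F] (W : WeierstrassCurve F) : Fin 2 × Fin 2 → F :=
  fun p => (![![-(12 * W.c₄)⁻¹, -((W.c₄ * W.b₂ + W.c₆) * (144 * W.c₄ * W.c₆)⁻¹)],
    ![0, (12 * W.c₆)⁻¹]] : Fin 2 → Fin 2 → F) p.1 p.2

theorem xiW_eq {F : Type} [Field F] (W : WeierstrassCurve F) (w : Fin 2 → F) :
    xiW W w = fun j => ∑ i, mat W (j, i) * w i := by
  ext j
  rw [Fin.sum_univ_two]
  fin_cases j
  · simp [xiW, mat]
    ring
  · simp [xiW, mat]

theorem eq_xiW {F : Type} [Field F] [CharZero F] (W : WeierstrassCurve F) (h4 : W.c₄ ≠ 0)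
    (h6 : W.c₆ ≠ 0) (w : Fin 2 → F) : w = fun j => ∑ i, mat' W (j, i) * xiW W w i := by
  have h12 : (12 : F) ≠ 0 := by norm_num
  have h144 : (144 : F) ≠ 0 := by norm_num
  ext j
  rw [Fin.sum_univ_two]
  fin_cases j
  · simp only [xiW, mat', Fin.zero_eta, Matrix.cons_val_zero, Matrix.cons_val_one]
    field_simp
    ring
  · simp only [xiW, mat', Fin.mk_one, Matrix.cons_val_zero, Matrix.cons_val_one]
    field_simp
    ring

theorem bound {F : Type} [Field F] [NumberField F] (W : WeierstrassCurve F) (h4 : W.c₄ ≠ 0)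
    (h6 : W.c₆ ≠ 0) : ∃ C : ℝ, ∀ w : Fin 2 → F, |logHeight (xiW W w) - logHeight w| ≤ C := by
  refine ⟨totalWeight F * Real.log 2 +
    max (logHeight (mat W)) (logHeight (mat' W)), fun w => ?_⟩
  have h1 := logHeight_linearMap_apply_le (mat W) w
  have h2 := logHeight_linearMap_apply_le (mat' W) (xiW W w)
  rw [← xiW_eq] at h1
  rw [← eq_xiW W h4 h6] at h2
  rw [Nat.card_fin] at h1 h2
  have h3 := le_max_left (logHeight (mat W)) (logHeight (mat' W))
  have h5 := le_max_right (logHeight (mat W)) (logHeight (mat' W))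
  push_cast at h1 h2
  rw [abs_le]
  constructor <;> linarith

end XiHeight

theorem tendsto_xi {F : Type} [Field F] [NumberField F] [DecidableEq F] (W : WeierstrassCurve F)
    [W.IsElliptic] (h4 : W.c₄ ≠ 0) (h6 : W.c₆ ≠ 0) (Q : W.toAffine.Point) :
    Tendsto (fun n : ℕ => logHeight (xiW W ((2 ^ n) • Q).xRep) / 4 ^ n) atTop
      (𝓝 (canX hx Q)) := by
  obtain ⟨C, _, hpar⟩ := approx_par
  obtain ⟨C', hC'⟩ := XiHeight.bound W h4 h6
  have h1 := canX_tendsto (hx (W := W)) _ (fun P Q => hpar F W P Q) Q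
  have h2 : Tendsto (fun n : ℕ => C' * (1 / 4 : ℝ) ^ n) atTop (𝓝 0) := by
    simpa using (tendsto_pow_atTop_nhds_zero_of_lt_one (by norm_num : (0 : ℝ) ≤ 1 / 4)
      (by norm_num)).const_mul C'
  have h3 : Tendsto (fun n : ℕ => logHeight (xiW W ((2 ^ n) • Q).xRep) / 4 ^ n -
      hx ((2 ^ n) • Q) / 4 ^ n) atTop (𝓝 0) := by
    refine squeeze_zero_norm (fun n => ?_) h2
    have h5 : (0 : ℝ) < 4 ^ n := by positivity
    rw [← sub_div, Real.norm_eq_abs, abs_div, abs_of_pos h5, div_eq_mul_inv, one_div, inv_pow]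
    exact mul_le_mul_of_nonneg_right (hC' _) (inv_pos.2 h5).le
  have h6' := h3.add h1
  simpa using h6'

end LangForms
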